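import Pool.Agent.Strip051.LC.E0.O3.GeoA

/-! # Small rests: small excess between two directions -/

namespace Pool.Agent.Strip051.LC.E0.Out

open Pool.Agent.StripNear Pool.Agent.StripSquare Pool.Agent.Strip051 Pool.Agent.Strip051.Sweep
open Pool.Agent.Strip051.LC.Line (tau)

/-- The crossing of the directions where the kernel vanishes. -/
def Crs (s r c C x C' x' E : ℝ) : Prop :=
  ∃ p p' : ℝ, 0 ≤ p ∧ 0 ≤ p' ∧ (C - h0) ^ 2 + (x - 1 / 2) ^ 2 ≤ p ^ 2 ∧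
    (C' - h0) ^ 2 + (x' + 1 / 2) ^ 2 ≤ p' ^ 2 ∧ p + p' ≤ r * s ∧ c * (p + p') ≤ E

/-! ### Chords -/

private theorem chord {D M : ℝ} (h : D ^ 2 + M ^ 2 = 1) (hD : 1 / 2 ≤ D) :
    ∃ q : ℝ, 0 ≤ q ∧ q ≤ 1 ∧ q ^ 2 = 2 - 2 * D ∧ M ^ 2 = q ^ 2 * (1 - q ^ 2 / 4) := by
  have d1 : D ≤ 1 := by nlinarith
  refine ⟨√(2 - 2 * D), Real.sqrt_nonneg _, ?_, Real.sq_sqrt (by linarith), ?_⟩
  · rw [Real.sqrt_le_one]
    linarith
  · rw [Real.sq_sqrt (by linarith)]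
    linear_combination h

private theorem chord_le {q M a : ℝ} (hM : 0 ≤ M)
    (h : M ^ 2 = q ^ 2 * (1 - q ^ 2 / 4)) (ha : a ^ 2 * q ^ 2 + 1 / 4 ≤ 2 * a) :
    q * (1 - a * q ^ 2) ≤ M := by
  refine le_of_sq2 hM ?_
  rw [h, mul_pow]
  refine mul_le_mul_of_nonneg_left ?_ (sq_nonneg q)
  nlinarith [sq_nonneg q]

private theorem boot {q a b c B t : ℝ} (hq : 0 ≤ q) (hb : 0 ≤ b) (hc : 0 ≤ c) (hB : q ≤ B)
    (h : q * (a - b * q ^ 2 - c * q) ≤ t) : q * (a - b * B ^ 2 - c * B) ≤ t := by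
  refine le_trans (mul_le_mul_of_nonneg_left ?_ hq) h
  have e1 : q ^ 2 ≤ B ^ 2 := pow_le_pow_left₀ hq hB 2
  have e2 := mul_le_mul_of_nonneg_left e1 hb
  have e3 := mul_le_mul_of_nonneg_left hB hc
  linarith

private theorem core_S {s D M E : ℝ} (hs : 0 < s) (hs1 : s ≤ 11 / 400) (h : D ^ 2 + M ^ 2 = 1)
    (hD : 1 / 2 ≤ D) (hM : 0 ≤ M) (hM1 : M ≤ 1 / 2)
    (hE : E = (h0 * D + 1 / 2 * M) / (2 * h0) - 1 / 2) (hT : E < (174 / 100 + 3 * s) * s) :
    ∃ q : ℝ, 0 ≤ q ∧ q ^ 2 = 2 - 2 * D ∧ q ≤ 784 / 100 * s ∧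
      q * (28867 / 100000 - 258 / 1000 * q) ≤ E := by
  have hh := h0_pos
  have hq := h0_sq'
  obtain ⟨b1, b2⟩ := h0_bd
  obtain ⟨q, q0, q1, q2, q3⟩ := chord h hD
  have dh : h0 ≤ D := by
    refine le_of_sq2 (by linarith) ?_
    nlinarith
  have q4 : q ≤ 5177 / 10000 := by
    refine le_of_sq2 (by norm_num) ?_
    rw [q2]
    linarith
  have e1 : q * (1 - 1275 / 10000 * q ^ 2) ≤ M := by
    refine chord_le hM q3 ?_
    rw [q2]
    linarith
  have eE : E = h0 / 3 * M - q ^ 2 / 4 := by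
    rw [hE, q2]
    field_simp
    nlinarith
  have e0 : 0 ≤ q * (1 - 1275 / 10000 * q ^ 2) := mul_nonneg q0 (by nlinarith)
  have e2 : q * (28867 / 100000 - 3681 / 100000 * q ^ 2 - 1 / 4 * q) ≤ E := by
    have e3 : 28867 / 100000 * (q * (1 - 1275 / 10000 * q ^ 2)) ≤ h0 / 3 * M :=
      mul_le_mul (by linarith) e1 e0 (by linarith)
    rw [eE]
    nlinarith [mul_nonneg q0 (sq_nonneg q)]
  have eT : E ≤ 18225 / 10000 * s := by
    refine hT.le.trans (mul_le_mul_of_nonneg_right ?_ hs.le)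
    linarith
  have f1 := boot q0 (by norm_num) (by norm_num) q4 (e2.trans eT)
  have g1 : q ≤ 3356 / 10000 := by nlinarith
  have f2 := boot q0 (by norm_num) (by norm_num) g1 (e2.trans eT)
  have g2 : q ≤ 2500 / 10000 := by nlinarith
  have f3 := boot q0 (by norm_num) (by norm_num) g2 (e2.trans eT)
  have g3 : q ≤ 2240 / 10000 := by nlinarith
  have f4 := boot q0 (by norm_num) (by norm_num) g3 (e2.trans eT)
  have g4 : q ≤ 2172 / 10000 := by nlinarith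
  have f5 := boot q0 (by norm_num) (by norm_num) g4 (e2.trans eT)
  refine ⟨q, q0, q2, by nlinarith, le_trans ?_ e2⟩
  refine mul_le_mul_of_nonneg_left ?_ q0
  nlinarith

private theorem core_3 {s D M E : ℝ} (hs : 0 < s) (hs1 : s ≤ 11 / 400) (h : D ^ 2 + M ^ 2 = 1)
    (hD : 1 / 2 ≤ D) (hM : 0 ≤ M) (hE : E = D / 2 + h0 * M - 1 / 2)
    (hT : E < (174 / 100 + 3 * s) * s) :
    ∃ q : ℝ, 0 ≤ q ∧ q ^ 2 = 2 - 2 * D ∧ q ≤ 218 / 100 * s ∧ 85 / 100 * q ≤ E := by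
  obtain ⟨b1, b2⟩ := h0_bd
  obtain ⟨q, q0, q1, q2, q3⟩ := chord h hD
  have e1 : q * (1 - 135 / 1000 * q ^ 2) ≤ M := by
    refine chord_le hM q3 ?_
    rw [q2]
    linarith
  have eE : E = h0 * M - q ^ 2 / 4 := by
    rw [hE, q2]
    ring
  have e0 : 0 ≤ q * (1 - 135 / 1000 * q ^ 2) := mul_nonneg q0 (by nlinarith)
  have e2 : q * (86602 / 100000 - 11692 / 100000 * q ^ 2 - 1 / 4 * q) ≤ E := by
    have e3 : 86602 / 100000 * (q * (1 - 135 / 1000 * q ^ 2)) ≤ h0 * M :=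
      mul_le_mul b1.le e1 e0 (by linarith)
    rw [eE]
    nlinarith [mul_nonneg q0 (sq_nonneg q)]
  have eT : E ≤ 18225 / 10000 * s := by
    refine hT.le.trans (mul_le_mul_of_nonneg_right ?_ hs.le)
    linarith
  have f1 := boot q0 (by norm_num) (by norm_num) q1 (e2.trans eT)
  have g1 : q ≤ 1005 / 10000 := by nlinarith
  have f2 := boot q0 (by norm_num) (by norm_num) g1 (e2.trans eT)
  have g2 : q ≤ 600 / 10000 := by nlinarith
  have f3 := boot q0 (by norm_num) (by norm_num) g2 (e2.trans eT)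
  refine ⟨q, q0, q2, by nlinarith, le_trans ?_ e2⟩
  have e4 : q * (85 / 100) ≤ q * (86602 / 100000 - 11692 / 100000 * q ^ 2 - 1 / 4 * q) := by
    refine mul_le_mul_of_nonneg_left ?_ q0
    nlinarith
  linarith

/-! ### The crossing -/

private theorem cross {C x C' x' q : ℝ} (h : Rot C x) (h' : Rot C' x') (hq : 0 ≤ q)
    (hD : q ^ 2 = 2 - 2 * ((C * C' + x * x') / 2 + h0 * (x * C' - C * x'))) :
    ∃ p p' : ℝ, 0 ≤ p ∧ 0 ≤ p' ∧ (C - h0) ^ 2 + (x - 1 / 2) ^ 2 ≤ p ^ 2 ∧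
      (C' - h0) ^ 2 + (x' + 1 / 2) ^ 2 ≤ p' ^ 2 ∧ p ≤ q ∧ p' ≤ q ∧
      (p + p') ^ 2 * (1 - p * p' / 2) ≤ q ^ 2 := by
  have hh := h0_pos
  have hq' := h0_sq'
  have a := h.Ch
  have a' := h'.Ch
  have l := h.lo
  have u := h.hi
  have l' := h'.lo
  have u' := h'.hi
  obtain ⟨p, hp⟩ : ∃ p : ℝ, p = √((C - h0) ^ 2 + (x - 1 / 2) ^ 2) := ⟨_, rfl⟩
  obtain ⟨r, hr⟩ : ∃ r : ℝ, r = √((C' - h0) ^ 2 + (x' + 1 / 2) ^ 2) := ⟨_, rfl⟩
  have p0 : 0 ≤ p := by rw [hp]; exact Real.sqrt_nonneg _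
  have r0 : 0 ≤ r := by rw [hr]; exact Real.sqrt_nonneg _
  have p2 : p ^ 2 = (C - h0) ^ 2 + (x - 1 / 2) ^ 2 := by
    rw [hp]; exact Real.sq_sqrt (by positivity)
  have r2 : r ^ 2 = (C' - h0) ^ 2 + (x' + 1 / 2) ^ 2 := by
    rw [hr]; exact Real.sq_sqrt (by positivity)
  obtain ⟨ca, hca⟩ : ∃ c : ℝ, c = C * h0 + x / 2 := ⟨_, rfl⟩
  obtain ⟨sa, hsa⟩ : ∃ c : ℝ, c = C / 2 - h0 * x := ⟨_, rfl⟩
  obtain ⟨cb, hcb⟩ : ∃ c : ℝ, c = C' * h0 - x' / 2 := ⟨_, rfl⟩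
  obtain ⟨sb, hsb⟩ : ∃ c : ℝ, c = h0 * x' + C' / 2 := ⟨_, rfl⟩
  have ea : ca = 1 - p ^ 2 / 2 := by
    rw [hca, p2]
    linear_combination (1 / 2) * h.sq + 1 / 2 * hq'
  have eb : cb = 1 - r ^ 2 / 2 := by
    rw [hcb, r2]
    linear_combination (1 / 2) * h'.sq + 1 / 2 * hq'
  have sa0 : 0 ≤ sa := by rw [hsa]; nlinarith
  have sb0 : 0 ≤ sb := by rw [hsb]; nlinarith
  have ca0 : 1 / 2 ≤ ca := by rw [hca]; nlinarith
  have cb0 : 1 / 2 ≤ cb := by rw [hcb]; nlinarith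
  have ja : ca ^ 2 + sa ^ 2 = 1 := by
    rw [hca, hsa]
    linear_combination (C ^ 2 + x ^ 2) * hq' + h.sq
  have jb : cb ^ 2 + sb ^ 2 = 1 := by
    rw [hcb, hsb]
    linear_combination (C' ^ 2 + x' ^ 2) * hq' + h'.sq
  have eD : (C * C' + x * x') / 2 + h0 * (x * C' - C * x') = ca * cb - sa * sb := by
    rw [hca, hcb, hsa, hsb]
    linear_combination (-C * C' - x * x') * hq'
  rw [eD] at hD
  have ss : 0 ≤ sa * sb := mul_nonneg sa0 sb0
  have pq : p ≤ q := by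
    refine le_of_sq2 hq ?_
    have : ca * cb ≤ ca := by nlinarith [sq_nonneg r]
    nlinarith
  have rq : r ≤ q := by
    refine le_of_sq2 hq ?_
    have : ca * cb ≤ cb := by nlinarith [sq_nonneg p]
    nlinarith
  have p1 : p ^ 2 ≤ 1 := by nlinarith
  have r1 : r ^ 2 ≤ 1 := by nlinarith
  have ia : p * (1 - 1 / 4 * p ^ 2) ≤ sa := by
    refine chord_le sa0 ?_ (by linarith)
    rw [ea] at ja
    linear_combination ja
  have ib : r * (1 - 1 / 4 * r ^ 2) ≤ sb := by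
    refine chord_le sb0 ?_ (by linarith)
    rw [eb] at jb
    linear_combination jb
  have iab : p * (1 - 1 / 4 * p ^ 2) * (r * (1 - 1 / 4 * r ^ 2)) ≤ sa * sb :=
    mul_le_mul ia ib (mul_nonneg r0 (by linarith)) sa0
  refine ⟨p, r, p0, r0, p2.ge, r2.ge, pq, rq, ?_⟩
  rw [hD, ea, eb]
  have pr : 0 ≤ p * r := mul_nonneg p0 r0
  have t1 : 0 ≤ (p * r) ^ 3 := pow_nonneg pr 3
  have t2 : 0 ≤ (p * r) ^ 2 := sq_nonneg _
  nlinarith

private theorem rot_sq {D M : ℝ} (h : D ^ 2 + M ^ 2 = 1) :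
    (D / 2 + h0 * M) ^ 2 + (h0 * D - M / 2) ^ 2 = 1 := by
  linear_combination (D ^ 2 + M ^ 2) * h0_sq' + h

private theorem rot_M {D M : ℝ} (h : D ^ 2 + M ^ 2 = 1) (hD : 1 / 2 ≤ D) :
    0 ≤ h0 * D - M / 2 := by
  have hh := h0_pos
  have hq := h0_sq'
  have : M / 2 ≤ h0 * D := by
    refine le_of_sq2 (mul_nonneg hh.le (by linarith)) ?_
    rw [mul_pow, hq]
    nlinarith
  linarith

private theorem rot_D {D M : ℝ} (h : D ^ 2 + M ^ 2 = 1) (hD : 1 / 2 ≤ D) (hM : 0 ≤ M) :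
    1 / 2 ≤ D / 2 + h0 * M := by
  obtain ⟨b1, b2⟩ := h0_bd
  have d1 : D ≤ 1 := by nlinarith
  have m1 : M ≤ 1 := by nlinarith
  have e : 1 ≤ D + M := by nlinarith
  nlinarith

private theorem geo_M {C x C' x' : ℝ} (h : Rot C x) (h' : Rot C' x') (ho : x' ≤ x) :
    0 ≤ x * C' - C * x' := by
  have hh := h0_pos
  have a := h.Ch
  have a' := h'.Ch
  have s := geo_sgn h h'
  have d := geo_half h h'
  have e1 : 0 ≤ (x - x') * (1 + (C * C' + x * x')) := mul_nonneg (by linarith) (by linarith)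
  rw [← s] at e1
  exact nonneg_of_mul_nonneg_left e1 (by linarith)

section

variable {s C x C' x' E : ℝ}

/-- Unit sides: the excess is small only next to the lattice triangles. -/
theorem geo_S (hs : 0 < s) (hs1 : s ≤ 11 / 400) (h : Rot C x) (h' : Rot C' x') (ho : x' ≤ x)
    (hE : E = (h0 * (C * C' + x * x') + 1 / 2 * (x * C' - C * x')) / (2 * h0) - 1 / 2)
    (hT : E < (174 / 100 + 3 * s) * s) :
    ((C - C') ^ 2 + (x - x') ^ 2 ≤ (79 / 10 * s) ^ 2 ∧ E1 (x - x') ≤ E) ∨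
      Crs s (79 / 10) (22 / 100) C x C' x' E := by
  have hq' := h0_sq'
  have hM := geo_M h h' ho
  have hD := geo_half h h'
  have hS := geo_sq h h'
  rcases le_total (x * C' - C * x') (1 / 2) with hM1 | hM1
  · left
    obtain ⟨q, q0, q2, q3, q4⟩ := core_S hs hs1 hS hD hM hM1 hE hT
    have e : (C - C') ^ 2 + (x - x') ^ 2 = q ^ 2 := by
      rw [q2]
      linear_combination h.sq + h'.sq
    constructor
    · rw [e]
      exact pow_le_pow_left₀ q0 (by linarith) 2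
    · have a1 : x - x' ≤ q := by
        refine le_of_sq2 q0 ?_
        nlinarith [sq_nonneg (C - C')]
      unfold E1
      refine le_trans ?_ q4
      nlinarith
  · right
    obtain ⟨b1, b2⟩ := h0_bd
    have hM' := rot_M hS hD
    have hD' := rot_D hS hD hM
    have hS' := rot_sq hS
    have hM1' : h0 * (C * C' + x * x') - (x * C' - C * x') / 2 ≤ 1 / 2 := by
      have dh : C * C' + x * x' ≤ h0 := by
        refine le_of_sq2 (by linarith) ?_
        nlinarith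
      nlinarith
    have hE' : E = (h0 * ((C * C' + x * x') / 2 + h0 * (x * C' - C * x')) +
        1 / 2 * (h0 * (C * C' + x * x') - (x * C' - C * x') / 2)) / (2 * h0) - 1 / 2 := by
      rw [hE]
      congr 2
      linear_combination (-(x * C' - C * x')) * hq'
    obtain ⟨q, q0, q2, q3, q4⟩ := core_S hs hs1 hS' hD' hM' hM1' hE' hT
    obtain ⟨p, r, p0, r0, p2, r2, pq, rq, k⟩ := cross h h' q0 q2
    have pr : 0 ≤ p * r := mul_nonneg p0 r0
    have k1 : p * r ≤ q * q := mul_le_mul pq rq r0 q0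
    have k2 : q * q ≤ 48 / 1000 := by nlinarith
    have k3 : (p + r) ^ 2 * (976 / 1000) ≤ q ^ 2 :=
      le_trans (mul_le_mul_of_nonneg_left (by linarith) (sq_nonneg _)) k
    have k4 : p * r ≤ (p + r) ^ 2 / 4 := by nlinarith [sq_nonneg (p - r)]
    have k5 : p * r ≤ 13 / 1000 := by nlinarith
    have k6 : (p + r) ^ 2 * (9935 / 10000) ≤ q ^ 2 :=
      le_trans (mul_le_mul_of_nonneg_left (by linarith) (sq_nonneg _)) k
    have k7 : p + r ≤ 1004 / 1000 * q := by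
      refine le_of_sq2 (by linarith) ?_
      nlinarith [sq_nonneg (p + r)]
    refine ⟨p, r, p0, r0, p2, r2, by linarith, le_trans ?_ q4⟩
    have k8 : q * (221 / 1000) ≤ q * (28867 / 100000 - 258 / 1000 * q) :=
      mul_le_mul_of_nonneg_left (by linarith) q0
    linarith

/-- A unit side and a side of length `√3`. -/
theorem geo_3 (hs : 0 < s) (hs1 : s ≤ 11 / 400) (h : Rot C x) (h' : Rot C' x') (ho : x' ≤ x)
    (hE : E = (h0 * (C * C' + x * x') + 3 / 2 * (x * C' - C * x')) / (2 * h0) - 1 / 2)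
    (hT : E < (174 / 100 + 3 * s) * s) :
    (C - C') ^ 2 + (x - x') ^ 2 ≤ (22 / 10 * s) ^ 2 ∧ 84 / 100 * (x - x') ≤ E := by
  have hh := h0_pos
  have hq' := h0_sq'
  have hM := geo_M h h' ho
  have hD := geo_half h h'
  have hS := geo_sq h h'
  have hE' : E = (C * C' + x * x') / 2 + h0 * (x * C' - C * x') - 1 / 2 := by
    rw [hE]
    congr 1
    rw [div_eq_iff (by positivity)]
    linear_combination (-2 * (x * C' - C * x')) * hq'
  obtain ⟨q, q0, q2, q3, q4⟩ := core_3 hs hs1 hS hD hM hE' hT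
  have e : (C - C') ^ 2 + (x - x') ^ 2 = q ^ 2 := by
    rw [q2]
    linear_combination h.sq + h'.sq
  have a1 : x - x' ≤ q := by
    refine le_of_sq2 q0 ?_
    nlinarith [sq_nonneg (C - C')]
  constructor
  · rw [e]
    exact pow_le_pow_left₀ q0 (by linarith) 2
  · linarith

/-- A unit side and a side of length `√3`, crossing. -/
theorem geo_3c (hs : 0 < s) (hs1 : s ≤ 11 / 400) (h : Rot C x) (h' : Rot C' x') (ho : x' ≤ x)
    (hE : E = C * C' + x * x' - 1 / 2) (hT : E < (174 / 100 + 3 * s) * s) :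
    Crs s (22 / 10) (84 / 100) C x C' x' E := by
  have hq' := h0_sq'
  have hM := geo_M h h' ho
  have hD := geo_half h h'
  have hS := geo_sq h h'
  have hM' := rot_M hS hD
  have hD' := rot_D hS hD hM
  have hS' := rot_sq hS
  have hE' : E = ((C * C' + x * x') / 2 + h0 * (x * C' - C * x')) / 2 +
      h0 * (h0 * (C * C' + x * x') - (x * C' - C * x') / 2) - 1 / 2 := by
    rw [hE]
    linear_combination (-(C * C' + x * x')) * hq'
  obtain ⟨q, q0, q2, q3, q4⟩ := core_3 hs hs1 hS' hD' hM' hE' hT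
  obtain ⟨p, r, p0, r0, p2, r2, pq, rq, k⟩ := cross h h' q0 q2
  have pr : 0 ≤ p * r := mul_nonneg p0 r0
  have k1 : p * r ≤ q * q := mul_le_mul pq rq r0 q0
  have k2 : q * q ≤ 4 / 1000 := by nlinarith
  have k3 : (p + r) ^ 2 * (998 / 1000) ≤ q ^ 2 :=
    le_trans (mul_le_mul_of_nonneg_left (by linarith) (sq_nonneg _)) k
  have k7 : p + r ≤ 1002 / 1000 * q := by
    refine le_of_sq2 (by linarith) ?_
    nlinarith [sq_nonneg (p + r)]
  exact ⟨p, r, p0, r0, p2, r2, by linarith, by linarith⟩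

end

end Pool.Agent.Strip051.LC.E0.Out
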