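import Pool.Agent.Strip051.LC.E0.OutM

/-! # Small rests: the levels at the circle nodes are Lipschitz next to the reference -/

namespace Pool.Agent.Strip051.LC.E0.Out

open Pool.Agent.StripNear Pool.Agent.StripSquare Pool.Agent.Strip051 Pool.Agent.Strip051.Sweep
open Pool.Agent.Strip051.LC.Line (tau)

/-! ### The unit tables -/

theorem xB_u1 {z : ℝ} (h1 : z ≤ 1) : xB par z = z * (181 / 375 + 209 / 750 * z) := by
  unfold xB
  rw [if_pos h1]
  rfl

theorem xB_u2 {z : ℝ} (h1 : 1 ≤ z) (h2 : z ≤ 5 / 2) :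
    xB par z = 571 / 1125 * (5 / 2 - z) := by
  rcases h1.eq_or_lt with h | h
  · rw [← h, xB_u1 le_rfl]
    norm_num
  · unfold xB
    rw [if_neg (by linarith), if_pos h2]
    unfold pl par
    simp only
    ring

theorem xB_u3 {z : ℝ} (h : 5 / 2 ≤ z) : xB par z = 0 := by
  rcases h.eq_or_lt with h1 | h1
  · rw [← h1, xB_u2 (by norm_num) le_rfl]
    norm_num
  · unfold xB
    rw [if_neg (by linarith), if_neg (by linarith)]

theorem xA_u1 {s w : ℝ} (hs : 0 < s) (hs1 : s ≤ 11 / 400) (hw : 0 ≤ w) (h : w ≤ 1) :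
    xA par s w ≤ w / 2 := by
  obtain ⟨a1, a2⟩ := x1_bd hs hs1
  obtain ⟨b1, b2⟩ := xm_bd hs hs1
  unfold xA x0
  rw [if_pos (by linarith), if_pos h]
  have e : 2 * x1 s - xm par s + (xm par s - x1 s) * w ≤ 1 / 2 := by
    have e1 : 2 * x1 s - xm par s + (xm par s - x1 s) * w =
        (2 * x1 s - xm par s) * (1 - w) + x1 s * w := by ring
    rw [e1]
    have e2 := mul_le_mul_of_nonneg_right (by linarith : 2 * x1 s - xm par s ≤ 1 / 2)
      (by linarith : 0 ≤ 1 - w)
    have e3 := mul_le_mul_of_nonneg_right a2 hw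
    linarith
  have := mul_le_mul_of_nonneg_left e hw
  linarith

theorem xA_u2 {s w : ℝ} (hs : 0 < s) (hs1 : s ≤ 11 / 400) (h1 : 1 ≤ w) (h : w ≤ 3 / 2) :
    xA par s w ≤ 4 / 5 := by
  obtain ⟨a1, a2⟩ := x1_bd hs hs1
  obtain ⟨b1, b2⟩ := xm_bd hs hs1
  rcases h1.eq_or_lt with h2 | h2
  · rw [← h2]
    have := xA_u1 hs hs1 zero_le_one le_rfl
    linarith
  · unfold xA x0
    rw [if_pos h, if_neg (by linarith)]
    nlinarith

theorem xA_u3 {s w : ℝ} (hs : 0 < s) (hs1 : s ≤ 11 / 400) (h1 : 3 / 2 ≤ w) (h : w ≤ 5 / 2) :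
    xA par s w ≤ 4 / 5 + 119 / 250 * (w - 3 / 2) := by
  obtain ⟨a1, a2⟩ := x1_bd hs hs1
  obtain ⟨b1, b2⟩ := xm_bd hs hs1
  rcases h1.eq_or_lt with h2 | h2
  · rw [← h2]
    have := xA_u2 hs hs1 (by norm_num : (1 : ℝ) ≤ 3 / 2) le_rfl
    linarith
  · unfold xA
    rw [if_neg (by linarith), if_pos h]
    have e : par.a1 = 319 / 250 := rfl
    unfold pl
    rw [e]
    have e1 : (w - 3 / 2) / (5 / 2 - 3 / 2) = w - 3 / 2 := by norm_num
    rw [e1]
    nlinarith

theorem xA_u4 {s w : ℝ} (h1 : 5 / 2 < w) (h : w ≤ 4) : xA par s w = 319 / 375 * (4 - w) := by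
  unfold xA
  rw [if_neg (by linarith), if_neg (by linarith), if_pos h]
  have e : par.a1 = 319 / 250 := rfl
  unfold pl
  rw [e]
  ring

theorem xA_u5 {s w : ℝ} (h : 4 ≤ w) : xA par s w = 0 := by
  rcases h.eq_or_lt with h1 | h1
  · rw [← h1, xA_u4 (by norm_num) le_rfl]
    norm_num
  · unfold xA
    rw [if_neg (by linarith), if_neg (by linarith), if_neg (by linarith)]

/-- The unit form of `lvl_lip`. -/
theorem u_lip {X w : ℝ} (hX : 4 ≤ X) (hw : 0 ≤ w) (ho : w ≤ X) :
    |xB par (X / 2) - xB par (w / 2)| ≤ 571 / 2250 * (X - w) ∨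
      |xB par (X / 2) - xB par (w / 2)| ≤ 26 / 100 * (X - w) ∧ w ≤ 2 := by
  rcases le_total X 5 with hX5 | hX5
  · have e1 : xB par (X / 2) = 571 / 1125 * (5 / 2 - X / 2) := xB_u2 (by linarith) (by linarith)
    rw [e1]
    rcases le_total w 2 with hw2 | hw2
    · refine Or.inr ⟨?_, hw2⟩
      rw [xB_u1 (by linarith : w / 2 ≤ 1), abs_le]
      constructor <;> nlinarith
    · refine Or.inl ?_
      rw [xB_u2 (by linarith) (by linarith), abs_le]
      constructor <;> linarith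
  · rw [xB_u3 (by linarith : 5 / 2 ≤ X / 2)]
    rcases le_total w 2 with hw2 | hw2
    · refine Or.inr ⟨?_, hw2⟩
      rw [xB_u1 (by linarith : w / 2 ≤ 1), abs_le]
      constructor <;> nlinarith
    · refine Or.inl ?_
      rcases le_total w 5 with hw5 | hw5
      · rw [xB_u2 (by linarith) (by linarith), abs_le]
        constructor <;> linarith
      · rw [xB_u3 (by linarith)]
        simp only [sub_self, abs_zero]
        linarith

theorem u_lip' {X w : ℝ} (hX : 4 ≤ X) (hw : 0 ≤ w) (ho : w ≤ X) :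
    |xB par (X / 2) - xB par (w / 2)| ≤ 26 / 100 * (X - w) := by
  rcases u_lip hX hw ho with h | h
  · linarith
  · exact h.1

/-- Bounds for the level near `60` degrees. -/
theorem u_B {w : ℝ} (hw : 0 ≤ w) : 0 ≤ xB par (w / 2) ∧ xB par (w / 2) ≤ 571 / 750 ∧
    xB par (w / 2) ≤ w / 2 := by
  have n := xB_nonneg (by linarith : 0 ≤ w / 2)
  refine ⟨n, ?_⟩
  rcases le_total w 2 with hw2 | hw2
  · rw [xB_u1 (by linarith : w / 2 ≤ 1)]
    constructor <;> nlinarith
  · rcases le_total w 5 with hw5 | hw5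
    · rw [xB_u2 (by linarith) (by linarith)]
      constructor <;> linarith
    · rw [xB_u3 (by linarith)]
      constructor <;> linarith

theorem u_BX {X : ℝ} (hX : 4 ≤ X) : 0 ≤ xB par (X / 2) ∧ xB par (X / 2) ≤ 571 / 2250 := by
  refine ⟨xB_nonneg (by linarith), ?_⟩
  rcases le_total X 5 with hX5 | hX5
  · rw [xB_u2 (by linarith) (by linarith)]
    linarith
  · rw [xB_u3 (by linarith)]
    norm_num

theorem u_60m {s X w : ℝ} (hs : 0 < s) (hs1 : s ≤ 11 / 400) (hX : 4 ≤ X) (hw : 0 ≤ w) :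
    |xA par s w - xB par (w / 2) - xB par (X / 2)| ≤ 26 / 100 * (X + w) := by
  obtain ⟨b0, b1, b2⟩ := u_B hw
  obtain ⟨c0, c1⟩ := u_BX hX
  have a0 := xA_nonneg hs hs1 hw
  have a1 := (abs_le.1 (xA_bd hs hs1 hw)).2
  rw [abs_le]
  constructor
  · rcases le_total w 1 with h | h
    · linarith
    · linarith
  · rcases le_total w 1 with h | h
    · have := xA_u1 hs hs1 hw h
      linarith
    · linarith

theorem u_60p {s X w : ℝ} (hs : 0 < s) (hs1 : s ≤ 11 / 400) (hX : 5 ≤ X) (hw : 0 ≤ w)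
    (ho : w ≤ X) : |xA par s w - xB par (w / 2)| ≤ 26 / 100 * (X - w) := by
  obtain ⟨b0, b1, b2⟩ := u_B hw
  have a0 := xA_nonneg hs hs1 hw
  rw [abs_le]
  rcases le_total w 1 with h1 | h1
  · have := xA_u1 hs hs1 hw h1
    constructor <;> linarith
  rcases le_total w (3 / 2) with h2 | h2
  · have := xA_u2 hs hs1 h1 h2
    constructor <;> linarith
  rcases le_total w 2 with h3 | h3
  · have := xA_u3 hs hs1 h2 (by linarith)
    rw [xB_u1 (by linarith : w / 2 ≤ 1)] at *
    constructor <;> nlinarith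
  rcases le_total w (5 / 2) with h4 | h4
  · have := xA_u3 hs hs1 h2 h4
    rw [xB_u2 (by linarith) (by linarith)]
    constructor <;> linarith
  rcases h4.eq_or_lt with h5 | h5
  · have := xA_u3 hs hs1 h2 h5.ge
    rw [xB_u2 (by linarith) (by linarith)]
    constructor <;> linarith
  rcases le_total w 4 with h6 | h6
  · rw [xA_u4 h5 h6, xB_u2 (by linarith) (by linarith)]
    constructor <;> linarith
  rcases le_total w 5 with h7 | h7
  · rw [xA_u5 h6, xB_u2 (by linarith) (by linarith)]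
    constructor <;> linarith
  · rw [xA_u5 h6, xB_u3 (by linarith)]
    constructor <;> linarith

theorem u_30m {s X w : ℝ} (hs : 0 < s) (hs1 : s ≤ 11 / 400) (hX : 4 ≤ X) (ho : w ≤ X)
    (ha : X - w ≤ 22 / 10) :
    |xA par s w + xB par (w / 2) - xB par (X / 2)| ≤ 111 / 100 * (X - w) := by
  have hw : 0 ≤ w := by linarith
  obtain ⟨b0, b1, b2⟩ := u_B hw
  obtain ⟨c0, c1⟩ := u_BX hX
  have a0 := xA_nonneg hs hs1 hw
  rcases le_total w 2 with h3 | h3
  · have := xA_u3 hs hs1 (by linarith) (by linarith : w ≤ 5 / 2)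
    rw [abs_le]
    constructor <;> linarith
  have l : |xB par (X / 2) - xB par (w / 2)| ≤ 571 / 2250 * (X - w) := by
    rcases u_lip hX hw ho with h | ⟨h, h'⟩
    · exact h
    · have e : w = 2 := le_antisymm h' h3
      subst e
      rw [xB_u2 (by linarith : (1 : ℝ) ≤ 2 / 2) (by norm_num), abs_le]
      constructor
      · have : xB par (X / 2) ≥ 571 / 1125 * (5 / 2 - X / 2) := by
          rcases le_total X 5 with g | g
          · rw [xB_u2 (by linarith) (by linarith)]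
          · linarith
        linarith
      · linarith
  obtain ⟨l1, l2⟩ := abs_le.1 l
  rw [abs_le]
  rcases le_total w 4 with h6 | h6
  · rcases le_total w (5 / 2) with h4 | h4
    · have := xA_u3 hs hs1 (by linarith) h4
      constructor <;> linarith
    rcases h4.eq_or_lt with h5 | h5
    · have := xA_u3 hs hs1 (by linarith) h5.ge
      constructor <;> linarith
    · rw [xA_u4 h5 h6]
      constructor <;> linarith
  · rw [xA_u5 h6]
    constructor <;> linarith

theorem u_0 {s X w : ℝ} (hs : 0 < s) (hs1 : s ≤ 11 / 400) (hX : 4 ≤ X) (hw : 0 ≤ w)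
    (ho : w ≤ X) : |xA par s w| ≤ 86 / 100 * (X - w) := by
  have a0 := xA_nonneg hs hs1 hw
  rw [abs_of_nonneg a0]
  rcases le_total w 1 with h1 | h1
  · have := xA_u1 hs hs1 hw h1
    linarith
  rcases le_total w (3 / 2) with h2 | h2
  · have := xA_u2 hs hs1 h1 h2
    linarith
  rcases le_total w (5 / 2) with h4 | h4
  · have := xA_u3 hs hs1 h2 h4
    linarith
  rcases h4.eq_or_lt with h5 | h5
  · have := xA_u3 hs hs1 h2 h5.ge
    linarith
  rcases le_total w 4 with h6 | h6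
  · rw [xA_u4 h5 h6]
    linarith
  · rw [xA_u5 h6]
    linarith

theorem u_90 {s X w : ℝ} (hs : 0 < s) (hs1 : s ≤ 11 / 400) (hX : 5 ≤ X) (ho : w ≤ X)
    (ha : X - w ≤ 22 / 10) : |2 * xB par (w / 2) - xA par s w| ≤ 52 / 100 * (X - w) := by
  rw [abs_le]
  rcases le_total w 4 with h6 | h6
  · rw [xA_u4 (by linarith) h6, xB_u2 (by linarith) (by linarith)]
    constructor <;> linarith
  rcases le_total w 5 with h7 | h7
  · rw [xA_u5 h6, xB_u2 (by linarith) (by linarith)]
    constructor <;> linarith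
  · rw [xA_u5 h6, xB_u3 (by linarith)]
    constructor <;> linarith

theorem u_tap {X w : ℝ} (hX : 4 ≤ X) (hw : 0 ≤ w) (ho : w ≤ X) :
    0 ≤ taper w ∧ 3 * taper w ≤ X - w := by
  unfold taper pl
  split_ifs with h1 h2
  · constructor <;> linarith
  · constructor <;> linarith
  · constructor <;> linarith

theorem r2_b {s : ℝ} (hs : 0 < s) (hs1 : s ≤ 11 / 400) : |r2 par s| ≤ 17 / 100 := by
  obtain ⟨-, a, -, b⟩ := g_facts hs hs1
  obtain ⟨x1a, x1b⟩ := x1_bd hs hs1
  obtain ⟨xma, xmb⟩ := xm_bd hs hs1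
  have hh := h0_pos
  have g1 := h0_gt
  have g2 := h0_lt
  have q1 := RA_le hs hs.le
  have q2 := RA_ge hs hs.le
  obtain ⟨q3, q4⟩ := RA_one hs
  have hg : 0 < g s := by linarith
  obtain ⟨o1, o2⟩ := one_bd
  -- the numbers
  have k4 : 1 / h0 ≤ 1155 / 1000 := by
    rw [div_le_iff₀ hh]
    linarith
  have k1 : 577 / 1000 * s ≤ s / ((1 + g s) * h0) := by
    rw [le_div_iff₀ (by positivity)]
    have : (1 + g s) * h0 ≤ 1733 / 1000 := by nlinarith
    nlinarith
  have k2' : 3 ≤ 3 / g s := by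
    rw [le_div_iff₀ (by linarith)]
    linarith
  have k3 : 2 / (1 + g s) ≤ 1001 / 1000 := by
    rw [div_le_iff₀ (by linarith)]
    nlinarith
  have k5 : s ≤ 2 * s / (1 + g s) := by
    rw [le_div_iff₀ (by linarith)]
    nlinarith
  have k5' : 2 * s / (1 + g s) ≤ 3 / 100 := by
    rw [div_le_iff₀ (by linarith)]
    linarith
  have k4' : 1154 / 1000 ≤ 1 / h0 := by
    rw [le_div_iff₀ hh]
    linarith
  have m2 : 436 / 1000 / h0 * (1 / h0 - 2 * s / (1 + g s)) ≤
      5035 / 10000 * (1155 / 1000 - s) :=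
    mul_le_mul o2 (by linarith) (by linarith) (by norm_num)
  have xmu : xm par s ≤ 5826 / 10000 - 108 / 100 * s := by
    rw [xm_eq par hs (by linarith), par_one]
    linarith
  have x1l : 4992 / 10000 ≤ x1 s := by
    unfold x1
    rw [le_div_iff₀ (by linarith)]
    linarith
  have t1 : s * (s / g s + 1 / (2 * h0)) ≤ 61 / 100 * s := by
    have h1 : s / g s ≤ 3 / 100 := by
      rw [div_le_iff₀ (by linarith)]
      linarith
    have h2 : 1 / (2 * h0) ≤ 578 / 1000 := by
      rw [div_le_iff₀ (by positivity)]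
      linarith
    nlinarith
  have t1' : 0 ≤ s * (s / g s + 1 / (2 * h0)) := by positivity
  have t2 : g s * xm par s / x1 s ≤ 1168 / 1000 - 21 / 10 * s := by
    rw [div_le_iff₀ (by linarith)]
    have h1 : g s * xm par s ≤ xm par s := by nlinarith
    have h2 : (1168 / 1000 - 21 / 10 * s) * (4992 / 10000) ≤
        (1168 / 1000 - 21 / 10 * s) * x1 s := mul_le_mul_of_nonneg_left x1l (by linarith)
    linarith
  have t2' : 9 / 10 ≤ g s * xm par s / x1 s := by
    rw [le_div_iff₀ (by linarith)]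
    nlinarith
  unfold r2
  rw [abs_le]
  constructor <;> linarith

/-! ### The levels -/

section

variable {s x C' x' : ℝ}

/-- Scaling. -/
theorem scl (hs : 0 < s) (x : ℝ) : ∃ w, x = s * w ∧ x / s = w ∧ x / (2 * s) = w / 2 := by
  refine ⟨x / s, ?_, rfl, ?_⟩
  · field_simp
  · field_simp

theorem abs_sc (hs : 0 < s) {F B : ℝ} (h : |F| ≤ B) : |s ^ 2 * F| ≤ s ^ 2 * B := by
  rw [abs_mul, abs_of_nonneg (sq_nonneg s)]
  exact mul_le_mul_of_nonneg_left h (sq_nonneg s)

/-- The level is Lipschitz. -/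
theorem lvl_lip (hs : 0 < s) (hx : 4 * s ≤ x) (hx' : 0 ≤ x') (ho : x' ≤ x) :
    |lvl s x - lvl s x'| ≤ 26 / 100 * s * (x - x') := by
  obtain ⟨X, hX, -, hX2⟩ := scl hs x
  obtain ⟨w, hw, -, hw2⟩ := scl hs x'
  have h1 : 4 ≤ X := le_of_mul_le_mul_left (by linarith) hs
  have h2 : 0 ≤ w := by
    rw [hw] at hx'
    exact nonneg_of_mul_nonneg_right hx' hs
  have h3 : w ≤ X := le_of_mul_le_mul_left (by linarith) hs
  have h4 := abs_sc hs (u_lip' h1 h2 h3)
  unfold lvl
  rw [hX2, hw2, ← mul_sub]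
  refine h4.trans (le_of_eq ?_)
  rw [hX, hw]
  ring

/-- The level of a unit node below 60 degrees. -/
theorem lev60m (hs : 0 < s) (hs1 : s ≤ 11 / 400) (h' : Rot C' x') (hx : 4 * s ≤ x) (ho : x' ≤ x) :
    |kX s (C' / 2 + h0 * x') (h0 * C' - x' / 2) - lvl s x| ≤ 26 / 100 * s * (x - x') := by
  have e1 : C' / 2 + h0 * x' = C' / 2 - h0 * (-x') := by ring
  have e2 : h0 * C' - x' / 2 = h0 * C' + (-x') / 2 := by ring
  rw [e1, e2]
  rcases lt_or_ge 0 x' with h | h
  · rw [n60_kX_dn hs hs1 h'.neg (by linarith), neg_neg, abs_sub_comm]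
    exact lvl_lip hs hx h.le ho
  · rw [n60_kX_up hs hs1 h'.neg (by linarith)]
    obtain ⟨X, hX, -, hX2⟩ := scl hs x
    obtain ⟨w, hw, hw1, hw2⟩ := scl hs (-x')
    have h1 : 4 ≤ X := le_of_mul_le_mul_left (by linarith) hs
    have h2 : 0 ≤ w := by
      have : 0 ≤ s * w := by rw [← hw]; linarith
      exact nonneg_of_mul_nonneg_right this hs
    have h4 := abs_sc hs (u_60m hs hs1 h1 h2)
    unfold lvl
    rw [hX2, hw1, hw2, ← mul_sub, ← mul_sub]
    refine h4.trans (le_of_eq ?_)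
    have e3 : x' = -(s * w) := by linarith
    rw [hX, e3]
    ring

/-- The level of a unit node above 60 degrees, not farther than the reference. -/
theorem lev60p (hs : 0 < s) (hs1 : s ≤ 11 / 400) (h' : Rot C' x') (hx : 5 * s ≤ x) (ho : x' ≤ x) :
    |kX s (C' / 2 - h0 * x') (h0 * C' + x' / 2)| ≤ 26 / 100 * s * (x - x') := by
  obtain ⟨X, hX, -, hX2⟩ := scl hs x
  have h1 : 5 ≤ X := le_of_mul_le_mul_left (by linarith) hs
  rcases lt_or_ge x' 0 with h | h
  · rw [n60_kX_dn hs hs1 h' h]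
    obtain ⟨w, hw, hw1, hw2⟩ := scl hs (-x')
    have h2 : 0 ≤ w := by
      have : 0 ≤ s * w := by rw [← hw]; linarith
      exact nonneg_of_mul_nonneg_right this hs
    obtain ⟨b0, b1, b2⟩ := u_B h2
    have h4 := abs_sc hs (F := xB par (w / 2)) (B := 26 / 100 * (X + w)) (by
      rw [abs_of_nonneg b0]
      linarith)
    unfold lvl
    rw [hw2]
    refine h4.trans (le_of_eq ?_)
    have e3 : x' = -(s * w) := by linarith
    rw [hX, e3]
    ring
  · rw [n60_kX_up hs hs1 h' h]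
    obtain ⟨w, hw, hw1, hw2⟩ := scl hs x'
    have h2 : 0 ≤ w := by
      rw [hw] at h
      exact nonneg_of_mul_nonneg_right h hs
    have h3 : w ≤ X := le_of_mul_le_mul_left (by linarith) hs
    have h4 := abs_sc hs (u_60p hs hs1 h1 h2 h3)
    unfold lvl
    rw [hw1, hw2, ← mul_sub]
    refine h4.trans (le_of_eq ?_)
    rw [hX, hw]
    ring

/-- The level of a unit node above 60 degrees, farther than the reference. -/
theorem lev60q (hs : 0 < s) (hs1 : s ≤ 11 / 400) (h' : Rot C' x') (hx : 4 * s ≤ x) (ho : x ≤ x') :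
    |kX s (C' / 2 - h0 * x') (h0 * C' + x' / 2) + lvl s x| ≤ 26 / 100 * s * (x' - x) := by
  rw [n60_kX_up hs hs1 h' (by linarith), xA_far hs (by linarith), mul_zero, zero_sub,
    neg_add_eq_sub, abs_sub_comm]
  exact lvl_lip hs (by linarith) (by linarith) ho

/-- The level of a long node below 30 degrees. -/
theorem lev30m (hs : 0 < s) (hs1 : s ≤ 11 / 400) (h' : Rot C' x') (hx : 4 * s ≤ x) (ho : x' ≤ x)
    (ha : x - x' ≤ 22 / 10 * s) :
    |kX s (3 / 2 * C' + h0 * x') (h0 * C' - 3 / 2 * x') - lvl s x| ≤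
      111 / 100 * s * (x - x') := by
  have e1 : 3 / 2 * C' + h0 * x' = 3 / 2 * C' - h0 * (-x') := by ring
  have e2 : h0 * C' - 3 / 2 * x' = h0 * C' + 3 / 2 * (-x') := by ring
  rw [e1, e2, n30_kX_dn h'.neg (by linarith), neg_neg]
  obtain ⟨X, hX, -, hX2⟩ := scl hs x
  obtain ⟨w, hw, hw1, hw2⟩ := scl hs x'
  have h1 : 4 ≤ X := le_of_mul_le_mul_left (by linarith) hs
  have h3 : w ≤ X := le_of_mul_le_mul_left (by linarith) hs
  have h5 : X - w ≤ 22 / 10 := le_of_mul_le_mul_left (by linarith) hs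
  have h4 := abs_sc hs (u_30m hs hs1 h1 h3 h5)
  unfold lvl
  rw [hX2, hw1, hw2, ← mul_add, ← mul_sub]
  refine h4.trans (le_of_eq ?_)
  rw [hX, hw]
  ring

/-- The level and the correction of a unit node next to the horizontal direction. -/
theorem lev0 (hs : 0 < s) (hs1 : s ≤ 11 / 400) (h' : Rot C' x') (hx : 4 * s ≤ x) (hx' : 0 ≤ x')
    (ho : x' ≤ x) : |kX s C' x'| ≤ 86 / 100 * s * (x - x') ∧
      s * |kR s C' x'| ≤ 6 / 100 * (x - x') := by
  have hh := h0_pos
  have g1 := h0_gt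
  have e := n0_facts h' hx'
  obtain ⟨X, hX, -, hX2⟩ := scl hs x
  obtain ⟨w, hw, hw1, hw2⟩ := scl hs x'
  have h1 : 4 ≤ X := le_of_mul_le_mul_left (by linarith) hs
  have h2 : 0 ≤ w := by
    rw [hw] at hx'
    exact nonneg_of_mul_nonneg_right hx' hs
  have h3 : w ≤ X := le_of_mul_le_mul_left (by linarith) hs
  constructor
  · rw [← e, kX_c1 hx' (by linarith [h'.hi])]
    unfold X1
    rw [if_pos h'.hi, hw1]
    refine (abs_sc hs (u_0 hs hs1 h1 h2 h3)).trans (le_of_eq ?_)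
    rw [hX, hw]
    ring
  · rcases le_total (4 * s) x' with h | h
    · rw [n0_kR hs h' h, abs_zero, mul_zero]
      linarith
    · rw [← e]
      unfold kR
      rw [ker_c1 (adm_vR s) hx' (by nlinarith [h'.hi])]
      have e3 : vR par s x' 0 = r2 par s * taper (x' / s) := if_pos (by linarith)
      rw [e3, hw1, abs_mul]
      obtain ⟨t1, t2⟩ := u_tap h1 h2 h3
      have r := r2_b hs hs1
      rw [abs_of_nonneg t1]
      have r1 := mul_le_mul r (by linarith : taper w ≤ (X - w) / 3) t1 (by norm_num)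
      have r3 := mul_le_mul_of_nonneg_left r1 hs.le
      rw [hX, hw]
      have : 0 ≤ s * (X - w) := mul_nonneg hs.le (by linarith)
      linarith

/-- The level of a long node next to the vertical direction. -/
theorem lev90 (hs : 0 < s) (hs1 : s ≤ 11 / 400) (h' : Rot C' x') (hx : 5 * s ≤ x) (ho : x' ≤ x)
    (ha : x - x' ≤ 22 / 10 * s) :
    |kX s (2 * h0 * x') (2 * h0 * C')| ≤ 52 / 100 * s * (x - x') := by
  rw [n90_kX hs hs1 h' (by linarith)]
  obtain ⟨X, hX, -, hX2⟩ := scl hs x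
  obtain ⟨w, hw, hw1, hw2⟩ := scl hs x'
  have h1 : 5 ≤ X := le_of_mul_le_mul_left (by linarith) hs
  have h3 : w ≤ X := le_of_mul_le_mul_left (by linarith) hs
  have h5 : X - w ≤ 22 / 10 := le_of_mul_le_mul_left (by linarith) hs
  have h4 := abs_sc hs (u_90 hs hs1 h1 h3 h5)
  unfold lvl
  rw [hw1, hw2]
  have e : 2 * (s ^ 2 * xB par (w / 2)) - s ^ 2 * xA par s w =
      s ^ 2 * (2 * xB par (w / 2) - xA par s w) := by ring
  rw [e]
  refine h4.trans (le_of_eq ?_)
  rw [hX, hw]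
  ring

end

end Pool.Agent.Strip051.LC.E0.Out
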