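import Pool.Agent.Strip051.LC.E0.OutL

/-! # Small rests: the strip next to the direction of 60 degrees, above -/

namespace Pool.Agent.Strip051.LC.E0.Out

open Pool.Agent.StripNear Pool.Agent.StripSquare Pool.Agent.Strip051 Pool.Agent.Strip051.Sweep
open Pool.Agent.Strip051.LC.Line (tau)

/-! ### Constants -/

/-- The pinned slope. -/
theorem seca_pin {s : ℝ} (hs : 0 < s) (hs1 : s ≤ 11 / 400) :
    -(1 / 20) ≤ pinU par s ∧ pinU par s ≤ 1 := by
  refine ⟨?_, (abs_le.1 (pinU_one hs hs1)).2⟩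
  obtain ⟨eg, a, ag, b⟩ := g_facts hs hs1
  have hh := h0_pos
  have g1 := h0_gt
  have g2 := h0_lt
  obtain ⟨b1, b2⟩ := h0_bd
  have hq := h0_sq'
  set T := h0 + s with hTd
  have hT1 : T < 1 := by linarith
  have hT0 : 0 ≤ T := by positivity
  have e := c1_sq hT0 hT1.le
  have c0 := c1_nonneg T
  have cl : c1 T ≤ 1 / 2 := by nlinarith
  have c4 : 44 / 100 ≤ c1 T := by nlinarith
  have ec : (1 / 2 - c1 T) * (1 / 2 + c1 T) = s * (2 * h0 + s) := by
    rw [hTd] at e ⊢
    nlinarith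
  have d1 : 17 / 10 * s ≤ g s - 1 / 2 - c1 T := by nlinarith
  have u1 : 1 / 2 - c1 T ≤ 188 / 100 * s := by
    have k1 : (1 / 2 - c1 T) * (94 / 100) ≤ s * (2 * h0 + s) := by
      rw [← ec]
      exact mul_le_mul_of_nonneg_left (by linarith) (by linarith)
    have k2 := mul_le_mul_of_nonneg_left
      (by linarith : 2 * h0 + s ≤ 176 / 100) hs.le
    linarith
  obtain ⟨r1, r2⟩ := c1_rot hT0 hT1.le
  have ex : T / 2 - h0 * c1 T = s / 2 + h0 * (1 / 2 - c1 T) := by rw [hTd]; ring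
  have s0 : 0 ≤ T / 2 - h0 * c1 T := by
    rw [ex]
    have := mul_nonneg hh.le (by linarith : 0 ≤ 1 / 2 - c1 T)
    linarith
  have s1 : T / 2 - h0 * c1 T ≤ 214 / 100 * s := by
    rw [ex]
    have := mul_le_mul b2.le u1 (by linarith) (by norm_num)
    linarith
  have n1 : R1 par s T = RA par s (T / 2 - h0 * c1 T) *
      (1 / 2 - h0 * (T / 2 - h0 * c1 T) / (1 + (c1 T / 2 + h0 * T))) := by
    unfold R1
    rw [if_neg (by linarith), if_neg (by linarith), abs_of_nonneg s0]
  have C0 : 99 / 100 ≤ c1 T / 2 + h0 * T := by nlinarith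
  generalize T / 2 - h0 * c1 T = x at *
  generalize c1 T / 2 + h0 * T = C at *
  have f0 : 0 ≤ h0 * x / (1 + C) := by
    have : 0 < 1 + C := by linarith
    positivity
  have f1 : h0 * x / (1 + C) ≤ 935 / 1000 * s := by
    rw [div_le_iff₀ (by linarith)]
    have k1 := mul_le_mul b2.le s1 s0 (by norm_num)
    have k2 := mul_nonneg hs.le (by linarith : 0 ≤ C - 99 / 100)
    linarith
  obtain ⟨q1, q2⟩ := RA_one hs
  obtain ⟨p1, p2⟩ := Pe_bd9 hs hs1
  have r4 := RA_le hs s0
  have n2 : R1 par s T ≤ 1 / 2 := by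
    rw [n1]
    have k1 := mul_le_mul_of_nonneg_right r4
      (by linarith : 0 ≤ 1 / 2 - h0 * x / (1 + C))
    linarith
  unfold pinU
  rw [← hTd, le_div_iff₀ (by linarith)]
  linarith

/-- The correction of the kernel at the near vertex. -/
theorem seca_rho {s : ℝ} (hs : 0 < s) (hs1 : s ≤ 11 / 400) :
    0 ≤ r2 par s + r2d par s ∧ r2 par s + r2d par s ≤ 51 / 500 := by
  obtain ⟨-, a, b0, -⟩ := g_facts hs hs1
  have b : 999 / 1000 ≤ g s := by nlinarith
  have b' : 9992 / 10000 ≤ g s := by nlinarith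
  have hh := h0_pos
  obtain ⟨h1, h2⟩ := h0_bd
  have x1l : 499 / 1000 ≤ x1 s := by
    unfold x1
    rw [le_div_iff₀ (by linarith)]
    linarith
  have x1u := (x1_bd hs hs1).2
  obtain ⟨q1, q2⟩ := RA_one hs
  obtain ⟨p1, p2⟩ := Pe_bd9 hs hs1
  have ks : 2 * s / (1 + g s) ≥ 0 := by positivity
  have k4 : 1 / h0 ≤ 11548 / 10000 := by
    rw [div_le_iff₀ hh]
    linarith
  have xmu : xm par s ≤ 582 / 1000 := by
    rw [xm_eq par hs (by linarith)]
    have k1' : 0 ≤ s / ((1 + g s) * h0) := by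
      have : 0 < 1 + g s := by linarith
      positivity
    have k2' : 3 ≤ 3 / g s := by
      rw [le_div_iff₀ (by linarith)]
      linarith
    have k3 : 2 / (1 + g s) ≤ 10005 / 10000 := by
      rw [div_le_iff₀ (by linarith)]
      linarith
    rw [par_one]
    obtain ⟨o1, o2⟩ := one_bd
    have m1 : 436 / 1000 / h0 * (1 / h0 - 2 * s / (1 + g s)) ≤
        5035 / 10000 * (11548 / 10000) :=
      mul_le_mul o2 (by linarith) (by
        have : 2 * s / (1 + g s) ≤ 2 * s := by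
          rw [div_le_iff₀ (by linarith)]
          nlinarith
        have : 1 ≤ 1 / h0 := by
          rw [le_div_iff₀ hh]
          linarith
        linarith) (by norm_num)
    linarith
  have xml : 54 / 100 ≤ xm par s := by
    rw [xm_eq par hs (by linarith)]
    have k1 : s / ((1 + g s) * h0) ≤ 17 / 1000 := by
      rw [div_le_iff₀ (by positivity)]
      have : 19992 / 10000 * (8660 / 10000) ≤ (1 + g s) * h0 :=
        mul_le_mul (by linarith) (by linarith) (by norm_num) (by linarith)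
      linarith
    have k2 : 3 / g s ≤ 30025 / 10000 := by
      rw [div_le_iff₀ (by linarith)]
      linarith
    have k3' : 1 ≤ 2 / (1 + g s) := by
      rw [le_div_iff₀ (by linarith)]
      linarith
    have k4' : 11545 / 10000 ≤ 1 / h0 := by
      rw [le_div_iff₀ hh]
      linarith
    have k5 : 2 * s / (1 + g s) ≤ 276 / 10000 := by
      rw [div_le_iff₀ (by linarith)]
      linarith
    rw [par_one]
    obtain ⟨o1, o2⟩ := one_bd
    have m1 : 5034 / 10000 * (11269 / 10000) ≤ 436 / 1000 / h0 * (1 / h0 - 2 * s / (1 + g s)) :=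
      mul_le_mul o1 (by linarith) (by norm_num) (by linarith)
    linarith
  have r1 : xm par s / x1 s ≤ 11665 / 10000 := by
    rw [div_le_iff₀ (by linarith)]
    linarith
  have r0 : 108 / 100 ≤ xm par s / x1 s := by
    rw [le_div_iff₀ (by linarith)]
    linarith
  have f0 : 0 ≤ s / g s := by
    have : 0 < g s := by linarith
    positivity
  have f1 : s / g s ≤ 28 / 1000 := by
    rw [div_le_iff₀ (by linarith)]
    linarith
  have f2 : 1 / (2 * h0) ≤ 57738 / 100000 := by
    rw [div_le_iff₀ (by positivity)]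
    linarith
  have f3 : 1 / 2 ≤ 1 / (2 * h0) := by
    rw [le_div_iff₀ (by positivity)]
    linarith
  have e : r2 par s + r2d par s = s * (s / g s + 1 / (2 * h0)) - RA par s s + Pe s / 2 +
      (g s - 1 / 2) * (xm par s / x1 s) := by
    unfold r2 r2d
    have : x1 s ≠ 0 := by linarith
    field_simp
    ring
  rw [e]
  have m0 := mul_le_mul_of_nonneg_left
    (by linarith : s / g s + 1 / (2 * h0) ≤ 60538 / 100000) hs.le
  have m1 := mul_le_mul_of_nonneg_left (by linarith : 1 / 2 ≤ s / g s + 1 / (2 * h0)) hs.le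
  have m2 : (g s - 1 / 2) * (xm par s / x1 s) ≤ 1 / 2 * (11665 / 10000) :=
    mul_le_mul (by linarith) r1 (by linarith) (by norm_num)
  have m3 : (4992 / 10000) * (108 / 100) ≤ (g s - 1 / 2) * (xm par s / x1 s) :=
    mul_le_mul (by linarith) r0 (by norm_num) (by linarith)
  constructor
  · linarith
  · linarith

/-- The kernel on the unit circle is at most the abscissa. -/
theorem seca_P {C x : ℝ} (h : Rot C x) (hx : 0 ≤ x) :
    0 ≤ (1 - 2 * x) * (1 / 2 - h0 * x / (1 + C)) ∧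
      (1 - 2 * x) * (1 / 2 - h0 * x / (1 + C)) ≤ C / 2 - h0 * x := by
  have hh := h0_pos
  have hq := h0_sq'
  obtain ⟨b1, b2⟩ := h0_bd
  have hC := h.Ch
  have hs := h.sq
  have e := h.one_sub
  have u0 : 0 ≤ x / (1 + C) := div_nonneg hx (by linarith)
  have ux : x / (1 + C) * (1 + C) = x := div_mul_cancel₀ _ (by linarith)
  have e1 : h0 * x / (1 + C) = h0 * (x / (1 + C)) := by ring
  rw [e1]
  have u1 : x / (1 + C) ≤ 2 - 2 * h0 := by
    rw [div_le_iff₀ (by linarith)]
    have := h.hi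
    nlinarith
  generalize x / (1 + C) = u at *
  have eC : C * (1 + u ^ 2) = 1 - u ^ 2 := by
    linear_combination u * ux + e
  have ex : x * (1 + u ^ 2) = 2 * u := by
    have : x = u * (1 + C) := ux.symm
    rw [this]
    linear_combination u * eC
  have hx2 := h.hi
  constructor
  · refine mul_nonneg (by linarith) ?_
    nlinarith
  · have p : 0 < 1 + u ^ 2 := by positivity
    refine le_of_mul_le_mul_right ?_ p
    have k : 0 ≤ u * ((2 - 2 * h0 - u) * (5 / 2 + 2 * h0 - h0 * u)) := by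
      refine mul_nonneg u0 (mul_nonneg (by linarith) ?_)
      nlinarith
    have key : (C / 2 - h0 * x) * (1 + u ^ 2) -
        (1 - 2 * x) * (1 / 2 - h0 * u) * (1 + u ^ 2) =
        u * ((2 - 2 * h0 - u) * (5 / 2 + 2 * h0 - h0 * u)) := by
      linear_combination (1 / 2 : ℝ) * eC - h0 * ex + 2 * (1 / 2 - h0 * u) * ex +
        (4 * u - 2 * u ^ 2) * hq
    linarith

/-! ### The curves -/

/-- The unit circle is steep. -/
theorem seca_D {a b : ℝ} (ha : 0 ≤ a) (hab : a ≤ b) (hb : b ≤ 1) :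
    c1 b * (c1 a - c1 b) ≤ b * (b - a) ∧ c1 b ≤ c1 a := by
  have e1 := c1_sq ha (hab.trans hb)
  have e2 := c1_sq (ha.trans hab) hb
  have k1 := c1_nonneg a
  have k2 := c1_nonneg b
  have h : c1 b ≤ c1 a := by
    refine le_of_sq2 k1 ?_
    nlinarith
  exact ⟨by nlinarith, h⟩

/-- The slope of the unit circle below a height. -/
theorem seca_slope {T a q : ℝ} (hT : 0 ≤ T) (hTa : T ≤ a) (ha : a < 1) (hq : 0 ≤ q)
    (h : a ^ 2 * (1 + q ^ 2) ≤ q ^ 2) : T ≤ q * c1 T := by
  have e := c1_sq hT (by linarith)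
  have k := c1_nonneg T
  refine le_of_sq2 (mul_nonneg hq k) ?_
  have e1 : c1 T ^ 2 = 1 - T ^ 2 := by linarith
  rw [mul_pow, e1]
  have : T ^ 2 ≤ a ^ 2 := pow_le_pow_left₀ hT hTa 2
  nlinarith [mul_le_mul_of_nonneg_right this (by positivity : 0 ≤ 1 + q ^ 2)]

theorem seca_Wc {T : ℝ} (h : h0 ≤ T) (h' : T ≤ h0 + 27 / 100) :
    1 / 2 - 51 / 100 * (T - h0) ^ 2 ≤ Wc T ∧ Wc T ≤ 1 / 2 := by
  unfold Wc
  rw [if_neg h.not_gt]
  have h1 : 1 - 51 / 100 * (T - h0) ^ 2 ≤ √(1 - (T - h0) ^ 2) := by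
    refine Real.le_sqrt_of_sq_le ?_
    have : (T - h0) ^ 2 ≤ (27 / 100) ^ 2 := pow_le_pow_left₀ (by linarith) (by linarith) 2
    nlinarith [sq_nonneg (T - h0)]
  have h2 : √(1 - (T - h0) ^ 2) ≤ 1 := Real.sqrt_le_one.2 (by nlinarith [sq_nonneg (T - h0)])
  constructor <;> linarith

theorem seca_Wc' {T : ℝ} (h : h0 ≤ T) (h' : T ≤ h0 + 9 / 25) :
    1 / 2 - 54 / 100 * (T - h0) ^ 2 ≤ Wc T ∧ Wc T ≤ 1 / 2 := by
  unfold Wc
  rw [if_neg h.not_gt]
  have h1 : 1 - 54 / 100 * (T - h0) ^ 2 ≤ √(1 - (T - h0) ^ 2) := by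
    refine Real.le_sqrt_of_sq_le ?_
    have : (T - h0) ^ 2 ≤ (9 / 25) ^ 2 := pow_le_pow_left₀ (by linarith) (by linarith) 2
    nlinarith [sq_nonneg (T - h0)]
  have h2 : √(1 - (T - h0) ^ 2) ≤ 1 := Real.sqrt_le_one.2 (by nlinarith [sq_nonneg (T - h0)])
  constructor <;> linarith

/-- The distance of the curves. -/
theorem seca_Wc1 {T : ℝ} (h : h0 ≤ T) (h' : T ≤ 1) :
    173 / 100 * (T - h0) ≤ Wc T - c1 T := by
  have hh := h0_pos
  have hq := h0_sq'
  obtain ⟨b1, b2⟩ := h0_bd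
  have w := (seca_Wc h (by linarith)).1
  have e := c1_sq (by linarith : 0 ≤ T) h'
  have k := c1_nonneg T
  have k1 : c1 T ≤ 1 / 2 := by nlinarith
  have e1 : (1 / 2 - c1 T) * (1 / 2 + c1 T) = (T - h0) * (T + h0) := by nlinarith
  have e2 : (T - h0) * (T + h0) ≤ 1 / 2 - c1 T := by
    rw [← e1]
    nlinarith
  nlinarith

/-! ### The position of the circle node -/

theorem seca_T0 {s C x : ℝ} (hs : 0 < s) (hs1 : s ≤ 11 / 400) (h : Rot C x) (hx : 4 * s ≤ x) :
    h0 + 9 / 5 * s ≤ h0 * C + x / 2 := by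
  have hh := h0_pos
  obtain ⟨b1, b2⟩ := h0_bd
  have x0 : 0 ≤ x := by linarith
  have e := (n60_facts h).2.2.2.2.2
  obtain ⟨k1, k2, k3, k4⟩ := half_bd h.Ch x0 h.sq
  have f : 9 / 5 * s ≤ x * (1 / 2 - h0 * x / (1 + C)) := by
    rcases le_or_gt x (14 / 125) with hc | hc
    · have : h0 * x / (1 + C) ≤ 4365 / 10000 * x := by
        rw [div_le_iff₀ (by linarith [h.Ch])]
        have : 99 / 100 ≤ C := by nlinarith
        nlinarith
      nlinarith
    · have := h.hi
      nlinarith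
  linarith

theorem seca_T0' {s C x : ℝ} (hs : 0 < s) (hs1 : s ≤ 11 / 400) (h : Rot C x) (hx : 5 * s ≤ x) :
    h0 + 2 * s < h0 * C + x / 2 := by
  have hh := h0_pos
  obtain ⟨b1, b2⟩ := h0_bd
  have x0 : 0 ≤ x := by linarith
  have e := (n60_facts h).2.2.2.2.2
  obtain ⟨k1, k2, k3, k4⟩ := half_bd h.Ch x0 h.sq
  have f : 2 * s < x * (1 / 2 - h0 * x / (1 + C)) := by
    rcases le_or_gt x (7 / 50) with hc | hc
    · have : h0 * x / (1 + C) ≤ 1 / 2 * x := by
        rw [div_le_iff₀ (by linarith [h.Ch])]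
        nlinarith [h.Ch]
      nlinarith
    · have := h.hi
      nlinarith
  linarith

/-! ### The segments -/

theorem seca_seg0 {v : ℝ → Fin 4 → ℝ} (hv : K.adm v) {X T : ℝ} (h : h0 ≤ T)
    (h1 : T < 3 * h0 / 2) (a : c1 T ≤ X) (b : X ≤ Wc T) :
    ker K.nodes v (fun _ _ => 0) X T =
      v T 0 + (v T 1 - v T 0) * ((X - c1 T) / (Wc T - c1 T)) := by
  have hh := h0_pos
  have hq := h0_sq'
  have hT : 0 ≤ T := by linarith
  have hT3 : T ^ 2 ≤ 3 := by nlinarith
  have e0 : pos.cv 0 T = c1 T := cv_zero T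
  have e1 : pos.cv 1 T = Wc T := cv_one_high h
  have e := K.seg v hv 0 X T hT hT3 (by
    change pos.cv 0 T ≤ X
    rwa [e0]) (by
    change X ≤ pos.cv 1 T
    rwa [e1])
  rw [e]
  change v T 0 + (v T 1 - v T 0) * ((X - pos.cv 0 T) / (pos.cv 1 T - pos.cv 0 T)) = _
  rw [e0, e1]

theorem seca_seg1 {v : ℝ → Fin 4 → ℝ} (hv : K.adm v) {X T : ℝ} (h : h0 ≤ T)
    (h1 : T < 3 * h0 / 2) (a : Wc T ≤ X) (b : X ≤ Wc T + 3 / 20 * (c3 T - Wc T)) :
    ker K.nodes v (fun _ _ => 0) X T =
      v T 1 + (v T 2 - v T 1) * ((X - Wc T) / (3 / 20 * (c3 T - Wc T))) := by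
  have hh := h0_pos
  have hq := h0_sq'
  have hT : 0 ≤ T := by linarith
  have hT3 : T ^ 2 ≤ 3 := by nlinarith
  have e1 : pos.cv 1 T = Wc T := cv_one_high h
  have e2 : pos.cv 2 T = Wc T + 3 / 20 * (c3 T - Wc T) := cv_two_high h
  have e := K.seg v hv 1 X T hT hT3 (by
    change pos.cv 1 T ≤ X
    rwa [e1]) (by
    change X ≤ pos.cv 2 T
    rwa [e2])
  rw [e]
  change v T 1 + (v T 2 - v T 1) * ((X - pos.cv 1 T) / (pos.cv 2 T - pos.cv 1 T)) = _
  rw [e1, e2]
  congr 2
  ring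

/-- The values right of `W`. -/
theorem seca_right {s X T : ℝ} (h : h0 ≤ T)
    (h1 : T < 3 * h0 / 2) (a : Wc T ≤ X) (b : X ≤ Wc T + 3 / 20 * (c3 T - Wc T))
    (_ : c1 T ≤ Wc T) :
    kA s X T = kA s (Wc T) T + 353 / 500 * (X - Wc T) ∧
      kR s X T = (r2 par s + r2d par s) * taper ((T - h0) / s) ∧
      kX s X T = s ^ 2 * xW par s ((T - h0) / s) := by
  have hh := h0_pos
  have a1 : ¬T < h0 / 2 := by linarith
  have a2 : ¬T < h0 := h.not_gt
  refine ⟨?_, ?_, ?_⟩
  · unfold kA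
    rw [seca_seg1 (adm_vA par s) h h1 a b,
      seca_seg1 (adm_vA par s) h h1 le_rfl (by linarith)]
    have v1 : vA par s T 1 = RW par s T := by
      simp only [vA, Matrix.cons_val_one, Matrix.cons_val_zero]
      rw [if_neg a1, if_neg a2, if_pos h1]
    have v2 : vA par s T 2 = RW par s T + par.l1 * (3 / 20 * (c3 T - Wc T)) := by
      have : vA par s T 2 = if T < h0 then RW par s T
        else if T < 3 * h0 / 2 then RW par s T + par.l1 * (3 / 20 * (c3 T - Wc T))
        else (Wc T + 3 / 20 * (c3 T - Wc T)) / 2 := rfl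
      rw [this, if_neg a2, if_pos h1]
    have l1 : par.l1 = 353 / 500 := rfl
    rw [v1, v2, l1]
    rcases eq_or_ne (c3 T - Wc T) 0 with h2 | h2
    · rw [h2] at b ⊢
      have : X = Wc T := by linarith
      rw [this]
      simp
    · field_simp
      ring
  · unfold kR
    rw [seca_seg1 (adm_vR s) h h1 a b]
    have v1 : vR par s T 1 = (r2 par s + r2d par s) * taper ((T - h0) / s) := by
      simp only [vR, Matrix.cons_val_one, Matrix.cons_val_zero]
      rw [if_neg a1, if_neg a2, if_pos h1]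
    have v2 : vR par s T 2 = (r2 par s + r2d par s) * taper ((T - h0) / s) := by
      have : vR par s T 2 = if T < h0 / 2 then r2 par s * taper (T / s)
        else if T < h0 then (r2 par s - r2d par s) * taper ((h0 - T) / s)
        else if T < 3 * h0 / 2 then (r2 par s + r2d par s) * taper ((T - h0) / s)
        else 0 := rfl
      rw [this, if_neg a1, if_neg a2, if_pos h1]
    rw [v1, v2]
    ring
  · unfold kX
    rw [seca_seg1 (adm_vX par s) h h1 a b]
    have v1 : vX par s T 1 = s ^ 2 * xW par s ((T - h0) / s) := by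
      have : vX par s T 1 = s ^ 2 * (if T < h0 / 2 then xA par s (T / s)
        else if T < h0 then X1 par s T
        else if T < 3 * h0 / 2 then xW par s ((T - h0) / s)
        else XV par s (pos.cv 2 T) * (pos.cv 1 T / pos.cv 2 T)) := rfl
      rw [this, if_neg a1, if_neg a2, if_pos h1]
    have v2 : vX par s T 2 = s ^ 2 * xW par s ((T - h0) / s) := by
      have : vX par s T 2 = s ^ 2 * (if T < h0 / 2 then xA par s (T / s)
        else if T < h0 then xW par s ((h0 - T) / s)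
        else if T < 3 * h0 / 2 then xW par s ((T - h0) / s)
        else XV par s (pos.cv 2 T)) := rfl
      rw [this, if_neg a1, if_neg a2, if_pos h1]
    rw [v1, v2]
    ring

/-- The values left of `W`. -/
theorem seca_left {s X T : ℝ} (h : h0 ≤ T)
    (h1 : T < 3 * h0 / 2) (a : c1 T ≤ X) (b : X ≤ Wc T) :
    kR s X T = (r2 par s + r2d par s) * taper ((T - h0) / s) * ((X - c1 T) / (Wc T - c1 T)) ∧
      kX s X T = s ^ 2 * ((if T < 1 then X1 par s T else 0) + (xW par s ((T - h0) / s) -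
        (if T < 1 then X1 par s T else 0)) * ((X - c1 T) / (Wc T - c1 T))) := by
  have hh := h0_pos
  have a1 : ¬T < h0 / 2 := by linarith
  have a2 : ¬T < h0 := h.not_gt
  constructor
  · unfold kR
    rw [seca_seg0 (adm_vR s) h h1 a b]
    have v0 : vR par s T 0 = 0 := by
      simp only [vR, Matrix.cons_val_zero]
      rw [if_neg a1]
    have v1 : vR par s T 1 = (r2 par s + r2d par s) * taper ((T - h0) / s) := by
      simp only [vR, Matrix.cons_val_one, Matrix.cons_val_zero]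
      rw [if_neg a1, if_neg a2, if_pos h1]
    rw [v0, v1]
    ring
  · unfold kX
    rw [seca_seg0 (adm_vX par s) h h1 a b]
    have v0 : vX par s T 0 = s ^ 2 * (if T < 1 then X1 par s T else 0) := rfl
    have v1 : vX par s T 1 = s ^ 2 * xW par s ((T - h0) / s) := by
      have : vX par s T 1 = s ^ 2 * (if T < h0 / 2 then xA par s (T / s)
        else if T < h0 then X1 par s T
        else if T < 3 * h0 / 2 then xW par s ((T - h0) / s)
        else XV par s (pos.cv 2 T) * (pos.cv 1 T / pos.cv 2 T)) := rfl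
      rw [this, if_neg a1, if_neg a2, if_pos h1]
    rw [v0, v1]
    ring

/-! ### The first kernel -/

/-- The constant of the affine form at the circle node. -/
theorem seca_Gu0 {C x : ℝ} (h : Rot C x) (hx : 0 < x) :
    Gu (h0 * C + x / 2) = 1 / x * (h0 * C + x / 2 - h0) - (4 * h0 - 3) * (C / 2 - h0 * x) := by
  obtain ⟨e1, e2, e3, e4, e5, e6⟩ := n60_facts h
  unfold Gu tu
  rw [e1, e4, e5, e6]
  field_simp

theorem seca_G {x T0 T : ℝ} (h : h0 ≤ T0) (h1 : T0 ≤ 1) (hT : T0 ≤ T) (hx : 0 < x)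
    (hx1 : x ≤ 1 / 2) :
    |Gx T - Gu T0 - 1 / x * (T - T0)| ≤ (1 / x + 1 / 8) * (T - T0) := by
  have ix : 2 ≤ 1 / x := by
    rw [le_div_iff₀ hx]
    linarith
  have hd : 0 ≤ T - T0 := by linarith
  have k := mul_le_mul_of_nonneg_right ix hd
  unfold Gx
  split_ifs with h2
  · obtain ⟨a, b⟩ := abs_le.1 (Gu_lip h hT h2)
    rw [abs_le]
    constructor <;> nlinarith
  · rw [not_le] at h2
    obtain ⟨a, b⟩ := abs_le.1 (Gu_lip h h1 le_rfl)
    rw [Gu_one] at a b
    rw [abs_le]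
    constructor <;> nlinarith

/-- The sine at a height above. -/
theorem seca_sine {C x T : ℝ} (h : Rot C x) (hT : h0 * C + x / 2 ≤ T) (h1 : T ≤ 1) :
    x ≤ T / 2 - h0 * c1 T := by
  have hh := h0_pos
  obtain ⟨e1, e2, e3, e4, e5, e6⟩ := n60_facts h
  have k := (seca_D (by linarith) hT h1).2
  rw [e1] at k
  have := mul_le_mul_of_nonneg_left k hh.le
  linarith

theorem seca_eq1 {s C x X T : ℝ} (hs : 0 < s) (h : Rot C x) (hx : 4 * s ≤ x)
    (hT : h0 * C + x / 2 ≤ T) (h1 : T < 3 * h0 / 2) (h2 : h0 + 2 * s < T)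
    (a : c1 T ≤ X) (b : X ≤ Wc T) :
    kA s X T - (1 / x - 2) * (T - h0) =
      Gx T - Gu (h0 * C + x / 2) - 1 / x * (T - (h0 * C + x / 2)) +
        (4 * h0 - 3) * (X - (C / 2 - h0 * x)) := by
  have e := ker_c1W_aff hs h2 h1 (fun h3 => hx.trans (seca_sine h hT h3.le)) a b
  have e' : kA s X T = Gx T - 2 * (T - h0) + (4 * h0 - 3) * X := e
  rw [e', seca_Gu0 h (by linarith)]
  ring

theorem seca_eq2 {s C x X T : ℝ} (hs : 0 < s) (hs1 : s ≤ 11 / 400) (h : Rot C x)
    (hx : 4 * s ≤ x) (hT : h0 * C + x / 2 ≤ T) (h2 : T ≤ h0 + 2 * s)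
    (a : c1 T ≤ X) (b : X ≤ Wc T) :
    kA s X T - (1 / x - 2) * (T - h0) =
      Gx T - Gu (h0 * C + x / 2) - 1 / x * (T - (h0 * C + x / 2)) +
        (4 * h0 - 3) * (c1 T - (C / 2 - h0 * x)) + pinU par s * (X - c1 T) := by
  have hh := h0_pos
  obtain ⟨b1, b2⟩ := h0_bd
  have t0 := seca_T0 hs hs1 h hx
  have T1 : T < 1 := by linarith
  have e := ker_c1W (s := s) (by linarith : h0 ≤ T) (by linarith : T < 3 * h0 / 2) a b
  have z1 : 1 < (T - h0) / s := by
    rw [lt_div_iff₀ hs]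
    linarith
  have z2 : (T - h0) / s ≤ 2 := by
    rw [div_le_iff₀ hs]
    linarith
  have e1 : slU par s ((T - h0) / s) = pinU par s := by
    unfold slU
    rw [if_neg (by linarith), if_pos z2]
  have e2 : R1x s T = R1 par s T := if_pos T1
  have e3 := R1_up hs (by linarith : h0 ≤ T) T1.le (hx.trans (seca_sine h hT T1.le))
  have e4 : Gx T = Gu T := if_pos T1.le
  have e' : kA s X T = R1 par s T + pinU par s * (X - c1 T) := by
    rw [← e2, ← e1]
    exact e
  rw [e', seca_Gu0 h (by linarith), e4]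
  unfold Gu
  linear_combination e3

/-- The signed distance. -/
theorem seca_tau {s C x X T : ℝ} (hs : 0 < s) (hs1 : s ≤ 11 / 400) (h : Rot C x)
    (hx : 4 * s ≤ x) (hN : Nr s (C / 2 - h0 * x) (h0 * C + x / 2) X T)
    (hT : h0 * C + x / 2 ≤ T) :
    T < 3 * h0 / 2 ∧ T ≤ h0 + 9 / 25 ∧ tau T = T - h0 ∧ T - (h0 * C + x / 2) ≤ 79 / 10 * s := by
  have hh := h0_pos
  obtain ⟨b1, b2⟩ := h0_bd
  obtain ⟨e1, e2, e3, e4, e5, e6⟩ := n60_facts h
  obtain ⟨n1, n2⟩ := hN.abs hs
  have t0 := seca_T0 hs hs1 h hx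
  have n3 := (abs_le.1 n2).2
  have k : T < 3 * h0 / 2 := by linarith
  exact ⟨k, by linarith, tau_mi (by linarith) k, n3⟩

/-- `W` lies right of the circle node. -/
theorem seca_W0 {s C x X T : ℝ} (hs : 0 < s) (hs1 : s ≤ 11 / 400) (h : Rot C x)
    (hx : 4 * s ≤ x) (hN : Nr s (C / 2 - h0 * x) (h0 * C + x / 2) X T)
    (hT : h0 * C + x / 2 ≤ T) : C / 2 - h0 * x ≤ Wc T := by
  have hh := h0_pos
  obtain ⟨b1, b2⟩ := h0_bd
  obtain ⟨e1, e2, e3, e4, e5, e6⟩ := n60_facts h
  obtain ⟨k1, k2, k3, k4⟩ := seca_tau hs hs1 h hx hN hT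
  have t0 := seca_T0 hs hs1 h hx
  have w := (seca_Wc' (by linarith : h0 ≤ T) k2).1
  have hC := h.C1
  have d : T - h0 ≤ 5 / 2 * x := by
    have : x * (1 / 2 - h0 * x / (1 + C)) ≤ x * (1 / 2) := by
      refine mul_le_mul_of_nonneg_left ?_ (by linarith)
      have : 0 ≤ h0 * x / (1 + C) := by
        have : 0 < 1 + C := by linarith [h.C0]
        have : 0 ≤ x := by linarith
        positivity
      linarith
    linarith
  have d0 : 0 ≤ T - h0 := by linarith
  have : 54 / 100 * (T - h0) ^ 2 ≤ h0 * x := by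
    have : (T - h0) ^ 2 ≤ 9 / 25 * (5 / 2 * x) := by
      rw [pow_two]
      exact mul_le_mul (by linarith) d d0 (by norm_num)
    nlinarith
  linarith

/-- The next node lies beyond the ball. -/
theorem seca_next {s C x X T : ℝ} (hs : 0 < s) (hs1 : s ≤ 11 / 400) (h : Rot C x)
    (hx : 4 * s ≤ x) (hN : Nr s (C / 2 - h0 * x) (h0 * C + x / 2) X T)
    (hT : h0 * C + x / 2 ≤ T) : X ≤ Wc T + 3 / 20 * (c3 T - Wc T) := by
  have hh := h0_pos
  have hq := h0_sq'
  obtain ⟨b1, b2⟩ := h0_bd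
  obtain ⟨e1, e2, e3, e4, e5, e6⟩ := n60_facts h
  obtain ⟨k1, k2, k3, k4⟩ := seca_tau hs hs1 h hx hN hT
  have t0 := seca_T0 hs hs1 h hx
  have x0 : 0 ≤ x := by linarith
  have w := (seca_Wc' (by linarith : h0 ≤ T) k2).1
  obtain ⟨-, -, -, hC⟩ := half_bd h.Ch x0 h.sq
  have d : T - h0 ≤ x / 2 + (T - (h0 * C + x / 2)) := by
    have : x * (1 / 2 - h0 * x / (1 + C)) ≤ x * (1 / 2) := by
      refine mul_le_mul_of_nonneg_left ?_ x0
      have : 0 ≤ h0 * x / (1 + C) := by
        have : 0 < 1 + C := by linarith [h.C0]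
        positivity
      linarith
    linarith
  have d0 : 0 ≤ T - h0 := by linarith
  have c : 3 / 2 - 77 / 100 * (T - h0) ≤ c3 T := by
    unfold c3
    refine Real.le_sqrt_of_sq_le ?_
    nlinarith
  unfold Nr at hN
  obtain ⟨a, ha⟩ : ∃ a, a = X - (C / 2 - h0 * x) := ⟨_, rfl⟩
  obtain ⟨b, hb⟩ : ∃ b, b = T - (h0 * C + x / 2) := ⟨_, rfl⟩
  rw [← ha, ← hb] at hN
  rw [← hb] at d k4
  have b0 : 0 ≤ b := by linarith
  have m : a + 2153 / 10000 * b ≤ 809 / 100 * s := by
    refine le_of_sq2 (by linarith) ?_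
    nlinarith [sq_nonneg (2153 / 10000 * a - b)]
  have q : (T - h0) ^ 2 ≤ (x / 2 + b) ^ 2 := pow_le_pow_left₀ d0 d 2
  have hx1 := h.hi
  have bb : b ≤ 2173 / 10000 := by linarith
  have f : a ≤ 15 / 100 + h0 * x - 1155 / 10000 * (x / 2 + b) - 459 / 1000 * (x / 2 + b) ^ 2 := by
    have g1 : x * b ≤ x * (2173 / 10000) := mul_le_mul_of_nonneg_left bb x0
    have g2 : b * b ≤ b * (2173 / 10000) := mul_le_mul_of_nonneg_left bb b0
    have g3 : 86602 / 100000 * x ≤ h0 * x := mul_le_mul_of_nonneg_right b1.le x0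
    rcases le_or_gt x (1 / 5) with hc | hc
    · have g4 : x * x ≤ x * (1 / 5) := mul_le_mul_of_nonneg_left hc x0
      nlinarith
    · have g4 : x * x ≤ x * (1 / 2) := mul_le_mul_of_nonneg_left hx1 x0
      nlinarith
  nlinarith

/-! ### Negative abscissas -/

theorem seca_negf {s C x X T : ℝ} (hs : 0 < s) (hs1 : s ≤ 11 / 400) (h : Rot C x)
    (hx : 4 * s ≤ x) (hN : Nr s (C / 2 - h0 * x) (h0 * C + x / 2) X T)
    (hT : h0 * C + x / 2 ≤ T) (hX : X < 0) :
    5 * s ≤ x ∧ h0 + 4 * s ≤ h0 * C + x / 2 ∧ -X ≤ Wc T := by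
  have hh := h0_pos
  have hq := h0_sq'
  obtain ⟨b1, b2⟩ := h0_bd
  obtain ⟨e1, e2, e3, e4, e5, e6⟩ := n60_facts h
  obtain ⟨k1, k2, k3, k4⟩ := seca_tau hs hs1 h hx hN hT
  have t0 := seca_T0 hs hs1 h hx
  have x0 : 0 ≤ x := by linarith
  have w := (seca_Wc' (by linarith : h0 ≤ T) k2).1
  obtain ⟨-, -, hC, -⟩ := half_bd h.Ch x0 h.sq
  have n1 := (abs_le.1 (hN.abs hs).1).1
  have c0 := c1_nonneg (h0 * C + x / 2)
  rw [e1] at c0
  have sq : (C / 2 - h0 * x) ^ 2 + (h0 * C + x / 2) ^ 2 = 1 := by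
    linear_combination (C ^ 2 + x ^ 2) * hq + h.sq
  refine ⟨?_, ?_, ?_⟩
  · by_contra hc
    rw [not_le] at hc
    nlinarith
  · refine le_of_sq2 (by linarith) ?_
    have : (C / 2 - h0 * x) ^ 2 ≤ (79 / 10 * s) ^ 2 := pow_le_pow_left₀ c0 (by linarith) 2
    nlinarith
  · nlinarith

theorem seca_taper {z : ℝ} (h : 4 ≤ z) : taper z = 0 := by
  unfold taper
  rw [if_neg (by linarith)]
  split_ifs with h5
  · rw [le_antisymm h5 h, pl_right (by norm_num)]
  · rfl

theorem seca_xW {s z : ℝ} (h : 5 / 2 ≤ z) : xW par s z = 0 := by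
  unfold xW
  rw [if_neg (by linarith)]
  split_ifs with h5
  · rw [le_antisymm h5 h, pl_right (by norm_num)]
  · rfl

/-- The level at the circle node at a height above. -/
theorem seca_X1 {s C x T : ℝ} (hs : 0 < s) (h : Rot C x)
    (hx : 4 * s ≤ x) (hT : h0 * C + x / 2 ≤ T) (h0T : h0 ≤ T) (h1 : T < 1) :
    s ^ 2 * X1 par s T = -lvl s (T / 2 - h0 * c1 T) := by
  have hh := h0_pos
  have g1 := h0_gt
  have k := hx.trans (seca_sine h hT h1.le)
  unfold X1 lvl
  rw [if_neg (by linarith), if_neg h0T.not_gt, xA_far hs k]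
  ring

/-- The kernel right of the unit circle at the other side. -/
theorem seca_neg_p {s C x X T : ℝ} (hs : 0 < s) (h : Rot C x)
    (hx : 4 * s ≤ x) (hT : h0 * C + x / 2 ≤ T) (h1 : T < 3 * h0 / 2) (h2 : h0 + 2 * s < T)
    (a : c1 T ≤ X) (b : X ≤ Wc T) : 0 ≤ kA s X T ∧ kA s X T ≤ X := by
  have hh := h0_pos
  obtain ⟨b1, b2⟩ := h0_bd
  have e := ker_c1W (s := s) (by linarith : h0 ≤ T) h1 a b
  have z1 : 2 < (T - h0) / s := by
    rw [lt_div_iff₀ hs]
    linarith
  have e1 : slU par s ((T - h0) / s) = 4 * h0 - 3 := by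
    unfold slU
    rw [if_neg (by linarith), if_neg (by linarith)]
  have e' : kA s X T = R1x s T + (4 * h0 - 3) * (X - c1 T) := by
    rw [← e1]
    exact e
  rw [e']
  have k : 0 ≤ R1x s T ∧ R1x s T ≤ c1 T := by
    rcases lt_or_ge T 1 with h3 | h3
    · have F := tu_facts (by linarith : h0 ≤ T) h3.le
      have R : Rot (c1 T / 2 + h0 * T) (T / 2 - h0 * c1 T) :=
        ⟨hh.le.trans F.C0, F.sq, by linarith [F.x0], F.x1⟩
      have P := seca_P R F.x0
      rw [← F.ec] at P
      have e2 : R1x s T = (1 - 2 * (T / 2 - h0 * c1 T)) *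
          (1 / 2 - h0 * (T / 2 - h0 * c1 T) / (1 + (c1 T / 2 + h0 * T))) := by
        unfold R1x R1
        rw [if_pos h3, if_neg (by linarith), if_neg (by linarith), abs_of_nonneg F.x0,
          RA_eq hs (hx.trans (seca_sine h hT h3.le))]
      rw [e2]
      exact P
    · have e2 : R1x s T = 0 := if_neg h3.not_gt
      rw [e2]
      exact ⟨le_rfl, c1_nonneg T⟩
  have m := mul_nonneg (by linarith : 0 ≤ 4 * h0 - 3) (sub_nonneg.2 a)
  have m2 := mul_nonneg (by linarith : 0 ≤ 1 - (4 * h0 - 3)) (sub_nonneg.2 a)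
  constructor
  · linarith [k.1]
  · linarith [k.2]

/-! ### The bounds -/

/-- An admissible point is right of the circle. -/
theorem seca_adm {X T : ℝ} (hA : Ann X T) (hX : 0 ≤ X) : c1 T ≤ X := by
  unfold c1
  refine Real.sqrt_le_iff.2 ⟨hX, ?_⟩
  linarith [hA.lo]

theorem seca_A_neg {s C x X T : ℝ} (hs : 0 < s) (hs1 : s ≤ 11 / 400) (h : Rot C x)
    (hx : 4 * s ≤ x) (hA : Ann X T) (hN : Nr s (C / 2 - h0 * x) (h0 * C + x / 2) X T)
    (hT : h0 * C + x / 2 ≤ T) (hX : X < 0) :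
    |kA s X T - (1 / x - 2) * tau T| ≤
      (1 / x) * |T - (h0 * C + x / 2)| + |X - (C / 2 - h0 * x)| := by
  have hh := h0_pos
  obtain ⟨e1, e2, e3, e4, e5, e6⟩ := n60_facts h
  obtain ⟨k1, k2, k3, k4⟩ := seca_tau hs hs1 h hx hN hT
  obtain ⟨n1, n2, n3⟩ := seca_negf hs hs1 h hx hN hT hX
  have x0 : 0 < x := by linarith
  have hA' : Ann (-X) T := ⟨hA.T0, by rw [neg_sq]; exact hA.lo, by rw [neg_sq]; exact hA.hi⟩
  have p := seca_neg_p hs h hx hT k1 (by linarith) (seca_adm hA' (by linarith)) n3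
  have c0 := c1_nonneg (h0 * C + x / 2)
  rw [e1] at c0
  obtain ⟨P1, P2⟩ := seca_P h x0.le
  have ek : (1 / x - 2) * (T - h0) = (1 / x - 2) * (T - (h0 * C + x / 2)) +
      (1 - 2 * x) * (1 / 2 - h0 * x / (1 + C)) := by
    have : (1 / x - 2) * (h0 * C + x / 2 - h0) = (1 - 2 * x) * (1 / 2 - h0 * x / (1 + C)) := by
      rw [e6]
      field_simp
    rw [← this]
    ring
  have ix : 2 ≤ 1 / x := by
    rw [le_div_iff₀ x0]
    linarith [h.hi]
  have m := mul_nonneg (by linarith : 0 ≤ 1 / x - 2) (sub_nonneg.2 hT)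
  have e7 : kA s X T = -kA s (-X) T := by rw [kA_neg, neg_neg]
  rw [k3, e7, ek, abs_of_nonneg (sub_nonneg.2 hT), abs_of_neg (by linarith : X - (C / 2 - h0 * x) < 0),
    abs_of_nonpos (by linarith [p.1])]
  nlinarith [p.2]

/-- The distance of the circles at two heights. -/
theorem seca_Dq {C x T q : ℝ} (h : Rot C x) (hT : h0 * C + x / 2 ≤ T) (h1 : T < 1)
    (hq : T ≤ q * c1 T) : C / 2 - h0 * x - c1 T ≤ q * (T - (h0 * C + x / 2)) ∧
      0 ≤ C / 2 - h0 * x - c1 T := by
  have hh := h0_pos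
  obtain ⟨e1, e2, e3, e4, e5, e6⟩ := n60_facts h
  obtain ⟨a, b⟩ := seca_D (by linarith) hT h1.le
  rw [e1] at a b
  have c : 0 < c1 T := by
    have := c1_pos (t := T) (by linarith) h1
    exact this
  refine ⟨?_, by linarith⟩
  refine le_of_mul_le_mul_left ?_ c
  have := mul_le_mul_of_nonneg_right hq (sub_nonneg.2 hT)
  linarith

theorem seca_A1 {s C x X T : ℝ} (hs : 0 < s) (hs1 : s ≤ 11 / 400) (h : Rot C x)
    (hx : 4 * s ≤ x) (hA : Ann X T) (hN : Nr s (C / 2 - h0 * x) (h0 * C + x / 2) X T)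
    (hT : h0 * C + x / 2 ≤ T) (h2 : h0 + 2 * s < T) :
    |kA s X T - (1 / x - 2) * tau T| ≤
      (1 / x + 1 / 2) * |T - (h0 * C + x / 2)| + 1 * |X - (C / 2 - h0 * x)| := by
  rcases lt_or_ge X 0 with hX | hX
  · refine (seca_A_neg hs hs1 h hx hA hN hT hX).trans ?_
    have := abs_nonneg (T - (h0 * C + x / 2))
    nlinarith
  have hh := h0_pos
  obtain ⟨b1, b2⟩ := h0_bd
  obtain ⟨e1, e2, e3, e4, e5, e6⟩ := n60_facts h
  obtain ⟨k1, k2, k3, k4⟩ := seca_tau hs hs1 h hx hN hT
  have t0 := seca_T0 hs hs1 h hx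
  have x0 : 0 < x := by linarith
  have G := abs_le.1 (seca_G (by linarith) e3 hT x0 h.hi)
  have hd : 0 ≤ T - (h0 * C + x / 2) := sub_nonneg.2 hT
  have a := seca_adm hA hX
  have w := seca_W0 hs hs1 h hx hN hT
  rw [k3, abs_of_nonneg hd, one_mul]
  rcases le_or_gt X (Wc T) with b | b
  · rw [seca_eq1 hs h hx hT k1 h2 a b]
    have m := abs_le.1 (le_refl |X - (C / 2 - h0 * x)|)
    have m0 := abs_nonneg (X - (C / 2 - h0 * x))
    rw [abs_le]
    constructor <;> nlinarith [G.1, G.2, m.1, m.2]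
  · have cW : c1 T ≤ Wc T := by
      rcases le_or_gt T 1 with h3 | h3
      · have := seca_Wc1 (by linarith : h0 ≤ T) h3
        nlinarith
      · rw [c1_zero h3.le]
        have := c1_nonneg (h0 * C + x / 2)
        linarith
    have r := (seca_right (s := s) (by linarith : h0 ≤ T) k1 b.le (seca_next hs hs1 h hx hN hT)
      cW).1
    have e := seca_eq1 hs h hx hT k1 h2 cW le_rfl
    rw [r, show kA s (Wc T) T + 353 / 500 * (X - Wc T) - (1 / x - 2) * (T - h0) =
      kA s (Wc T) T - (1 / x - 2) * (T - h0) + 353 / 500 * (X - Wc T) by ring, e,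
      abs_of_nonneg (by linarith : 0 ≤ X - (C / 2 - h0 * x))]
    have m1 := mul_nonneg (by linarith : 0 ≤ 4 * h0 - 3) (sub_nonneg.2 w)
    have m2 := mul_nonneg (by linarith : 0 ≤ 1 - (4 * h0 - 3)) (sub_nonneg.2 w)
    rw [abs_le]
    constructor <;> linarith [G.1, G.2]

theorem seca_A2 {s C x X T : ℝ} (hs : 0 < s) (hs1 : s ≤ 11 / 400) (h : Rot C x)
    (hx : 4 * s ≤ x) (hA : Ann X T) (hN : Nr s (C / 2 - h0 * x) (h0 * C + x / 2) X T)
    (hT : h0 * C + x / 2 ≤ T) :
    |kA s X T - (1 / x - 2) * tau T| ≤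
      (1 / x + 3) * |T - (h0 * C + x / 2)| + 1 * |X - (C / 2 - h0 * x)| := by
  rcases lt_or_ge (h0 + 2 * s) T with h2 | h2
  · refine (seca_A1 hs hs1 h hx hA hN hT h2).trans ?_
    have := abs_nonneg (T - (h0 * C + x / 2))
    nlinarith
  have hh := h0_pos
  obtain ⟨b1, b2⟩ := h0_bd
  obtain ⟨e1, e2, e3, e4, e5, e6⟩ := n60_facts h
  obtain ⟨k1, k2, k3, k4⟩ := seca_tau hs hs1 h hx hN hT
  have t0 := seca_T0 hs hs1 h hx
  have x0 : 0 < x := by linarith
  have G := abs_le.1 (seca_G (by linarith) e3 hT x0 h.hi)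
  have hd : 0 ≤ T - (h0 * C + x / 2) := sub_nonneg.2 hT
  have hX : 0 ≤ X := by
    by_contra hX
    rw [not_le] at hX
    have := (seca_negf hs hs1 h hx hN hT hX).2.1
    linarith
  have a := seca_adm hA hX
  have w := seca_W0 hs hs1 h hx hN hT
  have T1 : T < 1 := by linarith
  obtain ⟨D1, D0⟩ := seca_Dq (q := 5 / 2) h hT T1
    (seca_slope (a := 92104 / 100000) (by linarith) (by linarith) (by norm_num) (by norm_num)
      (by norm_num))
  obtain ⟨p1, p2⟩ := seca_pin hs hs1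
  rw [k3, abs_of_nonneg hd, one_mul]
  rcases le_or_gt X (Wc T) with b | b
  · rw [seca_eq2 hs hs1 h hx hT h2 a b]
    have m := abs_le.1 (le_refl |X - (C / 2 - h0 * x)|)
    have m0 := abs_nonneg (X - (C / 2 - h0 * x))
    have m1 := mul_nonneg (by linarith : 0 ≤ 1 - pinU par s) (sub_nonneg.2 a)
    have m2 := mul_nonneg (by linarith : 0 ≤ pinU par s + 1 / 20) (sub_nonneg.2 a)
    have m3 := mul_nonneg (by linarith : 0 ≤ 4 * h0 - 3) D0
    have m4 := mul_nonneg (by linarith : 0 ≤ 1 / 2 - (4 * h0 - 3)) D0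
    rw [abs_le]
    constructor <;> linarith [G.1, G.2, m.1, m.2]
  · have cW : c1 T ≤ Wc T := by
      have := seca_Wc1 (by linarith : h0 ≤ T) T1.le
      nlinarith
    have r := (seca_right (s := s) (by linarith : h0 ≤ T) k1 b.le (seca_next hs hs1 h hx hN hT)
      cW).1
    have e := seca_eq2 hs hs1 h hx hT h2 cW le_rfl
    rw [r, show kA s (Wc T) T + 353 / 500 * (X - Wc T) - (1 / x - 2) * (T - h0) =
      kA s (Wc T) T - (1 / x - 2) * (T - h0) + 353 / 500 * (X - Wc T) by ring, e,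
      abs_of_nonneg (by linarith : 0 ≤ X - (C / 2 - h0 * x))]
    have m1 := mul_nonneg (by linarith : 0 ≤ 1 - pinU par s) (sub_nonneg.2 cW)
    have m2 := mul_nonneg (by linarith : 0 ≤ pinU par s + 1 / 20) (sub_nonneg.2 cW)
    have m3 := mul_nonneg (by linarith : 0 ≤ 4 * h0 - 3) D0
    have m4 := mul_nonneg (by linarith : 0 ≤ 1 / 2 - (4 * h0 - 3)) D0
    rw [abs_le]
    constructor <;> linarith [G.1, G.2]

/-! ### The weight of the second node -/

theorem seca_w {s C x X T : ℝ} (hs : 0 < s) (hs1 : s ≤ 11 / 400) (h : Rot C x)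
    (hx : 4 * s ≤ x) (hA : Ann X T) (hN : Nr s (C / 2 - h0 * x) (h0 * C + x / 2) X T)
    (hT : h0 * C + x / 2 ≤ T) (h1 : T < 1) (hX : 0 ≤ X) :
    ∃ w : ℝ, 0 ≤ w ∧ w ≤ 1 ∧
      173 / 100 * ((T - h0) * w) ≤ |X - (C / 2 - h0 * x)| + (C / 2 - h0 * x - c1 T) ∧
      kR s X T = (r2 par s + r2d par s) * taper ((T - h0) / s) * w ∧
      kX s X T = -lvl s (T / 2 - h0 * c1 T) * (1 - w) + s ^ 2 * xW par s ((T - h0) / s) * w := by
  have hh := h0_pos
  obtain ⟨k1, k2, k3, k4⟩ := seca_tau hs hs1 h hx hN hT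
  have t0 := seca_T0 hs hs1 h hx
  have a := seca_adm hA hX
  have W := seca_Wc1 (by linarith : h0 ≤ T) h1.le
  have d0 : 0 < Wc T - c1 T := by nlinarith
  have ab := le_abs_self (X - (C / 2 - h0 * x))
  have e1 := seca_X1 hs h hx hT (by linarith) h1
  rcases le_or_gt X (Wc T) with b | b
  · obtain ⟨l1, l2⟩ := seca_left (s := s) (by linarith : h0 ≤ T) k1 a b
    rw [if_pos h1] at l2
    obtain ⟨w, hw⟩ : ∃ w, w = (X - c1 T) / (Wc T - c1 T) := ⟨_, rfl⟩
    have w0 : 0 ≤ w := by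
      rw [hw]
      exact div_nonneg (by linarith) d0.le
    have w1 : w * (Wc T - c1 T) = X - c1 T := by
      rw [hw]
      exact div_mul_cancel₀ _ d0.ne'
    rw [← hw] at l1 l2
    refine ⟨w, w0, ?_, ?_, l1, ?_⟩
    · rw [hw, div_le_one d0]
      linarith
    · have := mul_le_mul_of_nonneg_left W w0
      linarith
    · rw [l2]
      linear_combination (1 - w) * e1
  · obtain ⟨-, l1, l2⟩ := seca_right (s := s) (by linarith : h0 ≤ T) k1 b.le
      (seca_next hs hs1 h hx hN hT) (by linarith)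
    refine ⟨1, zero_le_one, le_rfl, ?_, ?_, ?_⟩
    · linarith
    · rw [l1]
      ring
    · rw [l2]
      ring

/-- The second kernel. -/
theorem seca_R {s C x X T : ℝ} (hs : 0 < s) (hs1 : s ≤ 11 / 400) (h : Rot C x)
    (hx : 4 * s ≤ x) (hA : Ann X T) (hN : Nr s (C / 2 - h0 * x) (h0 * C + x / 2) X T)
    (hT : h0 * C + x / 2 ≤ T) :
    s * |kR s X T| ≤ 1 / 16 * (|T - (h0 * C + x / 2)| + |X - (C / 2 - h0 * x)|) := by
  have hh := h0_pos
  obtain ⟨b1, b2⟩ := h0_bd
  obtain ⟨k1, k2, k3, k4⟩ := seca_tau hs hs1 h hx hN hT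
  have t0 := seca_T0 hs hs1 h hx
  have r0 : 0 ≤ 1 / 16 * (|T - (h0 * C + x / 2)| + |X - (C / 2 - h0 * x)|) := by positivity
  have tz : h0 + 4 * s ≤ T → taper ((T - h0) / s) = 0 := by
    intro h4
    refine seca_taper ?_
    rw [le_div_iff₀ hs]
    linarith
  rcases lt_or_ge X 0 with hX | hX
  · obtain ⟨n1, n2, n3⟩ := seca_negf hs hs1 h hx hN hT hX
    have hA' : Ann (-X) T := ⟨hA.T0, by rw [neg_sq]; exact hA.lo, by rw [neg_sq]; exact hA.hi⟩
    have l := (seca_left (s := s) (by linarith : h0 ≤ T) k1 (seca_adm hA' (by linarith)) n3).1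
    rw [tz (by linarith)] at l
    have : kR s X T = 0 := by
      have e : kR s X T = -kR s (-X) T := by rw [kR_neg, neg_neg]
      rw [e, l]
      ring
    rw [this, abs_zero, mul_zero]
    exact r0
  · rcases le_or_gt (h0 + 4 * s) T with h4 | h4
    · have e : kR s X T = 0 := by
        rcases le_or_gt X (Wc T) with b | b
        · rw [(seca_left (s := s) (by linarith : h0 ≤ T) k1 (seca_adm hA hX) b).1, tz h4]
          ring
        · have cW : c1 T ≤ Wc T := by
            rcases le_or_gt T 1 with h3 | h3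
            · have := seca_Wc1 (by linarith : h0 ≤ T) h3
              nlinarith
            · rw [c1_zero h3.le]
              have w := seca_W0 hs hs1 h hx hN hT
              have := c1_nonneg (h0 * C + x / 2)
              rw [(n60_facts h).1] at this
              linarith
          rw [(seca_right (s := s) (by linarith : h0 ≤ T) k1 b.le
            (seca_next hs hs1 h hx hN hT) cW).2.1, tz h4]
          ring
      rw [e, abs_zero, mul_zero]
      exact r0
    · have T1 : T < 1 := by linarith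
      obtain ⟨w, w0, w1, w2, w3, -⟩ := seca_w hs hs1 h hx hA hN hT T1 hX
      obtain ⟨q0, q1⟩ := seca_rho hs hs1
      have z1 : 1 < (T - h0) / s := by
        rw [lt_div_iff₀ hs]
        linarith
      have z4 : (T - h0) / s ≤ 4 := by
        rw [div_le_iff₀ hs]
        linarith
      have et : s * taper ((T - h0) / s) = (4 * s - (T - h0)) / 3 := by
        unfold taper
        rw [if_neg (by linarith), if_pos z4]
        unfold pl
        field_simp
        ring
      have hd : 0 ≤ T - (h0 * C + x / 2) := sub_nonneg.2 hT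
      have p0 : 0 ≤ (4 * s - (T - h0)) / 3 := by linarith
      have ek : s * |kR s X T| = (r2 par s + r2d par s) * ((4 * s - (T - h0)) / 3) * w := by
        have : 0 ≤ kR s X T := by
          rw [w3]
          refine mul_nonneg (mul_nonneg q0 ?_) w0
          by_contra hc
          rw [not_le] at hc
          have := mul_neg_of_pos_of_neg hs hc
          linarith
        rw [abs_of_nonneg this, w3, ← et]
        ring
      have m0 : 0 ≤ (4 * s - (T - h0)) * w := mul_nonneg (by linarith) w0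
      have m1 : s * |kR s X T| ≤ 17 / 500 * ((4 * s - (T - h0)) * w) := by
        rw [ek]
        have := mul_le_mul_of_nonneg_right q1 m0
        linarith
      have aX := abs_nonneg (X - (C / 2 - h0 * x))
      have t9 : 0 ≤ (T - h0) * w := mul_nonneg (by linarith) w0
      rw [abs_of_nonneg hd]
      rcases le_or_gt (T - h0) (605 / 10000) with c | c
      · obtain ⟨D1, D0⟩ := seca_Dq (q := 5 / 2) h hT T1
          (seca_slope (a := 92653 / 100000) (by linarith) (by linarith) (by norm_num)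
            (by norm_num) (by norm_num))
        have m2 : (4 * s - (T - h0)) * w ≤ 11 / 9 * ((T - h0) * w) := by
          have := mul_le_mul_of_nonneg_right
            (by linarith : 4 * s - (T - h0) ≤ 11 / 9 * (T - h0)) w0
          linarith
        linarith
      · rcases le_or_gt (T - h0) (825 / 10000) with c' | c'
        · obtain ⟨D1, D0⟩ := seca_Dq (q := 3) h hT T1
            (seca_slope (a := 94853 / 100000) (by linarith) (by linarith) (by norm_num)
              (by norm_num) (by norm_num))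
          have m2 : (4 * s - (T - h0)) * w ≤ 9 / 11 * ((T - h0) * w) := by
            have := mul_le_mul_of_nonneg_right
              (by linarith : 4 * s - (T - h0) ≤ 9 / 11 * (T - h0)) w0
            linarith
          linarith
        · obtain ⟨D1, D0⟩ := seca_Dq (q := 9 / 2) h hT T1
            (seca_slope (a := 97603 / 100000) (by linarith) (by linarith) (by norm_num)
              (by norm_num) (by norm_num))
          have m2 : (4 * s - (T - h0)) * w ≤ 1 / 3 * ((T - h0) * w) := by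
            have := mul_le_mul_of_nonneg_right
              (by linarith : 4 * s - (T - h0) ≤ 1 / 3 * (T - h0)) w0
            linarith
          linarith

/-- The level at one of the two sides of the annulus. -/
theorem seca_Xz {s C x X T : ℝ} (hs : 0 < s) (hs1 : s ≤ 11 / 400) (h : Rot C x)
    (hx : 4 * s ≤ x) (hA : Ann X T) (hN : Nr s (C / 2 - h0 * x) (h0 * C + x / 2) X T)
    (hT : h0 * C + x / 2 ≤ T) (hc : X < 0 ∨ 1 ≤ T) : kX s X T = 0 := by
  have hh := h0_pos
  obtain ⟨b1, b2⟩ := h0_bd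
  obtain ⟨k1, k2, k3, k4⟩ := seca_tau hs hs1 h hx hN hT
  have t0 := seca_T0 hs hs1 h hx
  have xz : h0 + 5 / 2 * s ≤ T → xW par s ((T - h0) / s) = 0 := by
    intro h4
    refine seca_xW ?_
    rw [le_div_iff₀ hs]
    linarith
  rcases lt_or_ge X 0 with hX | hX
  · obtain ⟨n1, n2, n3⟩ := seca_negf hs hs1 h hx hN hT hX
    have hA' : Ann (-X) T := ⟨hA.T0, by rw [neg_sq]; exact hA.lo, by rw [neg_sq]; exact hA.hi⟩
    have l := (seca_left (s := s) (by linarith : h0 ≤ T) k1 (seca_adm hA' (by linarith)) n3).2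
    have e1 : s ^ 2 * (if T < 1 then X1 par s T else 0) = 0 := by
      split_ifs with h3
      · rw [seca_X1 hs h hx hT (by linarith) h3,
          lvl_far hs (n1.trans (seca_sine h hT h3.le)), neg_zero]
      · ring
    rw [xz (by linarith)] at l
    have e : kX s X T = -kX s (-X) T := by rw [kX_neg, neg_neg]
    rw [e, l]
    linear_combination -(1 - (-X - c1 T) / (Wc T - c1 T)) * e1
  · have h3 : 1 ≤ T := by
      rcases hc with hc | hc
      · linarith
      · exact hc
    rcases le_or_gt X (Wc T) with b | b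
    · rw [(seca_left (s := s) (by linarith : h0 ≤ T) k1 (seca_adm hA hX) b).2,
        xz (by linarith), if_neg h3.not_gt]
      ring
    · have cW : c1 T ≤ Wc T := by
        rw [c1_zero h3]
        have w := seca_W0 hs hs1 h hx hN hT
        have := c1_nonneg (h0 * C + x / 2)
        rw [(n60_facts h).1] at this
        linarith
      rw [(seca_right (s := s) (by linarith : h0 ≤ T) k1 b.le
        (seca_next hs hs1 h hx hN hT) cW).2.2, xz (by linarith)]
      ring

/-- The table of `W` beyond `3 / 2`. -/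
theorem seca_xWb {s z : ℝ} (hs : 0 < s) (hs1 : s ≤ 11 / 400) (h : 3 / 2 < z) (h' : z ≤ 5 / 2) :
    0 ≤ xW par s z ∧ xW par s z ≤ 4 / 5 * (5 / 2 - z) := by
  obtain ⟨a1, a2⟩ := x1_bd hs hs1
  obtain ⟨b1, b2⟩ := xm_bd hs hs1
  have e : xW par s z = (x1 s + xm par s / 2) * (5 / 2 - z) := by
    unfold xW
    rw [if_neg h.not_ge, if_pos h']
    unfold pl
    ring
  rw [e]
  constructor
  · exact mul_nonneg (by linarith) (by linarith)
  · exact mul_le_mul_of_nonneg_right (by linarith) (by linarith)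

/-- The levels at two distances. -/
theorem seca_lv {s x x' : ℝ} (hs : 0 < s) (h : 4 * s ≤ x) (h' : x ≤ x') :
    lvl s x - lvl s x' ≤ 571 / 2250 * (s * (x' - x)) ∧ 0 ≤ lvl s x' ∧
      lvl s x ≤ 571 / 2250 * s ^ 2 ∧ 0 ≤ lvl s x - lvl s x' := by
  have n := lvl_nonneg hs (by linarith : 0 ≤ x')
  have hx : 0 ≤ s * (x' - x) := mul_nonneg hs.le (by linarith)
  rcases le_or_gt x (5 * s) with a | a
  · have e := lvl_mid hs (by linarith) a
    have b1 : s * (5 * s - x) ≤ s * s := mul_le_mul_of_nonneg_left (by linarith) hs.le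
    have b2 : 0 ≤ s * (5 * s - x) := mul_nonneg hs.le (by linarith)
    rcases le_or_gt x' (5 * s) with b | b
    · have e' := lvl_mid hs (by linarith) b
      refine ⟨?_, n, ?_, ?_⟩
      · rw [e, e']
        linarith
      · rw [e]
        linarith
      · rw [e, e']
        linarith
    · have e' := lvl_far hs b.le
      have b3 : 0 ≤ s * (x' - 5 * s) := mul_nonneg hs.le (by linarith)
      refine ⟨?_, n, ?_, ?_⟩
      · rw [e, e']
        linarith
      · rw [e]
        linarith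
      · rw [e, e']
        linarith
  · have e := lvl_far hs a.le
    have e' := lvl_far hs (a.le.trans h')
    rw [e, e']
    refine ⟨by linarith, le_rfl, by positivity, by linarith⟩

/-- The distance at a height above. -/
theorem seca_xx {C x T : ℝ} (h0T : h0 ≤ T) (h1 : T < 1) :
    T / 2 - h0 * c1 T - x = (T - (h0 * C + x / 2)) / 2 + h0 * (C / 2 - h0 * x - c1 T) ∧
      2 * (T - h0) ≤ T / 2 - h0 * c1 T := by
  have hh := h0_pos
  have hq := h0_sq'
  have F := tu_facts h0T h1.le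
  have R : Rot (c1 T / 2 + h0 * T) (T / 2 - h0 * c1 T) :=
    ⟨hh.le.trans F.C0, F.sq, by linarith [F.x0], F.x1⟩
  have e := (n60_facts R).2.2.2.2.2
  have e2 : h0 * (c1 T / 2 + h0 * T) + (T / 2 - h0 * c1 T) / 2 = T := by
    linear_combination T * hq
  rw [e2] at e
  constructor
  · linear_combination x * hq
  · have x0 := F.x0
    have c0 : 0 < 1 + (c1 T / 2 + h0 * T) := by linarith [F.C0]
    rw [e]
    generalize T / 2 - h0 * c1 T = z at *
    have : 0 ≤ h0 * z / (1 + (c1 T / 2 + h0 * T)) := by positivity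
    have := mul_nonneg x0 this
    linarith

/-- The third kernel. -/
theorem seca_L {s C x X T : ℝ} (hs : 0 < s) (hs1 : s ≤ 11 / 400) (h : Rot C x)
    (hx : 4 * s ≤ x) (hA : Ann X T) (hN : Nr s (C / 2 - h0 * x) (h0 * C + x / 2) X T)
    (hT : h0 * C + x / 2 ≤ T) :
    |kX s X T - -lvl s x| ≤ 1 / 25 * (|T - (h0 * C + x / 2)| + |X - (C / 2 - h0 * x)|) ∧
      (5 * s ≤ x →
        |kX s X T| ≤ 1 / 64 * (|T - (h0 * C + x / 2)| + |X - (C / 2 - h0 * x)|)) := by
  have hh := h0_pos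
  obtain ⟨b1, b2⟩ := h0_bd
  obtain ⟨k1, k2, k3, k4⟩ := seca_tau hs hs1 h hx hN hT
  have t0 := seca_T0 hs hs1 h hx
  have aX := abs_nonneg (X - (C / 2 - h0 * x))
  have hd : 0 ≤ T - (h0 * C + x / 2) := sub_nonneg.2 hT
  have x0 : 0 ≤ x := by linarith
  have TX : h0 * C + x / 2 ≤ h0 + x / 2 := by
    have := mul_le_mul_of_nonneg_left h.C1 hh.le
    linarith
  rw [abs_of_nonneg hd]
  have ss : s * s ≤ 11 / 400 * s := mul_le_mul_of_nonneg_right hs1 hs.le
  by_cases hc : X < 0 ∨ 1 ≤ T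
  · have e := seca_Xz hs hs1 h hx hA hN hT hc
    rw [e]
    refine ⟨?_, fun _ => ?_⟩
    · rw [sub_neg_eq_add, zero_add]
      rcases le_or_gt (5 * s) x with h5 | h5
      · rw [lvl_far hs h5, abs_zero]
        positivity
      · have T1 : 1 ≤ T := by
          rcases hc with hc | hc
          · have := (seca_negf hs hs1 h hx hN hT hc).1
            linarith
          · exact hc
        obtain ⟨-, n, l, -⟩ := seca_lv hs hx le_rfl
        rw [abs_of_nonneg n]
        have : 65 / 1000 ≤ T - (h0 * C + x / 2) := by linarith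
        nlinarith
    · rw [abs_zero]
      positivity
  rw [not_or, not_lt, not_le] at hc
  obtain ⟨hX, T1⟩ := hc
  obtain ⟨w, w0, w1, w2, -, w3⟩ := seca_w hs hs1 h hx hA hN hT T1 hX
  have hsi := seca_sine h hT T1.le
  obtain ⟨v1, v2, v3, v4⟩ := seca_lv hs hx hsi
  obtain ⟨y1, y2⟩ := seca_xx (C := C) (x := x) (by linarith : h0 ≤ T) T1
  have s2 : 0 ≤ s ^ 2 := sq_nonneg s
  have t9 : 0 ≤ (T - h0) * w := mul_nonneg (by linarith) w0
  have xz : h0 + 5 / 2 * s ≤ T → xW par s ((T - h0) / s) = 0 := by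
    intro h4
    refine seca_xW ?_
    rw [le_div_iff₀ hs]
    linarith
  have xb : T < h0 + 5 / 2 * s → 0 ≤ s ^ 2 * xW par s ((T - h0) / s) ∧
      s ^ 2 * xW par s ((T - h0) / s) ≤ 4 / 5 * (s * (5 / 2 * s - (T - h0))) := by
    intro h4
    have z1 : 3 / 2 < (T - h0) / s := by
      rw [lt_div_iff₀ hs]
      linarith
    have z2 : (T - h0) / s ≤ 5 / 2 := by
      rw [div_le_iff₀ hs]
      linarith
    obtain ⟨u1, u2⟩ := seca_xWb hs hs1 z1 z2
    refine ⟨mul_nonneg s2 u1, (mul_le_mul_of_nonneg_left u2 s2).trans (le_of_eq ?_)⟩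
    field_simp
  rw [sub_neg_eq_add]
  obtain ⟨Lx, hLx⟩ : ∃ L, L = lvl s x := ⟨_, rfl⟩
  obtain ⟨Ly, hLy⟩ : ∃ L, L = lvl s (T / 2 - h0 * c1 T) := ⟨_, rfl⟩
  obtain ⟨V, hV⟩ : ∃ L, L = s ^ 2 * xW par s ((T - h0) / s) := ⟨_, rfl⟩
  obtain ⟨D, hD⟩ : ∃ D, D = C / 2 - h0 * x - c1 T := ⟨_, rfl⟩
  obtain ⟨E, hE⟩ : ∃ D, D = T - (h0 * C + x / 2) := ⟨_, rfl⟩
  obtain ⟨B, hB⟩ : ∃ D, D = |X - (C / 2 - h0 * x)| := ⟨_, rfl⟩
  have Ly5 : 5 * s ≤ T / 2 - h0 * c1 T → Ly = 0 := fun h5 => by
    rw [hLy]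
    exact lvl_far hs h5
  have hV0 : 0 ≤ V := by
    rw [hV]
    rcases lt_or_ge T (h0 + 5 / 2 * s) with h4 | h4
    · exact (xb h4).1
    · rw [xz h4, mul_zero]
  rw [← hLy] at w3 v1 v2 v4
  rw [← hLx] at v1 v3 v4
  rw [← hV] at w3
  rw [← hB, ← hD] at w2
  rw [← hE, ← hD] at y1
  rw [← hE] at hd
  rw [← hB] at aX
  have ek : kX s X T + Lx = Lx - Ly + (Ly + V) * w := by
    rw [w3]
    ring
  have ek0 : 0 ≤ kX s X T + Lx := by
    rw [ek]
    have := mul_nonneg (add_nonneg v2 hV0) w0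
    linarith
  have s0 : s * (T / 2 - h0 * c1 T - x) ≤ 11 / 400 * (T / 2 - h0 * c1 T - x) :=
    mul_le_mul_of_nonneg_right hs1 (by linarith)
  rw [y1] at s0 v1
  rw [← hLx, ← hE, ← hB, abs_of_nonneg ek0, ek]
  rcases le_or_gt (T - h0) (5 / 2 * s) with c | c
  · obtain ⟨D1, D0⟩ := seca_Dq (q := 53 / 20) h hT T1
      (seca_slope (a := 93478 / 100000) (by linarith) (by linarith) (by norm_num)
        (by norm_num) (by norm_num))
    rw [← hD, ← hE] at D1
    rw [← hD] at D0
    have V1 : V ≤ 4 / 5 * (s * (5 / 2 * s - (T - h0))) := by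
      rcases lt_or_ge T (h0 + 5 / 2 * s) with h4 | h4
      · rw [hV]
        exact (xb h4).2
      · rw [hV, xz h4, mul_zero]
        have : T - h0 = 5 / 2 * s := by linarith
        rw [this]
        linarith
    have Dh : h0 * D ≤ 86603 / 100000 * D := mul_le_mul_of_nonneg_right b2.le D0
    constructor
    · have V2 : (Ly + V) * w ≤ 8138 / 10000 / (9 / 5) * (s * ((T - h0) * w)) := by
        have m1 : Ly + V ≤ 8138 / 10000 * (s * s) := by
          have : s * (5 / 2 * s - (T - h0)) ≤ s * (7 / 10 * s) :=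
            mul_le_mul_of_nonneg_left (by linarith) hs.le
          linarith
        have m2 : s * s ≤ s * (T - h0) / (9 / 5) := by
          have := mul_le_mul_of_nonneg_left (by linarith : 9 / 5 * s ≤ T - h0) hs.le
          linarith
        have := mul_le_mul_of_nonneg_right
          (m1.trans (mul_le_mul_of_nonneg_left m2 (by norm_num))) w0
        linarith
      have V3 : s * ((T - h0) * w) ≤ 11 / 400 * ((T - h0) * w) :=
        mul_le_mul_of_nonneg_right hs1 t9
      linarith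
    · intro h5
      have t2 := seca_T0' hs hs1 h h5
      have e5 := Ly5 (h5.trans hsi)
      have eX : Lx = 0 := by rw [hLx, lvl_far hs h5]
      have ek' : kX s X T = V * w := by
        rw [w3, e5]
        ring
      rw [ek', abs_of_nonneg (mul_nonneg hV0 w0)]
      have V2 : V * w ≤ 1 / 5 * (s * ((T - h0) * w)) := by
        have m1 : V ≤ 2 / 5 * (s * s) := by
          have : s * (5 / 2 * s - (T - h0)) ≤ s * (1 / 2 * s) :=
            mul_le_mul_of_nonneg_left (by linarith) hs.le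
          linarith
        have m2 : s * s ≤ s * (T - h0) / 2 := by
          have := mul_le_mul_of_nonneg_left (by linarith : 2 * s ≤ T - h0) hs.le
          linarith
        have := mul_le_mul_of_nonneg_right
          (m1.trans (mul_le_mul_of_nonneg_left m2 (by norm_num))) w0
        linarith
      have V3 : s * ((T - h0) * w) ≤ 11 / 400 * ((T - h0) * w) :=
        mul_le_mul_of_nonneg_right hs1 t9
      linarith
  · have eV : V = 0 := by rw [hV, xz (by linarith), mul_zero]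
    constructor
    · rw [eV, add_zero]
      rcases le_or_gt (T - h0) (825 / 10000) with c' | c'
      · obtain ⟨D1, D0⟩ := seca_Dq (q := 3) h hT T1
          (seca_slope (a := 94853 / 100000) (by linarith) (by linarith) (by norm_num)
            (by norm_num) (by norm_num))
        rw [← hD, ← hE] at D1
        rw [← hD] at D0
        have Dh : h0 * D ≤ 86603 / 100000 * D := mul_le_mul_of_nonneg_right b2.le D0
        have V2 : Ly * w ≤ 2538 / 10000 / (5 / 2) * (s * ((T - h0) * w)) := by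
          have m1 : Ly ≤ 2538 / 10000 * (s * s) := by linarith
          have m2 : s * s ≤ s * (T - h0) / (5 / 2) := by
            have := mul_le_mul_of_nonneg_left (by linarith : 5 / 2 * s ≤ T - h0) hs.le
            linarith
          have := mul_le_mul_of_nonneg_right
            (m1.trans (mul_le_mul_of_nonneg_left m2 (by norm_num))) w0
          linarith
        have V3 : s * ((T - h0) * w) ≤ 11 / 400 * ((T - h0) * w) :=
          mul_le_mul_of_nonneg_right hs1 t9
        linarith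
      · have e5 := Ly5 (by linarith)
        rw [e5]
        rcases le_or_gt (5 * s) x with h5 | h5
        · rw [hLx, lvl_far hs h5]
          linarith
        · have : 1 / 2 * s ≤ E := by linarith
          linarith
    · intro h5
      have e5 := Ly5 (h5.trans hsi)
      have ek' : kX s X T = 0 := by
        rw [w3, e5, eV]
        ring
      rw [ek', abs_zero]
      linarith

/-! ### The statements -/

/-- Next to the direction of 60 degrees, above. -/
theorem sec_p60 {s C x X T : ℝ} (hs : 0 < s) (hs1 : s ≤ 11 / 400) (h : Rot C x) (hx : 5 * s ≤ x)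
    (hA : Ann X T) (hN : Nr s (C / 2 - h0 * x) (h0 * C + x / 2) X T)
    (hT : h0 * C + x / 2 ≤ T) :
    Sec s (1 / x - 2) x (-lvl s x) (C / 2 - h0 * x) (h0 * C + x / 2) X T (1 / 2) 1 :=
  ⟨seca_A1 hs hs1 h (by linarith) hA hN hT ((seca_T0' hs hs1 h hx).trans_le hT),
    seca_R hs hs1 h (by linarith) hA hN hT, (seca_L hs hs1 h (by linarith) hA hN hT).1,
    (seca_L hs hs1 h (by linarith) hA hN hT).2⟩

/-- The same from `4 s` on, with larger constants. -/
theorem sec_p60' {s C x X T : ℝ} (hs : 0 < s) (hs1 : s ≤ 11 / 400) (h : Rot C x) (hx : 4 * s ≤ x)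
    (hA : Ann X T) (hN : Nr s (C / 2 - h0 * x) (h0 * C + x / 2) X T)
    (hT : h0 * C + x / 2 ≤ T) :
    Sec s (1 / x - 2) x (-lvl s x) (C / 2 - h0 * x) (h0 * C + x / 2) X T 3 1 :=
  ⟨seca_A2 hs hs1 h hx hA hN hT, seca_R hs hs1 h hx hA hN hT,
    (seca_L hs hs1 h hx hA hN hT).1, (seca_L hs hs1 h hx hA hN hT).2⟩

end Pool.Agent.Strip051.LC.E0.Out
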