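import Pool.Agent.Strip051.LC.E0.OutL

namespace Pool.Agent.Strip051.LC.E0.Out

open Pool.Agent.StripNear Pool.Agent.StripSquare Pool.Agent.Strip051 Pool.Agent.Strip051.Sweep
open Pool.Agent.Strip051.LC.Line (tau)

/-- The length of a point next to the unit circle. -/
theorem secb_norm {s X0 T0 X T : ℝ} (hs : 0 < s) (h1 : X0 ^ 2 + T0 ^ 2 = 1)
    (hN : Nr s X0 T0 X T) : X ^ 2 + T ^ 2 ≤ 1 + 2 * (79 / 10 * s) + (79 / 10 * s) ^ 2 := by
  unfold Nr at hN
  set p := X - X0 with hp
  set q := T - T0 with hq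
  have h2 : (X0 * p + T0 * q) ^ 2 ≤ (79 / 10 * s) ^ 2 := by
    have : (X0 * p + T0 * q) ^ 2 + (X0 * q - T0 * p) ^ 2 = (X0 ^ 2 + T0 ^ 2) * (p ^ 2 + q ^ 2) := by
      ring
    rw [h1, one_mul] at this
    nlinarith [sq_nonneg (X0 * q - T0 * p)]
  have h3 : X0 * p + T0 * q ≤ 79 / 10 * s := le_of_sq2 (by linarith) h2
  have e : X ^ 2 + T ^ 2 = (X0 ^ 2 + T0 ^ 2) + 2 * (X0 * p + T0 * q) + (p ^ 2 + q ^ 2) := by
    rw [hp, hq]
    ring
  rw [e, h1]
  linarith

/-- The unit circle in the coordinates next to the direction of `60` degrees. -/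
theorem secb_rot {T : ℝ} (h : 1 / 2 ≤ T) (h1 : T ≤ 1) :
    Rot (c1 T / 2 + h0 * T) (h0 * c1 T - T / 2) ∧
      T = h0 * (c1 T / 2 + h0 * T) - (h0 * c1 T - T / 2) / 2 ∧
      c1 T = (c1 T / 2 + h0 * T) / 2 + h0 * (h0 * c1 T - T / 2) := by
  have hh := h0_pos
  have hq := h0_sq'
  have c0 := c1_nonneg T
  obtain ⟨r1, r2⟩ := c1_rot (by linarith : 0 ≤ T) h1
  have ch : c1 T ≤ h0 := by
    refine le_of_sq2 hh.le ?_
    have := c1_sq (by linarith : 0 ≤ T) h1
    nlinarith
  refine ⟨⟨by positivity, by nlinarith, ?_, ?_⟩, by linear_combination (-T) * hq,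
    by linear_combination (-(c1 T)) * hq⟩
  · have := mul_nonneg hh.le c0
    linarith
  · have := mul_le_mul_of_nonneg_left ch hh.le
    nlinarith

/-- Two points of the unit circle. -/
theorem secb_diff {C x C' x' : ℝ} (h : Rot C x) (h' : Rot C' x') :
    (h0 * C' - x' / 2) - (h0 * C - x / 2) = (x - x') * (1 / 2 + h0 * ((x + x') / (C + C'))) ∧
      (C / 2 + h0 * x) - (C' / 2 + h0 * x') = (x - x') * (h0 - (x + x') / (C + C') / 2) := by
  have hh := h0_pos
  have a := h.Ch
  have a' := h'.Ch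
  have ne : C + C' ≠ 0 := by linarith
  have e : (x - x') * ((x + x') / (C + C')) = C' - C := by
    field_simp
    linear_combination h.sq - h'.sq
  constructor
  · linear_combination (-h0) * e
  · linear_combination (1 / 2) * e

theorem secb_S {C x C' x' : ℝ} (h : Rot C x) (h' : Rot C' x') (hx : 0 ≤ x + x') :
    0 ≤ (x + x') / (C + C') ∧ (x + x') / (C + C') ≤ 29 / 50 := by
  have hh := h0_pos
  have g1 := h0_gt
  have a := h.Ch
  have a' := h'.Ch
  refine ⟨div_nonneg hx (by linarith), ?_⟩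
  rw [div_le_iff₀ (by linarith)]
  have := h.hi
  have := h'.hi
  linarith

/-- The residue of the node on the unit circle. -/
theorem secb_res {s C x T : ℝ} (hs : 0 < s) (h : Rot C x) (hx : 4 * s ≤ x)
    (hT : 1 / 2 < T) (hT1 : T ≤ 1) (hp : 0 ≤ x + (h0 * c1 T - T / 2))
    (hm : -((h0 * c1 T - T / 2) * (1 - C)) ≤ x) :
    |R1 par s T + (1 / x - 2) * tau T| ≤ (1 / x + 7 / 3) * |T - (h0 * C - x / 2)| ∧
      (C / 2 + h0 * x) - c1 T ≤ 2 * h0 * |T - (h0 * C - x / 2)| := by
  have hh := h0_pos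
  have g1 := h0_gt
  have g2 := h0_lt
  obtain ⟨h', e1, e2⟩ := secb_rot hT.le hT1
  have x0 : 0 < x := by linarith
  have hx1 := h.hi
  obtain ⟨d1, d2⟩ := secb_diff h h'
  obtain ⟨S0, S1⟩ := secb_S h h' hp
  rw [← e1] at d1
  rw [← e2] at d2
  have eR : R1 par s T = RA par s |h0 * c1 T - T / 2| *
      (1 / 2 + h0 * (h0 * c1 T - T / 2) / (1 + (c1 T / 2 + h0 * T))) := by
    unfold R1
    rw [if_neg (by linarith), if_neg (by linarith), ← abs_neg (T / 2 - h0 * c1 T)]
    rw [show -(T / 2 - h0 * c1 T) = h0 * c1 T - T / 2 by ring]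
    congr 1
    ring
  have eT : tau T = -((h0 * c1 T - T / 2) *
      (1 / 2 + h0 * (h0 * c1 T - T / 2) / (1 + (c1 T / 2 + h0 * T)))) := by
    rw [tau_mi (by linarith) (by linarith)]
    have := (n60_facts h'.neg).2.2.2.2.2
    rw [show h0 * (c1 T / 2 + h0 * T) + -(h0 * c1 T - T / 2) / 2 = T by linarith] at this
    rw [this]
    ring
  rw [eR, eT]
  generalize h0 * c1 T - T / 2 = x' at *
  generalize c1 T / 2 + h0 * T = C' at *
  have a := h.Ch
  have a' := h'.Ch
  have b' := h'.abs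
  have F0 : 0 ≤ 1 / 2 + h0 * x' / (1 + C') := by
    have : -(1 / 2) ≤ h0 * x' / (1 + C') := by
      rw [le_div_iff₀ (by linarith)]
      have := h'.lo
      nlinarith
    linarith
  have F1 : 1 / 2 + h0 * x' / (1 + C') ≤ 1 / 2 + h0 * ((x + x') / (C + C')) := by
    have : x' / (1 + C') ≤ (x + x') / (C + C') := by
      rw [div_le_div_iff₀ (by linarith) (by linarith)]
      nlinarith [mul_nonneg x0.le (by linarith : 0 ≤ C')]
    have := mul_le_mul_of_nonneg_left this hh.le
    rw [mul_div_assoc]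
    linarith
  have ix : 0 < 1 / x := by positivity
  have e3 : RA par s |x'| * (1 / 2 + h0 * x' / (1 + C')) +
      (1 / x - 2) * -(x' * (1 / 2 + h0 * x' / (1 + C'))) =
      (RA par s |x'| - (1 / x - 2) * x') * (1 / 2 + h0 * x' / (1 + C')) := by ring
  rw [e3, abs_mul, abs_of_nonneg F0]
  rcases le_total x' x with h5 | h5
  · have p := psi_dn hs hx hx1 h5
    have k : 0 ≤ (x - x') * (1 / 2 + h0 * ((x + x') / (C + C'))) :=
      mul_nonneg (by linarith) (by positivity)
    rw [d1, abs_of_nonneg k]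
    constructor
    · refine (mul_le_mul p F1 F0 (mul_nonneg (by linarith) (by linarith))).trans_eq ?_
      ring
    · rw [d2]
      have h6 : (x - x') * (h0 - (x + x') / (C + C') / 2) ≤ (x - x') * h0 :=
        mul_le_mul_of_nonneg_left (by linarith) (by linarith)
      have h7 : (x - x') * h0 ≤ 2 * h0 * ((x - x') * (1 / 2 + h0 * ((x + x') / (C + C')))) := by
        have : 0 ≤ (x - x') * h0 * (h0 * ((x + x') / (C + C'))) :=
          mul_nonneg (mul_nonneg (by linarith) hh.le) (by positivity)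
        nlinarith
      linarith
  · have p := psi_up hs hx h5
    have k : 0 ≤ (x' - x) * (1 / 2 + h0 * ((x + x') / (C + C'))) :=
      mul_nonneg (by linarith) (by positivity)
    have k' : T - (h0 * C - x / 2) = -((x' - x) * (1 / 2 + h0 * ((x + x') / (C + C')))) := by
      rw [d1]
      ring
    rw [k', abs_neg, abs_of_nonneg k, p]
    constructor
    · have h6 := mul_le_mul_of_nonneg_left F1 (mul_nonneg ix.le (by linarith : 0 ≤ x' - x))
      have h7 : 0 ≤ 7 / 3 * ((x' - x) * (1 / 2 + h0 * ((x + x') / (C + C')))) := by positivity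
      nlinarith
    · rw [d2]
      have h6 : (x - x') * (h0 - (x + x') / (C + C') / 2) ≤ 0 :=
        mul_nonpos_of_nonpos_of_nonneg (by linarith) (by linarith)
      have : 0 ≤ 2 * h0 * ((x' - x) * (1 / 2 + h0 * ((x + x') / (C + C')))) := by positivity
      linarith

/-- The distance between the unit circle and `W`. -/
theorem secb_L {T : ℝ} (hT : h0 / 2 ≤ T) (h2 : T < h0) : 1 / 2 ≤ Wc T - c1 T := by
  have hh := h0_pos
  have g2 := h0_lt
  obtain ⟨w1, w2⟩ := W_dn (by linarith : 0 ≤ T) h2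
  have e := c1_sq (by linarith : 0 ≤ T) (by linarith : T ≤ 1)
  have : c1 T ≤ Wc T - 1 / 2 := by
    refine le_of_sq2 w2 ?_
    nlinarith
  linarith

theorem secb_Wu {T : ℝ} (hT : 0 ≤ T) (h2 : T < h0) : Wc T ≤ 3 / 2 - (h0 - T) ^ 2 / 2 := by
  have hh := h0_pos
  have g2 := h0_lt
  obtain ⟨w1, w2⟩ := W_dn hT h2
  have k : (h0 - T) ^ 2 ≤ 1 := by nlinarith
  have : Wc T - 1 / 2 ≤ 1 - (h0 - T) ^ 2 / 2 := by
    refine le_of_sq2 (by linarith) ?_
    nlinarith [sq_nonneg ((h0 - T) ^ 2)]
  linarith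

theorem secb_Wl {T : ℝ} (hT : 1 / 2 ≤ T) (h2 : T < h0) :
    3 / 2 - 52 / 100 * (h0 - T) ^ 2 ≤ Wc T := by
  have hh := h0_pos
  have g2 := h0_lt
  obtain ⟨w1, w2⟩ := W_dn (by linarith : 0 ≤ T) h2
  have k : (h0 - T) ^ 2 ≤ 1345 / 10000 := by nlinarith
  have k0 := sq_nonneg (h0 - T)
  have : 1 - 52 / 100 * (h0 - T) ^ 2 ≤ Wc T - 1 / 2 := by
    refine le_of_sq2 w2 ?_
    nlinarith
  linarith

theorem secb_c1 {T : ℝ} (hT : 1 / 2 ≤ T) (h2 : T ≤ h0) :
    c1 T ≤ 1 / 2 + 2 * h0 * (h0 - T) - 2 * (h0 - T) ^ 2 := by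
  have hh := h0_pos
  have g2 := h0_lt
  have hq := h0_sq'
  have e := c1_sq (by linarith : 0 ≤ T) (by linarith : T ≤ 1)
  set d := h0 - T with hd
  have d0 : 0 ≤ d := by linarith
  have d1 : d ≤ h0 - 1 / 2 := by linarith
  have eT : T = h0 - d := by linarith
  have p : 0 ≤ 1 / 2 + 2 * h0 * d - 2 * d ^ 2 := by nlinarith
  refine le_of_sq2 p ?_
  rw [eT] at e
  have q : 0 ≤ 1 - 4 * h0 * d + 2 * d ^ 2 := by nlinarith
  have r := mul_nonneg (sq_nonneg d) q
  have e2 : (1 / 2 + 2 * h0 * d - 2 * d ^ 2) ^ 2 = c1 (h0 - d) ^ 2 +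
      2 * (d ^ 2 * (1 - 4 * h0 * d + 2 * d ^ 2)) := by
    linear_combination (4 * d ^ 2 + 1) * hq - e
  rw [eT, e2]
  linarith

/-- The circle of radius `√3` below `h0`. -/
theorem secb_low {T : ℝ} (hT : h0 / 2 ≤ T) (h2 : T < h0) : ∃ y t : ℝ, 0 ≤ y ∧ y ≤ 3 / 10 ∧
    0 ≤ t ∧ t ≤ 5129 / 10000 * y ∧ h0 - T = y * (3 / 2 + h0 * t) ∧
    c3 T - 3 / 2 = y * (h0 - 3 / 2 * t) ∧ ∀ s, R3 par s T = RA par s y * (3 / 2 + h0 * t) := by
  have hh := h0_pos
  have g2 := h0_lt
  have hq := h0_sq'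
  obtain ⟨C, y, y0, y1, C1, e1, e2, e3⟩ := low_rot hT h2
  have ne : 1 + C ≠ 0 := by linarith
  have e4 : y * (y / (1 + C)) = 1 - C := by
    field_simp
    linear_combination e1
  have e5 : c3 T = 3 / 2 * C + h0 * y := by
    have e6 := c3_sq (t := T) (by nlinarith)
    have e7 := c3_nonneg T
    have e8 : T = h0 * C - 3 / 2 * y := by linarith
    have e9 : (c3 T - (3 / 2 * C + h0 * y)) * (c3 T + (3 / 2 * C + h0 * y)) = 0 := by
      have : T ^ 2 = (h0 * C - 3 / 2 * y) ^ 2 := by rw [← e8]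
      linear_combination e6 - this - (C ^ 2 + y ^ 2) * hq - 3 * e1
    have e10 : 0 ≤ h0 * y := mul_nonneg hh.le y0
    rcases mul_eq_zero.1 e9 with h | h
    · linarith
    · linarith
  refine ⟨y, y / (1 + C), y0, y1, div_nonneg y0 (by linarith), ?_, ?_, ?_, fun s => ?_⟩
  · rw [div_le_iff₀ (by linarith)]
    nlinarith
  · rw [e2]
    linear_combination (-h0) * e4
  · rw [e5]
    linear_combination (3 / 2) * e4
  · rw [e3 s, mul_div_assoc]

/-- The kernel on the unit circle, from below. -/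
theorem secb_R1 {s T : ℝ} (hs : 0 < s) (hT : 1 / 2 < T) (h2 : T < h0) :
    1 / 2 - 7 / 5 * (h0 - T) ≤ R1 par s T := by
  have hh := h0_pos
  have g1 := h0_gt
  have g2 := h0_lt
  obtain ⟨h', e1, e2⟩ := secb_rot hT.le (by linarith : T ≤ 1)
  have x0 : 0 ≤ h0 * c1 T - T / 2 := by
    have := (c1_half (by linarith : 0 ≤ T) (by linarith : T ≤ 1)).1 h2.le
    nlinarith
  have eR : R1 par s T = RA par s (h0 * c1 T - T / 2) *
      (1 / 2 + h0 * (h0 * c1 T - T / 2) / (1 + (c1 T / 2 + h0 * T))) := by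
    unfold R1
    rw [if_neg (by linarith), if_neg (by linarith), ← abs_neg (T / 2 - h0 * c1 T)]
    rw [show -(T / 2 - h0 * c1 T) = h0 * c1 T - T / 2 by ring, abs_of_nonneg x0]
    congr 1
    ring
  have eT : h0 - T = (h0 * c1 T - T / 2) *
      (1 / 2 + h0 * (h0 * c1 T - T / 2) / (1 + (c1 T / 2 + h0 * T))) := by
    have := (n60_facts h'.neg).2.2.2.2.2
    rw [show h0 * (c1 T / 2 + h0 * T) + -(h0 * c1 T - T / 2) / 2 = T by linarith] at this
    linear_combination -this
  rw [eR, eT]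
  generalize h0 * c1 T - T / 2 = x' at *
  generalize c1 T / 2 + h0 * T = C' at *
  have a' := h'.C1
  have a2 := h'.C0
  have b' := h'.hi
  have k1 : h0 * (x' / 2) ≤ h0 * x' / (1 + C') := by
    rw [le_div_iff₀ (by linarith)]
    have : 0 ≤ h0 * x' := mul_nonneg hh.le x0
    nlinarith
  set u := h0 * x' / (1 + C') with hu
  have u0 : 0 ≤ u := by positivity
  have r := RA_ge hs x0 (s := s)
  have r2 : (1 - 2 * x') * (1 / 2 + u) ≤ RA par s x' * (1 / 2 + u) :=
    mul_le_mul_of_nonneg_right r (by linarith)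
  have : 0 ≤ (1 / 2 + u) - 1 / 2 - 6 / 10 * (x' * (1 / 2 + u)) := by
    nlinarith [mul_nonneg x0 u0]
  nlinarith

/-- The value on `W` below `h0 - 2 s`. -/
theorem secb_far {s T : ℝ} (hs : 0 < s) (hT : h0 / 2 ≤ T)
    (h2 : T < h0) (h3 : 2 * s < h0 - T) : ∃ y : ℝ, 0 ≤ y ∧ y ≤ 3 / 10 ∧
    3 / 2 * y ≤ h0 - T ∧ h0 - T ≤ 3 / 2 * y + 4443 / 10000 * y ^ 2 ∧
    RW par s T ≤ 3 / 2 - 7248 / 10000 * y + 10387 / 10000 * y ^ 2 - 2 * (h0 - T) -
      27 / 40 * (h0 - T) ^ 2 + 38 / 10 * max (4 * s - y) 0 := by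
  have hh := h0_pos
  have g1 := h0_gt
  have g2 := h0_lt
  have T0 : 0 ≤ T := by linarith
  obtain ⟨y, t, y0, y1, t0, t1, ed, ec, er⟩ := secb_low hT h2
  have eRW : RW par s T = R3 par s T - slL par s ((h0 - T) / s) * (c3 T - Wc T) := by
    unfold RW
    rw [if_neg (by linarith), if_pos h2]
  have Wu := secb_Wu T0 h2
  have ht : h0 * t ≤ 4443 / 10000 * y := by
    have := mul_le_mul g2.le t1 t0 (by norm_num)
    linarith
  have ht0 : 0 ≤ h0 * t := mul_nonneg hh.le t0
  have yt : y * t ≤ 5129 / 10000 * y ^ 2 := by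
    have := mul_le_mul_of_nonneg_left t1 y0
    linarith
  have hy : 866 / 1000 * y ≤ h0 * y := mul_le_mul_of_nonneg_right (by linarith) y0
  refine ⟨y, y0, y1, ?_, ?_, ?_⟩
  · have := mul_nonneg y0 ht0
    linarith
  · have := mul_le_mul_of_nonneg_left ht y0
    linarith
  · have z : 2 < (h0 - T) / s := by
      rw [lt_div_iff₀ hs]
      linarith
    have esl : slL par s ((h0 - T) / s) = 27 / 20 := by
      unfold slL
      rw [if_neg (by linarith), if_neg (by linarith)]
      rfl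
    obtain ⟨-, b2⟩ := RA_bd hs y0 (s := s)
    have m0 := le_max_right (4 * s - y) 0
    have q1 := mul_le_mul_of_nonneg_right b2 (by linarith : 0 ≤ 3 / 2 + h0 * t)
    have q4 : max (4 * s - y) 0 * (3 / 2 + h0 * t) ≤ max (4 * s - y) 0 * (164 / 100) :=
      mul_le_mul_of_nonneg_left (by linarith) m0
    rw [eRW, esl, er]
    have q5 : RA par s y * (3 / 2 + h0 * t) ≤ 3 / 2 + h0 * t - 2 * (h0 - T) +
        2313 / 1000 * (max (4 * s - y) 0 * (164 / 100)) := by
      rw [ed]
      linarith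
    have y2 := sq_nonneg y
    linarith

/-- The values on `W` and on the unit circle. -/
theorem secb_RW {s T : ℝ} (hs : 0 < s) (hs1 : s ≤ 11 / 400) (hT : h0 / 2 ≤ T) (h2 : T < h0) :
    RW par s T - R1 par s T ≤ 3 / 2 * (Wc T - c1 T) := by
  have hh := h0_pos
  have g1 := h0_gt
  have g2 := h0_lt
  have T0 : 0 ≤ T := by linarith
  rcases le_or_gt (h0 - T) (2 * s) with h3 | h3
  · -- close to `h0`
    obtain ⟨y, t, y0, y1, t0, t1, ed, ec, er⟩ := secb_low hT h2
    have eRW : RW par s T = R3 par s T - slL par s ((h0 - T) / s) * (c3 T - Wc T) := by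
      unfold RW
      rw [if_neg (by linarith), if_pos h2]
    have Wu := secb_Wu T0 h2
    have ht : h0 * t ≤ 4443 / 10000 * y := by
      have := mul_le_mul g2.le t1 t0 (by norm_num)
      linarith
    have ht0 : 0 ≤ h0 * t := mul_nonneg hh.le t0
    have dl : 3 / 2 * y ≤ h0 - T := by
      have := mul_nonneg y0 ht0
      linarith
    have hm : 0 ≤ y * (h0 - 3 / 2 * t) := mul_nonneg y0 (by linarith)
    have k0 : 0 ≤ (h0 - T) / s := div_nonneg (by linarith) hs.le
    have sl0 := slL_nonneg hs hs1 k0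
    have r1 := secb_R1 hs (by linarith : 1 / 2 < T) h2
    have l1 := secb_c1 (by linarith : 1 / 2 ≤ T) h2.le
    have l2 := secb_Wl (by linarith : 1 / 2 ≤ T) h2
    have q1 : 0 ≤ slL par s ((h0 - T) / s) * (c3 T - Wc T) :=
      mul_nonneg sl0 (by linarith [sq_nonneg (h0 - T)])
    have q2 : R3 par s T ≤ 3 / 2 + h0 * t := by
      rw [er]
      have := mul_le_mul_of_nonneg_right (RA_le hs y0 (s := s))
        (by linarith : 0 ≤ 3 / 2 + h0 * t)
      linarith
    have a1 : 2 * h0 * (h0 - T) ≤ 1733 / 1000 * (h0 - T) :=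
      mul_le_mul_of_nonneg_right (by linarith) (by linarith)
    have a2 := sq_nonneg (h0 - T)
    linarith
  · obtain ⟨y, y0, y1, dl, du, hR⟩ := secb_far hs hT h2 h3
    have d2 : 9 / 4 * y ^ 2 ≤ (h0 - T) ^ 2 := by
      have := pow_le_pow_left₀ (by linarith : 0 ≤ 3 / 2 * y) dl 2
      linarith
    have y2 := sq_nonneg y
    rcases le_or_gt T (1 / 2) with h4 | h4
    · have r1 : -(1 - 2 * T) ≤ R1 par s T := by
        unfold R1
        rw [if_neg (by linarith), if_pos h4, RA_eq hs (by linarith)]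
        have h5 : -1 ≤ (T - h0) / T := by
          rw [le_div_iff₀ (by linarith)]
          linarith
        have := mul_le_mul_of_nonneg_left h5 (by linarith : 0 ≤ 1 - 2 * T)
        linarith
      have L := secb_L hT h2
      have yl : 22 / 100 ≤ y := by
        by_contra hc
        have hc' : y < 22 / 100 := not_le.1 hc
        have : y ^ 2 ≤ 22 / 100 * y := by nlinarith
        linarith
      rw [max_eq_right (by linarith)] at hR
      linarith
    · have r1 := secb_R1 hs h4 h2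
      have l1 := secb_c1 h4.le h2.le
      have l2 := secb_Wl h4.le h2
      have y3 := sq_nonneg (y - 248 / 1000)
      have hd : (3 * h0 - 6 / 10) * (h0 - T) ≤
          1999 / 1000 * (3 / 2 * y + 4443 / 10000 * y ^ 2) :=
        mul_le_mul (by linarith) du (by linarith) (by norm_num)
      rcases le_or_gt (4 * s) y with h5 | h5
      · rw [max_eq_right (by linarith)] at hR
        linarith
      · rw [max_eq_left (by linarith)] at hR
        linarith

theorem secb_RW' {s T : ℝ} (hs : 0 < s) (hs1 : s ≤ 11 / 400) (hT : h0 / 2 ≤ T) (h2 : T < h0) :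
    -(7 / 5) ≤ RW par s T - R1 par s T := by
  have hh := h0_pos
  have g1 := h0_gt
  have g2 := h0_lt
  have T0 : 0 ≤ T := by linarith
  have eRW : RW par s T = R3 par s T - slL par s ((h0 - T) / s) * (c3 T - Wc T) := by
    unfold RW
    rw [if_neg (by linarith), if_pos h2]
  obtain ⟨r0, -⟩ := R3_le_W hs hs1 hT h2
  obtain ⟨-, q2⟩ := slL_small hs hs1 hT h2
  have := (abs_le.1 (R1_abs hs T0 (by linarith : T ≤ 1))).2
  rw [eRW]
  linarith

/-- The distance to the unit circle is small compared with the distance of `W`. -/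
theorem secb_D {X T : ℝ} (hT : 1 / 2 ≤ T) (h2 : T < h0)
    (hn : X ^ 2 + T ^ 2 ≤ 1 + 4817 / 10000) : X - c1 T ≤ 11 / 25 * (Wc T - c1 T) := by
  have hh := h0_pos
  have g1 := h0_gt
  have g2 := h0_lt
  have T0 : 0 ≤ T := by linarith
  have T1 : T ≤ 1 := by linarith
  have hq := h0_sq'
  obtain ⟨w1, w2⟩ := W_dn T0 h2
  have e := c1_sq T0 T1
  have cl := (c1_half T0 T1).1 h2.le
  -- `W` above its chord
  have hw : 134 / 100 + 18 / 100 * T ≤ Wc T := by
    have : 84 / 100 + 18 / 100 * T ≤ Wc T - 1 / 2 := by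
      refine le_of_sq2 w2 ?_
      have k : (T - 1 / 2) * (h0 - T) ≥ 0 := mul_nonneg (by linarith) (by linarith)
      nlinarith
    linarith
  -- the unit circle below its tangent
  have hc : c1 T ≤ 125 / 100 - 75 / 100 * T := by
    nlinarith [sq_nonneg (3 / 5 * c1 T - 4 / 5 * T), sq_nonneg (4 / 5 * c1 T + 3 / 5 * T - 1)]
  by_contra hcon
  rw [not_le] at hcon
  have hZ : c1 T + 11 / 25 * (Wc T - c1 T) < X := by linarith
  have hWc : c1 T ≤ 134 / 100 + 18 / 100 * T := by linarith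
  have hZ0 : 0 ≤ c1 T + 11 / 25 * (Wc T - c1 T) := by linarith
  have hZ2 : (c1 T + 11 / 25 * (Wc T - c1 T)) ^ 2 < X ^ 2 := by
    exact pow_lt_pow_left₀ hZ hZ0 (by norm_num)
  generalize Wc T = W at *
  generalize c1 T = c at *
  have hg1 : (c + 11 / 25 * ((134 / 100 + 18 / 100 * T) - c)) ^ 2 ≤ (c + 11 / 25 * (W - c)) ^ 2 :=
    pow_le_pow_left₀ (by linarith) (by linarith) 2
  have hg2 : 0 ≤ (c - 1 / 2) * (125 / 100 - 75 / 100 * T - c) :=
    mul_nonneg (by linarith) (by linarith)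
  have hg3 : 0 ≤ (125 / 100 - 75 / 100 * T - c) * (12292 / 10000 - 13716 / 10000 * T) :=
    mul_nonneg (by linarith) (by linarith)
  have hg4 : 0 ≤ (T - 1 / 2) * (h0 - T) := mul_nonneg (by linarith) (by linarith)
  have hg5 : h0 * T ≤ 8661 / 10000 * T := mul_le_mul_of_nonneg_right (by linarith) T0
  nlinarith

/-- The numbers of the correction. -/
theorem secb_r {s : ℝ} (hs : 0 < s) (hs1 : s ≤ 11 / 400) :
    |r2 par s + r2d par s| ≤ 27 / 200 ∧ |r2 par s - r2d par s| ≤ 2 / 5 := by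
  obtain ⟨a1, a2⟩ := x1_bd hs hs1
  obtain ⟨b1, b2⟩ := xm_bd hs hs1
  obtain ⟨-, c1', -, c2'⟩ := g_facts hs hs1
  obtain ⟨p1, p2⟩ := Pe_bd9 hs hs1
  obtain ⟨q1, q2⟩ := RA_one hs
  have hh := h0_pos
  have g1 := h0_gt
  set q := xm par s / x1 s with hqd
  have k3 : 1 ≤ q := by
    rw [hqd, le_div_iff₀ (by linarith)]
    linarith
  have k4 : q ≤ 12245 / 10000 := by
    rw [hqd, div_le_iff₀ (by linarith)]
    linarith
  have e1 : g s * xm par s / x1 s = g s * q := by rw [hqd, mul_div_assoc]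
  have e2 : xm par s / (2 * x1 s) = q / 2 := by
    rw [hqd, div_div, mul_comm (x1 s)]
  have k0 : 0 ≤ s * (s / g s + 1 / (2 * h0)) := by
    have : 0 < g s := by linarith
    positivity
  have k1 : s * (s / g s + 1 / (2 * h0)) ≤ 17 / 1000 := by
    have h1 : s / g s ≤ 28 / 1000 := by
      rw [div_le_iff₀ (by linarith)]
      linarith
    have h2 : 1 / (2 * h0) ≤ 578 / 1000 := by
      rw [div_le_iff₀ (by positivity)]
      linarith
    have h3 := mul_le_mul hs1 (by linarith : s / g s + 1 / (2 * h0) ≤ 606 / 1000)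
      (by have : 0 < g s := by linarith
          positivity) (by norm_num)
    linarith
  have k5 : 999 / 1000 * q ≤ g s * q := mul_le_mul_of_nonneg_right c2' (by linarith)
  have k6 : g s * q ≤ q := by
    have := mul_le_mul_of_nonneg_right c1' (by linarith : 0 ≤ q)
    linarith
  unfold r2 r2d
  rw [e1, e2, abs_le, abs_le]
  refine ⟨⟨?_, ?_⟩, ?_, ?_⟩ <;> linarith

/-- The two pieces next to the unit circle, below `h0`. -/
theorem secb_seg {v : ℝ → Fin 4 → ℝ} (hv : K.adm v) {X T : ℝ} (hT : h0 / 2 ≤ T) (h2 : T < h0)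
    (hX : c1 T ≤ X) (hD : X - c1 T ≤ 11 / 25 * (Wc T - c1 T)) :
    (∃ l, 0 ≤ l ∧ l ≤ 1 ∧ X - c1 T = l * (1 / 3 * (Wc T - c1 T)) ∧
      ker K.nodes v (fun _ _ => 0) X T = (1 - l) * v T 0 + l * v T 1) ∨
    (∃ l, 0 ≤ l ∧ l ≤ 4 / 25 ∧ X - c1 T = 1 / 3 * (Wc T - c1 T) + l * (2 / 3 * (Wc T - c1 T)) ∧
      ker K.nodes v (fun _ _ => 0) X T = (1 - l) * v T 1 + l * v T 2) := by
  have hh := h0_pos
  have g2 := h0_lt
  have T0 : 0 ≤ T := by linarith
  have T3 : T ^ 2 ≤ 3 := by nlinarith
  have L := secb_L hT h2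
  have e0 : pos.cv 0 T = c1 T := cv_zero T
  have e1 : pos.cv 1 T = c1 T + 1 / 3 * (Wc T - c1 T) := cv_one_low h2
  have e2 : pos.cv 2 T = Wc T := cv_two_low h2
  rcases le_or_gt X (c1 T + 1 / 3 * (Wc T - c1 T)) with h | h
  · left
    have e := K.seg v hv 0 X T T0 T3 (by
      change pos.cv 0 T ≤ X
      rwa [e0]) (by
      change X ≤ pos.cv 1 T
      rwa [e1])
    refine ⟨(X - c1 T) / (1 / 3 * (Wc T - c1 T)), div_nonneg (by linarith) (by linarith), ?_, ?_, ?_⟩
    · rw [div_le_one (by linarith)]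
      linarith
    · rw [div_mul_cancel₀]
      linarith
    · rw [e]
      change v T 0 + (v T 1 - v T 0) * ((X - pos.cv 0 T) / (pos.cv 1 T - pos.cv 0 T)) = _
      rw [e0, e1, add_sub_cancel_left]
      ring
  · right
    have e := K.seg v hv 1 X T T0 T3 (by
      change pos.cv 1 T ≤ X
      rw [e1]
      exact h.le) (by
      change X ≤ pos.cv 2 T
      rw [e2]
      linarith)
    refine ⟨(X - (c1 T + 1 / 3 * (Wc T - c1 T))) / (2 / 3 * (Wc T - c1 T)),
      div_nonneg (by linarith) (by linarith), ?_, ?_, ?_⟩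
    · rw [div_le_iff₀ (by linarith)]
      linarith
    · rw [div_mul_cancel₀]
      · ring
      · linarith
    · rw [e]
      change v T 1 + (v T 2 - v T 1) * ((X - pos.cv 1 T) / (pos.cv 2 T - pos.cv 1 T)) = _
      rw [e1, e2, show Wc T - (c1 T + 1 / 3 * (Wc T - c1 T)) = 2 / 3 * (Wc T - c1 T) by ring]
      ring

/-- The kernel next to the unit circle, below `h0`. -/
theorem secb_kA {s X T : ℝ} (hs : 0 < s) (hs1 : s ≤ 11 / 400) (hT : h0 / 2 ≤ T) (h2 : T < h0)
    (hX : c1 T ≤ X) (hD : X - c1 T ≤ 11 / 25 * (Wc T - c1 T)) :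
    |kA s X T - R1 par s T| ≤ X - c1 T := by
  have hh := h0_pos
  have g2 := h0_lt
  have L := secb_L hT h2
  have r1 := secb_RW hs hs1 hT h2
  have r2 := secb_RW' hs hs1 hT h2
  have v0 : vA par s T 0 = R1 par s T := if_pos (by linarith)
  have v1 : vA par s T 1 = R1 par s T + 353 / 500 * (1 / 3 * (Wc T - c1 T)) := by
    simp only [vA, Matrix.cons_val_one, Matrix.cons_val_zero]
    rw [if_neg hT.not_gt, if_pos h2]
    rfl
  have v2 : vA par s T 2 = RW par s T := by
    simp only [vA, Matrix.cons_val]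
    rw [if_pos h2]
  unfold kA
  rcases secb_seg (adm_vA par s) hT h2 hX hD with ⟨l, l0, l1, eX, ek⟩ | ⟨l, l0, l1, eX, ek⟩
  · rw [ek, v0, v1, eX]
    have k := mul_nonneg l0 (by linarith : 0 ≤ Wc T - c1 T)
    rw [abs_le]
    constructor <;> linarith
  · rw [ek, v1, v2, eX]
    have k := mul_nonneg l0 (by linarith : 0 ≤ Wc T - c1 T)
    have k2 := mul_nonneg (by linarith : 0 ≤ 4 / 25 - l) (by linarith : 0 ≤ Wc T - c1 T)
    have k3 := mul_le_mul_of_nonneg_left r1 l0
    have k4 := mul_le_mul_of_nonneg_left r2 l0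
    rw [abs_le]
    constructor <;> linarith

/-! ### The levels -/

theorem secb_xB {z : ℝ} (h : 1 ≤ z) : xB par z = 571 / 1125 * max (5 / 2 - z) 0 := by
  unfold xB par
  rcases h.eq_or_lt with h1 | h1
  · rw [← h1, if_pos le_rfl, max_eq_left (by norm_num)]
    norm_num
  · rw [if_neg h1.not_ge]
    split_ifs with h2
    · rw [max_eq_left (by linarith)]
      unfold pl
      simp only
      ring
    · rw [max_eq_right (by linarith)]
      ring

theorem secb_xB_lip {z z' : ℝ} (h : 2 ≤ z) (h' : 0 ≤ z') :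
    |xB par z' - xB par z| ≤ 571 / 1125 * |z - z'| := by
  rw [secb_xB (by linarith : 1 ≤ z)]
  rcases le_or_gt 1 z' with h1 | h1
  · rw [secb_xB h1, ← mul_sub, abs_mul, abs_of_nonneg (by norm_num : (0 : ℝ) ≤ 571 / 1125)]
    refine mul_le_mul_of_nonneg_left ?_ (by norm_num)
    refine (abs_max_sub_max_le_abs _ _ _).trans_eq ?_
    congr 1
    ring
  · have k0 := xB_nonneg h'
    have k1 : xB par z' ≤ 571 / 750 := by
      unfold xB par
      rw [if_pos h1.le]
      simp only
      nlinarith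
    have m0 := le_max_right (5 / 2 - z) 0
    have m1 := le_max_left (5 / 2 - z) 0
    have m2 : max (5 / 2 - z) 0 ≤ 1 / 2 := max_le (by linarith) (by norm_num)
    rw [abs_of_pos (by linarith : 0 < z - z'), abs_le]
    constructor <;> linarith

/-- The level is nearly constant. -/
theorem secb_lvl {s x x' : ℝ} (hs : 0 < s) (hx : 4 * s ≤ x) (hx' : 0 ≤ x') :
    |lvl s x' - lvl s x| ≤ 571 / 2250 * s * |x - x'| := by
  have h1 : 2 ≤ x / (2 * s) := by
    rw [le_div_iff₀ (by linarith)]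
    linarith
  have h2 : 0 ≤ x' / (2 * s) := div_nonneg hx' (by linarith)
  have h3 := secb_xB_lip h1 h2
  have h4 : |x / (2 * s) - x' / (2 * s)| = |x - x'| / (2 * s) := by
    rw [← sub_div, abs_div, abs_of_pos (by linarith : 0 < 2 * s)]
  rw [h4] at h3
  unfold lvl
  rw [← mul_sub, abs_mul, abs_of_nonneg (sq_nonneg s)]
  refine (mul_le_mul_of_nonneg_left h3 (sq_nonneg s)).trans_eq ?_
  field_simp
  ring

theorem secb_lvl_up {s x : ℝ} (hs : 0 < s) (hx : 4 * s ≤ x) :
    0 ≤ lvl s x ∧ lvl s x ≤ 571 / 2250 * s ^ 2 := by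
  refine ⟨lvl_nonneg hs (by linarith), ?_⟩
  have h1 : 2 ≤ x / (2 * s) := by
    rw [le_div_iff₀ (by linarith)]
    linarith
  unfold lvl
  rw [secb_xB (by linarith)]
  have : max (5 / 2 - x / (2 * s)) 0 ≤ 1 / 2 := max_le (by linarith) (by norm_num)
  have := mul_le_mul_of_nonneg_left this (sq_nonneg s)
  linarith

theorem secb_xW {s z : ℝ} (h : 5 / 2 ≤ z) : xW par s z = 0 := by
  unfold xW
  rw [if_neg (by linarith)]
  split_ifs with h1
  · rw [le_antisymm h1 h, pl_right (by norm_num)]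
  · rfl

theorem secb_taper {z : ℝ} (h : 4 ≤ z) : taper z = 0 := by
  unfold taper
  rw [if_neg (by linarith)]
  split_ifs with h1
  · rw [le_antisymm h1 h, pl_right (by norm_num)]
  · rfl

/-- Constant between the unit circle and `W`. -/
theorem secb_const {v : ℝ → Fin 4 → ℝ} (hv : K.adm v) {X T c : ℝ} (T0 : 0 ≤ T) (h2 : T < h0)
    (a : v T 0 = c) (b : v T 1 = c) (d : v T 2 = c) (hX : c1 T ≤ X) (hW : X ≤ Wc T) :
    ker K.nodes v (fun _ _ => 0) X T = c := by
  have hh := h0_pos
  have g2 := h0_lt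
  have T3 : T ^ 2 ≤ 3 := by nlinarith
  have e0 : pos.cv 0 T = c1 T := cv_zero T
  have e2 : pos.cv 2 T = Wc T := cv_two_low h2
  rcases le_or_gt X (pos.cv 1 T) with h | h
  · have e := K.seg v hv 0 X T T0 T3 (by
      change pos.cv 0 T ≤ X
      rwa [e0]) (by
      change X ≤ pos.cv 1 T
      exact h)
    rw [e]
    change v T 0 + (v T 1 - v T 0) * _ = _
    rw [a, b, sub_self, zero_mul, add_zero]
  · have e := K.seg v hv 1 X T T0 T3 (by
      change pos.cv 1 T ≤ X
      exact h.le) (by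
      change X ≤ pos.cv 2 T
      rwa [e2])
    rw [e]
    change v T 1 + (v T 2 - v T 1) * _ = _
    rw [b, d, sub_self, zero_mul, add_zero]

/-- The second correction below `h0`. -/
theorem secb_kR {s X T m : ℝ} (hs : 0 < s) (hs1 : s ≤ 11 / 400) (hT : h0 / 2 ≤ T) (h2 : T < h0)
    (hX : c1 T ≤ X) (hD : X - c1 T ≤ 11 / 25 * (Wc T - c1 T)) (hm : 0 ≤ m)
    (hm' : X - c1 T ≤ 2 * h0 * m) : s * |kR s X T| ≤ 1 / 16 * m := by
  have hh := h0_pos
  have g2 := h0_lt
  have L := secb_L hT h2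
  have v0 : vR par s T 0 = 0 := if_neg hT.not_gt
  have v1 : vR par s T 1 = 0 := by
    simp only [vR, Matrix.cons_val_one, Matrix.cons_val_zero]
    rw [if_neg hT.not_gt, if_pos h2]
  have v2 : vR par s T 2 = (r2 par s - r2d par s) * taper ((h0 - T) / s) := by
    simp only [vR, Matrix.cons_val]
    rw [if_neg hT.not_gt, if_pos h2]
  unfold kR
  rcases secb_seg (adm_vR s) hT h2 hX hD with ⟨l, l0, l1, eX, ek⟩ | ⟨l, l0, l1, eX, ek⟩
  · rw [ek, v0, v1]
    simp only [mul_zero, add_zero, abs_zero]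
    positivity
  · rw [ek, v1, v2]
    have t1 := taper_bd (div_nonneg (by linarith) hs.le : 0 ≤ (h0 - T) / s)
    have t2 : |(r2 par s - r2d par s) * taper ((h0 - T) / s)| ≤ 2 / 5 := by
      rw [abs_mul]
      have := mul_le_mul (secb_r hs hs1).2 t1 (abs_nonneg _) (by norm_num)
      linarith
    have t3 : |(1 - l) * 0 + l * ((r2 par s - r2d par s) * taper ((h0 - T) / s))| ≤ 4 / 25 * (2 / 5) := by
      rw [mul_zero, zero_add, abs_mul, abs_of_nonneg l0]
      exact mul_le_mul l1 t2 (abs_nonneg _) (by norm_num)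
    have t4 := mul_le_mul hs1 t3 (abs_nonneg _) (by norm_num)
    have k := mul_nonneg l0 (by linarith : 0 ≤ Wc T - c1 T)
    have m2 : 2 * h0 * m ≤ 17322 / 10000 * m := mul_le_mul_of_nonneg_right (by linarith) hm
    linarith

/-- The level below `h0`. -/
theorem secb_kX {s X T χ m : ℝ} (hs : 0 < s) (hs1 : s ≤ 11 / 400) (hT : h0 / 2 ≤ T) (h2 : T < h0)
    (hX : c1 T ≤ X) (hD : X - c1 T ≤ 11 / 25 * (Wc T - c1 T)) (hm : 0 ≤ m)
    (hm' : X - c1 T ≤ 2 * h0 * m) (hχ : 0 ≤ χ) (hχ' : χ ≤ 571 / 2250 * s ^ 2)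
    (h1 : |s ^ 2 * X1 par s T - χ| ≤ 1 / 64 * m) : |kX s X T - χ| ≤ 1 / 64 * m := by
  have hh := h0_pos
  have g2 := h0_lt
  have L := secb_L hT h2
  have v0 : vX par s T 0 = s ^ 2 * X1 par s T := by
    unfold vX vx
    simp [if_pos (by linarith : T < 1)]
  have v1 : vX par s T 1 = s ^ 2 * X1 par s T := by
    unfold vX vx
    simp only [Matrix.cons_val_one, Matrix.cons_val_zero]
    rw [if_neg hT.not_gt, if_pos h2]
  have v2 : vX par s T 2 = s ^ 2 * xW par s ((h0 - T) / s) := by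
    unfold vX vx
    simp only [Matrix.cons_val]
    rw [if_neg hT.not_gt, if_pos h2]
  unfold kX
  rcases secb_seg (adm_vX par s) hT h2 hX hD with ⟨l, l0, l1, eX, ek⟩ | ⟨l, l0, l1, eX, ek⟩
  · rw [ek, v0, v1]
    rw [show (1 - l) * (s ^ 2 * X1 par s T) + l * (s ^ 2 * X1 par s T) - χ =
      s ^ 2 * X1 par s T - χ by ring]
    exact h1
  · rw [ek, v1, v2]
    have t1 := abs_le.1 (xW_bd hs hs1 (div_nonneg (by linarith) hs.le : 0 ≤ (h0 - T) / s))
    have s2 : s ^ 2 ≤ 76 / 100000 := by nlinarith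
    have s0 := sq_nonneg s
    have k := mul_nonneg l0 (by linarith : 0 ≤ Wc T - c1 T)
    have m2 : 2 * h0 * m ≤ 17322 / 10000 * m := mul_le_mul_of_nonneg_right (by linarith) hm
    have t2 : |s ^ 2 * xW par s ((h0 - T) / s) - χ| ≤ 1 / 64 * m := by
      have u1 := mul_le_mul_of_nonneg_left t1.1 s0
      have u2 := mul_le_mul_of_nonneg_left t1.2 s0
      rw [abs_le]
      constructor <;> linarith
    have e : (1 - l) * (s ^ 2 * X1 par s T) + l * (s ^ 2 * xW par s ((h0 - T) / s)) - χ =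
        (1 - l) * (s ^ 2 * X1 par s T - χ) + l * (s ^ 2 * xW par s ((h0 - T) / s) - χ) := by ring
    rw [e]
    refine (abs_add_le _ _).trans ?_
    rw [abs_mul, abs_mul, abs_of_nonneg l0, abs_of_nonneg (by linarith : 0 ≤ 1 - l)]
    have u3 := mul_le_mul_of_nonneg_left h1 (by linarith : 0 ≤ 1 - l)
    have u4 := mul_le_mul_of_nonneg_left t2 l0
    linarith

/-! ### Above `h0` -/

theorem secb_nonneg {v : ℝ → Fin 4 → ℝ} (hv : K.adm v) {X T : ℝ} (hT : 0 ≤ T) (hX : 0 ≤ X)
    (h1 : 1 ≤ X ^ 2 + T ^ 2) (h3 : X ^ 2 + T ^ 2 ≤ 3) (hp : ∀ j, 0 ≤ v T j) :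
    0 ≤ ker K.nodes v (fun _ _ => 0) X T := by
  have hT3 : T ^ 2 ≤ 3 := by nlinarith [sq_nonneg X]
  obtain ⟨i, g1, g2⟩ := K.seg_pos hT hX h1 h3
  have e := K.ker_lin hv (Or.inl rfl : (1 : ℝ) = 1 ∨ (1 : ℝ) = -1) hT hT3 g1 g2
  rw [one_mul, one_mul] at e
  rw [one_mul] at g1 g2
  rw [e]
  unfold Cur.lin
  have o0 := hp (K.tg i.castSucc)
  have o1 := hp (K.tg i.succ)
  have l0 : 0 ≤ (X - K.cv i.castSucc T) / (K.cv i.succ T - K.cv i.castSucc T) :=
    div_nonneg (by linarith) (by linarith)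
  have l1 : (X - K.cv i.castSucc T) / (K.cv i.succ T - K.cv i.castSucc T) ≤ 1 :=
    div_le_one_of_le₀ (by linarith) (by linarith)
  generalize (X - K.cv i.castSucc T) / (K.cv i.succ T - K.cv i.castSucc T) = l at *
  nlinarith [mul_nonneg l0 o1, mul_nonneg (by linarith : 0 ≤ 1 - l) o0]

/-- The circle of radius `√3` just above `h0`. -/
theorem secb_c3 {s T : ℝ} (hs1 : s ≤ 11 / 400) (h : h0 ≤ T) (h' : T ≤ h0 + 3 / 2 * s) :
    0 ≤ T / 2 - c3 T / (4 * h0) ∧ T / 2 - c3 T / (4 * h0) ≤ 11 / 10 * s := by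
  have hh := h0_pos
  have g1 := h0_gt
  have g2 := h0_lt
  have hq := h0_sq'
  have T3 : T ^ 2 ≤ 3 := by nlinarith
  have e := c3_sq T3
  have c0 := c3_nonneg T
  have cu := (c3_half (by linarith : 0 ≤ T) T3).2 h
  have cl : 3 / 2 - 3 / 5 * (T - h0) ≤ c3 T := by
    refine le_of_sq2 c0 ?_
    have e2 : c3 T ^ 2 = 9 / 4 - 2 * h0 * (T - h0) - (T - h0) ^ 2 := by
      linear_combination e - hq
    rw [e2]
    have t0 : 0 ≤ T - h0 := by linarith
    nlinarith
  rw [quot4]
  constructor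
  · nlinarith
  · nlinarith

/-- The kernels at most `3 / 2 s` above `h0`. -/
theorem secb_hi {s X T : ℝ} (hs : 0 < s) (hs1 : s ≤ 11 / 400) (h : h0 ≤ T)
    (h' : T ≤ h0 + 3 / 2 * s) (hA : Ann X T) (hX : 0 ≤ X) :
    0 ≤ kA s X T ∧ kA s X T ≤ X + s / 2 ∧ s * |kR s X T| ≤ 27 / 200 * (T - h0) ∧
      |kX s X T| ≤ 32 / 25 * s ^ 2 := by
  have hh := h0_pos
  have g1 := h0_gt
  have g2 := h0_lt
  have hq := h0_sq'
  have T0 := hA.T0
  have T1 : T < 1 := by linarith
  have T3 : T ^ 2 ≤ 3 := by nlinarith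
  have n2 : ¬T < h0 := h.not_gt
  have n1 : ¬T < h0 / 2 := by
    rw [not_lt]
    linarith
  have n3 : T < 3 * h0 / 2 := by linarith
  have z0 : 0 ≤ (T - h0) / s := div_nonneg (by linarith) hs.le
  obtain ⟨o1, o2, o3, o4, o5⟩ := order5 T0 T3
  have oW : c1 T ≤ Wc T := by linarith
  have oW3 : Wc T ≤ c3 T := by linarith
  refine ⟨?_, ?_, ?_, ?_⟩
  · have cu := (c1_half T0 T1.le).2 h
    have e := c1_sq T0 T1.le
    have cl : 42 / 100 ≤ c1 T := by
      refine le_of_sq2 (c1_nonneg T) ?_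
      nlinarith
    have wh := W_le_half h T3
    -- the unit circle
    have r1 : 35 / 100 ≤ R1 par s T := by
      obtain ⟨F0, F1, F2, F3, F4, F5, F6, F7, F8, F9, F10⟩ := tu_facts h T1.le
      have eR : R1 par s T = RA par s (T / 2 - h0 * c1 T) * (1 / 2 - h0 * tu T) := by
        unfold R1
        rw [if_neg n1, if_neg (by linarith), abs_of_nonneg F2]
        unfold tu
        ring
      rw [eR]
      have b1 : T / 2 - h0 * c1 T ≤ 9 / 100 := by
        have := mul_le_mul g1.le cl (by norm_num) hh.le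
        linarith
      have b2 := RA_ge hs F2 (s := s)
      have b3 : tu T ≤ 5 / 100 := by
        have := mul_le_mul_of_nonneg_left F4 F0
        have := mul_le_mul_of_nonneg_left g1.le F0
        linarith
      have b4 : 45 / 100 ≤ 1 / 2 - h0 * tu T := by
        have := mul_le_mul g2.le b3 F0 (by norm_num)
        linarith
      have := mul_le_mul (by linarith : 82 / 100 ≤ RA par s (T / 2 - h0 * c1 T)) b4
        (by norm_num) (by linarith)
      linarith
    have rw0 : 0 ≤ RW par s T := by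
      unfold RW
      rw [if_neg n1, if_neg n2, if_pos T1]
      have k1 := (abs_le.1 (slU_one hs hs1 z0)).1
      have k2 := mul_le_mul_of_nonneg_right k1 (by linarith : 0 ≤ Wc T - c1 T)
      linarith
    have r3 : 0 ≤ R3 par s T := by
      obtain ⟨y0, y1⟩ := secb_c3 hs1 h h'
      unfold R3
      rw [if_neg n1, if_pos n3, abs_of_nonneg y0]
      refine mul_nonneg (RA_nonneg hs y0 (by linarith)) ?_
      have c0 : 0 ≤ c3 T / 2 + T / (4 * h0) := by
        have := c3_nonneg T
        positivity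
      have : h0 * (T / 2 - c3 T / (4 * h0)) / (1 + (c3 T / 2 + T / (4 * h0))) ≤ 1 := by
        rw [div_le_one (by linarith)]
        nlinarith
      linarith
    unfold kA
    refine secb_nonneg (adm_vA par s) T0 hX hA.lo hA.hi fun j => ?_
    fin_cases j
    · simp only [vA, Fin.zero_eta, Matrix.cons_val_zero]
      rw [if_pos T1]
      linarith
    · simp only [vA, Fin.mk_one, Matrix.cons_val_one, Matrix.cons_val_zero]
      rw [if_neg n1, if_neg n2, if_pos n3]
      exact rw0
    · simp only [vA, Fin.reduceFinMk, Matrix.cons_val]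
      rw [if_neg n2, if_pos n3]
      have e : par.l1 = 353 / 500 := rfl
      rw [e]
      have := mul_nonneg (by norm_num : (0 : ℝ) ≤ 353 / 500)
        (by linarith : 0 ≤ 3 / 20 * (c3 T - Wc T))
      linarith
    · simp only [vA, Fin.reduceFinMk, Matrix.cons_val]
      exact r3
  · have k := (ker_bnd (adm_vA par s) T0 hA.lo hA.hi (bnd_vA hs hs1 T0 T3)).1
    rw [abs_of_nonneg hX] at k
    have := le_abs_self (kA s X T)
    unfold kA at this ⊢
    linarith
  · have tp : |taper ((T - h0) / s)| ≤ (T - h0) / s := by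
      rcases le_or_gt ((T - h0) / s) 1 with h5 | h5
      · unfold taper
        rw [if_pos h5, abs_of_nonneg z0]
      · exact (taper_bd z0).trans h5.le
    have key : |(r2 par s + r2d par s) * taper ((T - h0) / s)| ≤ 27 / 200 * ((T - h0) / s) := by
      rw [abs_mul]
      exact mul_le_mul (secb_r hs hs1).1 tp (abs_nonneg _) (by norm_num)
    have hb : ∀ j, |vR par s T j| ≤ 27 / 200 * ((T - h0) / s) := by
      intro j
      have p0 : 0 ≤ 27 / 200 * ((T - h0) / s) := by positivity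
      fin_cases j
      · simp only [vR, Fin.zero_eta, Matrix.cons_val_zero]
        rw [if_neg n1, abs_zero]
        exact p0
      · simp only [vR, Fin.mk_one, Matrix.cons_val_one, Matrix.cons_val_zero]
        rw [if_neg n1, if_neg n2, if_pos n3]
        exact key
      · simp only [vR, Fin.reduceFinMk, Matrix.cons_val]
        rw [if_neg n1, if_neg n2, if_pos n3]
        exact key
      · simp only [vR, Fin.reduceFinMk, Matrix.cons_val]
        rw [abs_zero]
        exact p0
    have hB : Bnd (vR par s) T 0 0 0 (27 / 200 * ((T - h0) / s)) :=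
      ⟨fun j => by linarith [hb j], fun j => by linarith [hb j]⟩
    have k := (ker_bnd (adm_vR s) T0 hA.lo hA.hi hB).1
    have k2 : |kR s X T| ≤ 27 / 200 * ((T - h0) / s) := by
      unfold kR
      linarith
    have k3 := mul_le_mul_of_nonneg_left k2 hs.le
    have e : s * (27 / 200 * ((T - h0) / s)) = 27 / 200 * (T - h0) := by
      field_simp
    linarith
  · have s0 := sq_nonneg s
    have hb : ∀ j, |vX par s T j| ≤ 32 / 25 * s ^ 2 := by
      intro j
      have key : ∀ u : ℝ, |u| ≤ 32 / 25 → |s ^ 2 * u| ≤ 32 / 25 * s ^ 2 := fun u hu => by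
        rw [abs_mul, abs_of_nonneg s0, mul_comm]
        exact mul_le_mul_of_nonneg_right hu s0
      have w := xW_bd hs hs1 z0
      unfold vX vx
      fin_cases j
      · simp only [Fin.zero_eta, Matrix.cons_val_zero]
        rw [if_pos T1]
        exact key _ (X1_128 hs hs1 T0 T1)
      · simp only [Fin.mk_one, Matrix.cons_val_one, Matrix.cons_val_zero]
        rw [if_neg n1, if_neg n2, if_pos n3]
        exact key _ (by linarith)
      · simp only [Fin.reduceFinMk, Matrix.cons_val]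
        rw [if_neg n1, if_neg n2, if_pos n3]
        exact key _ (by linarith)
      · simp only [Fin.reduceFinMk, Matrix.cons_val]
        refine key _ ?_
        obtain ⟨y0, y1⟩ := secb_c3 hs1 h h'
        obtain ⟨a1, a2⟩ := x1_bd hs hs1
        obtain ⟨b1, b2⟩ := xm_bd hs hs1
        unfold X3
        split_ifs with h5 h6
        · have hT : T = h0 := le_antisymm h5 h
          have e : c3 T / (4 * h0) - T / 2 = 0 := by
            rw [hT, c3_h0, quot4]
            ring
          rw [e, zero_div, zero_div]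
          have ea : xA par s 0 = 0 := by
            unfold xA x0
            rw [if_pos (by norm_num), if_pos (by norm_num)]
            ring
          have eb : xB par 0 = 0 := by
            unfold xB
            rw [if_pos (by norm_num)]
            ring
          rw [ea, eb]
          norm_num
        · have w0 : 0 ≤ (T / 2 - c3 T / (4 * h0)) / s := div_nonneg y0 hs.le
          have w1 : (T / 2 - c3 T / (4 * h0)) / s ≤ 11 / 10 := by
            rw [div_le_iff₀ hs]
            exact y1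
          have w2 : 0 ≤ (T / 2 - c3 T / (4 * h0)) / (2 * s) := div_nonneg y0 (by linarith)
          have u0 := xA_nonneg hs hs1 w0
          have u1 : xA par s ((T / 2 - c3 T / (4 * h0)) / s) ≤ 56 / 100 := by
            generalize (T / 2 - c3 T / (4 * h0)) / s = w at *
            unfold xA x0
            rw [if_pos (by linarith)]
            split_ifs with h7
            · nlinarith [mul_nonneg w0 (mul_nonneg (by linarith : 0 ≤ 1 - w)
                (by linarith : 0 ≤ xm par s - x1 s))]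
            · nlinarith
          have u2 := xB_nonneg w2
          have u3 := (abs_le.1 (xB_bd w2)).2
          rw [abs_le]
          constructor <;> linarith
        · linarith
    have hB : Bnd (vX par s) T 0 0 0 (32 / 25 * s ^ 2) :=
      ⟨fun j => by linarith [hb j], fun j => by linarith [hb j]⟩
    have k := (ker_bnd (adm_vX par s) T0 hA.lo hA.hi hB).1
    unfold kX
    linarith

/-! ### The row -/

theorem secb_dist {C x C' x' : ℝ} (h : Rot C x) (h' : Rot C' x') (hx : 0 ≤ x + x') :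
    |x - x'| ≤ 2 * |(h0 * C' - x' / 2) - (h0 * C - x / 2)| := by
  have hh := h0_pos
  obtain ⟨d1, -⟩ := secb_diff h h'
  obtain ⟨S0, S1⟩ := secb_S h h' hx
  have k : 0 ≤ h0 * ((x + x') / (C + C')) := mul_nonneg hh.le S0
  rw [d1, abs_mul, abs_of_nonneg (by linarith : 0 ≤ 1 / 2 + h0 * ((x + x') / (C + C')))]
  have := mul_nonneg (abs_nonneg (x - x')) k
  linarith

/-- At heights at most `1 / 2` the direction is near the wall. -/
theorem secb_wall {s C x T : ℝ} (hs1 : s ≤ 11 / 400) (h : Rot C x)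
    (hx0 : 0 < x) (hT : h0 * C - x / 2 - 4 * s ≤ T) (hT2 : T ≤ 1 / 2)
    (hTT : 1 / 2 ≤ h0 * C - x / 2) : 3 / 10 ≤ x ∧
      (1 - 2 * T) + (1 / x - 2) * (h0 / 2) ≤ (1 / x + 5) * |T - (h0 * C - x / 2)| := by
  have hh := h0_pos
  have g1 := h0_gt
  have g2 := h0_lt
  have hq := h0_sq'
  have a := h.Ch
  obtain ⟨-, -, c1', -⟩ := half_bd a hx0.le h.sq
  have hx3 : 3 / 10 ≤ x := by
    by_contra hc
    rw [not_le] at hc
    have e1 : x ^ 2 ≤ 9 / 100 := by nlinarith
    have e2 : 9517 / 10000 ≤ C := by linarith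
    have e3 : 8241 / 10000 ≤ h0 * C := by nlinarith
    linarith
  refine ⟨hx3, ?_⟩
  have ix : 1 / x * x = 1 := by field_simp
  have i2 : 2 ≤ 1 / x := by
    rw [le_div_iff₀ hx0]
    linarith [h.hi]
  have i3 : 1 / x ≤ 10 / 3 := by
    rw [div_le_iff₀ hx0]
    linarith
  rw [abs_of_nonpos (by linarith)]
  generalize 1 / x = i at *
  have b1 : 1 - 2 * x ≤ 4 * ((h0 * C - x / 2) - 1 / 2) := by
    have := mul_le_mul_of_nonneg_left a hh.le
    linarith
  have b2 : i - 2 ≤ i * (4 * ((h0 * C - x / 2) - 1 / 2)) := by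
    have := mul_le_mul_of_nonneg_left b1 (by linarith : 0 ≤ i)
    linarith
  have b3 : (i - 2) * (h0 / 2) ≤ i * (4 * ((h0 * C - x / 2) - 1 / 2)) * (8661 / 20000) :=
    mul_le_mul b2 (by linarith) (by linarith)
      (mul_nonneg (by linarith) (by linarith))
  have b4 : 0 ≤ (10 / 3 - i) * ((h0 * C - x / 2) - 1 / 2) :=
    mul_nonneg (by linarith) (by linarith)
  have b5 : 0 ≤ (i - 2) * (1 / 2 - T) := mul_nonneg (by linarith) (by linarith)
  generalize h0 * C - x / 2 = T0 at *
  linarith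

/-- Next to the direction of 60 degrees, below, at most at the height `h0 + 3 / 2 s`. -/
theorem sec_m60 {s C x X T : ℝ} (hs : 0 < s) (hs1 : s ≤ 11 / 400) (h : Rot C x) (hx : 4 * s ≤ x)
    (hA : Ann X T) (hN : Nr s (C / 2 + h0 * x) (h0 * C - x / 2) X T)
    (hT : h0 * C - x / 2 - 4 * s ≤ T) (hT' : T ≤ h0 + 3 / 2 * s) :
    Sec s (-(1 / x - 2)) x (lvl s x) (C / 2 + h0 * x) (h0 * C - x / 2) X T 5 1 := by
  have hh := h0_pos
  have g1 := h0_gt
  have g2 := h0_lt
  have hq := h0_sq'
  have x0 : 0 < x := by linarith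
  have hx1 := h.hi
  have a := h.Ch
  have aC := h.C1
  have T00 := hA.T0
  have T1 : T < 1 := by linarith
  obtain ⟨n1, n2⟩ := hN.abs hs
  obtain ⟨f1, f2, f3, f4, f5, f6⟩ := n60_facts h.neg
  have ft : h0 * C + -x / 2 = h0 * C - x / 2 := by ring
  rw [ft] at f1 f2 f3 f4 f5 f6
  rw [show C / 2 - h0 * -x = C / 2 + h0 * x by ring] at f1 f4 f5
  have sq : (C / 2 + h0 * x) ^ 2 + (h0 * C - x / 2) ^ 2 = 1 := by
    linear_combination (C ^ 2 + x ^ 2) * hq + h.sq
  have nrm := secb_norm hs sq hN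
  have nrm2 : X ^ 2 + T ^ 2 ≤ 1 + 4817 / 10000 := by nlinarith
  have hX : 0 ≤ X := by
    have := (abs_le.1 n1).1
    have : 0 ≤ h0 * x := mul_nonneg hh.le x0.le
    linarith
  have hcX : c1 T ≤ X := by
    refine le_of_sq2 hX ?_
    have := c1_sq T00 T1.le
    have := hA.lo
    linarith
  have i2 : 2 ≤ 1 / x := by
    rw [le_div_iff₀ x0]
    linarith
  have aT := abs_nonneg (T - (h0 * C - x / 2))
  have aX := abs_nonneg (X - (C / 2 + h0 * x))
  have eqA : ∀ k : ℝ, kA s X T - -(1 / x - 2) * k = kA s X T + (1 / x - 2) * k := fun k => by ring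
  obtain ⟨lv0, lv1⟩ := secb_lvl_up hs hx
  rcases le_or_gt h0 T with h2 | h2
  · -- above `h0`
    obtain ⟨A0, A1, R, L⟩ := secb_hi hs hs1 h2 hT' hA hX
    have et : tau T = T - h0 := tau_mi (by linarith) (by linarith)
    have eh : h0 - (h0 * C - x / 2) = x / 2 + h0 * (1 - C) := by ring
    have one := h.one_sub
    obtain ⟨hb1, hb2, hb3, hb4⟩ := half_bd a x0.le h.sq
    have hh1 : 0 ≤ h0 * (1 - C) := mul_nonneg hh.le (by linarith)
    have aT' : |T - (h0 * C - x / 2)| = (T - h0) + (x / 2 + h0 * (1 - C)) := by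
      rw [abs_of_nonneg (by linarith)]
      linarith
    refine ⟨?_, ?_, ?_, fun h5 => ?_⟩
    · rw [eqA, et]
      have k0 : 0 ≤ kA s X T + (1 / x - 2) * (T - h0) :=
        add_nonneg A0 (mul_nonneg (by linarith) (by linarith))
      rw [abs_of_nonneg k0, aT']
      have e1 : 1 / x * (x / 2 + h0 * (1 - C)) = 1 / 2 + h0 * x / (1 + C) := by
        have : h0 * (1 - C) = x * (h0 * x / (1 + C)) := by
          rw [← one]
          ring
        rw [this]
        field_simp
      have e2 : X - (C / 2 + h0 * x) ≤ |X - (C / 2 + h0 * x)| := le_abs_self _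
      have e3 : h0 * x ≤ 8661 / 10000 * x := mul_le_mul_of_nonneg_right (by linarith) x0.le
      have e4 : (1 / x + 5) * (T - h0 + (x / 2 + h0 * (1 - C))) =
          1 / x * (T - h0) + 5 * (T - h0) + (1 / 2 + h0 * x / (1 + C)) +
            5 * (x / 2 + h0 * (1 - C)) := by
        rw [← e1]
        ring
      rw [e4]
      linarith
    · rw [aT']
      linarith
    · rw [aT']
      have k := abs_le.1 L
      have s2 : s ^ 2 ≤ 11 / 400 * s := by nlinarith
      rw [abs_le]
      constructor <;> linarith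
    · rw [aT']
      have s2 : s ^ 2 ≤ 11 / 400 * s := by nlinarith
      linarith
  rcases le_or_gt T (1 / 2) with h4 | h4
  · -- near the wall
    obtain ⟨x3, W⟩ := secb_wall hs1 h x0 hT h4 f2
    have l0 : lvl s x = 0 := lvl_far hs (by linarith)
    have T4 : 4 * s ≤ T := by linarith
    have c1X : C / 2 + h0 * x ≤ c1 T := by
      rw [← f1]
      exact c1_anti T00 (by linarith) f3
    have hD : X - c1 T ≤ |X - (C / 2 + h0 * x)| := by
      have := le_abs_self (X - (C / 2 + h0 * x))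
      linarith
    have i0 : 0 ≤ (1 / x - 2) * (h0 / 2) := mul_nonneg (by linarith) (by linarith)
    rcases le_or_gt (h0 / 2) T with h5 | h5
    · have L := secb_L h5 h2
      have hD2 : X - c1 T ≤ 11 / 25 * (Wc T - c1 T) := by linarith
      have m0 : 0 ≤ |T - (h0 * C - x / 2)| + |X - (C / 2 + h0 * x)| := by linarith
      have hm : X - c1 T ≤ 2 * h0 * (|T - (h0 * C - x / 2)| + |X - (C / 2 + h0 * x)|) := by
        have := mul_le_mul_of_nonneg_right (by linarith : 1 ≤ 2 * h0) m0
        linarith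
      have k := secb_kA hs hs1 h5 h2 hcX hD2
      have et : tau T = T - h0 := tau_mi h5 (by linarith)
      have r : |R1 par s T| ≤ 1 - 2 * T := by
        unfold R1
        rw [if_neg h5.not_gt, if_pos h4, RA_eq hs T4, abs_mul,
          abs_of_nonneg (by linarith : 0 ≤ 1 - 2 * T)]
        have : |(T - h0) / T| ≤ 1 := by
          refine abs_div_le (by linarith) ?_
          rw [abs_le]
          constructor <;> linarith
        have := mul_le_mul_of_nonneg_left this (by linarith : 0 ≤ 1 - 2 * T)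
        linarith
      have x1z : X1 par s T = 0 := by
        unfold X1
        rw [if_pos h4]
        exact xA_far hs T4
      have kx := secb_kX (χ := lvl s x) hs hs1 h5 h2 hcX hD2 m0 hm lv0 lv1 (by
        rw [x1z, l0, mul_zero, sub_zero, abs_zero]
        linarith)
      refine ⟨?_, secb_kR hs hs1 h5 h2 hcX hD2 m0 hm, by linarith, fun _ => ?_⟩
      · rw [eqA, et]
        have e1 : kA s X T + (1 / x - 2) * (T - h0) =
            (kA s X T - R1 par s T) + (R1 par s T - (1 / x - 2) * (h0 - T)) := by ring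
        rw [e1]
        refine (abs_add_le _ _).trans ?_
        have e2 : |R1 par s T - (1 / x - 2) * (h0 - T)| ≤ (1 - 2 * T) + (1 / x - 2) * (h0 / 2) := by
          refine (abs_sub _ _).trans ?_
          rw [abs_of_nonneg (mul_nonneg (by linarith) (by linarith) :
            0 ≤ (1 / x - 2) * (h0 - T))]
          have := mul_le_mul_of_nonneg_left (by linarith : h0 - T ≤ h0 / 2)
            (by linarith : 0 ≤ 1 / x - 2)
          linarith
        linarith
      · rwa [l0, sub_zero] at kx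
    · -- below `h0 / 2`
      have hW : X ≤ Wc T := by
        have := (low_bd T00 h2).1
        have := (abs_le.1 n1).2
        have := mul_le_mul_of_nonneg_left hx1 hh.le
        linarith
      have ra : RA par s T = 1 - 2 * T := RA_eq hs T4
      have xa : xA par s (T / s) = 0 := xA_far hs T4
      have tp : taper (T / s) = 0 := secb_taper (by rwa [le_div_iff₀ hs])
      have kA' : kA s X T = 1 - 2 * T := by
        unfold kA
        refine secb_const (adm_vA par s) T00 h2 ?_ ?_ ?_ hcX hW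
        · simp only [vA, Matrix.cons_val_zero]
          rw [if_pos T1]
          unfold R1
          rw [if_pos h5, ra]
        · simp only [vA, Matrix.cons_val_one, Matrix.cons_val_zero]
          rw [if_pos h5, ra]
        · simp only [vA, Matrix.cons_val]
          rw [if_pos h2]
          unfold RW
          rw [if_pos h5, ra]
      have kR' : kR s X T = 0 := by
        unfold kR
        refine secb_const (adm_vR s) T00 h2 ?_ ?_ ?_ hcX hW
        · simp only [vR, Matrix.cons_val_zero]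
          rw [if_pos h5, tp, mul_zero]
        · simp only [vR, Matrix.cons_val_one, Matrix.cons_val_zero]
          rw [if_pos h5, tp, mul_zero]
        · simp only [vR, Matrix.cons_val]
          rw [if_pos h5, tp, mul_zero]
      have kX' : kX s X T = 0 := by
        unfold kX
        refine secb_const (adm_vX par s) T00 h2 ?_ ?_ ?_ hcX hW
        · unfold vX vx
          simp only [Matrix.cons_val_zero]
          rw [if_pos T1]
          unfold X1
          rw [if_pos h4, xa, mul_zero]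
        · unfold vX vx
          simp only [Matrix.cons_val_one, Matrix.cons_val_zero]
          rw [if_pos h5, xa, mul_zero]
        · unfold vX vx
          simp only [Matrix.cons_val]
          rw [if_pos h5, xa, mul_zero]
      refine ⟨?_, ?_, ?_, fun _ => ?_⟩
      · rw [eqA, kA', tau_lo h5]
        have e2 := mul_le_mul_of_nonneg_left h5.le (by linarith : 0 ≤ 1 / x - 2)
        rw [abs_of_nonneg (by
          have := mul_nonneg (by linarith : 0 ≤ 1 / x - 2) T00
          linarith)]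
        linarith
      · rw [kR', abs_zero, mul_zero]
        linarith
      · rw [kX', l0, sub_zero, abs_zero]
        linarith
      · rw [kX', abs_zero]
        linarith
  · -- the main case
    have T1' : T ≤ 1 := T1.le
    obtain ⟨h', e1, e2⟩ := secb_rot h4.le T1'
    have x'0 : 0 ≤ h0 * c1 T - T / 2 := by
      have := (c1_half T00 T1').1 h2.le
      nlinarith
    obtain ⟨r1, r2⟩ := secb_res hs h hx h4 T1' (by linarith) (by
      have := mul_nonneg x'0 (by linarith : 0 ≤ 1 - C)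
      linarith)
    have hD := secb_D h4.le h2 nrm2
    have hD' : X - c1 T ≤ |X - (C / 2 + h0 * x)| + 2 * h0 * |T - (h0 * C - x / 2)| := by
      have := le_abs_self (X - (C / 2 + h0 * x))
      linarith
    have m0 : 0 ≤ |T - (h0 * C - x / 2)| + |X - (C / 2 + h0 * x)| := by linarith
    have hm : X - c1 T ≤ 2 * h0 * (|T - (h0 * C - x / 2)| + |X - (C / 2 + h0 * x)|) := by
      have := mul_le_mul_of_nonneg_right (by linarith : 1 ≤ 2 * h0) aX
      linarith
    have k := secb_kA hs hs1 (by linarith) h2 hcX hD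
    have x1z : s ^ 2 * X1 par s T = lvl s (h0 * c1 T - T / 2) := by
      unfold X1 lvl
      rw [if_neg h4.not_ge, if_pos h2]
    have lv := secb_lvl hs hx x'0
    have ds := secb_dist h h' (by linarith)
    rw [← e1] at ds
    have kx := secb_kX (χ := lvl s x) hs hs1 (by linarith) h2 hcX hD m0 hm lv0 lv1 (by
      rw [x1z]
      refine lv.trans ?_
      have q1 : 571 / 2250 * s ≤ 7 / 1000 := by linarith
      have q2 := mul_le_mul q1 ds (abs_nonneg _) (by norm_num)
      linarith)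
    refine ⟨?_, secb_kR hs hs1 (by linarith) h2 hcX hD m0 hm, by linarith, fun h5 => ?_⟩
    · rw [eqA]
      have e3 : kA s X T + (1 / x - 2) * tau T =
          (kA s X T - R1 par s T) + (R1 par s T + (1 / x - 2) * tau T) := by ring
      rw [e3]
      refine (abs_add_le _ _).trans ?_
      have : 2 * h0 * |T - (h0 * C - x / 2)| ≤ 8 / 3 * |T - (h0 * C - x / 2)| :=
        mul_le_mul_of_nonneg_right (by linarith) aT
      linarith
    · rwa [lvl_far hs h5, sub_zero] at kx

end Pool.Agent.Strip051.LC.E0.Out
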