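import Pool.Agent.Strip051.LC.E0.OutL

/-! # Small rests: next to the vertical direction, the pieces

The kernel of the far vertex is `X / 2` up to the inner node and a line from there to the circle;
the correction of the near vertex vanishes. -/

namespace Pool.Agent.Strip051.LC.E0.Out

open Pool.Agent.StripNear Pool.Agent.StripSquare Pool.Agent.Strip051 Pool.Agent.Strip051.Sweep
open Pool.Agent.Strip051.LC.Line (tau)

/-! ### The curves above the height `3 h0 / 2` -/

/-- Facts at a height from `3 h0 / 2` on. -/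
theorem sece_T {T : ℝ} (h : 3 * h0 / 2 ≤ T) (h3 : T ^ 2 ≤ 3) :
    T ≤ 2 * h0 ∧ 0 ≤ Wc T ∧ Wc T ≤ T * (2 * h0 - T) ∧ 2 * (T * (2 * h0 - T)) ≤ c3 T ^ 2 ∧
      c3 T ^ 2 = 3 - T ^ 2 ∧ ∃ Q, 0 ≤ Q ∧ Q ^ 2 = 1 - (T - h0) ^ 2 ∧ Wc T = Q - 1 / 2 ∧
        c3 T ≤ 2 * Q ∧ Q ≤ 1 := by
  have hh := h0_pos
  have hq := h0_sq'
  have e2h : (2 * h0) ^ 2 = 3 := by
    rw [mul_pow, hq]
    norm_num
  have hT2 : T ≤ 2 * h0 := le_of_sq2 (by linarith) (by rw [e2h]; exact h3)
  obtain ⟨Q, Q0, eQ, eW, -, -⟩ := upp_sq (by linarith : h0 ≤ T) h3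
  have e3 := c3_sq h3
  have hz : 0 ≤ T * (2 * h0 - T) := mul_nonneg (by linarith) (by linarith)
  have e1 : Q ^ 2 = 1 / 4 + T * (2 * h0 - T) := by linear_combination eQ - hq
  have k1 : 1 / 2 ≤ Q := by
    refine le_of_sq2 Q0 ?_
    rw [e1]
    linarith
  have k2 : Q ≤ 1 / 2 + T * (2 * h0 - T) := by
    refine le_of_sq2 (by linarith) ?_
    rw [e1]
    have := sq_nonneg (T * (2 * h0 - T))
    generalize T * (2 * h0 - T) = z at *
    linarith
  have k3 : 2 * (T * (2 * h0 - T)) ≤ 3 - T ^ 2 := by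
    have := sq_nonneg (2 * h0 - T)
    linarith
  have k4 : c3 T ≤ 2 * Q := by
    refine le_of_sq2 (by linarith) ?_
    have m := mul_nonneg (by linarith : 0 ≤ T - 3 * h0 / 2) (by linarith : 0 ≤ 2 * h0 - T)
    have m2 := mul_nonneg hh.le (by linarith : 0 ≤ 2 * h0 - T)
    rw [mul_pow, e1]
    linarith
  have k5 : Q ≤ 1 := by
    refine le_of_sq2 zero_le_one ?_
    have := sq_nonneg (T - h0)
    linarith
  refine ⟨hT2, by linarith, by linarith, by linarith, by linarith, Q, Q0, by linarith, eW, k4, k5⟩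

/-- Two heights. -/
theorem sece_pair {T T0 : ℝ} (h : 3 * h0 / 2 ≤ T) (h' : T ≤ T0) (h3 : T0 ^ 2 ≤ 3) :
    c3 T0 ≤ c3 T ∧ 0 ≤ Wc T - Wc T0 ∧ Wc T - Wc T0 ≤ c3 T - c3 T0 ∧
      (c3 T - c3 T0) * (c3 T + c3 T0) = (T0 - T) * (T0 + T) ∧
      (T0 - T) * (T0 + T - 2 * h0) ≤ 2 * (Wc T - Wc T0) := by
  have hh := h0_pos
  have hT0 : 0 ≤ T := by linarith
  have hT3 : T ^ 2 ≤ 3 := (pow_le_pow_left₀ hT0 h' 2).trans h3
  obtain ⟨a1, a2, a3, a4, a5, Q, Q0, eQ, eW, q1, q2⟩ := sece_T h hT3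
  obtain ⟨b1, b2, b3, b4, b5, P, P0, eP, eV, p1, p2⟩ := sece_T (h.trans h') h3
  have c := c3_anti hT0 h' h3
  have c0 := c3_nonneg T0
  have hQ : 1 / 2 ≤ Q := by linarith
  have hP : 1 / 2 ≤ P := by linarith
  have eA : (c3 T - c3 T0) * (c3 T + c3 T0) = (T0 - T) * (T0 + T) := by
    linear_combination a5 - b5
  have eB : (Q - P) * (Q + P) = (T0 - T) * (T0 + T - 2 * h0) := by
    linear_combination eQ - eP
  have d0 : 0 ≤ (T0 - T) * (T0 + T - 2 * h0) := mul_nonneg (by linarith) (by linarith)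
  have k1 : P ≤ Q := by
    by_contra hc
    rw [not_le] at hc
    have : (Q - P) * (Q + P) < 0 := mul_neg_of_neg_of_pos (by linarith) (by linarith)
    linarith
  rw [eW, eV]
  clear eW eV a2 a3 a4 a5 b2 b3 b4 b5 eQ eP
  refine ⟨c, by linarith, ?_, eA, ?_⟩
  · have k2 : (Q - P) * (Q + P) ≤ (c3 T - c3 T0) * (Q + P) := by
      have m1 : (c3 T - c3 T0) * ((c3 T + c3 T0) / 2) ≤ (c3 T - c3 T0) * (Q + P) :=
        mul_le_mul_of_nonneg_left (by linarith) (by linarith)
      have m2 : (T0 - T) * (T0 + T - 2 * h0) ≤ (T0 - T) * ((T0 + T) / 2) :=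
        mul_le_mul_of_nonneg_left (by linarith) (by linarith)
      rw [eB]
      linarith
    have := le_of_mul_le_mul_right k2 (by linarith)
    linarith
  · have : (Q - P) * (Q + P) ≤ (Q - P) * 2 := mul_le_mul_of_nonneg_left (by linarith) (by linarith)
    linarith

/-- The inner node. -/
noncomputable def seceb (T : ℝ) : ℝ := Wc T + 3 / 20 * (c3 T - Wc T)

/-! ### The kernel between the nodes -/

theorem sece_seg0 {v : ℝ → Fin 4 → ℝ} (hv : K.adm v) {X T : ℝ} (h : 3 * h0 / 2 ≤ T)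
    (h3 : T ^ 2 ≤ 3) (a : 0 ≤ X) (b : X ≤ Wc T) :
    ker K.nodes v (fun _ _ => 0) X T = v T 0 + (v T 1 - v T 0) * (X / Wc T) := by
  have hh := h0_pos
  have g1 := h0_gt
  have hT : 0 ≤ T := by linarith
  have e0 : pos.cv 0 T = 0 := by rw [cv_zero, c1_zero (by linarith)]
  have e1 : pos.cv 1 T = Wc T := cv_one_high (by linarith)
  have e := K.seg v hv 0 X T hT h3 (by
    change pos.cv 0 T ≤ X
    rwa [e0]) (by
    change X ≤ pos.cv 1 T
    rwa [e1])
  rw [e]
  change v T 0 + (v T 1 - v T 0) * ((X - pos.cv 0 T) / (pos.cv 1 T - pos.cv 0 T)) = _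
  rw [e0, e1, sub_zero, sub_zero]

theorem sece_seg1 {v : ℝ → Fin 4 → ℝ} (hv : K.adm v) {X T : ℝ} (h : 3 * h0 / 2 ≤ T)
    (h3 : T ^ 2 ≤ 3) (a : Wc T ≤ X) (b : X ≤ seceb T) :
    ker K.nodes v (fun _ _ => 0) X T =
      v T 1 + (v T 2 - v T 1) * ((X - Wc T) / (seceb T - Wc T)) := by
  have hh := h0_pos
  have hT : 0 ≤ T := by linarith
  have e1 : pos.cv 1 T = Wc T := cv_one_high (by linarith)
  have e2 : pos.cv 2 T = seceb T := cv_two_high (by linarith)
  have e := K.seg v hv 1 X T hT h3 (by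
    change pos.cv 1 T ≤ X
    rwa [e1]) (by
    change X ≤ pos.cv 2 T
    rwa [e2])
  rw [e]
  change v T 1 + (v T 2 - v T 1) * ((X - pos.cv 1 T) / (pos.cv 2 T - pos.cv 1 T)) = _
  rw [e1, e2]

theorem sece_seg2 {v : ℝ → Fin 4 → ℝ} (hv : K.adm v) {X T : ℝ} (h : 3 * h0 / 2 ≤ T)
    (h3 : T ^ 2 ≤ 3) (a : seceb T ≤ X) (b : X ≤ c3 T) :
    ker K.nodes v (fun _ _ => 0) X T =
      v T 2 + (v T 3 - v T 2) * ((X - seceb T) / (c3 T - seceb T)) := by
  have hh := h0_pos
  have hT : 0 ≤ T := by linarith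
  have e2 : pos.cv 2 T = seceb T := cv_two_high (by linarith)
  have e3 : pos.cv 3 T = c3 T := cv_three T
  have e := K.seg v hv 2 X T hT h3 (by
    change pos.cv 2 T ≤ X
    rwa [e2]) (by
    change X ≤ pos.cv 3 T
    rwa [e3])
  rw [e]
  change v T 2 + (v T 3 - v T 2) * ((X - pos.cv 2 T) / (pos.cv 3 T - pos.cv 2 T)) = _
  rw [e2, e3]

/-- The kernel of the far vertex left of the inner node. -/
theorem sece_kA_lo {s X T : ℝ} (h : 3 * h0 / 2 ≤ T) (h3 : T ^ 2 ≤ 3) (a : 0 ≤ X)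
    (b : X ≤ seceb T) : kA s X T = X / 2 := by
  have hh := h0_pos
  have g1 := h0_gt
  have v0 : vA par s T 0 = 0 := if_neg (by linarith)
  have v1 : vA par s T 1 = Wc T / 2 := by
    simp only [vA, Matrix.cons_val_one, Matrix.cons_val_zero]
    rw [if_neg (by linarith), if_neg (by linarith), if_neg (by linarith)]
  have v2 : vA par s T 2 = seceb T / 2 := by
    simp only [vA, Matrix.cons_val]
    rw [if_neg (by linarith), if_neg (by linarith)]
    rfl
  unfold kA
  rcases le_total X (Wc T) with hX | hX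
  · rw [sece_seg0 (adm_vA par s) h h3 a hX, v0, v1]
    rcases (a.trans hX).eq_or_lt with h0' | h0'
    · have : X = 0 := le_antisymm (by linarith) a
      rw [this, zero_div]
      ring
    · field_simp
      ring
  · rw [sece_seg1 (adm_vA par s) h h3 hX b, v1, v2]
    rcases (hX.trans b).eq_or_lt with h0' | h0'
    · have : X = Wc T := le_antisymm (by linarith) hX
      rw [this]
      ring
    · have : seceb T - Wc T ≠ 0 := by linarith
      field_simp
      ring

/-- The kernel of the far vertex right of the inner node. -/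
theorem sece_kA_hi {s X T : ℝ} (h : 3 * h0 / 2 ≤ T) (h3 : T ^ 2 ≤ 3) (a : seceb T ≤ X)
    (b : X ≤ c3 T) (hc : seceb T < c3 T) :
    kA s X T = X / 2 - (c3 T / 2 - R3 par s T) * ((X - seceb T) / (c3 T - seceb T)) := by
  have hh := h0_pos
  have v2 : vA par s T 2 = seceb T / 2 := by
    simp only [vA, Matrix.cons_val]
    rw [if_neg (by linarith), if_neg (by linarith)]
    rfl
  have v3 : vA par s T 3 = R3 par s T := rfl
  unfold kA
  rw [sece_seg2 (adm_vA par s) h h3 a b, v2, v3]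
  have : c3 T - seceb T ≠ 0 := by linarith
  field_simp
  ring

/-- The correction of the near vertex vanishes. -/
theorem sece_kR {s X T : ℝ} (h : 3 * h0 / 2 ≤ T) (h3 : T ^ 2 ≤ 3) (a : 0 ≤ X)
    (b : X ≤ c3 T) : kR s X T = 0 := by
  have hh := h0_pos
  have v0 : vR par s T 0 = 0 := if_neg (by linarith)
  have v1 : vR par s T 1 = 0 := by
    simp only [vR, Matrix.cons_val_one, Matrix.cons_val_zero]
    rw [if_neg (by linarith), if_neg (by linarith), if_neg (by linarith)]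
  have v2 : vR par s T 2 = 0 := by
    simp only [vR, Matrix.cons_val]
    rw [if_neg (by linarith), if_neg (by linarith), if_neg (by linarith)]
  have v3 : vR par s T 3 = 0 := rfl
  unfold kR
  rcases le_total X (Wc T) with hX | hX
  · rw [sece_seg0 (adm_vR s) h h3 a hX, v0, v1]
    ring
  · rcases le_total X (seceb T) with hY | hY
    · rw [sece_seg1 (adm_vR s) h h3 hX hY, v1, v2]
      ring
    · rw [sece_seg2 (adm_vR s) h h3 hY b, v2, v3]
      ring

theorem sece_Wb {T : ℝ} (h : 3 * h0 / 2 ≤ T) (h3 : T ^ 2 ≤ 3) : 0 ≤ Wc T ∧ Wc T ≤ seceb T := by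
  have hh := h0_pos
  have e1 : pos.cv 1 T = Wc T := cv_one_high (by linarith)
  have e2 : pos.cv 2 T = seceb T := cv_two_high (by linarith)
  have m : pos.cv 1 T ≤ pos.cv 2 T := pos.cv_mono (by linarith) h3 (by decide)
  rw [e1, e2] at m
  exact ⟨(sece_T h h3).2.1, m⟩

theorem sece_vX {s T : ℝ} (h : 3 * h0 / 2 ≤ T) :
    vX par s T 0 = 0 ∧ vX par s T 1 = s ^ 2 * (XV par s (seceb T) * (Wc T / seceb T)) ∧
      vX par s T 2 = s ^ 2 * XV par s (seceb T) := by
  have hh := h0_pos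
  have g1 := h0_gt
  have e1 : pos.cv 1 T = Wc T := cv_one_high (by linarith)
  have e2 : pos.cv 2 T = seceb T := cv_two_high (by linarith)
  unfold vX vx
  refine ⟨?_, ?_, ?_⟩
  · simp only [Matrix.cons_val_zero]
    rw [if_neg (by linarith), mul_zero]
  · simp only [Matrix.cons_val_one, Matrix.cons_val_zero]
    rw [if_neg (by linarith), if_neg (by linarith), if_neg (by linarith), e1, e2]
  · simp only [Matrix.cons_val]
    rw [if_neg (by linarith), if_neg (by linarith), if_neg (by linarith), e2]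

/-- The level left of the inner node. -/
theorem sece_kX_lo {s X T : ℝ} (h : 3 * h0 / 2 ≤ T) (h3 : T ^ 2 ≤ 3) (a : 0 ≤ X)
    (b : X ≤ seceb T) : kX s X T = s ^ 2 * (XV par s (seceb T) * (X / seceb T)) := by
  obtain ⟨v0, v1, v2⟩ := sece_vX (s := s) h
  obtain ⟨w0, w1⟩ := sece_Wb h h3
  unfold kX
  rcases le_total X (Wc T) with hX | hX
  · rw [sece_seg0 (adm_vX par s) h h3 a hX, v0, v1]
    rcases w0.eq_or_lt with h0' | h0'
    · have : X = 0 := le_antisymm (by linarith) a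
      rw [this, zero_div, zero_div]
      ring
    · have : seceb T ≠ 0 := by linarith
      field_simp
      ring
  · rw [sece_seg1 (adm_vX par s) h h3 hX b, v1, v2]
    rcases w1.eq_or_lt with h0' | h0'
    · have : X = Wc T := le_antisymm (by linarith) hX
      rw [this]
      ring
    · have : seceb T - Wc T ≠ 0 := by linarith
      have : seceb T ≠ 0 := by linarith
      field_simp
      ring

/-- The level right of the inner node. -/
theorem sece_kX_hi {s X T : ℝ} (h : 3 * h0 / 2 ≤ T) (h3 : T ^ 2 ≤ 3) (a : seceb T ≤ X)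
    (b : X ≤ c3 T) (hc : seceb T < c3 T) (h0' : X3 par s T = 0) :
    kX s X T = s ^ 2 * (XV par s (seceb T) * ((c3 T - X) / (c3 T - seceb T))) := by
  obtain ⟨v0, v1, v2⟩ := sece_vX (s := s) h
  have v3 : vX par s T 3 = 0 := by
    change s ^ 2 * X3 par s T = 0
    rw [h0', mul_zero]
  unfold kX
  rw [sece_seg2 (adm_vX par s) h h3 a b, v2, v3]
  have : c3 T - seceb T ≠ 0 := by linarith
  field_simp
  ring

/-- The half angle. -/
theorem sece_u {T : ℝ} (h : 3 / 2 ≤ T) (h3 : T ^ 2 ≤ 3) :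
    0 ≤ c3 T / (2 * h0 + T) ∧ c3 T / (2 * h0 + T) ≤ 27 / 100 ∧
      c3 T / (2 * h0 + T) * (2 * h0 + T) = c3 T ∧ c3 T * (c3 T / (2 * h0 + T)) = 2 * h0 - T ∧
      c3 T ≤ h0 := by
  have hh := h0_pos
  have g1 := h0_gt
  have hq := h0_sq'
  obtain ⟨b1, b2⟩ := h0_bd
  have c0 := c3_nonneg T
  have e := c3_sq h3
  have c1 : c3 T ≤ h0 := by
    refine le_of_sq2 hh.le ?_
    have := pow_le_pow_left₀ (by norm_num : (0 : ℝ) ≤ 3 / 2) h 2
    linarith
  have ne : 2 * h0 + T ≠ 0 := by linarith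
  refine ⟨by positivity, ?_, div_mul_cancel₀ _ ne, ?_, c1⟩
  · rw [div_le_iff₀ (by linarith)]
    linarith
  · field_simp
    linear_combination e - 4 * hq

/-- The defect on the circle above `3 / 2`. -/
theorem sece_F {s T : ℝ} (hs : 0 < s) (h : 3 / 2 ≤ T) (h3 : T ^ 2 ≤ 3)
    (hc : 4 * s ≤ c3 T / (2 * h0)) :
    c3 T / 2 - R3 par s T = (2 * h0 - T) * (2 - c3 T / (2 * h0 + T) / 2) := by
  have hh := h0_pos
  have g1 := h0_gt
  have g2 := h0_bd.2
  obtain ⟨u0, u1, u2, u3, c1⟩ := sece_u h h3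
  have eR : R3 par s T = (1 - 2 * (c3 T / (2 * h0))) * (c3 T / (1 + T / (2 * h0))) := by
    unfold R3
    rw [if_neg (by linarith), if_neg (by linarith), if_pos c1, RA_eq hs hc]
  have eq : c3 T / (1 + T / (2 * h0)) = 2 * h0 * (c3 T / (2 * h0 + T)) := by
    have : 2 * h0 + T ≠ 0 := by linarith
    field_simp
  have e2 : 2 * h0 * (2 * (c3 T / (2 * h0))) = 2 * c3 T := by field_simp
  rw [eR, eq]
  generalize c3 T / (2 * h0 + T) = u at *
  generalize c3 T / (2 * h0) = z at *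
  generalize c3 T = c at *
  linear_combination u * e2 + 2 * u3 - 1 / 2 * u2

/-- The defects at two heights above `3 / 2`. -/
theorem sece_Fpair {T T0 : ℝ} (h : 3 / 2 ≤ T) (h' : T ≤ T0) (h3 : T0 ^ 2 ≤ 3) :
    (2 * h0 - T0) * (2 - c3 T0 / (2 * h0 + T0) / 2) ≤
      (2 * h0 - T) * (2 - c3 T / (2 * h0 + T) / 2) ∧
    (2 * h0 - T) * (2 - c3 T / (2 * h0 + T) / 2) -
      (2 * h0 - T0) * (2 - c3 T0 / (2 * h0 + T0) / 2) ≤ 2 * (T0 - T) := by
  have hh := h0_pos
  have g1 := h0_gt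
  have hT3 : T ^ 2 ≤ 3 := (pow_le_pow_left₀ (by linarith) h' 2).trans h3
  obtain ⟨u0, u1, u2, u3, -⟩ := sece_u h hT3
  obtain ⟨v0, v1, v2, v3, -⟩ := sece_u (h.trans h') h3
  have hc := c3_anti (by linarith) h' h3
  have huv : c3 T0 / (2 * h0 + T0) ≤ c3 T / (2 * h0 + T) :=
    div_le_div₀ (c3_nonneg T) hc (by linarith) (by linarith)
  have hT2 : T0 ≤ 2 * h0 := by
    refine le_of_sq2 (by linarith) ?_
    rw [mul_pow, h0_sq']
    linarith
  generalize c3 T / (2 * h0 + T) = u at *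
  generalize c3 T0 / (2 * h0 + T0) = v at *
  generalize c3 T = c at *
  generalize c3 T0 = d at *
  subst u2 v2
  clear hc h3 hT3
  have k1 : (T0 - T) * (1 + u ^ 2) = (T0 + 2 * h0) * (u - v) * (u + v) := by
    linear_combination v3 - u3
  have ku : 1 + u ^ 2 ≤ 2 - u / 2 := by
    have := mul_nonneg u0 (by linarith : 0 ≤ 27 / 100 - u)
    linarith
  have k2 : (T0 - T) * (1 + u ^ 2) ≤ (T0 - T) * (2 - u / 2) :=
    mul_le_mul_of_nonneg_left ku (by linarith)
  have W0 : 0 ≤ (T0 + 2 * h0) * (u - v) := mul_nonneg (by linarith) (by linarith)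
  have k3 : (T0 + 2 * h0) * (u - v) * v ≤ (T0 + 2 * h0) * (u - v) * (u + v) :=
    mul_le_mul_of_nonneg_left (by linarith) W0
  have k4 : (2 * h0 - T0) * (u - v) = (T0 + 2 * h0) * (u - v) * v ^ 2 := by
    rw [← v3]
    ring
  have kv : v ^ 2 ≤ v := by
    have := mul_nonneg v0 (by linarith : 0 ≤ 1 - v)
    linarith
  have k5 : (T0 + 2 * h0) * (u - v) * v ^ 2 ≤ (T0 + 2 * h0) * (u - v) * v :=
    mul_le_mul_of_nonneg_left kv W0
  have k6 : 0 ≤ (2 * h0 - T0) * (u - v) := mul_nonneg (by linarith) (by linarith)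
  have k7 : 0 ≤ (T0 - T) * u := mul_nonneg (by linarith) u0
  have e : (2 * h0 - T) * (2 - u / 2) - (2 * h0 - T0) * (2 - v / 2) =
      (T0 - T) * (2 - u / 2) - (2 * h0 - T0) * (u - v) / 2 := by ring
  have k8 : (2 * h0 - T0) * (u - v) ≤ (T0 - T) * (2 - u / 2) := by
    rw [k4]
    exact (k5.trans k3).trans (k1.symm.le.trans k2)
  constructor
  · linarith
  · rw [e]
    linarith

/-- The defect on the circle below `3 / 2`. -/
theorem sece_Flow {s T : ℝ} (hs : 0 < s) (hs1 : s ≤ 11 / 400) (h : 139 / 100 ≤ T) (h2 : T < 3 / 2) :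
    h0 / 2 ≤ c3 T / 2 - R3 par s T ∧
      c3 T / 2 - R3 par s T ≤ h0 / 2 + 2622 / 1000 * (3 / 2 - T) := by
  have hh := h0_pos
  have hq := h0_sq'
  obtain ⟨b1, b2⟩ := h0_bd
  obtain ⟨w, rfl⟩ : ∃ w, T = 3 / 2 - w := ⟨3 / 2 - T, by ring⟩
  have w0 : 0 < w := by linarith
  have w1 : w ≤ 11 / 100 := by linarith
  have ww := mul_pos w0 (by linarith : 0 < 3 - w)
  have h3 : (3 / 2 - w) ^ 2 ≤ 3 := by linarith
  have e := c3_sq h3
  have c0 := c3_nonneg (3 / 2 - w)
  have c1 : h0 < c3 (3 / 2 - w) := by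
    by_contra hc
    rw [not_lt] at hc
    have := pow_le_pow_left₀ c0 hc 2
    linarith
  have c2 : c3 (3 / 2 - w) ≤ h0 * (1 + 2 * w) := by
    refine le_of_sq2 (by positivity) ?_
    rw [mul_pow, hq]
    have := sq_nonneg w
    linarith
  have x1 : 1 / 2 - w ≤ (3 / 2 - w) / 2 - c3 (3 / 2 - w) / (4 * h0) := by
    have : c3 (3 / 2 - w) / (4 * h0) ≤ (1 + 2 * w) / 4 := by
      rw [div_le_iff₀ (by positivity)]
      linarith
    linarith
  have x2 : (3 / 2 - w) / 2 - c3 (3 / 2 - w) / (4 * h0) ≤ 1 / 2 := by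
    have : 1 / 4 ≤ c3 (3 / 2 - w) / (4 * h0) := by
      rw [le_div_iff₀ (by positivity)]
      linarith
    linarith
  have eR : R3 par s (3 / 2 - w) = (3 / 2 - w - 2 * h0) *
      ((1 - 2 * ((3 / 2 - w) / 2 - c3 (3 / 2 - w) / (4 * h0))) /
        ((3 / 2 - w) / 2 - c3 (3 / 2 - w) / (4 * h0))) := by
    unfold R3
    rw [if_neg (by linarith), if_neg (by linarith), if_neg (not_le.2 c1), RA_eq hs (by linarith)]
  rw [eR]
  generalize (3 / 2 - w) / 2 - c3 (3 / 2 - w) / (4 * h0) = x at *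
  generalize c3 (3 / 2 - w) = c at *
  have p0 : 0 ≤ (1 - 2 * x) / x := div_nonneg (by linarith) (by linarith)
  have p1 : (1 - 2 * x) / x ≤ 513 / 100 * w := by
    rw [div_le_iff₀ (by linarith)]
    have := mul_nonneg w0.le (by linarith : 0 ≤ x - 39 / 100)
    linarith
  have p2 : (2 * h0 - (3 / 2 - w)) * ((1 - 2 * x) / x) ≤ 3421 / 10000 * (513 / 100 * w) :=
    mul_le_mul (by linarith) p1 p0 (by norm_num)
  have p3 : 0 ≤ (2 * h0 - (3 / 2 - w)) * ((1 - 2 * x) / x) := mul_nonneg (by linarith) p0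
  have p4 : h0 * (1 + 2 * w) ≤ h0 + 86603 / 50000 * w := by
    have := mul_nonneg w0.le (by linarith : 0 ≤ 86603 / 100000 - h0)
    linarith
  generalize (1 - 2 * x) / x = y at *
  constructor
  · linarith
  · linarith

/-- The level near the vertical direction in the scaled variable. -/
noncomputable def seceV (s w : ℝ) : ℝ := 2 * xB par (w / 2) - xA par s w

theorem sece_V {s w : ℝ} (hs : 0 < s) (hs1 : s ≤ 11 / 400) (hw : 0 ≤ w) :
    |seceV s w| ≤ 7 / 25 * w ∧
      (5 / 2 ≤ w → w ≤ 5 → |seceV s w| ≤ 571 / 1125 * (5 - w)) ∧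
      (5 ≤ w → seceV s w = 0) := by
  obtain ⟨a1, a2⟩ := x1_bd hs hs1
  obtain ⟨b1, b2⟩ := xm_bd hs hs1
  have hB1 : w ≤ 2 → 2 * xB par (w / 2) = w * (181 / 375 + 209 / 1500 * w) := by
    intro h
    unfold xB par
    rw [if_pos (by linarith)]
    simp only
    ring
  have hB2 : 2 < w → w ≤ 5 → 2 * xB par (w / 2) = 571 / 1125 * (5 - w) := by
    intro h h'
    unfold xB par
    rw [if_neg (by linarith), if_pos (by linarith)]
    unfold pl
    simp only
    ring
  have hB3 : 5 < w → 2 * xB par (w / 2) = 0 := by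
    intro h
    unfold xB
    rw [if_neg (by linarith), if_neg (by linarith), mul_zero]
  have hA1 : w ≤ 1 → xA par s w = w * (2 * x1 s - xm par s + (xm par s - x1 s) * w) := by
    intro h
    unfold xA x0
    rw [if_pos (by linarith), if_pos h]
  have hA2 : 1 < w → w ≤ 3 / 2 → xA par s w = x1 s + xm par s * (w - 1) := by
    intro h h'
    unfold xA x0
    rw [if_pos h', if_neg (by linarith)]
  have hA3 : 3 / 2 < w → w ≤ 5 / 2 → xA par s w =
      x1 s + xm par s / 2 + (319 / 250 - (x1 s + xm par s / 2)) * (w - 3 / 2) := by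
    intro h h'
    unfold xA pl par
    rw [if_neg (by linarith), if_pos h']
    simp only
    ring
  have hA4 : 5 / 2 < w → w ≤ 4 → xA par s w = 638 / 750 * (4 - w) := by
    intro h h'
    unfold xA
    rw [if_neg (by linarith), if_neg (by linarith), if_pos h']
    unfold pl par
    simp only
    ring
  have hA5 : 4 < w → xA par s w = 0 := by
    intro h
    unfold xA
    rw [if_neg (by linarith), if_neg (by linarith), if_neg (by linarith)]
  unfold seceV
  generalize x1 s = p at *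
  generalize xm par s = q at *
  rcases le_or_gt w 1 with h1 | h1
  · rw [hB1 (by linarith), hA1 h1]
    refine ⟨?_, fun h => absurd h (by linarith), fun h => absurd h (by linarith)⟩
    have k1 : 0 ≤ w * (q - p) := mul_nonneg hw (by linarith)
    have k2 : 0 ≤ w * (1 - w) := mul_nonneg hw (by linarith)
    have k3 : 0 ≤ w * (w * (q - p)) := mul_nonneg hw k1
    have k4 : 0 ≤ w * (1 - w) * (q - 1 / 2) := mul_nonneg k2 (by linarith)
    have k5 : 0 ≤ w * (2 - w) * (1 / 2 - p) := mul_nonneg (mul_nonneg hw (by linarith)) (by linarith)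
    have k6 : 0 ≤ w * (p - 49 / 100) := mul_nonneg hw (by linarith)
    have k7 : 0 ≤ w * (3 / 5 - q) := mul_nonneg hw (by linarith)
    rw [abs_le]
    constructor <;> nlinarith
  rcases le_or_gt w (3 / 2) with h2 | h2
  · rw [hB1 (by linarith), hA2 h1 h2]
    refine ⟨?_, fun h => absurd h (by linarith), fun h => absurd h (by linarith)⟩
    have k1 : 0 ≤ (w - 1) * (q - 1 / 2) := mul_nonneg (by linarith) (by linarith)
    have k2 : 0 ≤ (w - 1) * (3 / 5 - q) := mul_nonneg (by linarith) (by linarith)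
    have k3 : 0 ≤ (w - 1) * (3 / 2 - w) := mul_nonneg (by linarith) (by linarith)
    rw [abs_le]
    constructor <;> nlinarith
  rcases le_or_gt w 2 with h3 | h3
  · rw [hB1 h3, hA3 h2 (by linarith)]
    refine ⟨?_, fun h => absurd h (by linarith), fun h => absurd h (by linarith)⟩
    have k1 : 0 ≤ (w - 3 / 2) * (p + q / 2 - 74 / 100) := mul_nonneg (by linarith) (by linarith)
    have k2 : 0 ≤ (w - 3 / 2) * (8 / 10 - (p + q / 2)) := mul_nonneg (by linarith) (by linarith)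
    have k3 : 0 ≤ (w - 3 / 2) * (2 - w) := mul_nonneg (by linarith) (by linarith)
    have k4 : 0 ≤ (5 / 2 - w) * (p + q / 2 - 74 / 100) := mul_nonneg (by linarith) (by linarith)
    have k5 : 0 ≤ (5 / 2 - w) * (8 / 10 - (p + q / 2)) := mul_nonneg (by linarith) (by linarith)
    rw [abs_le]
    constructor <;> nlinarith
  rcases le_or_gt w (5 / 2) with h4 | h4
  · rw [hB2 h3 (by linarith), hA3 h2 h4]
    have k4 : 0 ≤ (5 / 2 - w) * (p + q / 2 - 74 / 100) := mul_nonneg (by linarith) (by linarith)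
    have k5 : 0 ≤ (5 / 2 - w) * (8 / 10 - (p + q / 2)) := mul_nonneg (by linarith) (by linarith)
    refine ⟨?_, fun h h' => ?_, fun h => absurd h (by linarith)⟩
    · rw [abs_le]
      constructor <;> nlinarith
    · rw [abs_le]
      have : w = 5 / 2 := le_antisymm h4 h
      subst this
      constructor <;> linarith
  rcases le_or_gt w 4 with h5 | h5
  · rw [hB2 h3 (by linarith), hA4 h4 h5]
    refine ⟨?_, fun h h' => ?_, fun h => absurd h (by linarith)⟩
    · rw [abs_le]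
      constructor <;> linarith
    · rw [abs_le]
      constructor <;> linarith
  rcases le_or_gt w 5 with h6 | h6
  · rw [hB2 h3 h6, hA5 h5, sub_zero, abs_of_nonneg (by linarith)]
    refine ⟨by linarith, fun _ _ => le_rfl, fun h => ?_⟩
    have : w = 5 := le_antisymm h6 h
    subst this
    norm_num
  · rw [hB3 h6, hA5 h5, sub_zero, abs_zero]
    exact ⟨by linarith, fun _ h => absurd h (by linarith), fun _ => rfl⟩

theorem sece_XV {s X : ℝ} (hs : 0 < s) : XV par s X = seceV s (X / (2 * h0) / s) := by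
  unfold XV seceV
  rw [show X / (2 * h0) / (2 * s) = X / (2 * h0) / s / 2 by field_simp]

end Pool.Agent.Strip051.LC.E0.Out
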