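import Pool.Agent.Strip051.LC.E0.OutL

/-! # Small rests: the unit circle where the kernel vanishes -/

namespace Pool.Agent.Strip051.LC.E0.Out

open Pool.Agent.StripNear Pool.Agent.StripSquare Pool.Agent.Strip051 Pool.Agent.Strip051.Sweep
open Pool.Agent.Strip051.LC.Line (tau)

private theorem zer1_pl {v : ℝ → Fin 4 → ℝ} (hv : K.adm v) (i : Fin 3) {X T : ℝ} (hT : 0 ≤ T)
    (h3 : T ^ 2 ≤ 3) (h1 : pos.cv i.castSucc T ≤ X) (h2 : X ≤ pos.cv i.succ T) :
    ker K.nodes v (fun _ _ => 0) X T =
      pl (pos.cv i.castSucc T) (v T i.castSucc) (pos.cv i.succ T) (v T i.succ) X :=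
  K.seg v hv i X T hT h3 h1 h2

private theorem zer1_plc {a b y x : ℝ} : pl a y b y x = y := by
  unfold pl
  ring

/-- Equal values at two neighbouring nodes. -/
private theorem zer1_const {v : ℝ → Fin 4 → ℝ} (hv : K.adm v) (i : Fin 3) {X T c : ℝ} (hT : 0 ≤ T)
    (h3 : T ^ 2 ≤ 3) (h1 : pos.cv i.castSucc T ≤ X) (h2 : X ≤ pos.cv i.succ T)
    (e1 : v T i.castSucc = c) (e2 : v T i.succ = c) :
    ker K.nodes v (fun _ _ => 0) X T = c := by
  rw [zer1_pl hv i hT h3 h1 h2, e1, e2, zer1_plc]

private theorem zer1_taper {z : ℝ} (h : 4 ≤ z) : taper z = 0 := by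
  unfold taper
  rw [if_neg (by linarith)]
  split_ifs with h5
  · rw [le_antisymm h5 h, pl_right (by norm_num)]
  · rfl

private theorem zer1_xW {s z : ℝ} (h : 5 / 2 ≤ z) : xW par s z = 0 := by
  unfold xW
  rw [if_neg (by linarith)]
  split_ifs with h5
  · rw [le_antisymm h5 h, pl_right (by norm_num)]
  · rfl

private theorem zer1_xB {s x : ℝ} (hs : 0 < s) (h : 5 * s ≤ x) : xB par (x / (2 * s)) = 0 := by
  have := lvl_far hs h
  unfold lvl at this
  exact (mul_eq_zero.1 this).resolve_left (by positivity)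

/-! ### 90 degrees -/

private theorem zer1_c90 {s X T : ℝ} (hs : 0 < s) (hs1 : s ≤ 11 / 400) (hA : Ann X T)
    (hN : Nr s 0 1 X T) (hX : 0 ≤ X) :
    |kA s X T| ≤ 9 / 4 * (|X| + |T - 1|) ∧ kR s X T = 0 ∧ kX s X T = 0 := by
  have hh := h0_pos
  have hq := h0_sq'
  obtain ⟨b1, b2⟩ := h0_bd
  obtain ⟨n1, n2⟩ := hN.abs hs
  rw [sub_zero, abs_of_nonneg hX] at n1
  obtain ⟨n3, n4⟩ := abs_le.1 n2
  have lo := hA.lo
  have hT := hA.T0
  have h3 : T ^ 2 ≤ 3 := by linarith [hA.hi, sq_nonneg X]
  have hN' := hN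
  unfold Nr at hN'
  -- the height
  have y4 : 4 * s ≤ T - h0 := by
    have s2 : s * s ≤ 11 / 400 * s := mul_le_mul_of_nonneg_right hs1 hs.le
    linarith
  have hT1 : T < 3 * h0 / 2 := by linarith
  have hT0 : h0 ≤ T := by linarith
  have W1 : 1 / 2 - (T - h0) ^ 2 ≤ Wc T := (upp_bd hT0 h3).2.2
  have XW : X ≤ Wc T := by
    have : (T - h0) ^ 2 ≤ (36 / 100) ^ 2 := by
      refine pow_le_pow_left₀ (by linarith) (by linarith) 2
    linarith
  have cX : c1 T ≤ X := by
    rcases le_total T 1 with h | h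
    · refine le_of_sq2 hX ?_
      have := c1_sq hT h
      linarith
    · rw [c1_zero h]
      exact hX
  have x8 : T < 1 → 8 * s ≤ T / 2 - h0 * c1 T := by
    intro h
    have F := tu_facts hT0 h.le
    have := F.eT
    have := mul_le_mul_of_nonneg_left F.C1 hh.le
    linarith
  have e0 : pos.cv 0 T = c1 T := cv_zero T
  have e1 : pos.cv 1 T = Wc T := cv_one_high hT0
  have k0 : pos.cv (Fin.castSucc (0 : Fin 3)) T ≤ X := by
    change pos.cv 0 T ≤ X
    rwa [e0]
  have k1 : X ≤ pos.cv (Fin.succ (0 : Fin 3)) T := by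
    change X ≤ pos.cv 1 T
    rwa [e1]
  have z4 : 4 ≤ (T - h0) / s := by rwa [le_div_iff₀ hs]
  refine ⟨?_, ?_, ?_⟩
  · have e : kA s X T = Gx T - 2 * (T - h0) + (4 * h0 - 3) * X :=
      ker_c1W_aff hs (by linarith) hT1 (fun h => by linarith [x8 h]) cX XW
    rw [e, abs_of_nonneg hX]
    have r0 : 0 ≤ (4 * h0 - 3) * X := mul_nonneg (by linarith) hX
    have r1 : (4 * h0 - 3) * X ≤ 1 / 2 * X := mul_le_mul_of_nonneg_right (by linarith) hX
    rcases le_total T 1 with h | h
    · have e2 : Gx T = Gu T := if_pos h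
      have l := abs_le.1 (Gu_lip hT0 h le_rfl)
      rw [Gu_one] at l
      rw [e2, abs_of_nonpos (by linarith : T - 1 ≤ 0), abs_le]
      constructor <;> linarith [l.1, l.2]
    · have e2 : Gx T = 2 * (T - h0) := by
        unfold Gx
        rcases h.eq_or_lt with h' | h'
        · rw [← h', if_pos le_rfl, Gu_one]
          ring
        · rw [if_neg (by linarith)]
      rw [e2, abs_of_nonneg (by linarith : 0 ≤ T - 1), abs_le]
      constructor <;> linarith
  · refine zer1_const (adm_vR s) 0 hT h3 k0 k1 ?_ ?_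
    · change (if T < h0 / 2 then _ else (0 : ℝ)) = 0
      rw [if_neg (by linarith)]
    · change (if T < h0 / 2 then _ else if T < h0 then (0 : ℝ) else if T < 3 * h0 / 2 then
        (r2 par s + r2d par s) * taper ((T - h0) / s) else 0) = 0
      rw [if_neg (by linarith), if_neg (by linarith), if_pos hT1, zer1_taper z4, mul_zero]
  · refine zer1_const (adm_vX par s) 0 hT h3 k0 k1 ?_ ?_
    · change s ^ 2 * (if T < 1 then X1 par s T else 0) = 0
      split_ifs with h
      · have := x8 h
        unfold X1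
        rw [if_neg (by linarith), if_neg (by linarith), xA_far hs (by linarith),
          zer1_xB hs (by linarith), sub_zero, mul_zero]
      · rw [mul_zero]
    · change s ^ 2 * (if T < h0 / 2 then _ else if T < h0 then _ else if T < 3 * h0 / 2 then
        xW par s ((T - h0) / s) else _) = 0
      rw [if_neg (by linarith), if_neg (by linarith), if_pos hT1, zer1_xW (by linarith), mul_zero]

/-- The unit circle at 90 degrees. -/
theorem zero_c90 {s X T : ℝ} (hs : 0 < s) (hs1 : s ≤ 11 / 400) (hA : Ann X T)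
    (hN : Nr s 0 1 X T) :
    |kA s X T| ≤ 9 / 4 * (|X| + |T - 1|) ∧ kR s X T = 0 ∧ kX s X T = 0 := by
  rcases le_total 0 X with h | h
  · exact zer1_c90 hs hs1 hA hN h
  · have hA' : Ann (-X) T := ⟨hA.T0, by rw [neg_sq]; exact hA.lo, by rw [neg_sq]; exact hA.hi⟩
    have hN' : Nr s 0 1 (-X) T := by
      unfold Nr at hN ⊢
      nlinarith
    have := zer1_c90 hs hs1 hA' hN' (by linarith)
    rw [kA_neg, kR_neg, kX_neg, abs_neg, abs_neg, neg_eq_zero, neg_eq_zero] at this
    exact this

/-! ### 30 degrees -/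

/-- The kernel on the unit circle plus the first slope. -/
private theorem zer1_R1 {s T Y : ℝ} (hs : 0 < s) (hs1 : s ≤ 11 / 400) (hT : h0 / 2 ≤ T)
    (hT1 : T ≤ 72 / 100) (hY : c1 T ≤ Y) :
    |R1 par s T + 353 / 500 * (Y - c1 T)| ≤ 9 / 4 * (|Y - h0| + |T - 1 / 2|) := by
  have hh := h0_pos
  have hq := h0_sq'
  obtain ⟨b1, b2⟩ := h0_bd
  have T0 : 0 < T := by linarith
  have e := c1_sq T0.le (by linarith)
  have c0 := c1_nonneg T
  rcases le_or_gt T (1 / 2) with h | h
  · have hc : h0 ≤ c1 T := by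
      refine le_of_sq2 c0 ?_
      have : T * T ≤ 1 / 2 * (1 / 2) := mul_le_mul h h T0.le (by norm_num)
      linarith
    have eR : R1 par s T = (1 - 2 * T) * ((T - h0) / T) := by
      unfold R1
      rw [if_neg (by linarith), if_pos h, RA_eq hs (by linarith)]
    have q1 : -1 ≤ (T - h0) / T := by
      rw [le_div_iff₀ T0]
      linarith
    have q2 : (T - h0) / T ≤ 0 := div_nonpos_of_nonpos_of_nonneg (by linarith) T0.le
    have r1 := mul_le_mul_of_nonneg_left q1 (by linarith : 0 ≤ 1 - 2 * T)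
    have r2 := mul_nonpos_of_nonneg_of_nonpos (by linarith : 0 ≤ 1 - 2 * T) q2
    rw [eR, abs_of_nonneg (by linarith : 0 ≤ Y - h0), abs_of_nonpos (by linarith : T - 1 / 2 ≤ 0),
      abs_le]
    constructor <;> linarith
  · obtain ⟨δ, hδ⟩ : ∃ δ, T = 1 / 2 + δ := ⟨T - 1 / 2, by ring⟩
    obtain ⟨d, hd⟩ : ∃ d, c1 T = h0 - d := ⟨h0 - c1 T, by ring⟩
    have δ0 : 0 ≤ δ := by linarith
    have δ1 : δ ≤ 22 / 100 := by linarith
    have cl : 69 / 100 ≤ c1 T := by
      refine le_of_sq2 c0 ?_
      have : T * T ≤ 72 / 100 * (72 / 100) := mul_le_mul hT1 hT1 T0.le (by norm_num)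
      linarith
    have hc : c1 T ≤ h0 := by
      refine le_of_sq2 hh.le ?_
      have : 1 / 2 * (1 / 2) ≤ T * T := mul_le_mul h.le h.le (by norm_num) T0.le
      linarith
    have ed : d * (h0 + c1 T) = δ * (1 + δ) := by
      rw [hd] at e ⊢
      rw [hδ] at e
      linear_combination hq - e
    have d0 : 0 ≤ d := by linarith
    have d1 : d * (1556 / 1000) ≤ δ * (1 + δ) := by
      rw [← ed]
      exact mul_le_mul_of_nonneg_left (by linarith) d0
    have ew : h0 * c1 T - T / 2 = 1 / 2 - (δ + 2 * h0 * d) / 2 := by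
      rw [hd, hδ]
      linear_combination hq
    have w1 : 4 * s ≤ h0 * c1 T - T / 2 := by
      have := mul_le_mul b1.le cl (by norm_num) hh.le
      linarith
    have w2 : h0 * c1 T - T / 2 ≤ 1 / 2 := by
      rw [ew]
      have : 0 ≤ 2 * h0 * d := by positivity
      linarith
    obtain ⟨r1, -⟩ := c1_rot T0.le (by linarith)
    have C0 : 0 ≤ c1 T / 2 + h0 * T := by positivity
    have hC : h0 ≤ c1 T / 2 + h0 * T := by
      refine le_of_sq2 C0 ?_
      have : (h0 * c1 T - T / 2) * (h0 * c1 T - T / 2) ≤ 1 / 2 * (1 / 2) :=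
        mul_le_mul w2 w2 (by linarith) (by norm_num)
      linarith
    have hb := half_bd hC (by linarith : 0 ≤ h0 * c1 T - T / 2) (by linarith)
    have eR : R1 par s T = (δ + 2 * h0 * d) *
        (1 / 2 + h0 * (h0 * c1 T - T / 2) / (1 + (c1 T / 2 + h0 * T))) := by
      unfold R1
      rw [if_neg (by linarith), if_neg (by linarith), abs_of_nonpos (by linarith),
        RA_eq hs (by linarith), show T / 2 - h0 * c1 T = -(h0 * c1 T - T / 2) by ring]
      rw [show (1 : ℝ) - 2 * - -(h0 * c1 T - T / 2) = δ + 2 * h0 * d by rw [neg_neg, ew]; ring]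
      ring
    obtain ⟨u, hu⟩ : ∃ u, u = δ + 2 * h0 * d := ⟨_, rfl⟩
    have u0 : δ ≤ u := by
      have : 0 ≤ 2 * h0 * d := by positivity
      linarith
    have u1 : u ≤ δ + 173206 / 100000 * d := by
      have := mul_le_mul_of_nonneg_right (by linarith : 2 * h0 ≤ 173206 / 100000) d0
      linarith
    rw [← hu] at eR ew
    rw [ew] at eR hb
    have R0 : 0 ≤ R1 par s T := by
      rw [eR]
      refine mul_nonneg (by linarith) ?_
      have : 0 ≤ 433 / 1000 * (1 / 2 - u / 2) := by linarith
      linarith [hb.1]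
    have R2 : R1 par s T ≤ u * (7325 / 10000 - 2325 / 10000 * u) := by
      rw [eR]
      refine mul_le_mul_of_nonneg_left ?_ (by linarith)
      linarith [hb.2.1]
    have m1 : u * (7325 / 10000 - 2325 / 10000 * u) ≤
        (δ + 173206 / 100000 * d) * (7325 / 10000 - 2325 / 10000 * δ) := by
      refine mul_le_mul u1 (by linarith) ?_ (by positivity)
      linarith
    have m2 : (δ + 173206 / 100000 * d) * (7325 / 10000 - 2325 / 10000 * δ) +
        353 / 500 * d ≤ 9 / 4 * δ := by
      have a1 := mul_le_mul_of_nonneg_right d1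
        (by linarith : 0 ≤ 19748 / 10000 - 40270 / 100000 * δ)
      have a2 : 0 ≤ δ * (22 / 100 - δ) := mul_nonneg δ0 (by linarith)
      have a3 : 0 ≤ δ * δ * δ := by positivity
      have a4 : 0 ≤ d * δ := mul_nonneg d0 δ0
      linarith
    have g0 : 0 ≤ 353 / 500 * (Y - c1 T) := by linarith
    have g1 : 353 / 500 * (Y - c1 T) ≤ 353 / 500 * |Y - h0| + 353 / 500 * d := by
      have := le_abs_self (Y - h0)
      linarith
    rw [abs_of_nonneg (by linarith : 0 ≤ R1 par s T + 353 / 500 * (Y - c1 T)),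
      show T - 1 / 2 = δ by linarith, abs_of_nonneg δ0]
    have := abs_nonneg (Y - h0)
    linarith

/-- The kernel on `W`. -/
private theorem zer1_RW {s T : ℝ} (hs : 0 < s) (hs1 : s ≤ 11 / 400) (hT : h0 / 2 ≤ T)
    (hT1 : T ≤ 72 / 100) :
    |RW par s T| ≤ 9 / 4 * (Wc T - h0 + |T - 1 / 2|) := by
  have hh := h0_pos
  have hq := h0_sq'
  obtain ⟨b1, b2⟩ := h0_bd
  have T0 : 0 < T := by linarith
  have hTh : T < h0 := by linarith
  have h3 : T ^ 2 ≤ 3 := by
    have : T * T ≤ 72 / 100 * (72 / 100) := mul_le_mul hT1 hT1 T0.le (by norm_num)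
    linarith
  have e := c3_sq h3
  have c0 := c3_nonneg T
  obtain ⟨q1, q2⟩ := slL_small hs hs1 hT hTh
  obtain ⟨q3, -⟩ := R3_le_W hs hs1 hT hTh
  obtain ⟨-, -, -, w4⟩ := low_bd T0.le hTh
  have eW : RW par s T = R3 par s T - slL par s ((h0 - T) / s) * (c3 T - Wc T) := by
    unfold RW
    rw [if_neg (by linarith), if_pos hTh]
  have c15 : 3 / 2 ≤ c3 T := (c3_half T0.le h3).1 hTh.le
  have c17 : c3 T ≤ 17 / 10 := by
    refine le_of_sq2 (by norm_num) ?_
    have : h0 / 2 * (h0 / 2) ≤ T * T := mul_le_mul hT hT (by positivity) T0.le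
    linarith
  obtain ⟨w, hw⟩ : ∃ w, w = c3 T / (4 * h0) - T / 2 := ⟨_, rfl⟩
  have w1 : (h0 - T) / 2 ≤ w := by
    rw [hw, quot4]
    have := mul_le_mul_of_nonneg_right c15 hh.le
    linarith
  have w2 : w ≤ 3 / 10 := by
    rw [hw, quot4]
    have := mul_le_mul c17 b2.le hh.le (by norm_num)
    linarith
  have w0 : 0 ≤ w := by linarith
  obtain ⟨r1, -⟩ := c3_rot h3
  have C0 : 0 ≤ c3 T / 2 + T / (4 * h0) := by positivity
  have r2 : (c3 T / 2 + T / (4 * h0)) ^ 2 + w ^ 2 = 1 := by
    rw [hw]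
    linarith
  have hC : h0 ≤ c3 T / 2 + T / (4 * h0) := by
    refine le_of_sq2 C0 ?_
    have : w * w ≤ 3 / 10 * (3 / 10) := mul_le_mul w2 w2 w0 (by norm_num)
    linarith
  have hb := half_bd hC w0 r2
  have e3 : R3 par s T = RA par s w * (3 / 2 + h0 * w / (1 + (c3 T / 2 + T / (4 * h0)))) := by
    unfold R3
    rw [if_neg (by linarith), if_pos (by linarith),
      show T / 2 - c3 T / (4 * h0) = -w by rw [hw]; ring, abs_neg, abs_of_nonneg w0]
    ring
  have Rup : R3 par s T ≤ 9 / 4 * (3 / 2 - (h0 - T) ^ 2 - h0 + |T - 1 / 2|) := by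
    have l1 := le_abs_self (T - 1 / 2)
    have l2 := neg_abs_le (T - 1 / 2)
    rcases le_or_gt (4 * s) w with h | h
    · have r3 : R3 par s T ≤ 3 / 2 - 2535 / 1000 * w := by
        rw [e3, RA_eq hs h]
        have := mul_le_mul_of_nonneg_left
          (by linarith [hb.2.1] : 3 / 2 + h0 * w / (1 + (c3 T / 2 + T / (4 * h0))) ≤
            3 / 2 + 465 / 1000 * w) (by linarith : 0 ≤ 1 - 2 * w)
        have := mul_nonneg w0 w0
        linarith
      rcases le_total T (1 / 2) with h' | h'
      · have := mul_nonneg (by linarith : 0 ≤ (h0 - T) - 36602 / 100000)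
          (by linarith : 0 ≤ 43302 / 100000 - (h0 - T))
        linarith
      · have := mul_nonneg (by linarith : 0 ≤ (h0 - T) - 146 / 1000)
          (by linarith : 0 ≤ 367 / 1000 - (h0 - T))
        linarith
    · have r3 : R3 par s T ≤ 1 * (3 / 2 + 465 / 1000 * w) := by
        rw [e3]
        exact mul_le_mul (RA_le hs w0) (by linarith [hb.2.1])
          (by linarith [hb.1]) (by norm_num)
      have : (h0 - T) * (h0 - T) ≤ 22 / 100 * (22 / 100) :=
        mul_le_mul (by linarith) (by linarith) (by linarith) (by norm_num)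
      linarith
  have := abs_nonneg (T - 1 / 2)
  rw [eW, abs_le]
  constructor
  · have : (h0 - T) * (h0 - T) ≤ 44 / 100 * (44 / 100) :=
      mul_le_mul (by linarith) (by linarith) (by linarith) (by norm_num)
    linarith
  · linarith

/-- Where the kernel vanishes: the unit circle at 30 degrees. -/
theorem zero_c30 {s X T : ℝ} (hs : 0 < s) (hs1 : s ≤ 11 / 400) (hA : Ann X T)
    (hN : Nr s h0 (1 / 2) X T) :
    |kA s X T| ≤ 9 / 4 * (|X - h0| + |T - 1 / 2|) ∧ kR s X T = 0 ∧ kX s X T = 0 := by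
  have hh := h0_pos
  have hq := h0_sq'
  obtain ⟨b1, b2⟩ := h0_bd
  obtain ⟨n1, n2⟩ := hN.abs hs
  obtain ⟨n3, n4⟩ := abs_le.1 n1
  obtain ⟨n5, n6⟩ := abs_le.1 n2
  have lo := hA.lo
  have T0 : 28 / 100 ≤ T := by linarith
  have T1 : T ≤ 72 / 100 := by linarith
  have hT : 0 ≤ T := by linarith
  have X0 : 0 ≤ X := by linarith
  have TT : T * T ≤ 72 / 100 * (72 / 100) := mul_le_mul T1 T1 hT (by norm_num)
  have h3 : T ^ 2 ≤ 3 := by linarith
  have hTh : T < h0 := by linarith
  obtain ⟨w1, w2, w3, w4⟩ := low_bd hT hTh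
  have XW : X ≤ Wc T := by linarith
  have e := c1_sq hT (by linarith)
  have c0 := c1_nonneg T
  have cX : c1 T ≤ X := by
    refine le_of_sq2 X0 ?_
    linarith
  have cl : 69 / 100 ≤ c1 T := by
    refine le_of_sq2 c0 ?_
    linarith
  have cW : c1 T < Wc T := by
    have : c1 T ≤ 1 := le_of_sq2 (by norm_num) (by linarith [sq_nonneg T])
    linarith
  have e0 : pos.cv 0 T = c1 T := cv_zero T
  have e1 : pos.cv 1 T = c1 T + 1 / 3 * (Wc T - c1 T) := cv_one_low hTh
  have e2 : pos.cv 2 T = Wc T := cv_two_low hTh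
  have k0 : pos.cv (Fin.castSucc (0 : Fin 3)) T ≤ X := by
    change pos.cv 0 T ≤ X
    rwa [e0]
  have k2 : X ≤ pos.cv (Fin.succ (1 : Fin 3)) T := by
    change X ≤ pos.cv 2 T
    rwa [e2]
  have x5 : 1 / 2 < T → 5 * s ≤ h0 * c1 T - T / 2 := by
    intro _
    have := mul_le_mul b1.le cl (by norm_num) hh.le
    linarith
  -- the constant kernels
  have const : ∀ {v : ℝ → Fin 4 → ℝ}, K.adm v → ∀ c, v T 0 = c → v T 1 = c → v T 2 = c →
      ker K.nodes v (fun _ _ => 0) X T = c := by
    intro v hv c z0 z1 z2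
    rcases le_total X (pos.cv 1 T) with h | h
    · exact zer1_const hv 0 hT h3 k0 h z0 z1
    · exact zer1_const hv 1 hT h3 h k2 z1 z2
  have zT : 4 * s ≤ T := by linarith
  have tT : taper (T / s) = 0 := zer1_taper (by rwa [le_div_iff₀ hs])
  have tH : taper ((h0 - T) / s) = 0 := zer1_taper (by
    rw [le_div_iff₀ hs]
    linarith)
  have eX1 : X1 par s T = 0 := by
    unfold X1
    split_ifs with h
    · exact xA_far hs zT
    · exact zer1_xB hs (x5 (not_le.1 h))
  refine ⟨?_, ?_, ?_⟩
  · rcases lt_or_ge T (h0 / 2) with h | h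
    · have eR : RA par s T = 1 - 2 * T := RA_eq hs zT
      have ek : kA s X T = 1 - 2 * T := by
        refine const (adm_vA par s) _ ?_ ?_ ?_
        · change (if T < 1 then R1 par s T else 0) = _
          rw [if_pos (by linarith)]
          unfold R1
          rw [if_pos h, eR]
        · change (if T < h0 / 2 then RA par s T else _) = _
          rw [if_pos h, eR]
        · change (if T < h0 then RW par s T else _) = _
          rw [if_pos hTh]
          unfold RW
          rw [if_pos h, eR]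
      rw [ek, abs_of_nonneg (by linarith : 0 ≤ 1 - 2 * T),
        abs_of_nonpos (by linarith : T - 1 / 2 ≤ 0)]
      have := abs_nonneg (X - h0)
      linarith
    · have v0 : vA par s T 0 = R1 par s T := if_pos (by linarith)
      have v1 : vA par s T 1 = R1 par s T + 353 / 500 * (1 / 3 * (Wc T - c1 T)) := by
        change (if T < h0 / 2 then _ else if T < h0 then R1 par s T + par.l2 *
          (1 / 3 * (Wc T - c1 T)) else _) = _
        rw [if_neg (by linarith), if_pos hTh]
        rfl
      have v2 : vA par s T 2 = RW par s T := if_pos hTh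
      rcases le_total X (pos.cv 1 T) with h1 | h1
      · have ek : kA s X T = R1 par s T + 353 / 500 * (X - c1 T) := by
          have := zer1_pl (adm_vA par s) 0 hT h3 k0 h1
          unfold kA
          rw [this]
          change pl (pos.cv 0 T) (vA par s T 0) (pos.cv 1 T) (vA par s T 1) X = _
          have ne : 1 / 3 * (Wc T - c1 T) ≠ 0 := by linarith
          rw [e0, e1, v0, v1]
          unfold pl
          rw [add_sub_cancel_left, add_sub_cancel_left, mul_assoc, mul_div_cancel₀ _ ne]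
        rw [ek]
        exact zer1_R1 hs hs1 h T1 cX
      · have ek : kA s X T = pl (pos.cv 1 T) (vA par s T 1) (pos.cv 2 T) (vA par s T 2) X :=
          zer1_pl (adm_vA par s) 1 hT h3 h1 k2
        have g1 := abs_le.1 (zer1_R1 hs hs1 h T1
          (by linarith : c1 T ≤ c1 T + 1 / 3 * (Wc T - c1 T)))
        have g2 := abs_le.1 (zer1_RW hs hs1 h T1)
        rw [e1] at h1
        have c1h : h0 ≤ c1 T + 1 / 3 * (Wc T - c1 T) := by
          rcases le_or_gt T (1 / 2) with h5 | h5
          · have : h0 ≤ c1 T := by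
              refine le_of_sq2 c0 ?_
              have : T * T ≤ 1 / 2 * (1 / 2) := mul_le_mul h5 h5 hT (by norm_num)
              linarith
            linarith
          · linarith
        rw [abs_of_nonneg (by linarith : 0 ≤ c1 T + 1 / 3 * (Wc T - c1 T) - h0)] at g1
        rw [ek, e1, e2, v1, v2, abs_of_nonneg (by linarith : 0 ≤ X - h0), abs_le]
        have xx : c1 T + 1 / 3 * (Wc T - c1 T) < Wc T := by linarith
        constructor
        · have := le_pl_aff (a := -(9 / 4)) (b := 9 / 4 * h0 - 9 / 4 * |T - 1 / 2|)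
            (y0 := R1 par s T + 353 / 500 * (1 / 3 * (Wc T - c1 T))) (y1 := RW par s T)
            xx h1 XW (by linarith [g1.1]) (by linarith [g2.1])
          linarith
        · have := pl_le_aff (a := 9 / 4) (b := -(9 / 4) * h0 + 9 / 4 * |T - 1 / 2|)
            (y0 := R1 par s T + 353 / 500 * (1 / 3 * (Wc T - c1 T))) (y1 := RW par s T)
            xx h1 XW (by linarith [g1.2]) (by linarith [g2.2])
          linarith
  · rcases lt_or_ge T (h0 / 2) with h | h
    · refine const (adm_vR s) _ ?_ ?_ ?_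
      · change (if T < h0 / 2 then r2 par s * taper (T / s) else 0) = 0
        rw [if_pos h, tT, mul_zero]
      · change (if T < h0 / 2 then r2 par s * taper (T / s) else _) = 0
        rw [if_pos h, tT, mul_zero]
      · change (if T < h0 / 2 then r2 par s * taper (T / s) else _) = 0
        rw [if_pos h, tT, mul_zero]
    · refine const (adm_vR s) _ ?_ ?_ ?_
      · change (if T < h0 / 2 then _ else (0 : ℝ)) = 0
        rw [if_neg h.not_gt]
      · change (if T < h0 / 2 then _ else if T < h0 then (0 : ℝ) else _) = 0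
        rw [if_neg h.not_gt, if_pos hTh]
      · change (if T < h0 / 2 then _ else if T < h0 then
          (r2 par s - r2d par s) * taper ((h0 - T) / s) else _) = 0
        rw [if_neg h.not_gt, if_pos hTh, tH, mul_zero]
  · rcases lt_or_ge T (h0 / 2) with h | h
    · refine const (adm_vX par s) _ ?_ ?_ ?_
      · change s ^ 2 * (if T < 1 then X1 par s T else 0) = 0
        rw [if_pos (by linarith), eX1, mul_zero]
      · change s ^ 2 * (if T < h0 / 2 then xA par s (T / s) else _) = 0
        rw [if_pos h, xA_far hs zT, mul_zero]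
      · change s ^ 2 * (if T < h0 / 2 then xA par s (T / s) else _) = 0
        rw [if_pos h, xA_far hs zT, mul_zero]
    · refine const (adm_vX par s) _ ?_ ?_ ?_
      · change s ^ 2 * (if T < 1 then X1 par s T else 0) = 0
        rw [if_pos (by linarith), eX1, mul_zero]
      · change s ^ 2 * (if T < h0 / 2 then _ else if T < h0 then X1 par s T else _) = 0
        rw [if_neg h.not_gt, if_pos hTh, eX1, mul_zero]
      · change s ^ 2 * (if T < h0 / 2 then _ else if T < h0 then xW par s ((h0 - T) / s)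
          else _) = 0
        rw [if_neg h.not_gt, if_pos hTh, zer1_xW (by
          rw [le_div_iff₀ hs]
          linarith), mul_zero]

end Pool.Agent.Strip051.LC.E0.Out
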