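import Pool.Agent.Strip051.LC.E0.OutL

/-! # Small rests: where the kernel vanishes, the circle of radius `√3` -/

namespace Pool.Agent.Strip051.LC.E0.Out

open Pool.Agent.StripNear Pool.Agent.StripSquare Pool.Agent.Strip051 Pool.Agent.Strip051.Sweep
open Pool.Agent.Strip051.LC.Line (tau)

/-- The kernel between the last two nodes. -/
theorem zer2_seg {v : ℝ → Fin 4 → ℝ} (hv : K.adm v) {X T : ℝ} (hT : 0 ≤ T) (h3 : T ^ 2 ≤ 3)
    (a : pos.cv 2 T ≤ X) (b : X ≤ c3 T) (hlt : pos.cv 2 T < c3 T) :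
    ker K.nodes v (fun _ _ => 0) X T * (c3 T - pos.cv 2 T) =
      v T 2 * (c3 T - X) + v T 3 * (X - pos.cv 2 T) := by
  have e3 : pos.cv 3 T = c3 T := cv_three T
  have e := K.seg v hv 2 X T hT h3 (by
    change pos.cv 2 T ≤ X
    exact a) (by
    change X ≤ pos.cv 3 T
    rw [e3]
    exact b)
  have e' : ker K.nodes v (fun _ _ => 0) X T =
      v T 2 + (v T 3 - v T 2) * ((X - pos.cv 2 T) / (pos.cv 3 T - pos.cv 2 T)) := e
  rw [e', e3]
  have ne : c3 T - pos.cv 2 T ≠ 0 := by linarith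
  field_simp
  ring

/-- The bounds of the kernel by the values at the two nodes. -/
theorem zer2_abs {v : ℝ → Fin 4 → ℝ} (hv : K.adm v) {X T m : ℝ} (hT : 0 ≤ T) (h3 : T ^ 2 ≤ 3)
    (a : pos.cv 2 T ≤ X) (b : X ≤ c3 T) (hlt : pos.cv 2 T < c3 T) (h2 : |v T 2| ≤ m)
    (hz : v T 3 = 0) :
    |ker K.nodes v (fun _ _ => 0) X T| * (c3 T - pos.cv 2 T) ≤ m * (c3 T - X) := by
  have e := zer2_seg hv hT h3 a b hlt
  rw [hz, zero_mul, add_zero] at e
  have p : 0 < c3 T - pos.cv 2 T := by linarith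
  have q : 0 ≤ c3 T - X := by linarith
  rw [← abs_of_pos p, ← abs_mul, e, abs_mul, abs_of_nonneg q]
  exact mul_le_mul_of_nonneg_right h2 q

theorem zer2_zero {v : ℝ → Fin 4 → ℝ} (hv : K.adm v) {X T : ℝ} (hT : 0 ≤ T) (h3 : T ^ 2 ≤ 3)
    (a : pos.cv 2 T ≤ X) (b : X ≤ c3 T) (hlt : pos.cv 2 T < c3 T) (h2 : v T 2 = 0)
    (hz : v T 3 = 0) : ker K.nodes v (fun _ _ => 0) X T = 0 := by
  have e := zer2_seg hv hT h3 a b hlt
  rw [hz, h2, zero_mul, zero_mul, add_zero] at e
  rcases mul_eq_zero.1 e with h | h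
  · exact h
  · linarith

theorem zer2_taper {s x : ℝ} (hs : 0 < s) (h : 4 * s ≤ x) : taper (x / s) = 0 := by
  have h4 : 4 ≤ x / s := by rwa [le_div_iff₀ hs]
  unfold taper
  rw [if_neg (by linarith)]
  split_ifs with h5
  · rw [le_antisymm h5 h4, pl_right (by norm_num)]
  · rfl

theorem zer2_xB {s x : ℝ} (hs : 0 < s) (h : 5 * s ≤ x) : xB par (x / (2 * s)) = 0 := by
  have h4 : 5 / 2 ≤ x / (2 * s) := by
    rw [le_div_iff₀ (by linarith)]
    linarith
  unfold xB
  rw [if_neg (by linarith)]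
  split_ifs with h5
  · rw [le_antisymm h5 h4, pl_right (by norm_num)]
  · rfl

theorem zer2_xW {s x : ℝ} (hs : 0 < s) (h : 5 / 2 * s ≤ x) : xW par s (x / s) = 0 := by
  have h4 : 5 / 2 ≤ x / s := by rwa [le_div_iff₀ hs]
  unfold xW
  rw [if_neg (by linarith)]
  split_ifs with h5
  · rw [le_antisymm h5 h4, pl_right (by norm_num)]
  · rfl

/-- The kernel is at most one. -/
theorem zer2_RA {s σ : ℝ} (hs : 0 < s) (h : 0 ≤ σ) : RA par s σ ≤ 1 := by
  have h1 := mul_le_mul_of_nonneg_left (dc_ge' (div_nonneg h hs.le)) hs.le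
  have e : s * (-(1625 / 1000) * (σ / s)) = -(1625 / 1000) * σ := by
    field_simp
  rw [e] at h1
  unfold RA
  linarith

/-- The distance between `W` and the circle near the horizontal direction. -/
theorem zer2_gap {δ T c w : ℝ} (hT : 0 ≤ T) (hT1 : T ≤ 87 / 400) (hδ : 0 ≤ δ) (hδ1 : δ ≤ 87 / 400)
    (hc0 : 0 ≤ c) (hc : c ^ 2 = 3 - T ^ 2) (hw : w ≤ 1 + 2 * h0 * T) :
    δ ≤ 3 / 2 * (δ + T) * (c - w) := by
  obtain ⟨b1, b2⟩ := h0_bd
  have c1 : 2 * h0 - 3 / 10 * T ^ 2 ≤ c := by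
    refine le_of_sq2 hc0 ?_
    rw [hc]
    have e : (2 * h0 - 3 / 10 * T ^ 2) ^ 2 = 3 - 6 / 5 * h0 * T ^ 2 + 9 / 100 * T ^ 4 := by
      linear_combination 4 * h0_sq'
    rw [e]
    have h1 : T ^ 2 ≤ 1 / 20 := by nlinarith
    have h2 : 0 ≤ T ^ 2 := sq_nonneg T
    nlinarith [mul_nonneg h2 (by linarith : 0 ≤ h0 - 86602 / 100000),
      mul_nonneg h2 (by linarith : 0 ≤ 1 / 20 - T ^ 2)]
  have q : 7320 / 10000 - 17321 / 10000 * T - 3 / 10 * T ^ 2 ≤ c - w := by
    have := mul_nonneg hT (by linarith : 0 ≤ 86603 / 100000 - h0)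
    linarith
  have k1 : 3 / 2 * (δ + T) * (7320 / 10000 - 17321 / 10000 * T - 3 / 10 * T ^ 2) ≤
      3 / 2 * (δ + T) * (c - w) := mul_le_mul_of_nonneg_left q (by linarith)
  refine le_trans ?_ k1
  have p1 : 0 ≤ T * (87 / 400 - T) := mul_nonneg hT (by linarith)
  have p2 : 0 ≤ T ^ 2 * (87 / 400 - T) := mul_nonneg (sq_nonneg T) (by linarith)
  have p3 : 0 ≤ δ * T := mul_nonneg hδ hT
  have p4 : 0 ≤ (87 / 400 - δ) * T := mul_nonneg (by linarith) hT
  have p5 : 0 ≤ (87 / 400 - δ) * T ^ 2 := mul_nonneg (by linarith) (sq_nonneg T)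
  nlinarith

/-- The circle of radius `√3` at 0 degrees. -/
theorem zero_l0 {s X T : ℝ} (hs : 0 < s) (hs1 : s ≤ 11 / 400) (hA : Ann X T)
    (hN : Nr s (2 * h0) 0 X T) :
    |kA s X T| ≤ 3 / 2 * (|X - 2 * h0| + |T|) ∧ s * |kR s X T| ≤ 1 / 16 * (|X - 2 * h0| + |T|) ∧
      |kX s X T| ≤ 1 / 64 * (|X - 2 * h0| + |T|) := by
  have hh := h0_pos
  have hq := h0_sq'
  obtain ⟨b1, b2⟩ := h0_bd
  obtain ⟨n1, n2⟩ := hN.abs hs
  have hT := hA.T0
  have hi := hA.hi
  rw [sub_zero, abs_of_nonneg hT] at n2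
  rw [abs_of_nonneg hT]
  have T1 : T ≤ 87 / 400 := by linarith
  have h3 : T ^ 2 ≤ 3 := by nlinarith [sq_nonneg X]
  have n1' := (abs_le.1 n1).1
  have X0 : 0 ≤ X := by linarith
  have Xle : X ≤ 2 * h0 := by
    refine le_of_sq2 (by linarith) ?_
    nlinarith [sq_nonneg T]
  have eδ : |X - 2 * h0| = 2 * h0 - X := by
    rw [abs_of_nonpos (by linarith)]
    ring
  rw [eδ]
  have δ0 : 0 ≤ 2 * h0 - X := by linarith
  have δ1 : 2 * h0 - X ≤ 87 / 400 := by linarith
  have cq : c3 T ^ 2 = 3 - T ^ 2 := by linarith [c3_sq h3]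
  have c0 := c3_nonneg T
  have Xc : X ≤ c3 T := by
    refine le_of_sq2 c0 ?_
    rw [cq]
    linarith
  have cle : c3 T ≤ 2 * h0 := by
    refine le_of_sq2 (by linarith) ?_
    rw [cq]
    nlinarith [sq_nonneg T]
  have Th : T < h0 := by linarith
  obtain ⟨w1, w2, w3, w4⟩ := low_bd hT Th
  have e2 : pos.cv 2 T = Wc T := cv_two_low Th
  have gap := zer2_gap hT T1 δ0 δ1 c0 cq w3
  have WX : Wc T ≤ X := by
    have := mul_nonneg hT (by linarith : 0 ≤ 86603 / 100000 - h0)
    linarith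
  have cl : 171 / 100 ≤ c3 T := by
    refine le_of_sq2 c0 ?_
    rw [cq]
    nlinarith
  have Wc3 : Wc T < c3 T := by
    have := mul_nonneg hT (by linarith : 0 ≤ 86603 / 100000 - h0)
    linarith
  have p : 0 < c3 T - Wc T := by linarith
  have r : 0 ≤ c3 T - X := by linarith
  -- the common estimate
  have base : ∀ y : ℝ, y * (c3 T - Wc T) ≤ 1 * (c3 T - X) →
      y ≤ 3 / 2 * ((2 * h0 - X) + T) := by
    intro y hy
    refine le_of_mul_le_mul_right (hy.trans ?_) p
    rw [one_mul]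
    linarith
  have x3 : 1 / 3 ≤ c3 T / (4 * h0) - T / 2 := by
    have : 45 / 100 ≤ c3 T / (4 * h0) := by
      rw [le_div_iff₀ (by linarith)]
      linarith
    linarith
  refine ⟨?_, ?_, ?_⟩
  · -- the kernel
    have e := zer2_seg (adm_vA par s) (X := X) hT h3 (by rw [e2]; exact WX) Xc
      (by rw [e2]; exact Wc3)
    rw [e2] at e
    have v2 : vA par s T 2 = RA par s T := by
      simp only [vA, Matrix.cons_val]
      rw [if_pos Th]
      unfold RW
      rw [if_pos (by linarith)]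
    have v3 : vA par s T 3 = R3 par s T := rfl
    have r3 : R3 par s T = -(T * (RA par s (c3 T / (4 * h0) - T / 2) /
        (c3 T / (4 * h0) - T / 2))) := by
      unfold R3
      rw [if_pos (by linarith)]
    rw [v2, v3, r3, RA_eq hs (by linarith : 4 * s ≤ c3 T / (4 * h0) - T / 2)] at e
    have x4 : c3 T / (4 * h0) - T / 2 ≤ 1 / 2 := by
      have : c3 T / (4 * h0) ≤ 1 / 2 := by
        rw [div_le_iff₀ (by linarith)]
        linarith
      linarith
    generalize c3 T / (4 * h0) - T / 2 = x at *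
    have q0 : 0 ≤ (1 - 2 * x) / x := div_nonneg (by linarith) (by linarith)
    have q1 : (1 - 2 * x) / x ≤ 1 := by
      rw [div_le_one (by linarith)]
      linarith
    generalize (1 - 2 * x) / x = y at *
    have u1 := zer2_RA hs hT
    have u0 := RA_ge hs hT
    have u0' : 0 ≤ RA par s T := by linarith
    generalize RA par s T = V at *
    have ek : kA s X T * (c3 T - Wc T) = V * (c3 T - X) + -(T * y) * (X - Wc T) := e
    have t0 : 0 ≤ T * y := mul_nonneg hT q0
    have t1 : T * y ≤ T := mul_le_of_le_one_right hT q1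
    have s1 : 0 ≤ T * y * (X - Wc T) := mul_nonneg t0 (by linarith)
    have s2 : T * y * (X - Wc T) ≤ T * (c3 T - Wc T) :=
      mul_le_mul t1 (by linarith) (by linarith) hT
    have s3 : 0 ≤ V * (c3 T - X) := mul_nonneg u0' r
    have s4 : V * (c3 T - X) ≤ 1 * (c3 T - X) := mul_le_mul_of_nonneg_right u1 r
    rw [abs_le]
    constructor
    · have : -T ≤ kA s X T := by
        refine le_of_mul_le_mul_right ?_ p
        rw [ek]
        linarith
      linarith
    · refine base _ ?_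
      rw [ek]
      linarith
  · -- the correction
    have v2 : |vR par s T 2| ≤ 1 := by
      simp only [vR, Matrix.cons_val]
      rw [if_pos (by linarith), abs_mul]
      have a1 := (r2_bd hs hs1).1
      have a2 := taper_bd (div_nonneg hT hs.le)
      exact mul_le_one₀ a1 (abs_nonneg _) a2
    have e := zer2_abs (adm_vR s) (X := X) hT h3 (by rw [e2]; exact WX) Xc
      (by rw [e2]; exact Wc3) v2 rfl
    rw [e2] at e
    have f := base _ e
    have g : s * |kR s X T| ≤ 11 / 400 * (3 / 2 * ((2 * h0 - X) + T)) :=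
      mul_le_mul hs1 f (abs_nonneg _) (by norm_num)
    linarith
  · -- the level
    have v2 : |vX par s T 2| ≤ 64 / 25 * s ^ 2 := by
      unfold vX
      rw [abs_mul, abs_of_nonneg (sq_nonneg s)]
      have := mul_le_mul_of_nonneg_left (vx_256 hs hs1 hT h3 2) (sq_nonneg s)
      linarith
    have s2 : s ^ 2 ≤ 1 / 1000 := by nlinarith
    have v3 : vX par s T 3 = 0 := by
      have : X3 par s T = 0 := by
        unfold X3
        rw [if_pos Th.le, xA_far hs (by linarith), zer2_xB hs (by linarith), add_zero]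
      unfold vX vx
      simp only [Matrix.cons_val]
      rw [this, mul_zero]
    have e := zer2_abs (adm_vX par s) (X := X) hT h3 (by rw [e2]; exact WX) Xc
      (by rw [e2]; exact Wc3) (v2.trans (by linarith : 64 / 25 * s ^ 2 ≤ 64 / 25000)) v3
    rw [e2] at e
    have f := base (25000 / 64 * |kX s X T|) (by
      have : |kX s X T| * (c3 T - Wc T) ≤ 64 / 25000 * (c3 T - X) := e
      linarith)
    linarith

/-- The facts at a point near the direction of 60 degrees. -/
structure Z60 (s X T C : ℝ) : Prop where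
  X0 : 648 / 1000 ≤ X
  T0 : 128275 / 100000 ≤ T
  T3 : T ^ 2 ≤ 3
  Th : T - h0 ≤ 74 / 100
  Xc : X ≤ c3 T
  C0 : 0 ≤ C
  Cq : C ^ 2 + (T - h0) ^ 2 = 1
  W : Wc T = C - 1 / 2
  C1 : 672 / 1000 ≤ C
  cv : pos.cv 2 T = Wc T + 3 / 20 * (c3 T - Wc T)
  lt : pos.cv 2 T < c3 T
  le : pos.cv 2 T ≤ X
  far : 2382 / 10000 ≤ pos.cv 2 T

theorem zer2_60 {s X T : ℝ} (hs : 0 < s) (hs1 : s ≤ 11 / 400) (hA : Ann X T)
    (hN : Nr s h0 (3 / 2) X T) : ∃ C, Z60 s X T C := by
  have hh := h0_pos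
  have hq := h0_sq'
  obtain ⟨b1, b2⟩ := h0_bd
  obtain ⟨n1, n2⟩ := hN.abs hs
  have hi := hA.hi
  have n1' := (abs_le.1 n1).1
  have n2' := (abs_le.1 n2).1
  have X0 : 64877 / 100000 ≤ X := by linarith
  have T0 : 128275 / 100000 ≤ T := by linarith
  have h3 : T ^ 2 ≤ 3 := by nlinarith [sq_nonneg X]
  have Ts : T ≤ 1606 / 1000 := by
    refine le_of_sq2 (by norm_num) ?_
    nlinarith
  have Th : T - h0 ≤ 74 / 100 := by linarith
  have cq : c3 T ^ 2 = 3 - T ^ 2 := by linarith [c3_sq h3]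
  have c0 := c3_nonneg T
  have Xc : X ≤ c3 T := by
    refine le_of_sq2 c0 ?_
    rw [cq]
    linarith
  obtain ⟨C, C0, eC, eW, -, -⟩ := upp_sq (by linarith : h0 ≤ T) h3
  have d0 : 41672 / 100000 ≤ T - h0 := by linarith
  have C1 : 6726 / 10000 ≤ C := by
    refine le_of_sq2 C0 ?_
    nlinarith
  have C2 : C ≤ 90905 / 100000 := by
    refine le_of_sq2 (by norm_num) ?_
    nlinarith
  have ecv : pos.cv 2 T = Wc T + 3 / 20 * (c3 T - Wc T) := cv_two_high (by linarith)
  have cu : c3 T ≤ 11639 / 10000 := by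
    refine le_of_sq2 (by norm_num) ?_
    rw [cq]
    nlinarith
  refine ⟨C, by linarith, T0, h3, Th, Xc, C0, eC, eW, by linarith, ecv, ?_, ?_, ?_⟩
  · rw [ecv, eW]
    linarith
  · rw [ecv, eW]
    linarith
  · rw [ecv, eW]
    linarith

/-- The circle of radius `√3` at 60 degrees, the correction and the level. -/
theorem zer2_60_RX {s X T C : ℝ} (hs : 0 < s) (hs1 : s ≤ 11 / 400) (Z : Z60 s X T C) :
    kR s X T = 0 ∧ kX s X T = 0 := by
  have hh := h0_pos
  obtain ⟨b1, b2⟩ := h0_bd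
  have T0 := Z.T0
  have hT : 0 ≤ T := by linarith
  have X0 := Z.X0
  have Xc := Z.Xc
  have cq : c3 T ^ 2 = 3 - T ^ 2 := by linarith [c3_sq Z.T3]
  have c0 := c3_nonneg T
  have far := Z.far
  have cc : 5 * s ≤ c3 T / (2 * h0) := by
    rw [le_div_iff₀ (by linarith)]
    nlinarith
  have cb : 5 * s ≤ pos.cv 2 T / (2 * h0) := by
    rw [le_div_iff₀ (by linarith)]
    nlinarith
  constructor
  · refine zer2_zero (adm_vR s) hT Z.T3 Z.le Z.Xc Z.lt ?_ rfl
    simp only [vR, Matrix.cons_val]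
    rw [if_neg (by linarith), if_neg (by linarith)]
    split_ifs with h
    · rw [zer2_taper hs (by linarith), mul_zero]
    · rfl
  · refine zer2_zero (adm_vX par s) hT Z.T3 Z.le Z.Xc Z.lt ?_ ?_
    · unfold vX vx
      simp only [Matrix.cons_val]
      rw [if_neg (by linarith), if_neg (by linarith)]
      split_ifs with h
      · rw [zer2_xW hs (by linarith), mul_zero]
      · unfold XV
        rw [zer2_xB hs cb, xA_far hs (by linarith)]
        ring
    · unfold vX vx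
      simp only [Matrix.cons_val]
      unfold X3
      rw [if_neg (by linarith)]
      split_ifs with h
      · have x0 : 5 * s ≤ T / 2 - c3 T / (4 * h0) := by
          have : c3 T / (4 * h0) ≤ 1 - T / 2 := by
            rw [div_le_iff₀ (by linarith)]
            refine le_of_sq2 (by nlinarith) ?_
            have e : ((1 - T / 2) * (4 * h0)) ^ 2 = 3 * (2 - T) ^ 2 := by
              linear_combination 4 * (2 - T) ^ 2 * h0_sq'
            rw [cq, e]
            nlinarith [sq_nonneg (3 - 2 * T)]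
          linarith
        rw [xA_far hs (by linarith), zer2_xB hs x0]
        ring
      · rw [xA_far hs (by linarith), zer2_xB hs cc]
        ring

/-- The kernel above the height `3 / 2`. -/
theorem zer2_60_up {s X T C : ℝ} (hs : 0 < s) (hs1 : s ≤ 11 / 400) (Z : Z60 s X T C)
    (h : 3 / 2 ≤ T) : |kA s X T| ≤ 2 * (h0 - X) := by
  have hh := h0_pos
  have hq := h0_sq'
  obtain ⟨b1, b2⟩ := h0_bd
  have X0 := Z.X0
  have Xc := Z.Xc
  have cq : c3 T ^ 2 = 3 - T ^ 2 := by linarith [c3_sq Z.T3]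
  have c0 := c3_nonneg T
  have cu : c3 T ≤ h0 := by
    refine le_of_sq2 hh.le ?_
    rw [cq]
    nlinarith
  have C2 : C ≤ 7734 / 10000 := by
    refine le_of_sq2 (by norm_num) ?_
    have := Z.Cq
    have : (63397 / 100000) ^ 2 ≤ (T - h0) ^ 2 := pow_le_pow_left₀ (by norm_num) (by linarith) 2
    nlinarith
  have e := zer2_seg (adm_vA par s) (by linarith : 0 ≤ T) Z.T3 Z.le Z.Xc Z.lt
  have v2 : vA par s T 2 = pos.cv 2 T / 2 := by
    rw [Z.cv]
    simp only [vA, Matrix.cons_val]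
    rw [if_neg (by linarith), if_neg (by linarith)]
  have v3 : vA par s T 3 = (1 - 2 * (c3 T / (2 * h0))) * (c3 T / (1 + T / (2 * h0))) := by
    have r : R3 par s T = RA par s (c3 T / (2 * h0)) * (c3 T / (1 + T / (2 * h0))) := by
      unfold R3
      rw [if_neg (by linarith), if_neg (by linarith), if_pos cu]
    have e1 : vA par s T 3 = R3 par s T := rfl
    have cc : 4 * s ≤ c3 T / (2 * h0) := by
      rw [le_div_iff₀ (by linarith)]
      nlinarith
    rw [e1, r, RA_eq hs cc]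
  rw [v2, v3] at e
  have y0 : 0 ≤ c3 T / (1 + T / (2 * h0)) := by positivity
  have y1 : c3 T / (1 + T / (2 * h0)) ≤ h0 := by
    have : 0 ≤ T / (2 * h0) := by
      have := Z.T0
      positivity
    rw [div_le_iff₀ (by linarith)]
    have := mul_nonneg hh.le this
    linarith
  have z0 : 0 ≤ 1 - 2 * (c3 T / (2 * h0)) := by
    have : c3 T / (2 * h0) ≤ 1 / 2 := by
      rw [div_le_iff₀ (by linarith)]
      linarith
    linarith
  have z1 : (1 - 2 * (c3 T / (2 * h0))) * (c3 T / (1 + T / (2 * h0))) ≤ h0 - X := by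
    refine (mul_le_mul_of_nonneg_left y1 z0).trans ?_
    have : (1 - 2 * (c3 T / (2 * h0))) * h0 = h0 - c3 T := by
      field_simp
    rw [this]
    linarith
  have z2 := mul_nonneg z0 y0
  generalize (1 - 2 * (c3 T / (2 * h0))) * (c3 T / (1 + T / (2 * h0))) = R at *
  have hb := Z.cv
  rw [Z.W] at hb
  have lt := Z.lt
  have le := Z.le
  have b0 := Z.far
  have bh : pos.cv 2 T / 2 ≤ c3 T - pos.cv 2 T := by
    rw [hb]
    linarith
  have ek : kA s X T * (c3 T - pos.cv 2 T) =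
      pos.cv 2 T / 2 * (c3 T - X) + R * (X - pos.cv 2 T) := e
  have p : 0 < c3 T - pos.cv 2 T := by linarith
  generalize pos.cv 2 T = b at *
  have s1 : 0 ≤ b / 2 * (c3 T - X) := mul_nonneg (by linarith) (by linarith)
  have s2 : b / 2 * (c3 T - X) ≤ (c3 T - b) * (h0 - X) :=
    mul_le_mul bh (by linarith) (by linarith) p.le
  have s3 : 0 ≤ R * (X - b) := mul_nonneg z2 (by linarith)
  have s4 : R * (X - b) ≤ (h0 - X) * (c3 T - b) :=
    mul_le_mul z1 (by linarith) (by linarith) (by linarith)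
  rw [abs_le]
  constructor
  · have : 0 ≤ kA s X T := by
      refine le_of_mul_le_mul_right ?_ p
      rw [ek]
      linarith
    linarith
  · refine le_of_mul_le_mul_right ?_ p
    rw [ek]
    linarith

/-- The kernel between the heights `3 h0 / 2` and `3 / 2`. -/
theorem zer2_60_mi {s X T C : ℝ} (hs : 0 < s) (hs1 : s ≤ 11 / 400) (Z : Z60 s X T C)
    (h : T < 3 / 2) (h' : 3 * h0 / 2 ≤ T) :
    |kA s X T| ≤ 9 / 4 * (|X - h0| + (3 / 2 - T)) := by
  have hh := h0_pos
  have hq := h0_sq'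
  obtain ⟨b1, b2⟩ := h0_bd
  have X0 := Z.X0
  have Xc := Z.Xc
  have cq : c3 T ^ 2 = 3 - T ^ 2 := by linarith [c3_sq Z.T3]
  have c0 := c3_nonneg T
  have cl : h0 < c3 T := by
    by_contra hc
    rw [not_lt] at hc
    have : c3 T ^ 2 ≤ h0 ^ 2 := pow_le_pow_left₀ c0 hc 2
    nlinarith
  have cu : c3 T ≤ h0 + 2 * h0 * (3 / 2 - T) := by
    refine le_of_sq2 (by nlinarith) ?_
    have e : (h0 + 2 * h0 * (3 / 2 - T)) ^ 2 = 3 * (2 - T) ^ 2 := by
      linear_combination 4 * (2 - T) ^ 2 * hq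
    rw [cq, e]
    nlinarith [sq_nonneg (3 - 2 * T)]
  have cu2 : c3 T ≤ 11457 / 10000 := by
    refine le_of_sq2 (by norm_num) ?_
    rw [cq]
    have : (129903 / 100000) ^ 2 ≤ T ^ 2 := pow_le_pow_left₀ (by norm_num) (by linarith) 2
    nlinarith
  have cd : (3 / 2 - T) * (139 / 100) ≤ c3 T - h0 := by
    have e : (c3 T - h0) * (c3 T + h0) = (3 / 2 - T) * (3 / 2 + T) := by
      linear_combination cq - hq
    have u1 : (3 / 2 - T) * (139 / 100) * (c3 T + h0) ≤ (c3 T - h0) * (c3 T + h0) := by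
      rw [e, mul_assoc]
      refine mul_le_mul_of_nonneg_left ?_ (by linarith)
      linarith
    exact le_of_mul_le_mul_right u1 (by linarith)
  have C1 : 7733 / 10000 ≤ C := by
    refine le_of_sq2 Z.C0 ?_
    have := Z.Cq
    have t1 : T - h0 ≤ 6340 / 10000 := by linarith
    have : (T - h0) ^ 2 ≤ (6340 / 10000) ^ 2 := pow_le_pow_left₀ (by linarith) t1 2
    nlinarith
  have C2 : C ≤ 9014 / 10000 := by
    refine le_of_sq2 (by norm_num) ?_
    have := Z.Cq
    have : (43301 / 100000) ^ 2 ≤ (T - h0) ^ 2 := pow_le_pow_left₀ (by norm_num) (by linarith) 2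
    nlinarith
  have e := zer2_seg (adm_vA par s) (by linarith : 0 ≤ T) Z.T3 Z.le Z.Xc Z.lt
  have v2 : vA par s T 2 = pos.cv 2 T / 2 := by
    rw [Z.cv]
    simp only [vA, Matrix.cons_val]
    rw [if_neg (by linarith), if_neg (by linarith)]
  -- the direction of the node
  have xl : 1 / 2 - (3 / 2 - T) ≤ T / 2 - c3 T / (4 * h0) := by
    have : c3 T / (4 * h0) ≤ 1 - T / 2 := by
      rw [div_le_iff₀ (by linarith)]
      linarith
    linarith
  have xu : T / 2 - c3 T / (4 * h0) ≤ 1 / 2 := by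
    have : 1 / 4 ≤ c3 T / (4 * h0) := by
      rw [le_div_iff₀ (by linarith)]
      linarith
    linarith
  have v3 : vA par s T 3 = (T - 2 * h0) * ((1 - 2 * (T / 2 - c3 T / (4 * h0))) /
      (T / 2 - c3 T / (4 * h0))) := by
    have r : R3 par s T = (T - 2 * h0) * (RA par s (T / 2 - c3 T / (4 * h0)) /
      (T / 2 - c3 T / (4 * h0))) := by
      unfold R3
      rw [if_neg (by linarith), if_neg (by linarith), if_neg (by linarith)]
    have e1 : vA par s T 3 = R3 par s T := rfl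
    rw [e1, r, RA_eq hs (by linarith)]
  rw [v2, v3] at e
  have u0 : 0 ≤ 3 / 2 - T := by linarith
  have u1 : 3 / 2 - T ≤ 2010 / 10000 := by linarith
  have hb := Z.cv
  rw [Z.W] at hb
  have lt := Z.lt
  have le := Z.le
  have ek : kA s X T * (c3 T - pos.cv 2 T) =
      pos.cv 2 T / 2 * (c3 T - X) + (T - 2 * h0) * ((1 - 2 * (T / 2 - c3 T / (4 * h0))) /
      (T / 2 - c3 T / (4 * h0))) * (X - pos.cv 2 T) := e
  have y0 : 0 ≤ (1 - 2 * (T / 2 - c3 T / (4 * h0))) / (T / 2 - c3 T / (4 * h0)) :=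
    div_nonneg (by linarith) (by linarith)
  have y1 : (1 - 2 * (T / 2 - c3 T / (4 * h0))) / (T / 2 - c3 T / (4 * h0)) *
      (1 / 2 - (3 / 2 - T)) ≤ 2 * (3 / 2 - T) := by
    have : (1 - 2 * (T / 2 - c3 T / (4 * h0))) / (T / 2 - c3 T / (4 * h0)) *
      (1 / 2 - (3 / 2 - T)) ≤ (1 - 2 * (T / 2 - c3 T / (4 * h0))) / (T / 2 - c3 T / (4 * h0)) *
      (T / 2 - c3 T / (4 * h0)) := mul_le_mul_of_nonneg_left xl y0
    rw [div_mul_cancel₀ _ (by linarith)] at this
    linarith
  generalize (1 - 2 * (T / 2 - c3 T / (4 * h0))) / (T / 2 - c3 T / (4 * h0)) = y at *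
  have p : 0 < c3 T - pos.cv 2 T := by linarith
  have ax := abs_le.1 (le_refl |X - h0|)
  have δ0 := abs_nonneg (X - h0)
  generalize |X - h0| = δ at *
  have bl : 3600 / 10000 ≤ pos.cv 2 T := by
    rw [hb]
    linarith
  have bu : pos.cv 2 T ≤ 5135 / 10000 := by
    rw [hb]
    linarith
  generalize pos.cv 2 T = b at *
  -- the size of the node value
  set R := (2 * h0 - T) * y with hR
  have ek' : kA s X T * (c3 T - b) = b / 2 * (c3 T - X) - R * (X - b) := by
    rw [ek, hR]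
    ring
  have R0 : 0 ≤ R := mul_nonneg (by linarith) y0
  have y2 : y ≤ 1346 / 1000 := by
    have : y * (299 / 1000) ≤ y * (1 / 2 - (3 / 2 - T)) := mul_le_mul_of_nonneg_left (by linarith) y0
    linarith
  have R1 : R ≤ 584 / 1000 := by
    have : R ≤ (43303 / 100000) * (1346 / 1000) :=
      mul_le_mul (by linarith) y2 y0 (by norm_num)
    linarith
  have R2 : R * (1 / 2 - (3 / 2 - T)) ≤ (2321 / 10000 + (3 / 2 - T)) * (2 * (3 / 2 - T)) := by
    rw [hR, mul_assoc]
    exact mul_le_mul (by linarith) y1 (mul_nonneg y0 (by linarith)) (by linarith)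
  have R3' : R * (h0 - b) ≤ 9 / 4 * (3 / 2 - T) * (c3 T - b) := by
    have k0 : 0 < 1 / 2 - (3 / 2 - T) := by linarith
    refine le_of_mul_le_mul_right ?_ k0
    have k1 : R * (h0 - b) * (1 / 2 - (3 / 2 - T)) ≤
        (2321 / 10000 + (3 / 2 - T)) * (2 * (3 / 2 - T)) * (h0 - b) := by
      have := mul_le_mul_of_nonneg_right R2 (by linarith : 0 ≤ h0 - b)
      linarith
    refine k1.trans ?_
    have k2 : (h0 - b) + (3 / 2 - T) * (139 / 100) ≤ c3 T - b := by linarith
    have k3 : 9 / 4 * (3 / 2 - T) * ((h0 - b) + (3 / 2 - T) * (139 / 100)) *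
        (1 / 2 - (3 / 2 - T)) ≤ 9 / 4 * (3 / 2 - T) * (c3 T - b) * (1 / 2 - (3 / 2 - T)) :=
      mul_le_mul_of_nonneg_right (mul_le_mul_of_nonneg_left k2 (by linarith)) k0.le
    refine le_trans ?_ k3
    have q0 : 0 ≤ h0 - b := by linarith
    have q1 : h0 - b ≤ 5061 / 10000 := by linarith
    generalize h0 - b = q at *
    generalize 3 / 2 - T = u at *
    have m1 : 0 ≤ u * (2010 / 10000 - u) := mul_nonneg u0 (by linarith)
    have m2 : (2321 / 10000 + u) * 2 * q ≤
        9 / 4 * (q + u * (139 / 100)) * (1 / 2 - u) := by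
      have m3 : 0 ≤ q * (2010 / 10000 - u) := mul_nonneg q0 (by linarith)
      have m4 : 0 ≤ (5061 / 10000 - q) * u := mul_nonneg (by linarith) u0
      nlinarith
    have := mul_le_mul_of_nonneg_left m2 u0
    linarith
  have s1 : 0 ≤ b / 2 * (c3 T - X) := mul_nonneg (by linarith) (by linarith)
  have s3 : 0 ≤ R * (X - b) := mul_nonneg R0 (by linarith)
  rw [abs_le]
  constructor
  · refine le_of_mul_le_mul_right ?_ p
    rw [ek']
    have s4 : R * (X - b) ≤ R * ((h0 - b) + δ) := mul_le_mul_of_nonneg_left (by linarith) R0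
    have s5 : R * δ ≤ 9 / 4 * (c3 T - b) * δ := mul_le_mul_of_nonneg_right (by linarith) δ0
    linarith
  · refine le_of_mul_le_mul_right ?_ p
    rw [ek']
    have s4 : b / 2 * (c3 T - X) ≤ b / 2 * (2 * h0 * (3 / 2 - T) + δ) :=
      mul_le_mul_of_nonneg_left (by linarith) (by linarith)
    have s5 : b / 2 * δ ≤ 9 / 4 * (c3 T - b) * δ := mul_le_mul_of_nonneg_right (by linarith) δ0
    have s6 : b / 2 * (2 * h0) * (3 / 2 - T) ≤ 9 / 4 * (c3 T - b) * (3 / 2 - T) := by
      refine mul_le_mul_of_nonneg_right ?_ u0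
      have : b / 2 * (2 * h0) ≤ b / 2 * 2 := mul_le_mul_of_nonneg_left (by linarith) (by linarith)
      linarith
    linarith

/-- The kernel below the height `3 h0 / 2`. -/
theorem zer2_60_dn {s X T C : ℝ} (hs : 0 < s) (hs1 : s ≤ 11 / 400) (Z : Z60 s X T C)
    (h : T < 3 * h0 / 2) :
    |kA s X T| ≤ 9 / 4 * (|X - h0| + (3 / 2 - T)) := by
  have hh := h0_pos
  have hq := h0_sq'
  obtain ⟨b1, b2⟩ := h0_bd
  have T0 := Z.T0
  have X0 := Z.X0
  have Xc := Z.Xc
  have cq : c3 T ^ 2 = 3 - T ^ 2 := by linarith [c3_sq Z.T3]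
  have c0 := c3_nonneg T
  have cl : 11456 / 10000 ≤ c3 T := by
    refine le_of_sq2 c0 ?_
    rw [cq]
    have : T ^ 2 ≤ (3 * h0 / 2) ^ 2 := pow_le_pow_left₀ (by linarith) h.le 2
    nlinarith
  have cu : c3 T ≤ 11639 / 10000 := by
    refine le_of_sq2 (by norm_num) ?_
    rw [cq]
    have : (128275 / 100000) ^ 2 ≤ T ^ 2 := pow_le_pow_left₀ (by norm_num) (by linarith) 2
    nlinarith
  have C1 : 9013 / 10000 ≤ C := by
    refine le_of_sq2 Z.C0 ?_
    have := Z.Cq
    have t1 : T - h0 ≤ 43302 / 100000 := by linarith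
    have : (T - h0) ^ 2 ≤ (43302 / 100000) ^ 2 := pow_le_pow_left₀ (by linarith) t1 2
    nlinarith
  have C2 : C ≤ 90905 / 100000 := by
    refine le_of_sq2 (by norm_num) ?_
    have := Z.Cq
    have : (41672 / 100000) ^ 2 ≤ (T - h0) ^ 2 := pow_le_pow_left₀ (by norm_num) (by linarith) 2
    nlinarith
  have e := zer2_seg (adm_vA par s) (by linarith : 0 ≤ T) Z.T3 Z.le Z.Xc Z.lt
  have v2 : vA par s T 2 = (4 * h0 - 3) * Wc T + 353 / 500 * (3 / 20 * (c3 T - Wc T)) := by
    have z : 2 < (T - h0) / s := by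
      rw [lt_div_iff₀ hs]
      linarith
    have sl : slU par s ((T - h0) / s) = 4 * h0 - 3 := by
      unfold slU
      rw [if_neg (by linarith), if_neg (by linarith)]
    have rw' : RW par s T = (4 * h0 - 3) * Wc T := by
      unfold RW
      rw [if_neg (by linarith), if_neg (by linarith), if_neg (by linarith), sl,
        c1_zero (by linarith)]
      ring
    have l1 : par.l1 = 353 / 500 := rfl
    simp only [vA, Matrix.cons_val]
    rw [if_neg (by linarith), if_pos h, rw', l1]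
  -- the direction of the node
  have xl : T - 1 ≤ T / 2 - c3 T / (4 * h0) := by
    have : c3 T / (4 * h0) ≤ 1 - T / 2 := by
      rw [div_le_iff₀ (by linarith)]
      refine le_of_sq2 (by nlinarith) ?_
      have e : ((1 - T / 2) * (4 * h0)) ^ 2 = 3 * (2 - T) ^ 2 := by
        linear_combination 4 * (2 - T) ^ 2 * h0_sq'
      rw [cq, e]
      nlinarith [sq_nonneg (3 - 2 * T)]
    linarith
  have xu : T / 2 - c3 T / (4 * h0) ≤ 1 / 2 := by
    have : 1 / 4 ≤ c3 T / (4 * h0) := by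
      rw [le_div_iff₀ (by linarith)]
      linarith
    linarith
  have v3 : vA par s T 3 = (1 - 2 * (T / 2 - c3 T / (4 * h0))) *
      (3 / 2 - h0 * (T / 2 - c3 T / (4 * h0)) / (1 + (c3 T / 2 + T / (4 * h0)))) := by
    have r : R3 par s T = RA par s |T / 2 - c3 T / (4 * h0)| *
        (3 / 2 - h0 * (T / 2 - c3 T / (4 * h0)) / (1 + (c3 T / 2 + T / (4 * h0)))) := by
      unfold R3
      rw [if_neg (by linarith), if_pos h]
    have e1 : vA par s T 3 = R3 par s T := rfl
    rw [e1, r, abs_of_nonneg (by linarith), RA_eq hs (by linarith)]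
  obtain ⟨r1, r2⟩ := c3_rot Z.T3
  rw [v2, v3] at e
  have D1 : c3 T / 2 + T / (4 * h0) ≤ 1 := by
    refine le_of_sq2 zero_le_one ?_
    nlinarith [sq_nonneg (T / 2 - c3 T / (4 * h0))]
  have D0 : 0 ≤ c3 T / 2 + T / (4 * h0) := by positivity
  have w0 : 12243 / 100000 ≤ h0 * (T / 2 - c3 T / (4 * h0)) / (1 + (c3 T / 2 + T / (4 * h0))) := by
    rw [le_div_iff₀ (by linarith)]
    have := mul_le_mul_of_nonneg_left (by linarith : 28275 / 100000 ≤ T / 2 - c3 T / (4 * h0)) hh.le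
    linarith
  have w1 : h0 * (T / 2 - c3 T / (4 * h0)) / (1 + (c3 T / 2 + T / (4 * h0))) ≤ 1 := by
    rw [div_le_one (by linarith)]
    have := mul_le_mul_of_nonneg_left xu hh.le
    linarith
  generalize h0 * (T / 2 - c3 T / (4 * h0)) / (1 + (c3 T / 2 + T / (4 * h0))) = w at *
  have hb := Z.cv
  have eW := Z.W
  have lt := Z.lt
  have le := Z.le
  have ek : kA s X T * (c3 T - pos.cv 2 T) =
      ((4 * h0 - 3) * Wc T + 353 / 500 * (3 / 20 * (c3 T - Wc T))) * (c3 T - X) +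
      (1 - 2 * (T / 2 - c3 T / (4 * h0))) * (3 / 2 - w) * (X - pos.cv 2 T) := e
  have p : 0 < c3 T - pos.cv 2 T := by linarith
  have R0 : 0 ≤ (1 - 2 * (T / 2 - c3 T / (4 * h0))) * (3 / 2 - w) :=
    mul_nonneg (by linarith) (by linarith)
  have R1 : (1 - 2 * (T / 2 - c3 T / (4 * h0))) * (3 / 2 - w) ≤
      2 * (3 / 2 - T) * (13776 / 10000) :=
    mul_le_mul (by linarith) (by linarith) (by linarith) (by linarith)
  generalize (1 - 2 * (T / 2 - c3 T / (4 * h0))) * (3 / 2 - w) = R at *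
  have W1 : 4013 / 10000 ≤ Wc T := by linarith
  have W2 : Wc T ≤ 40905 / 100000 := by linarith
  have V1 : (4 * h0 - 3) * Wc T + 353 / 500 * (3 / 20 * (c3 T - Wc T)) ≤ 271 / 1000 := by
    have := mul_le_mul_of_nonneg_left W2 (by linarith : 0 ≤ 4 * h0 - 3)
    linarith
  have V0 : 0 ≤ (4 * h0 - 3) * Wc T + 353 / 500 * (3 / 20 * (c3 T - Wc T)) := by
    have := mul_nonneg (by linarith : 0 ≤ 4 * h0 - 3) (by linarith : 0 ≤ Wc T)
    linarith
  generalize (4 * h0 - 3) * Wc T + 353 / 500 * (3 / 20 * (c3 T - Wc T)) = V at *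
  have ax := abs_le.1 (le_refl |X - h0|)
  have δ0 := abs_nonneg (X - h0)
  generalize |X - h0| = δ at *
  have bl : 5129 / 10000 ≤ pos.cv 2 T := by
    rw [hb]
    linarith
  have g1 : 626 / 1000 ≤ c3 T - pos.cv 2 T := by
    rw [hb]
    linarith
  generalize pos.cv 2 T = b at *
  have u0 : 2009 / 10000 ≤ 3 / 2 - T := by linarith
  have u1 : 3 / 2 - T ≤ 21725 / 100000 := by linarith
  have s1 : 0 ≤ V * (c3 T - X) := mul_nonneg V0 (by linarith)
  have s2 : V * (c3 T - X) ≤ 271 / 1000 * (2979 / 10000 + δ) :=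
    mul_le_mul V1 (by linarith) (by linarith) (by norm_num)
  have s3 : 0 ≤ R * (X - b) := mul_nonneg R0 (by linarith)
  have s4 : R * (X - b) ≤ 2 * (3 / 2 - T) * (13776 / 10000) * (3532 / 10000 + δ) :=
    mul_le_mul R1 (by linarith) (by linarith) (by linarith)
  rw [abs_le]
  constructor
  · have : 0 ≤ kA s X T := by
      refine le_of_mul_le_mul_right ?_ p
      rw [ek]
      linarith
    linarith
  · refine le_of_mul_le_mul_right ?_ p
    rw [ek]
    have s5 : 9 / 4 * (δ + (3 / 2 - T)) * (626 / 1000) ≤ 9 / 4 * (δ + (3 / 2 - T)) * (c3 T - b) :=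
      mul_le_mul_of_nonneg_left g1 (by linarith)
    have s6 : (3 / 2 - T) * δ ≤ 21725 / 100000 * δ := mul_le_mul_of_nonneg_right u1 δ0
    linarith

/-- The circle of radius `√3` at 60 degrees. -/
theorem zero_l60 {s X T : ℝ} (hs : 0 < s) (hs1 : s ≤ 11 / 400) (hA : Ann X T)
    (hN : Nr s h0 (3 / 2) X T) :
    |kA s X T| ≤ 9 / 4 * (|X - h0| + |T - 3 / 2|) ∧ kR s X T = 0 ∧ kX s X T = 0 := by
  obtain ⟨C, Z⟩ := zer2_60 hs hs1 hA hN
  refine ⟨?_, zer2_60_RX hs hs1 Z⟩
  rcases le_or_gt (3 / 2) T with h | h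
  · have h1 := zer2_60_up hs hs1 Z h
    have h2 : h0 - X ≤ |X - h0| := by
      rw [abs_sub_comm]
      exact le_abs_self _
    have h3 := abs_nonneg (X - h0)
    have h4 := abs_nonneg (T - 3 / 2)
    linarith
  · have e : |T - 3 / 2| = 3 / 2 - T := by
      rw [abs_of_neg (by linarith)]
      ring
    rw [e]
    rcases le_or_gt (3 * h0 / 2) T with h' | h'
    · exact zer2_60_mi hs hs1 Z h h'
    · exact zer2_60_dn hs hs1 Z h'

end Pool.Agent.Strip051.LC.E0.Out
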