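import Pool.Agent.Strip051.LC.E0.O3.Lev

namespace Pool.Agent.Strip051.LC.E0.Out

open Pool.Agent.StripNear Pool.Agent.StripSquare Pool.Agent.Strip051 Pool.Agent.Strip051.Sweep
open Pool.Agent.Strip051.LC.Line (tau)

/-- The displacement is at most `7.9 s`. -/
theorem l2b_a {s C x C' x' : ℝ} (hs : 0 < s)
    (hq : (C - C') ^ 2 + (x - x') ^ 2 ≤ (79 / 10 * s) ^ 2) : x - x' ≤ 79 / 10 * s := by
  have h1 : (x - x') ^ 2 ≤ (79 / 10 * s) ^ 2 := by nlinarith [sq_nonneg (C - C')]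
  exact abs_le_of_sq_le_sq' h1 (by positivity) |>.2

/-- The sum of the sines is positive, the displacement is small next to `4 s`. -/
theorem l2b_sum {s C x C' x' : ℝ} (hs : 0 < s) (hs1 : s ≤ 11 / 400) (h' : Rot C' x')
    (hx : 4 * s ≤ x) (ho : x' ≤ x) (h6 : 6 * s ≤ x ∨ 6 * s ≤ x + x' / 2 + h0 * (1 - C'))
    (hq : (C - C') ^ 2 + (x - x') ^ 2 ≤ (79 / 10 * s) ^ 2) :
    0 < x + x' ∧ 5 * s ≤ x + x' / 2 ∧ (x < 6 * s → x - x' ≤ 3 * (x - 4 * s) + s) := by
  have ha := l2b_a hs hq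
  rcases le_or_gt (6 * s) x with h1 | h1
  · exact ⟨by linarith, by linarith, fun h => absurd h1 (not_le.2 h)⟩
  · obtain ⟨b1, b2⟩ := h0_bd
    have hC := h'.Ch
    have hC1 := h'.C1
    have k0 : (1 - C') * (1 + C') = x' * x' := by linear_combination -h'.sq
    have k1 : (1 - C') * (1866 / 1000) ≤ x' * x' := by
      rw [← k0]
      exact mul_le_mul_of_nonneg_left (by linarith) (by linarith)
    have k2 : x' * x' ≤ 6 * s * (6 * s) := by
      nlinarith
    have k3 : 6 * s * (6 * s) ≤ 99 / 100 * s := by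
      nlinarith
    have k4 : h0 * (1 - C') ≤ 86603 / 100000 * (1 - C') :=
      mul_le_mul_of_nonneg_right b2.le (by linarith)
    have k5 : h0 * (1 - C') ≤ 1 / 2 * s := by linarith
    rcases h6 with h | h
    · linarith
    · exact ⟨by linarith, by linarith, fun _ => by linarith⟩

/-- Unit sides 12, 13 at `θ` and `120 + θ'`: the point next to the free side. -/
theorem nr_L2B {s C x C' x' : ℝ} (hs : 0 < s) (hs1 : s ≤ 11 / 400) (h : Rot C x) (h' : Rot C' x')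
    (hx : 4 * s ≤ x) (ho : x' ≤ x) (h6 : 6 * s ≤ x ∨ 6 * s ≤ x + x' / 2 + h0 * (1 - C'))
    (hq : (C - C') ^ 2 + (x - x') ^ 2 ≤ (79 / 10 * s) ^ 2) :
    Nr s (3 / 2 * C + h0 * x) (h0 * C - 3 / 2 * x) (-(-(C' / 2) - h0 * x' - C)) (h0 * C' - x' / 2 - x) ∧ h0 * C - 3 / 2 * x ≤ h0 * C' - x' / 2 - x ∧ h0 * C' - x' / 2 - x ≤ h0 - s ∧
      -(-(C' / 2) - h0 * x' - C) ≤ 3 / 2 * C + h0 * x := by
  have hh := h0_pos
  have h3 := h0_sq'
  obtain ⟨b1, b2⟩ := h0_bd
  obtain ⟨hpos, -, -⟩ := l2b_sum hs hs1 h' hx ho h6 hq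
  obtain ⟨q, e1, e2, e3, e4⟩ := mv h h'
  obtain ⟨q1, q2⟩ := abs_le.1 e4
  have ha : 0 ≤ x - x' := by linarith
  refine ⟨?_, ?_, ?_, ?_⟩
  · unfold Nr
    refine le_trans (le_of_eq ?_) hq
    linear_combination ((x - x') ^ 2 + (C' - C) ^ 2) * h3
  · have q0 : 0 ≤ q := by
      by_contra hc
      rw [not_le] at hc
      have hC := h.Ch
      have hC' := h'.Ch
      have : q * (C + C') ≤ 0 := mul_nonpos_of_nonpos_of_nonneg hc.le (by linarith)
      linarith
    have : 0 ≤ (x - x') * (h0 * q + 1 / 2) := mul_nonneg ha (by positivity)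
    have e5 : h0 * (C' - C) = (x - x') * (h0 * q) := by rw [e1]; ring
    linarith
  · have := mul_le_mul_of_nonneg_left h'.C1 hh.le
    linarith
  · have : 0 ≤ (x - x') * (h0 - q / 2) := mul_nonneg ha (by linarith)
    linarith

/-- The sides 12 and 13. -/
theorem l2b_12 {s C x : ℝ} (hs : 0 < s) (h : Rot C x) (hx : 4 * s ≤ x) :
    kA s C x - (1 / x - 2) * tau x = 0 ∧ kR s C x = 0 ∧ kX s C x = 0 := by
  have x0 : 0 < x := by linarith
  refine ⟨?_, n0_kR hs h hx, n0_kX hs h hx⟩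
  rw [n0_kA h x0]
  have := ref_zero (τ := tau x) hs hx
  rwa [abs_of_pos x0] at this

theorem l2b_13 {s C' x' x : ℝ} (hs : 0 < s) (hs1 : s ≤ 11 / 400) (h' : Rot C' x')
    (hx : 4 * s ≤ x) (hx1 : x ≤ 1 / 2) (ho : x' ≤ x) :
    |kA s (-(C' / 2) - h0 * x') (h0 * C' - x' / 2) - (1 / x - 2) * tau (h0 * C' - x' / 2)| ≤
      (1 / x + 7 / 3) * (x - x') * (1 / 2 + h0 * (x' / (1 + C'))) ∧
    kR s (-(C' / 2) - h0 * x') (h0 * C' - x' / 2) = 0 := by
  have hh := h0_pos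
  obtain ⟨b1, b2⟩ := h0_bd
  have e1 : -(C' / 2) - h0 * x' = -(C' / 2 - h0 * (-x')) := by ring
  have e2 : h0 * C' - x' / 2 = h0 * C' + (-x') / 2 := by ring
  obtain ⟨u, hu, -, hu2, -, -⟩ := h'.half
  have hU : 0 ≤ 1 / 2 + h0 * u := by
    have := (abs_le.1 hu2).1
    nlinarith
  constructor
  · rw [e1, e2, kA_neg]
    have r := n60_res hs hs1 h'.neg (-(1 / x - 2))
    have p := psi_dn hs hx hx1 ho
    rw [abs_neg] at r
    have e3 : RA par s |x'| - -(1 / x - 2) * -x' = RA par s |x'| - (1 / x - 2) * x' := by ring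
    have e4 : 1 / 2 - h0 * (-x' / (1 + C')) = 1 / 2 + h0 * (x' / (1 + C')) := by ring
    rw [e3, e4] at r
    have e5 : -kA s (C' / 2 - h0 * -x') (h0 * C' + -x' / 2) -
        (1 / x - 2) * tau (h0 * C' + -x' / 2) =
        -(kA s (C' / 2 - h0 * -x') (h0 * C' + -x' / 2) -
          -(1 / x - 2) * tau (h0 * C' + -x' / 2)) := by ring
    rw [e5, abs_neg, r]
    refine mul_le_mul_of_nonneg_right p ?_
    rw [hu]
    exact hU
  · rw [e1, e2, kR_neg, n60_kR h'.neg, neg_zero]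

/-- The final inequality. -/
theorem l2b_num {s x a r A B U aT aX l : ℝ} (hs : 0 < s)
    (hr : r * x = s) (hr0 : 0 ≤ r) (haT : 0 ≤ aT) (haX : 0 ≤ aX)
    (hl : 0 ≤ l)
    (hA : A ≤ 1 / 2 + x) (hB : B ≤ 8661 / 10000) (hU : U ≤ 1 / 2 + 465 / 1000 * x)
    (hAB : A + B ≤ 13661 / 10000 + 43 / 100 * x)
    (hF : 57736 / 100000 * (r + s * (1465 / 1000 + aT * (1 / 2 + x) + aX * (8661 / 10000) +
      7 / 6 + 1085 / 1000 * x)) + (101 / 16000 * s + l / 2) * (13661 / 10000 + 43 / 100 * x) +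
      13 / 100 * s ≤ 288 / 1000 - 26 / 100 * a) :
    57736 / 100000 * ((r + aT * s) * A + aX * s * B + (r + 7 / 3 * s) * U) +
      (101 / 16000 * s + l / 2) * (A + B) + 13 / 100 * s ≤ 288 / 1000 - 26 / 100 * a := by
  refine le_trans ?_ hF
  have m1 := mul_le_mul_of_nonneg_left hA (by positivity : 0 ≤ r + aT * s)
  have m2 := mul_le_mul_of_nonneg_left hB (by positivity : 0 ≤ aX * s)
  have m3 := mul_le_mul_of_nonneg_left hU (by positivity : 0 ≤ r + 7 / 3 * s)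
  have m4 := mul_le_mul_of_nonneg_left hAB (by positivity : 0 ≤ 101 / 16000 * s + l / 2)
  have e : (r + aT * s) * (1 / 2 + x) + aX * s * (8661 / 10000) +
      (r + 7 / 3 * s) * (1 / 2 + 465 / 1000 * x) =
      r + s * (1465 / 1000 + aT * (1 / 2 + x) + aX * (8661 / 10000) + 7 / 6 + 1085 / 1000 * x) := by
    linear_combination (1465 / 1000) * hr
  have m5 : (r + aT * s) * A + aX * s * B + (r + 7 / 3 * s) * U ≤
      r + s * (1465 / 1000 + aT * (1 / 2 + x) + aX * (8661 / 10000) + 7 / 6 +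
        1085 / 1000 * x) := by
    rw [← e]
    linarith
  linarith

/-- The final inequality between `5 s` and `6 s`. -/
theorem l2b_n1 {s x r a : ℝ} (hs : 0 < s) (hs1 : s ≤ 11 / 400) (hx6 : x < 6 * s)
    (sx1 : s * x ≤ 11 / 400 * x) (r5 : r ≤ 1 / 5) (h : a ≤ 3 * (x - 4 * s) + s) :
    57736 / 100000 * (r + s * (1465 / 1000 + 2 * (1 / 2 + x) + 3 / 2 * (8661 / 10000) +
      7 / 6 + 1085 / 1000 * x)) + (101 / 16000 * s + 1 / 64 / 2) * (13661 / 10000 + 43 / 100 * x) +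
      13 / 100 * s ≤ 288 / 1000 - 26 / 100 * a := by
  nlinarith

/-- The final inequality between `6 s` and `1 / 4`. -/
theorem l2b_n2 {s x r a : ℝ} (hs : 0 < s) (hs1 : s ≤ 11 / 400) (hx4 : x ≤ 1 / 4)
    (sx1 : s * x ≤ 11 / 400 * x) (r6 : r ≤ 1 / 6) (ha : a ≤ 79 / 10 * s) :
    57736 / 100000 * (r + s * (1465 / 1000 + 2 * (1 / 2 + x) + 3 / 2 * (8661 / 10000) +
      7 / 6 + 1085 / 1000 * x)) + (101 / 16000 * s + 1 / 64 / 2) * (13661 / 10000 + 43 / 100 * x) +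
      13 / 100 * s ≤ 288 / 1000 - 26 / 100 * a := by
  nlinarith

/-- The final inequality between `4 s` and `5 s`. -/
theorem l2b_n3 {s x r a : ℝ} (hs : 0 < s) (hs1 : s ≤ 11 / 400) (hx : 4 * s ≤ x)
    (hx6 : x < 5 * s) (sx1 : s * x ≤ 11 / 400 * x) (r5 : 1 / 5 ≤ r) (r4 : r ≤ 1 / 4)
    (rx : r * x = s) (h : a ≤ 3 * (x - 4 * s) + s) :
    57736 / 100000 * (r + s * (1465 / 1000 + 2 * (1 / 2 + x) + 3 / 2 * (8661 / 10000) +
      7 / 6 + 1085 / 1000 * x)) + (101 / 16000 * s + 1 / 25 / 2) * (13661 / 10000 + 43 / 100 * x) +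
      13 / 100 * s ≤ 288 / 1000 - 26 / 100 * a := by
  nlinarith

/-- The final inequality from `1 / 4` on. -/
theorem l2b_n4 {s x r a : ℝ} (hs : 0 < s) (hs1 : s ≤ 11 / 400) (hx : x ≤ 1 / 2)
    (sx1 : s * x ≤ 11 / 400 * x) (r6 : r ≤ 11 / 100) (ha : a ≤ 79 / 10 * s) :
    57736 / 100000 * (r + s * (1465 / 1000 + 1 * (1 / 2 + x) + 13 / 4 * (8661 / 10000) +
      7 / 6 + 1085 / 1000 * x)) + (101 / 16000 * s + 1 / 64 / 2) * (13661 / 10000 + 43 / 100 * x) +
      13 / 100 * s ≤ 288 / 1000 - 26 / 100 * a := by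
  nlinarith

/-- Unit sides 12, 13 at `θ` and `120 + θ'`. -/
theorem hs_L2B {s C x C' x' : ℝ} (hs : 0 < s) (hs1 : s ≤ 11 / 400) (h : Rot C x) (h' : Rot C' x')
    (hx : 4 * s ≤ x) (ho : x' ≤ x) (h6 : 6 * s ≤ x ∨ 6 * s ≤ x + x' / 2 + h0 * (1 - C'))
    (hq : (C - C') ^ 2 + (x - x') ^ 2 ≤ (79 / 10 * s) ^ 2)
    (S : Sec s (-(1 / x - 2)) x (lvl s x) (3 / 2 * C + h0 * x) (h0 * C - 3 / 2 * x)
      (-(-(C' / 2) - h0 * x' - C)) (h0 * C' - x' / 2 - x) 1 (13 / 4))
    (S' : x ≤ 1 / 4 → Sec s (-(1 / x - 2)) x (lvl s x) (3 / 2 * C + h0 * x)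
      (h0 * C - 3 / 2 * x) (-(-(C' / 2) - h0 * x' - C)) (h0 * C' - x' / 2 - x) 2 (3 / 2)) :
    cost s (1 / x - 2) (lvl s x) (C) (-(C' / 2) - h0 * x') (x) (h0 * C' - x' / 2 - x) ≤ E1 (x - x') := by
  have hh := h0_pos
  have h3 := h0_sq'
  obtain ⟨b1, b2⟩ := h0_bd
  have x0 : 0 < x := by linarith
  have hx1 := h.hi
  have ha := l2b_a hs hq
  obtain ⟨hpos, h5, h7⟩ := l2b_sum hs hs1 h' hx ho h6 hq
  obtain ⟨q, e1, e2, e3, e4⟩ := mv h h'
  obtain ⟨q1, q2⟩ := abs_le.1 e4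
  have a0 : 0 ≤ x - x' := by linarith
  have hC := h.Ch
  have hC' := h'.Ch
  -- the quotient is nonnegative
  have q0 : 0 ≤ q := by
    by_contra hc
    rw [not_le] at hc
    have : q * (C + C') ≤ 0 := mul_nonpos_of_nonpos_of_nonneg hc.le (by linarith)
    linarith
  have qh : h0 * q ≤ x := by
    rw [abs_of_nonneg q0, abs_of_pos hpos] at e2
    linarith
  -- displacements of the free side
  set Y := -(-(C' / 2) - h0 * x' - C) with hY
  have dT : h0 * C' - x' / 2 - x - (h0 * C - 3 / 2 * x) = (x - x') * (1 / 2 + h0 * q) := by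
    linear_combination h0 * e1
  have dX : Y - (3 / 2 * C + h0 * x) = -((x - x') * (h0 - q / 2)) := by
    rw [hY]
    linear_combination (1 / 2) * e1
  have A0 : 0 ≤ 1 / 2 + h0 * q := by positivity
  have B0 : 0 ≤ h0 - q / 2 := by linarith
  have dT' : |h0 * C' - x' / 2 - x - (h0 * C - 3 / 2 * x)| = (x - x') * (1 / 2 + h0 * q) := by
    rw [dT, abs_of_nonneg (mul_nonneg a0 A0)]
  have dX' : |Y - (3 / 2 * C + h0 * x)| = (x - x') * (h0 - q / 2) := by
    rw [dX, abs_neg, abs_of_nonneg (mul_nonneg a0 B0)]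
  -- the sides
  obtain ⟨z1, z2, z3⟩ := l2b_12 hs h hx
  obtain ⟨w1, w2⟩ := l2b_13 hs hs1 h' hx hx1 ho
  have w3 := lev60m hs hs1 h' hx ho
  obtain ⟨u, hu, hu1, hu2, hu3, hu4⟩ := h'.half
  rw [hu] at w1
  have hU : 1 / 2 + h0 * u ≤ 1 / 2 + 465 / 1000 * x := by
    rcases le_or_gt 0 x' with h8 | h8
    · have u0 := hu3 h8
      have : u * (1 + h0) ≤ x' := by
        rw [← hu1]
        exact mul_le_mul_of_nonneg_left (by linarith) u0
      nlinarith
    · have := hu4 h8.le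
      nlinarith
  have hU0 : 0 ≤ 1 / 2 + h0 * u := by
    have := (abs_le.1 hu2).1
    nlinarith
  have hA : 1 / 2 + h0 * q ≤ 1 / 2 + x := by linarith
  have hB : h0 - q / 2 ≤ 8661 / 10000 := by linarith
  have hAB : 1 / 2 + h0 * q + (h0 - q / 2) ≤ 13661 / 10000 + 43 / 100 * x := by
    nlinarith
  -- the cost
  have eT : x + (h0 * C' - x' / 2 - x) = h0 * C' - x' / 2 := by ring
  have eX : -(C' / 2) - h0 * x' - C = -Y := by rw [hY]; ring
  have r0 : 0 < 1 / x := by positivity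
  have main : ∀ aT aX l : ℝ, 0 ≤ aT → 0 ≤ aX → 0 ≤ l →
      |kA s Y (h0 * C' - x' / 2 - x) - -(1 / x - 2) * tau (h0 * C' - x' / 2 - x)| ≤
        (1 / x + aT) * ((x - x') * (1 / 2 + h0 * q)) + aX * ((x - x') * (h0 - q / 2)) →
      s * |kR s Y (h0 * C' - x' / 2 - x)| ≤
        1 / 16 * ((x - x') * (1 / 2 + h0 * q) + (x - x') * (h0 - q / 2)) →
      |kX s Y (h0 * C' - x' / 2 - x) - lvl s x| ≤
        l * ((x - x') * (1 / 2 + h0 * q) + (x - x') * (h0 - q / 2)) →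
      57736 / 100000 * (s / x + s * (1465 / 1000 + aT * (1 / 2 + x) + aX * (8661 / 10000) +
      7 / 6 + 1085 / 1000 * x)) + (101 / 16000 * s + l / 2) * (13661 / 10000 + 43 / 100 * x) +
      13 / 100 * s ≤ 288 / 1000 - 26 / 100 * (x - x') →
      cost s (1 / x - 2) (lvl s x) (C) (-(C' / 2) - h0 * x') (x) (h0 * C' - x' / 2 - x) ≤
        E1 (x - x') := by
    intro aT aX l haT haX hl kA1 kR1 kX1 hF
    have num := l2b_num (a := x - x') hs (div_mul_cancel₀ s x0.ne')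
      (by positivity : 0 ≤ s / x) haT haX hl hA hB hU hAB hF
    have num' := mul_le_mul_of_nonneg_left num a0
    unfold cost E1
    rw [eT, eX, kA_neg s Y, kR_neg s Y, kX_neg s Y, z1, z2, z3, w2]
    have f1 : |-kA s Y (h0 * C' - x' / 2 - x) - (1 / x - 2) * tau (h0 * C' - x' / 2 - x)| =
        |kA s Y (h0 * C' - x' / 2 - x) - -(1 / x - 2) * tau (h0 * C' - x' / 2 - x)| := by
      rw [← abs_neg]
      congr 1
      ring
    have f2 : |-kX s Y (h0 * C' - x' / 2 - x) + lvl s x| =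
        |kX s Y (h0 * C' - x' / 2 - x) - lvl s x| := by
      rw [← abs_neg]
      congr 1
      ring
    have f3 : |kX s (-(C' / 2) - h0 * x') (h0 * C' - x' / 2) + lvl s x| =
        |kX s (C' / 2 + h0 * x') (h0 * C' - x' / 2) - lvl s x| := by
      rw [show -(C' / 2) - h0 * x' = -(C' / 2 + h0 * x') by ring, kX_neg, ← abs_neg]
      congr 1
      ring
    rw [f1, f2, f3, abs_neg (kR s Y (h0 * C' - x' / 2 - x)), abs_zero]
    have g1 := mul_le_mul_of_nonneg_left kA1 hs.le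
    have g2 := mul_le_mul_of_nonneg_left w1 hs.le
    have g3 : s ^ 2 * |kR s Y (h0 * C' - x' / 2 - x)| ≤
        s * (1 / 16 * ((x - x') * (1 / 2 + h0 * q) + (x - x') * (h0 - q / 2))) := by
      have := mul_le_mul_of_nonneg_left kR1 hs.le
      calc _ = s * (s * |kR s Y (h0 * C' - x' / 2 - x)|) := by ring
        _ ≤ _ := this
    have sx : s * (1 / x) = s / x := by ring
    have e5 : s * ((1 / x + aT) * ((x - x') * (1 / 2 + h0 * q)) +
        aX * ((x - x') * (h0 - q / 2))) =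
        (x - x') * ((s / x + aT * s) * (1 / 2 + h0 * q) + aX * s * (h0 - q / 2)) := by
      rw [← sx]; ring
    have e6 : s * ((1 / x + 7 / 3) * (x - x') * (1 / 2 + h0 * u)) =
        (x - x') * ((s / x + 7 / 3 * s) * (1 / 2 + h0 * u)) := by
      rw [← sx]; ring
    rw [e5] at g1
    rw [e6] at g2
    have e7 : (x - x') * (57736 / 100000 * ((s / x + aT * s) * (1 / 2 + h0 * q) +
        aX * s * (h0 - q / 2) + (s / x + 7 / 3 * s) * (1 / 2 + h0 * u)) +
        (101 / 16000 * s + l / 2) * (1 / 2 + h0 * q + (h0 - q / 2)) + 13 / 100 * s) =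
        57736 / 100000 * ((x - x') * ((s / x + aT * s) * (1 / 2 + h0 * q) +
          aX * s * (h0 - q / 2)) + (x - x') * ((s / x + 7 / 3 * s) * (1 / 2 + h0 * u))) +
        101 / 1000 * (s * (1 / 16 * ((x - x') * (1 / 2 + h0 * q) + (x - x') * (h0 - q / 2)))) +
        1 / 2 * (l * ((x - x') * (1 / 2 + h0 * q) + (x - x') * (h0 - q / 2)) +
          26 / 100 * s * (x - x')) := by ring
    rw [e7] at num'
    refine le_trans ?_ num'
    simp only [zero_add, add_zero]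
    rw [← hu] at g2
    rw [← hu]
    have e8 : 57736 / 100000 * s * (|kA s Y (h0 * C' - x' / 2 - x) -
        -(1 / x - 2) * tau (h0 * C' - x' / 2 - x)| +
        |kA s (-(C' / 2) - h0 * x') (h0 * C' - x' / 2) -
          (1 / x - 2) * tau (h0 * C' - x' / 2)|) =
        57736 / 100000 * (s * |kA s Y (h0 * C' - x' / 2 - x) -
        -(1 / x - 2) * tau (h0 * C' - x' / 2 - x)| +
        s * |kA s (-(C' / 2) - h0 * x') (h0 * C' - x' / 2) -
          (1 / x - 2) * tau (h0 * C' - x' / 2)|) := by ring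
    rw [e8]
    linarith
  have rx : s / x * x = s := div_mul_cancel₀ s x0.ne'
  have r0' : 0 ≤ s / x := by positivity
  have sx1 : s * x ≤ 11 / 400 * x := mul_le_mul_of_nonneg_right hs1 x0.le
  rcases le_or_gt x (1 / 4) with hx4 | hx4
  · have T := S' hx4
    have TA := T.A
    have TR := T.R
    rw [dT', dX'] at TA TR
    rcases le_or_gt (5 * s) x with hx5 | hx5
    · have TL := T.L5 hx5
      have hlv : lvl s x = 0 := lvl_far hs hx5
      rw [dT', dX'] at TL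
      refine main 2 (3 / 2) (1 / 64) (by norm_num) (by norm_num) (by norm_num) TA TR
        (by rw [hlv, sub_zero]; exact TL) ?_
      have r5 : s / x ≤ 1 / 5 := by
        rw [div_le_iff₀ x0]; linarith
      rcases lt_or_ge x (6 * s) with hx6 | hx6
      · exact l2b_n1 hs hs1 hx6 sx1 r5 (h7 hx6)
      · have r6 : s / x ≤ 1 / 6 := by
          rw [div_le_iff₀ x0]; linarith
        exact l2b_n2 hs hs1 hx4 sx1 r6 ha
    · have TL := T.L
      rw [dT', dX'] at TL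
      refine main 2 (3 / 2) (1 / 25) (by norm_num) (by norm_num) (by norm_num) TA TR TL ?_
      have h8 := h7 (by linarith)
      have r5 : 1 / 5 ≤ s / x := by
        rw [le_div_iff₀ x0]; linarith
      have r4 : s / x ≤ 1 / 4 := by
        rw [div_le_iff₀ x0]; linarith
      exact l2b_n3 hs hs1 hx hx5 sx1 r5 r4 rx h8
  · have T := S
    have hx5 : 5 * s ≤ x := by linarith
    have TA := T.A
    have TR := T.R
    have TL := T.L5 hx5
    have hlv : lvl s x = 0 := lvl_far hs hx5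
    rw [dT', dX'] at TA TR TL
    refine main 1 (13 / 4) (1 / 64) (by norm_num) (by norm_num) (by norm_num) TA TR
      (by rw [hlv, sub_zero]; exact TL) ?_
    have r4 : s / x ≤ 11 / 100 := by
      rw [div_le_iff₀ x0]; linarith
    exact l2b_n4 hs hs1 hx1 sx1 r4 ha

end Pool.Agent.Strip051.LC.E0.Out
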