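import Pool.Agent.Strip051.LC.E0.O3.SecD

/-! # Small rests: the strip next to the direction of 30 degrees, below, small rotations -/

namespace Pool.Agent.Strip051.LC.E0.Out

open Pool.Agent.StripNear Pool.Agent.StripSquare Pool.Agent.Strip051 Pool.Agent.Strip051.Sweep
open Pool.Agent.Strip051.LC.Line (tau)

theorem secd2_num1 {h ix p q : ℝ} (b1 : 86602 / 100000 ≤ h) (b2 : h ≤ 86603 / 100000)
    (p0 : 0 ≤ p) (p1 : p ≤ 56 / 1000) (q0 : 0 ≤ q) (q1 : q ≤ 19 / 100)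
    (hp : 49 / 100 ≤ ix * (q - p)) :
    (3 / 2 + h * p) * (ix + 7 / 3) ≤
      (ix + 2) * (3 / 2 + h * q) + 3 / 2 * (h - 3 / 2 * q) := by
  have m1 : h * p ≤ 86603 / 100000 * (56 / 1000) := mul_le_mul b2 p1 p0 (by norm_num)
  have m2 : 0 ≤ h * q := mul_nonneg (by linarith) q0
  have m3 : 86602 / 100000 * (49 / 100) ≤ h * (ix * (q - p)) :=
    mul_le_mul b1 hp (by norm_num) (by linarith)
  have e : (ix + 2) * (3 / 2 + h * q) + 3 / 2 * (h - 3 / 2 * q) -
      (3 / 2 + h * p) * (ix + 7 / 3) =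
      h * (ix * (q - p)) + 2 * (h * q) + 3 / 2 * h - 9 / 4 * q - 1 / 2 - 7 / 3 * (h * p) := by
    ring
  linarith

/-- Small rotations. -/
theorem secd2_C {C x : ℝ} (h : Rot C x) (x0 : 0 ≤ x) (hx : x ≤ 1 / 4) :
    968 / 1000 ≤ C ∧ 1 - C ≤ 13 / 100 * x ∧ h0 / 2 + 3 / 100 ≤ h0 * C - 3 / 2 * x ∧
      1 - C ≤ 51 / 100 * x * x := by
  obtain ⟨b1, b2⟩ := h0_bd
  have k := h.sq
  have hC : 968 / 1000 ≤ C := by
    refine le_of_sq2 h.C0 ?_
    nlinarith
  have e : (1 - C) * (1 + C) = x * x := by linear_combination -k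
  have k1 : (1 - C) * (1968 / 1000) ≤ x * x := by
    rw [← e]
    exact mul_le_mul_of_nonneg_left (by linarith) (by linarith [h.C1])
  have k2 : x * x ≤ 1 / 4 * x := mul_le_mul_of_nonneg_right hx x0
  have k3 := mul_self_nonneg x
  refine ⟨hC, by linarith, ?_, by linarith⟩
  have := mul_le_mul b1.le hC (by norm_num) (by linarith)
  linarith

/-- The kernel on the circle of radius `√3`. -/
theorem secd2_c3 {s C x T : ℝ} (hs : 0 < s) (hs1 : s ≤ 11 / 400) (h : Rot C x) (hx : 4 * s ≤ x)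
    (k1 : h0 / 2 ≤ T) (h1 : h0 * C - 3 / 2 * x ≤ T) (h2 : T ≤ h0 - s)
    (hN : T - (h0 * C - 3 / 2 * x) ≤ 79 / 10 * s) :
    0 ≤ R3 par s T + (1 / x - 2) * tau T ∧
    R3 par s T + (1 / x - 2) * tau T ≤ (1 / x + 2) * (T - (h0 * C - 3 / 2 * x)) +
      3 / 2 * (3 / 2 * C + h0 * x - c3 T) := by
  have hh := h0_pos
  have hq := h0_sq'
  obtain ⟨b1, b2⟩ := h0_bd
  have hT : 0 ≤ T := by linarith
  have hT3 : T ^ 2 ≤ 3 := by nlinarith
  have x0 : 0 < x := by linarith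
  obtain ⟨r, lo, eX, eT⟩ := secd_rot hT (by linarith)
  have xp : s / 2 ≤ c3 T / (4 * h0) - T / 2 := by
    rw [quot4]
    have := mul_nonneg (by linarith : 0 ≤ c3 T - 3 / 2) hh.le
    linarith
  have n := n30_kA hs hs1 r.neg (by linarith)
  have F := n30_facts r.neg
  rw [show 3 / 2 * (c3 T / 2 + T / (4 * h0)) - h0 * -(c3 T / (4 * h0) - T / 2) = c3 T by linarith,
    show h0 * (c3 T / 2 + T / (4 * h0)) + 3 / 2 * -(c3 T / (4 * h0) - T / 2) = T by linarith,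
    kA_c3 hT hT3, abs_neg, abs_of_nonneg (by linarith : 0 ≤ c3 T / (4 * h0) - T / 2)] at n
  have f6 := F.2.2.2.2.2.2
  rw [show h0 * (c3 T / 2 + T / (4 * h0)) + 3 / 2 * -(c3 T / (4 * h0) - T / 2) = T by linarith]
    at f6
  clear F
  generalize c3 T / (4 * h0) - T / 2 = x' at *
  generalize c3 T / 2 + T / (4 * h0) = C' at *
  obtain ⟨hxx, q, q0, q1, e1, e3, e4⟩ := secd_geo h r x0.le (by linarith) (by linarith)
  have C1 := h.C1
  have C1' := r.C1
  have Ch' := r.Ch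
  have x0' : 0 < x' := by linarith
  have eT' : T - (h0 * C - 3 / 2 * x) = (x - x') * (3 / 2 + h0 * q) := by linarith
  have eX' : 3 / 2 * C + h0 * x - c3 T = (x - x') * (h0 - 3 / 2 * q) := by linarith
  have qx : x + x' ≤ 2 * q := by
    rw [← e1]
    have := mul_le_mul_of_nonneg_left (by linarith : C + C' ≤ 2) q0
    linarith
  have dx : 0 ≤ x - x' := by linarith
  have w0 : 0 < 3 / 2 + h0 * q := by positivity
  have k2 : 0 < 1 + C' := by linarith
  have p0 : 0 ≤ x' / (1 + C') := by positivity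
  have eR : R3 par s T + (1 / x - 2) * tau T =
      (3 / 2 + h0 * (x' / (1 + C'))) * (RA par s x' - (1 / x - 2) * x') := by
    rw [n, tau_mi k1 (by linarith), f6]
    field_simp
    ring
  have W0 : 0 ≤ 3 / 2 + h0 * (x' / (1 + C')) := by positivity
  have ix0 : 0 < 1 / x := by positivity
  have ex : 1 / x * x = 1 := by field_simp
  have m0 : 1 / x * (x - x') ≤ RA par s x' - (1 / x - 2) * x' := by
    have := RA_ge hs x0'.le (s := s)
    have e : 1 / x * (x - x') = 1 - 1 / x * x' := by rw [mul_sub, ex]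
    rw [e]
    linarith
  rw [eR, eT', eX']
  constructor
  · exact mul_nonneg W0 (le_trans (by positivity) m0)
  · rcases le_or_gt (4 * s) x' with k | k
    · have e : RA par s x' - (1 / x - 2) * x' = 1 / x * (x - x') := by
        rw [RA_eq hs k]
        field_simp
        ring
      rw [e]
      have k3 : x' / (1 + C') ≤ q := by
        rw [div_le_iff₀ k2]
        have := mul_le_mul_of_nonneg_left (by linarith : C + C' ≤ 1 + C') q0
        linarith
      have k6 : 0 ≤ 1 / x * (x - x') := by positivity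
      have k4 := mul_le_mul_of_nonneg_left k3 hh.le
      have k7 := mul_le_mul_of_nonneg_right
        (by linarith : 3 / 2 + h0 * (x' / (1 + C')) ≤ 3 / 2 + h0 * q) k6
      have k8 : 0 ≤ (x - x') * (3 / 2 + h0 * q) := by positivity
      have k9 : 0 ≤ (x - x') * (h0 - 3 / 2 * q) := mul_nonneg dx (by linarith)
      linarith
    · have P := (abs_le.1 (psi_dn hs hx h.hi hxx)).2
      rw [abs_of_pos x0'] at P
      have m1 := mul_le_mul_of_nonneg_left P W0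
      obtain ⟨n1, n2, n3⟩ := secd_num0 hs hs1 h r x0 x0' k.le dx q0 e1 qx (by rw [← eT']; exact hN)
      have m3 := secd2_num1 (ix := 1 / x) b1.le b2.le p0 n2 q0 n1 n3
      have m4 := mul_le_mul_of_nonneg_right m3 dx
      refine m1.trans (le_trans (le_of_eq ?_) (m4.trans (le_of_eq ?_))) <;> ring

/-- The kernel on `W`. -/
theorem secd2_W {s C x T : ℝ} (hs : 0 < s) (hs1 : s ≤ 11 / 400) (h : Rot C x) (hx : 4 * s ≤ x)
    (k1 : h0 / 2 ≤ T) (h1 : h0 * C - 3 / 2 * x ≤ T) (h2 : T ≤ h0 - s)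
    (hN : T - (h0 * C - 3 / 2 * x) ≤ 79 / 10 * s) :
    |RW par s T + (1 / x - 2) * tau T| ≤ (1 / x + 2) * (T - (h0 * C - 3 / 2 * x)) +
      3 / 2 * (3 / 2 * C + h0 * x - Wc T) := by
  have hh := h0_pos
  have hq := h0_sq'
  obtain ⟨b1, b2⟩ := h0_bd
  have hT : 0 ≤ T := by linarith
  have hT3 : T ^ 2 ≤ 3 := by nlinarith
  have x0 : 0 < x := by linarith
  obtain ⟨o1, o2, o3, o4, o5⟩ := order5 hT hT3
  have oW : Wc T ≤ c3 T := by linarith
  obtain ⟨a, b⟩ := secd2_c3 hs hs1 h hx k1 h1 h2 hN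
  obtain ⟨c, -, -, -, d⟩ := secd_pos hs hs1 h hx hT h1 h2
  have eW : RW par s T = R3 par s T - slL par s ((h0 - T) / s) * (c3 T - Wc T) := by
    unfold RW
    rw [if_neg (by linarith), if_pos (by linarith)]
  have z : 1 ≤ (h0 - T) / s := by
    rw [le_div_iff₀ hs]
    linarith
  have s0 := slL_nonneg hs hs1 (by linarith : 0 ≤ (h0 - T) / s)
  have S0 : 0 ≤ slL par s ((h0 - T) / s) * (c3 T - Wc T) := mul_nonneg s0 (by linarith)
  have dT : 0 ≤ 1 / x * (T - (h0 * C - 3 / 2 * x)) := mul_nonneg (by positivity) (by linarith)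
  rw [eW]
  generalize (1 / x - 2) * tau T = V at *
  rw [abs_le]
  constructor
  · rcases le_or_gt ((h0 - T) / s) 2 with h5 | h5
    · rw [div_le_iff₀ hs] at h5
      have S1 := mul_le_mul_of_nonneg_right (secd_slL hs hs1 z) (by linarith : 0 ≤ c3 T - Wc T)
      have w := (W_dn hT (by linarith)).1
      have w' := (W_dn hT (by linarith)).2
      have c0 := c3_nonneg T
      have e3 := c3_sq hT3
      have u1 : Wc T - 1 / 2 ≤ 1 := by nlinarith [sq_nonneg (h0 - T)]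
      have u2 : 1 - (h0 - T) ^ 2 ≤ Wc T - 1 / 2 := by nlinarith
      have u3 : (h0 - T) ^ 2 ≤ 11 / 100 * s := by nlinarith
      have u4 : c3 T ≤ 3 / 2 + 12 / 10 * s := by
        refine le_of_sq2 (by linarith) ?_
        nlinarith
      linarith
    · have e : slL par s ((h0 - T) / s) = 27 / 20 := by
        unfold slL
        rw [if_neg (by linarith), if_neg (by linarith)]
        rfl
      rw [e] at S0 ⊢
      linarith
  · linarith

/-- The kernel on the unit circle. -/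
theorem secd2_R1 {s T : ℝ} (hs : 0 < s) (hs1 : s ≤ 11 / 400) (h : h0 / 2 + 3 / 100 ≤ T)
    (h' : T < h0) :
    R1 par s T ≤ 733 / 1000 ∧ c1 T ≤ 887 / 1000 ∧
      (T ≤ 1 / 2 → -(7 / 100) ≤ R1 par s T) ∧
      (1 / 2 < T → 1 / 2 + (T / 2 - h0 * c1 T) ≤ R1 par s T) := by
  have hh := h0_pos
  have hq := h0_sq'
  obtain ⟨b1, b2⟩ := h0_bd
  have hT : 0 ≤ T := by linarith
  have e1 := c1_sq hT (by linarith)
  have o1 := c1_nonneg T
  have hc : c1 T ≤ 887 / 1000 := by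
    refine le_of_sq2 (by norm_num) ?_
    nlinarith
  rcases le_or_gt T (1 / 2) with k | k
  · have eR1 : R1 par s T = (1 - 2 * T) * ((T - h0) / T) := by
      unfold R1
      rw [if_neg (by linarith), if_pos k, RA_eq hs (by linarith)]
    have q0 : -(88 / 100) ≤ (T - h0) / T := by
      rw [le_div_iff₀ (by linarith)]
      linarith
    have q1 : (T - h0) / T ≤ 0 := div_nonpos_of_nonpos_of_nonneg (by linarith) hT
    have m1 := mul_le_mul_of_nonneg_left q0 (by linarith : 0 ≤ 1 - 2 * T)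
    have m2 := mul_le_mul_of_nonneg_left q1 (by linarith : 0 ≤ 1 - 2 * T)
    rw [← eR1] at m1 m2
    exact ⟨by linarith, hc, fun _ => by linarith, fun h => by linarith⟩
  · refine ⟨(secd_R1 hs k h').2, hc, fun h => by linarith, fun _ => ?_⟩
    obtain ⟨r1, r2⟩ := c1_rot hT (by linarith)
    have cl : 1 / 2 ≤ c1 T := by
      refine le_of_sq2 o1 ?_
      nlinarith
    have cu : c1 T ≤ h0 := by
      refine le_of_sq2 hh.le ?_
      nlinarith
    have y0 : T / 2 - h0 * c1 T ≤ 0 := by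
      have := mul_le_mul_of_nonneg_left cl hh.le
      linarith
    have y1 : -(1 / 2) ≤ T / 2 - h0 * c1 T := by
      have := mul_le_mul_of_nonneg_left cu hh.le
      nlinarith
    have C0 : 0 ≤ c1 T / 2 + h0 * T := by positivity
    unfold R1
    rw [if_neg (by linarith), if_neg (by linarith), abs_of_nonpos y0]
    clear e1 cl cu r2 o1 hc
    generalize T / 2 - h0 * c1 T = y at *
    generalize c1 T / 2 + h0 * T = C at *
    have B0 := RA_nonneg hs (by linarith : 0 ≤ -y) (by linarith)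
    have B1 := RA_ge hs (by linarith : 0 ≤ -y) (s := s)
    have q1 : h0 * y / (1 + C) ≤ 0 :=
      div_nonpos_of_nonpos_of_nonneg (mul_nonpos_of_nonneg_of_nonpos hh.le y0) (by linarith)
    have m := mul_le_mul_of_nonneg_left (by linarith : 1 / 2 ≤ 1 / 2 - h0 * y / (1 + C)) B0
    linarith

/-- The numbers for the lower bound at one third. -/
theorem secd2_n1 {u c x R : ℝ} (u0 : 0 ≤ u) (ux : u ≤ 1614 / 1000 * x)
    (c0 : 1 / 2 ≤ c) (hc : c ^ 2 = 1 - (h0 - u) ^ 2)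
    (hR : 1 / 2 + ((h0 - u) / 2 - h0 * c) ≤ R) :
    2647 / 10000 + 12353 / 10000 * (c - 1 / 2) ≤ R + 2 * u + 55 / 100 * x := by
  have hq := h0_sq'
  obtain ⟨b1, b2⟩ := h0_bd
  have k1 : c ≤ 6119 / 10000 + 875 / 1000 * u := by
    refine le_of_sq2 (by linarith) ?_
    rw [hc]
    nlinarith [mul_nonneg u0 (by linarith : 0 ≤ 86603 / 100000 - h0), sq_nonneg (u - 187 / 1000)]
  have k2 : h0 * c ≤ 86603 / 100000 * c := mul_le_mul_of_nonneg_right b2.le (by linarith)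
  have k3 : h0 * c - h0 / 2 ≤ 86603 / 100000 * (c - 1 / 2) := by
    have := mul_nonneg (by linarith : 0 ≤ 86603 / 100000 - h0) (by linarith : 0 ≤ c - 1 / 2)
    linarith
  linarith

/-- The numbers on the unit circle and at one third. -/
theorem secd2_n0 {S P u D X0 W c R x : ℝ} (x0 : 0 ≤ x) (P0 : 0 ≤ P) (D0 : 0 ≤ D) (S0 : 3 / 2 ≤ S)
    (S1 : S ≤ 3 / 2 + 442 / 1000 * x) (hX : 3 / 2 + 67 / 100 * x ≤ X0) (Wu : W ≤ 3 / 2)
    (oc : c ≤ W) (u1 : u ≤ 41 / 100) (r1 : R ≤ 733 / 1000) (r2 : c ≤ 887 / 1000)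
    (main : 2647 / 10000 + 12353 / 10000 * (c - 1 / 2) ≤ R + 2 * u + 55 / 100 * x) :
    |R + (-S + P + 2 * u)| ≤ P + 2 * D + 3 / 2 * (X0 - c) ∧
    |R + 353 / 500 * (1 / 3 * (W - c)) + (-S + P + 2 * u)| ≤
      P + 2 * D + 3 / 2 * (X0 - (c + 1 / 3 * (W - c))) := by
  rw [abs_le, abs_le]
  refine ⟨⟨?_, ?_⟩, ?_, ?_⟩ <;> linarith

/-- The gauge at the abscissa. -/
theorem secd2_S {C x T : ℝ} (h : Rot C x) (x0 : 0 < x) (hx4 : x ≤ 1 / 4) :
    3 / 2 ≤ 1 / x * (h0 - (h0 * C - 3 / 2 * x)) ∧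
    1 / x * (h0 - (h0 * C - 3 / 2 * x)) ≤ 3 / 2 + 442 / 1000 * x ∧
    3 / 2 + 67 / 100 * x ≤ 3 / 2 * C + h0 * x ∧
    (h0 * C - 3 / 2 * x ≤ T → h0 - T ≤ 1614 / 1000 * x) := by
  have hh := h0_pos
  obtain ⟨b1, b2⟩ := h0_bd
  obtain ⟨cC, cC', cT, cC2⟩ := secd2_C h x0.le hx4
  have eS : 1 / x * (h0 - (h0 * C - 3 / 2 * x)) = 3 / 2 + h0 * ((1 - C) / x) := by
    field_simp
    ring
  have q0 : 0 ≤ (1 - C) / x := div_nonneg (by linarith [h.C1]) x0.le
  have q1 : (1 - C) / x ≤ 51 / 100 * x := by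
    rw [div_le_iff₀ x0]
    exact cC2
  have k1 := mul_le_mul_of_nonneg_right b1.le x0.le
  have k2 := mul_le_mul_of_nonneg_right b2.le x0.le
  rw [eS]
  refine ⟨?_, ?_, ?_, fun h1 => ?_⟩
  · have := mul_nonneg hh.le q0
    linarith
  · have := mul_le_mul b2.le q1 q0 (by norm_num)
    linarith
  · linarith
  · have := mul_le_mul_of_nonneg_left cC' hh.le
    linarith

/-- The unit circle and `W`. -/
theorem secd2_c {s x T : ℝ} (hs : 0 < s) (hs1 : s ≤ 11 / 400) (x0 : 0 ≤ x)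
    (h : h0 / 2 + 3 / 100 ≤ T) (h' : T < h0) (u1 : h0 - T ≤ 1614 / 1000 * x) :
    Wc T ≤ 3 / 2 ∧ 2647 / 10000 + 12353 / 10000 * (c1 T - 1 / 2) ≤
      R1 par s T + 2 * (h0 - T) + 55 / 100 * x := by
  have hh := h0_pos
  have hq := h0_sq'
  obtain ⟨b1, b2⟩ := h0_bd
  have hT : 0 ≤ T := by linarith
  obtain ⟨W1, W2⟩ := W_dn hT h'
  have e1 := c1_sq hT (by linarith)
  have c0 := c1_nonneg T
  have cl : 1 / 2 ≤ c1 T := by
    refine le_of_sq2 c0 ?_
    nlinarith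
  obtain ⟨r1, r2, r3, r4⟩ := secd2_R1 hs hs1 h h'
  constructor
  · nlinarith [sq_nonneg (h0 - T)]
  · rcases le_or_gt T (1 / 2) with k5 | k5
    · have := r3 k5
      linarith
    · refine secd2_n1 (by linarith) u1 cl ?_ ?_
      · rw [show h0 - (h0 - T) = T by ring]
        linarith
      · rw [show h0 - (h0 - T) = T by ring]
        exact r4 k5

/-- The residue at the nodes. -/
theorem secd2_vA {s C x T : ℝ} (hs : 0 < s) (hs1 : s ≤ 11 / 400) (h : Rot C x) (hx : 4 * s ≤ x)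
    (hx4 : x ≤ 1 / 4) (h1 : h0 * C - 3 / 2 * x ≤ T) (h2 : T ≤ h0 - s)
    (hN : T - (h0 * C - 3 / 2 * x) ≤ 79 / 10 * s) (j : Fin 4) :
    |vA par s T j - -(1 / x - 2) * tau T| ≤ (1 / x + 2) * (T - (h0 * C - 3 / 2 * x)) +
      3 / 2 * (3 / 2 * C + h0 * x - pos.cv j T) := by
  have hh := h0_pos
  obtain ⟨b1, b2⟩ := h0_bd
  have lt : T < h0 := by linarith
  have x0 : 0 < x := by linarith
  have kT : h0 / 2 + 3 / 100 ≤ T := le_trans (secd2_C h x0.le hx4).2.2.1 h1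
  have k : h0 / 2 ≤ T := by linarith
  have hT : 0 ≤ T := by linarith
  obtain ⟨v3, v3'⟩ := secd2_c3 hs hs1 h hx k h1 h2 hN
  have v2 := secd2_W hs hs1 h hx k h1 h2 hN
  have rw' : ∀ y : ℝ, y - -(1 / x - 2) * tau T = y + (1 / x - 2) * tau T := fun y => by ring
  rw [rw']
  have p0 : pos.cv 0 T = c1 T := cv_zero T
  have p1 : pos.cv 1 T = c1 T + 1 / 3 * (Wc T - c1 T) := cv_one_low lt
  have p2 : pos.cv 2 T = Wc T := cv_two_low lt
  have p3 : pos.cv 3 T = c3 T := cv_three T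
  have n3 : vA par s T 3 = R3 par s T := rfl
  have n2 : vA par s T 2 = RW par s T := by
    simp only [vA, Matrix.cons_val]
    rw [if_pos lt]
  have n0 : vA par s T 0 = R1 par s T := if_pos (by linarith)
  have n1 : vA par s T 1 = R1 par s T + 353 / 500 * (1 / 3 * (Wc T - c1 T)) := by
    simp only [vA, Matrix.cons_val_one, Matrix.cons_val_zero]
    rw [if_neg (by linarith), if_pos lt]
    rfl
  -- the gauge
  obtain ⟨S0, S1, X0, u1⟩ := secd2_S (T := T) h x0 hx4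
  have u1 := u1 h1
  have P0 : 0 ≤ 1 / x * (T - (h0 * C - 3 / 2 * x)) := mul_nonneg (by positivity) (by linarith)
  have eV : (1 / x - 2) * tau T = -(1 / x * (h0 - (h0 * C - 3 / 2 * x))) +
      1 / x * (T - (h0 * C - 3 / 2 * x)) + 2 * (h0 - T) := by
    rw [tau_mi k (by linarith)]
    ring
  have eB : (1 / x + 2) * (T - (h0 * C - 3 / 2 * x)) = 1 / x * (T - (h0 * C - 3 / 2 * x)) +
      2 * (T - (h0 * C - 3 / 2 * x)) := by
    ring
  obtain ⟨Wu, main⟩ := secd2_c hs hs1 x0.le kT lt u1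
  obtain ⟨r1, r2, -, -⟩ := secd2_R1 hs hs1 kT lt
  obtain ⟨o1, o2, o3, o4, o5⟩ := order5 hT (by nlinarith [h0_sq'])
  obtain ⟨m0, m1⟩ := secd2_n0 x0.le P0 (by linarith : 0 ≤ T - (h0 * C - 3 / 2 * x)) S0 S1 X0 Wu
    (by linarith : c1 T ≤ Wc T) (by linarith : h0 - T ≤ 41 / 100) r1 r2 main
  clear o1 o2 o3 o4 o5 main Wu r1 r2 P0 S0 S1 X0 u1 h1 h2 hN kT
  fin_cases j
  · change |vA par s T 0 + _| ≤ _ + 3 / 2 * (_ - pos.cv 0 T)
    rw [n0, p0, eV, eB]
    exact m0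
  · change |vA par s T 1 + _| ≤ _ + 3 / 2 * (_ - pos.cv 1 T)
    rw [n1, p1, eV, eB]
    exact m1
  · change |vA par s T 2 + _| ≤ _ + 3 / 2 * (_ - pos.cv 2 T)
    rw [n2, p2]
    exact v2
  · change |vA par s T 3 + _| ≤ _ + 3 / 2 * (_ - pos.cv 3 T)
    rw [n3, p3, abs_of_nonneg v3]
    exact v3'

/-- Next to the direction of 30 degrees, below, small rotations. -/
theorem sec_m30' {s C x X T : ℝ} (hs : 0 < s) (hs1 : s ≤ 11 / 400) (h : Rot C x) (hx : 4 * s ≤ x)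
    (hx4 : x ≤ 1 / 4) (hA : Ann X T) (hN : Nr s (3 / 2 * C + h0 * x) (h0 * C - 3 / 2 * x) X T)
    (hT : h0 * C - 3 / 2 * x ≤ T) (hT' : T ≤ h0 - s) (hX : X ≤ 3 / 2 * C + h0 * x) :
    Sec s (-(1 / x - 2)) x (lvl s x) (3 / 2 * C + h0 * x) (h0 * C - 3 / 2 * x) X T 2
      (3 / 2) := by
  have T0 := hA.T0
  obtain ⟨n1, n2⟩ := hN.abs hs
  have k := secd_X0 hs hs1 h hx
  have hX0 : 0 ≤ X := by linarith [(abs_le.1 n1).1]
  have eT : |T - (h0 * C - 3 / 2 * x)| = T - (h0 * C - 3 / 2 * x) := abs_of_nonneg (by linarith)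
  have eX : |X - (3 / 2 * C + h0 * x)| = 3 / 2 * C + h0 * x - X := by
    rw [abs_sub_comm]
    exact abs_of_nonneg (by linarith)
  rw [eT] at n2
  have S := sec_m30 hs hs1 h hx hA hN hT hT' hX
  refine ⟨?_, S.R, S.L, S.L5⟩
  rw [eT, eX]
  exact secd_conv (adm_vA par s) T0 hX0 hA.lo hA.hi
    (secd2_vA hs hs1 h hx hx4 hT hT' n2)

end Pool.Agent.Strip051.LC.E0.Out
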