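import Pool.Agent.Strip051.LC.E0.O3.StrA
import Pool.Agent.Strip051.LC.E0.O3.SecD2
import Pool.Agent.Strip051.LC.E0.O3.H_L2B

/-! # Small rests: the strips -/

namespace Pool.Agent.Strip051.LC.E0.Out

open Pool.Agent.StripNear Pool.Agent.StripSquare Pool.Agent.Strip051 Pool.Agent.Strip051.Sweep
open Pool.Agent.Strip051.LC.Line (tau)

section

variable {s C x C' x' : ℝ}

theorem strip_L2B (hs : 0 < s) (hs1 : s ≤ 11 / 400) (h : Rot C x) (h' : Rot C' x')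
    (hx : 4 * s ≤ x) (ho : x' ≤ x) (h6 : 6 * s ≤ x ∨ 6 * s ≤ x + x' / 2 + h0 * (1 - C'))
    (hq : (C - C') ^ 2 + (x - x') ^ 2 ≤ (79 / 10 * s) ^ 2)
    (hS : Sides C (-(C' / 2) - h0 * x') x (h0 * C' - x' / 2 - x))
    (hE : E1 (x - x') ≤ exn C (-(C' / 2) - h0 * x') x (h0 * C' - x' / 2 - x)) :
    OK2 s C (-(C' / 2) - h0 * x') x (h0 * C' - x' / 2 - x) := by
  obtain ⟨n1, n2, n3, n4⟩ := nr_L2B hs hs1 h h' hx ho h6 hq
  exact ok2_of hs hs1 hS ⟨_, _, lvl_nonneg hs (by linarith), (hs_L2B hs hs1 h h' hx ho h6 hq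
    (sec_m30 hs hs1 h hx (ann23 hS).neg n1 n2 n3 n4)
    (fun h4 => sec_m30' hs hs1 h hx h4 (ann23 hS).neg n1 n2 n3 n4)).trans hE⟩

end

end Pool.Agent.Strip051.LC.E0.Out
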