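import Pool.Agent.Strip051.LC.E0.OutM

/-! # Small rests, half strips: a unit side at `120 - θ`, a long side at `150 - θ'` -/

namespace Pool.Agent.Strip051.LC.E0.Out

open Pool.Agent.StripNear Pool.Agent.StripSquare Pool.Agent.Strip051 Pool.Agent.Strip051.Sweep
open Pool.Agent.Strip051.LC.Line (tau)

/-- The kernel between the first two nodes, below `h0`. -/
theorem l3b4_seg {v : ℝ → Fin 4 → ℝ} (hv : K.adm v) {X T : ℝ} (hT : 0 ≤ T) (h : T < h0)
    (a : c1 T ≤ X) (b : X ≤ c1 T + 1 / 3 * (Wc T - c1 T)) :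
    ker K.nodes v (fun _ _ => 0) X T =
      v T 0 + (v T 1 - v T 0) * ((X - c1 T) / (1 / 3 * (Wc T - c1 T))) := by
  have hq := h0_sq'
  have hT3 : T ^ 2 ≤ 3 := by
    have := pow_le_pow_left₀ hT h.le 2
    linarith
  have e0 : pos.cv 0 T = c1 T := cv_zero T
  have e1 : pos.cv 1 T = c1 T + 1 / 3 * (Wc T - c1 T) := cv_one_low h
  have e := K.seg v hv 0 X T hT hT3 (by
    change pos.cv 0 T ≤ X
    rwa [e0]) (by
    change X ≤ pos.cv 1 T
    rwa [e1])
  rw [e]
  change v T 0 + (v T 1 - v T 0) * ((X - pos.cv 0 T) / (pos.cv 1 T - pos.cv 0 T)) = _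
  rw [e0, e1, add_sub_cancel_left]

/-- The kernel up to `W` if the first three values agree. -/
theorem l3b4_flat {v : ℝ → Fin 4 → ℝ} (hv : K.adm v) {X T m : ℝ} (hT : 0 ≤ T) (h : T < h0)
    (a : c1 T ≤ X) (b : X ≤ Wc T) (v0 : v T 0 = m) (v1 : v T 1 = m) (v2 : v T 2 = m) :
    ker K.nodes v (fun _ _ => 0) X T = m := by
  rcases le_total X (c1 T + 1 / 3 * (Wc T - c1 T)) with h1 | h1
  · rw [l3b4_seg hv hT h a h1, v0, v1, sub_self, zero_mul, add_zero]
  · have hq := h0_sq'
    have hT3 : T ^ 2 ≤ 3 := by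
      have := pow_le_pow_left₀ hT h.le 2
      linarith
    have e1 : pos.cv 1 T = c1 T + 1 / 3 * (Wc T - c1 T) := cv_one_low h
    have e2 : pos.cv 2 T = Wc T := cv_two_low h
    have e := K.seg v hv 1 X T hT hT3 (by
      change pos.cv 1 T ≤ X
      rwa [e1]) (by
      change X ≤ pos.cv 2 T
      rwa [e2])
    rw [e]
    change v T 1 + (v T 2 - v T 1) * ((X - pos.cv 1 T) / (pos.cv 2 T - pos.cv 1 T)) = _
    rw [v1, v2, sub_self, zero_mul, add_zero]

theorem l3b4_taper {s x : ℝ} (hs : 0 < s) (h : 4 * s ≤ x) : taper (x / s) = 0 := by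
  have h4 : 4 ≤ x / s := by rwa [le_div_iff₀ hs]
  unfold taper
  rw [if_neg (by linarith)]
  split_ifs with h5
  · rw [le_antisymm h5 h4, pl_right (by norm_num)]
  · rfl

/-- The kernels at an almost horizontal edge which is not far from the unit circle. -/
theorem l3b4_free {s X T : ℝ} (hs : 0 < s) (hs1 : s ≤ 11 / 400) (h4 : 4 * s ≤ T)
    (hT : T ≤ 1 / 2) (a : c1 T ≤ X) (b : X ≤ Wc T)
    (c : h0 / 2 ≤ T → X ≤ c1 T + 1 / 3 * (Wc T - c1 T)) :
    |kA s X T - (1 / T - 2) * tau T| ≤ 353 / 500 * (X - c1 T) ∧ kR s X T = 0 ∧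
      kX s X T = 0 := by
  have g1 := h0_gt
  have g2 := h0_lt
  have T0 : 0 < T := by linarith
  have tp := l3b4_taper hs h4
  have xa := xA_far hs h4
  have ra := RA_eq hs h4
  rcases lt_or_ge T (h0 / 2) with h | h
  · have A : kA s X T = RA par s T := by
      unfold kA
      refine l3b4_flat (adm_vA par s) T0.le (by linarith) a b ?_ ?_ ?_
      · simp only [vA, Matrix.cons_val_zero]
        rw [if_pos (by linarith)]
        unfold R1
        rw [if_pos h]
      · simp only [vA, Matrix.cons_val_one, Matrix.cons_val_zero]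
        rw [if_pos h]
      · simp only [vA, Matrix.cons_val]
        rw [if_pos (by linarith)]
        unfold RW
        rw [if_pos h]
    have R : kR s X T = 0 := by
      unfold kR
      refine l3b4_flat (adm_vR s) T0.le (by linarith) a b ?_ ?_ ?_
      · simp only [vR, Matrix.cons_val_zero]
        rw [if_pos h, tp, mul_zero]
      · simp only [vR, Matrix.cons_val_one, Matrix.cons_val_zero]
        rw [if_pos h, tp, mul_zero]
      · simp only [vR, Matrix.cons_val]
        rw [if_pos h, tp, mul_zero]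
    have L : kX s X T = 0 := by
      unfold kX
      refine l3b4_flat (adm_vX par s) T0.le (by linarith) a b ?_ ?_ ?_
      · simp only [vX, vx, Matrix.cons_val_zero]
        rw [if_pos (by linarith)]
        unfold X1
        rw [if_pos hT, xa, mul_zero]
      · simp only [vX, vx, Matrix.cons_val_one, Matrix.cons_val_zero]
        rw [if_pos h, xa, mul_zero]
      · simp only [vX, vx, Matrix.cons_val]
        rw [if_pos h, xa, mul_zero]
    refine ⟨?_, R, L⟩
    rw [A, ra, tau_lo h]
    have e : 1 - 2 * T - (1 / T - 2) * T = 0 := by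
      field_simp
      ring
    rw [e, abs_zero]
    exact mul_nonneg (by norm_num) (by linarith)
  · have c' := c h
    have ne : h0 ≤ 1 := by linarith
    have A : kA s X T = (1 / T - 2) * (T - h0) + 353 / 500 * (X - c1 T) := by
      have v0 : vA par s T 0 = (1 / T - 2) * (T - h0) := by
        simp only [vA, Matrix.cons_val_zero]
        rw [if_pos (by linarith)]
        unfold R1
        rw [if_neg h.not_gt, if_pos hT, ra]
        field_simp
      have v1 : vA par s T 1 = (1 / T - 2) * (T - h0) + 353 / 500 * (1 / 3 * (Wc T - c1 T)) := by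
        rw [← v0]
        simp only [vA, Matrix.cons_val_one, Matrix.cons_val_zero]
        rw [if_neg h.not_gt, if_pos (by linarith), if_pos (by linarith)]
        have : par.l2 = 353 / 500 := by
          unfold par
          norm_num
        rw [this]
      unfold kA
      rw [l3b4_seg (adm_vA par s) T0.le (by linarith) a c', v1, v0, add_sub_cancel_left]
      rcases (a.trans b).eq_or_lt with h2 | h2
      · have : X = c1 T := le_antisymm (by linarith) a
        rw [this, sub_self, zero_div, mul_zero, mul_zero]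
      · have : Wc T - c1 T ≠ 0 := by linarith
        field_simp
    have R : kR s X T = 0 := by
      unfold kR
      rw [l3b4_seg (adm_vR s) T0.le (by linarith) a c']
      have v0 : vR par s T 0 = 0 := by
        simp only [vR, Matrix.cons_val_zero]
        rw [if_neg h.not_gt]
      have v1 : vR par s T 1 = 0 := by
        simp only [vR, Matrix.cons_val_one, Matrix.cons_val_zero]
        rw [if_neg h.not_gt, if_pos (by linarith)]
      rw [v0, v1, sub_self, zero_mul, add_zero]
    have L : kX s X T = 0 := by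
      have x1 : X1 par s T = 0 := by
        unfold X1
        rw [if_pos hT, xa]
      unfold kX
      rw [l3b4_seg (adm_vX par s) T0.le (by linarith) a c']
      have v0 : vX par s T 0 = 0 := by
        simp only [vX, vx, Matrix.cons_val_zero]
        rw [if_pos (by linarith), x1, mul_zero]
      have v1 : vX par s T 1 = 0 := by
        simp only [vX, vx, Matrix.cons_val_one, Matrix.cons_val_zero]
        rw [if_neg h.not_gt, if_pos (by linarith), x1, mul_zero]
      rw [v0, v1, sub_self, zero_mul, add_zero]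
    refine ⟨?_, R, L⟩
    rw [A, tau_mi h (by linarith), add_sub_cancel_left,
      abs_of_nonneg (mul_nonneg (by norm_num) (by linarith))]

/-- A lower bound for `W`. -/
theorem l3b4_low {T : ℝ} (hT : 0 ≤ T) (h1 : T ≤ 36 / 100) : 1 + T ≤ Wc T := by
  obtain ⟨b1, b2⟩ := h0_bd
  obtain ⟨C, C0, eC, eW, -, -⟩ := low_sq hT (by linarith)
  have hq := h0_sq'
  have : 1 / 2 + T ≤ C := by
    refine le_of_sq2 C0 ?_
    have e1 : C ^ 2 = 1 / 4 + 2 * h0 * T - T ^ 2 := by linear_combination eC - hq
    have e2 := mul_nonneg hT (by linarith : 0 ≤ h0 - 86602 / 100000)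
    have e3 := mul_nonneg hT (by linarith : 0 ≤ 36 / 100 - T)
    rw [e1]
    linarith
  linarith

/-- A unit side 12 at `120 - θ` and a side 13 of length `√3` at `150 - θ'`, the free side is
the reference. -/
theorem hs_L3B4 {s C x C' x' : ℝ} (hs : 0 < s) (hs1 : s ≤ 11 / 400) (h : Rot C x) (h' : Rot C' x')
    (hx : 5 * s ≤ x') (ho : x' ≤ x) (hq : (C - C') ^ 2 + (x - x') ^ 2 ≤ (22 / 10 * s) ^ 2)
    (ht : 4 * s ≤ h0 * C' + 3 / 2 * x' - (h0 * C + x / 2))
    (hl : 1 ≤ (-(3 / 2 * C') + h0 * x' - (-(C / 2) + h0 * x)) ^ 2 +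
      (h0 * C' + 3 / 2 * x' - (h0 * C + x / 2)) ^ 2) :
    cost s (-(1 / (h0 * C' + 3 / 2 * x' - (h0 * C + x / 2)) - 2)) 0 (-(C / 2) + h0 * x)
      (-(3 / 2 * C') + h0 * x') (h0 * C + x / 2) (h0 * C' + 3 / 2 * x' - (h0 * C + x / 2)) ≤
      84 / 100 * (x - x') := by
  have g1 := h0_gt
  have g2 := h0_lt
  have hh := h0_pos
  obtain ⟨b1, b2⟩ := h0_bd
  have hq' := h0_sq'
  -- the displacement
  obtain ⟨q, q1, q2, q3, q4⟩ := mv h h'
  have Ch := h.Ch
  have Ch' := h'.Ch
  have x0 : 0 < x' := by linarith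
  have a0 : 0 ≤ x - x' := by linarith
  have qn : 0 ≤ q := by
    by_contra hc
    rw [not_le] at hc
    have := mul_nonpos_of_nonpos_of_nonneg hc.le (by linarith : 0 ≤ C + C')
    linarith
  rw [abs_of_nonneg qn] at q2 q4
  have q5 : q * (2 * h0) ≤ 1 := by
    rw [abs_of_nonneg (by linarith : 0 ≤ x + x')] at q2
    linarith [h.hi, h'.hi]
  have as : x - x' ≤ 22 / 10 * s := by
    refine le_of_sq2 (by linarith) ?_
    have := sq_nonneg (C - C')
    linarith
  -- the free side
  obtain ⟨t, et⟩ : ∃ t, h0 * C' + 3 / 2 * x' - (h0 * C + x / 2) = t := ⟨_, rfl⟩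
  have e13 : h0 * C + x / 2 + t = h0 * C' + 3 / 2 * x' := by
    rw [← et]
    ring
  have tx : x - t = (x - x') * (3 / 2 - h0 * q) := by
    rw [← et]
    linear_combination (-h0) * q1
  have tx' : x' - t = (x - x') * (1 / 2 - h0 * q) := by
    rw [← et]
    linear_combination (-h0) * q1
  have p1 : 0 ≤ (x - x') * (3 / 2 - h0 * q) := mul_nonneg a0 (by linarith)
  have p2 : 0 ≤ (x - x') * (1 / 2 - h0 * q) := mul_nonneg a0 (by linarith)
  rw [et] at ht hl ⊢
  have t0 : 0 < t := by linarith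
  have tl : t ≤ 1 / 2 := by linarith [h.hi]
  obtain ⟨X, eX⟩ : ∃ X, 3 / 2 * C' - h0 * x' - (C / 2 - h0 * x) = X := ⟨_, rfl⟩
  have e23 : -(3 / 2 * C') + h0 * x' - (-(C / 2) + h0 * x) = -X := by
    rw [← eX]
    ring
  have eXX : X = C + (x - x') * (3 / 2 * q + h0) := by
    rw [← eX]
    linear_combination (3 / 2) * q1
  have p3 : 0 ≤ (x - x') * (3 / 2 * q + h0) := mul_nonneg a0 (by positivity)
  have X0 : 0 ≤ X := by linarith
  have ec := n0_facts h (by linarith)
  have cx : C ≤ c1 t := by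
    rw [← ec]
    exact c1_anti t0.le (by linarith) (by linarith [h.hi])
  have cX : c1 t ≤ X := by
    refine le_of_sq2 X0 ?_
    have e1 := c1_sq t0.le (by linarith)
    rw [e23, neg_sq] at hl
    linarith
  have mX : X - c1 t ≤ (x - x') * (3 / 2 * q + h0) := by linarith
  have m1 : (x - x') * (3 / 2 * q + h0) ≤ (x - x') * (174 / 100) :=
    mul_le_mul_of_nonneg_left (by linarith) a0
  have cone := h.C1
  have bX : X ≤ Wc t := by
    rcases le_total t (7 / 50) with h1 | h1
    · have := low_near t0.le h1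
      linarith
    · have : C ≤ 991 / 1000 := by
        refine le_of_sq2 (by norm_num) ?_
        have e := h.sq
        have := pow_le_pow_left₀ (by norm_num) (by linarith : (7 : ℝ) / 50 ≤ x) 2
        norm_num at this ⊢
        linarith
      rcases le_total t (36 / 100) with h2 | h2
      · have := l3b4_low t0.le h2
        linarith
      · have := (low_bd t0.le (by linarith : t < h0)).1
        linarith
  have cXX : h0 / 2 ≤ t → X ≤ c1 t + 1 / 3 * (Wc t - c1 t) := by
    intro h1
    have e1 := (low_bd t0.le (by linarith : t < h0)).2.2.2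
    have e2 : c1 t ≤ 91 / 100 := by
      refine le_of_sq2 (by norm_num) ?_
      have e := c1_sq t0.le (by linarith)
      have := pow_le_pow_left₀ (by linarith) h1 2
      norm_num at this ⊢
      linarith
    have e3 : (h0 - t) ^ 2 ≤ 3 / 16 := by
      have : h0 - t ≤ h0 / 2 := by linarith
      have : (h0 - t) ^ 2 ≤ (h0 / 2) ^ 2 := pow_le_pow_left₀ (by linarith) this 2
      linarith
    linarith
  obtain ⟨F1, F2, F3⟩ := l3b4_free hs hs1 ht tl cX bX cXX
  -- the two nodes
  obtain ⟨u, hu, -, hu2, hu3, -⟩ := h.half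
  obtain ⟨u', hu', -, hu2', hu3', -⟩ := h'.half
  have u0 := hu3 (by linarith)
  have u0' := hu3' (by linarith)
  have N1 := n60_res hs hs1 h (1 / t - 2)
  have N2 := n30_res hs hs1 h' (1 / t - 2)
  have NR1 := n60_kR (s := s) h
  have NR2 := n30_kR (s := s) h'
  have NX1 := n60_kX_up hs hs1 h (by linarith)
  have NX2 := n30_kX_up (s := s) h' (by linarith)
  rw [xA_far hs (by linarith), lvl_far hs (by linarith), mul_zero, sub_zero] at NX1
  rw [xA_far hs (by linarith), lvl_far hs hx, mul_zero, mul_zero, sub_zero] at NX2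
  rw [abs_of_nonneg (by linarith : 0 ≤ x), RA_eq hs (by linarith), hu] at N1
  rw [abs_of_nonneg (by linarith : 0 ≤ x'), RA_eq hs (by linarith), hu'] at N2
  have r1 : |1 - 2 * x - (1 / t - 2) * x| = (x - x') * (3 / 2 - h0 * q) / t := by
    have : 1 - 2 * x - (1 / t - 2) * x = -((x - x') * (3 / 2 - h0 * q) / t) := by
      rw [← tx]
      field_simp
      ring
    rw [this, abs_neg, abs_of_nonneg (div_nonneg p1 t0.le)]
  have r2 : |1 - 2 * x' - (1 / t - 2) * x'| = (x - x') * (1 / 2 - h0 * q) / t := by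
    have : 1 - 2 * x' - (1 / t - 2) * x' = -((x - x') * (1 / 2 - h0 * q) / t) := by
      rw [← tx']
      field_simp
      ring
    rw [this, abs_neg, abs_of_nonneg (div_nonneg p2 t0.le)]
  rw [r1] at N1
  rw [r2] at N2
  -- the cost
  have neg1 : -(C / 2) + h0 * x = -(C / 2 - h0 * x) := by ring
  have neg2 : -(3 / 2 * C') + h0 * x' = -(3 / 2 * C' - h0 * x') := by ring
  have st : s / t ≤ 1 / 4 := by
    rw [div_le_iff₀ t0]
    linarith
  have st0 : 0 ≤ s / t := div_nonneg hs.le t0.le
  have res : ∀ A κ τ : ℝ, |-A - -κ * τ| = |A - κ * τ| := by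
    intro A κ τ
    rw [show -A - -κ * τ = -(A - κ * τ) by ring, abs_neg]
  have c12 : s * |kA s (-(C / 2) + h0 * x) (h0 * C + x / 2) - -(1 / t - 2) *
      tau (h0 * C + x / 2)| ≤ 3 / 16 * (x - x') := by
    rw [neg1, kA_neg, res, N1]
    have e : s * ((x - x') * (3 / 2 - h0 * q) / t * (1 / 2 - h0 * u)) =
        s / t * (x - x') * ((3 / 2 - h0 * q) * (1 / 2 - h0 * u)) := by
      field_simp
    rw [e]
    have k1 : s / t * (x - x') ≤ 1 / 4 * (x - x') := mul_le_mul_of_nonneg_right st a0
    have hu5 : 0 ≤ h0 * u := mul_nonneg hh.le u0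
    have hu6 : h0 * u ≤ 1 / 2 := by
      have := mul_le_mul g2.le (abs_le.1 hu2).2 u0 (by norm_num)
      linarith
    have hq5 : 0 ≤ h0 * q := mul_nonneg hh.le qn
    have k2 : (3 / 2 - h0 * q) * (1 / 2 - h0 * u) ≤ 3 / 2 * (1 / 2) :=
      mul_le_mul (by linarith) (by linarith) (by linarith) (by norm_num)
    have k3 := mul_le_mul k1 k2 (mul_nonneg (by linarith) (by linarith)) (by linarith)
    linarith
  have c13 : s * |kA s (-(3 / 2 * C') + h0 * x') (h0 * C' + 3 / 2 * x') - -(1 / t - 2) *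
      tau (h0 * C' + 3 / 2 * x')| ≤ 3 / 16 * (x - x') := by
    rw [neg2, kA_neg, res]
    refine (mul_le_mul_of_nonneg_left N2 hs.le).trans ?_
    have e : s * ((x - x') * (1 / 2 - h0 * q) / t * (3 / 2 - h0 * u')) =
        s / t * (x - x') * ((1 / 2 - h0 * q) * (3 / 2 - h0 * u')) := by
      field_simp
    rw [e]
    have k1 : s / t * (x - x') ≤ 1 / 4 * (x - x') := mul_le_mul_of_nonneg_right st a0
    have hu5 : 0 ≤ h0 * u' := mul_nonneg hh.le u0'
    have hu6 : h0 * u' ≤ 1 / 2 := by
      have := mul_le_mul g2.le (abs_le.1 hu2').2 u0' (by norm_num)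
      linarith
    have hq5 : 0 ≤ h0 * q := mul_nonneg hh.le qn
    have k2 : (1 / 2 - h0 * q) * (3 / 2 - h0 * u') ≤ 1 / 2 * (3 / 2) :=
      mul_le_mul (by linarith) (by linarith) (by linarith) (by norm_num)
    have k3 := mul_le_mul k1 k2 (mul_nonneg (by linarith) (by linarith)) (by linarith)
    linarith
  have c23 : s * |kA s (-X) t - -(1 / t - 2) * tau t| ≤ 4 / 100 * (x - x') := by
    rw [kA_neg, res]
    have k1 := mul_le_mul_of_nonneg_left F1 hs.le
    have k2 : s * (353 / 500 * (X - c1 t)) ≤ 11 / 400 * (353 / 500 * (X - c1 t)) :=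
      mul_le_mul_of_nonneg_right hs1 (mul_nonneg (by norm_num) (by linarith))
    linarith
  unfold cost
  rw [e23, e13, kR_neg s X t, F2, kX_neg s X t, F3]
  have z1 : kR s (-(C / 2) + h0 * x) (h0 * C + x / 2) = 0 := by
    rw [neg1, kR_neg, NR1, neg_zero]
  have z2 : kR s (-(3 / 2 * C') + h0 * x') (h0 * C' + 3 / 2 * x') = 0 := by
    rw [neg2, kR_neg, NR2, neg_zero]
  have z3 : kX s (-(C / 2) + h0 * x) (h0 * C + x / 2) = 0 := by
    rw [neg1, kX_neg, NX1, neg_zero]
  have z4 : kX s (-(3 / 2 * C') + h0 * x') (h0 * C' + 3 / 2 * x') = 0 := by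
    rw [neg2, kX_neg, NX2, neg_zero]
  rw [z1, z2, z3, z4]
  simp only [neg_zero, add_zero, abs_zero, mul_zero]
  have e : 57736 / 100000 * s * (|kA s (-(C / 2) + h0 * x) (h0 * C + x / 2) - -(1 / t - 2) *
      tau (h0 * C + x / 2)| + |kA s (-X) t - -(1 / t - 2) * tau t| +
      |kA s (-(3 / 2 * C') + h0 * x') (h0 * C' + 3 / 2 * x') - -(1 / t - 2) *
      tau (h0 * C' + 3 / 2 * x')|) =
      57736 / 100000 * (s * |kA s (-(C / 2) + h0 * x) (h0 * C + x / 2) - -(1 / t - 2) *
      tau (h0 * C + x / 2)| + s * |kA s (-X) t - -(1 / t - 2) * tau t| +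
      s * |kA s (-(3 / 2 * C') + h0 * x') (h0 * C' + 3 / 2 * x') - -(1 / t - 2) *
      tau (h0 * C' + 3 / 2 * x')|) := by ring
  rw [e]
  linarith

end Pool.Agent.Strip051.LC.E0.Out
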