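import Pool.Agent.Strip051.LC.E0.O3.Lev
import Pool.Agent.Strip051.LC.E0.O3.H_L3B4

/-! # Small rests, half strips: unit sides at `60 - θ` and `120 - θ'` -/

namespace Pool.Agent.Strip051.LC.E0.Out

open Pool.Agent.StripNear Pool.Agent.StripSquare Pool.Agent.Strip051 Pool.Agent.Strip051.Sweep
open Pool.Agent.Strip051.LC.Line (tau)

/-- The kernel between the second node and `W`, below `h0`. -/
theorem ubm_seg {v : ℝ → Fin 4 → ℝ} (hv : K.adm v) {X T : ℝ} (hT : 0 ≤ T) (h : T < h0)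
    (a : c1 T + 1 / 3 * (Wc T - c1 T) ≤ X) (b : X ≤ Wc T) :
    ker K.nodes v (fun _ _ => 0) X T =
      v T 1 + (v T 2 - v T 1) *
        ((X - (c1 T + 1 / 3 * (Wc T - c1 T))) / (2 / 3 * (Wc T - c1 T))) := by
  have hq := h0_sq'
  have hT3 : T ^ 2 ≤ 3 := by
    have := pow_le_pow_left₀ hT h.le 2
    linarith
  have e1 : pos.cv 1 T = c1 T + 1 / 3 * (Wc T - c1 T) := cv_one_low h
  have e2 : pos.cv 2 T = Wc T := cv_two_low h
  have e := K.seg v hv 1 X T hT hT3 (by
    change pos.cv 1 T ≤ X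
    rwa [e1]) (by
    change X ≤ pos.cv 2 T
    rwa [e2])
  rw [e]
  change v T 1 + (v T 2 - v T 1) * ((X - pos.cv 1 T) / (pos.cv 2 T - pos.cv 1 T)) = _
  rw [e1, e2, show Wc T - (c1 T + 1 / 3 * (Wc T - c1 T)) = 2 / 3 * (Wc T - c1 T) by ring]

/-- The values of the kernel on `W` and on the unit circle, `h0 / 2 ≤ T ≤ 1 / 2`. -/
theorem ubm_W {s T : ℝ} (hs : 0 < s) (hs1 : s ≤ 11 / 400) (h : h0 / 2 ≤ T) (hT : T ≤ 1 / 2) :
    40 / 100 ≤ Wc T - c1 T ∧
      |RW par s T - (1 / T - 2) * (T - h0)| ≤ 3 * (Wc T - c1 T) := by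
  obtain ⟨b1, b2⟩ := h0_bd
  have hh := h0_pos
  have hq' := h0_sq'
  have T0 : 0 < T := by linarith
  have w := low_bd T0.le (by linarith : T < h0)
  obtain ⟨-, w2, -, w4⟩ := w
  have e1 : c1 T ≤ 905 / 1000 := by
    refine le_of_sq2 (by norm_num) ?_
    have e := c1_sq T0.le (by linarith)
    have := pow_le_pow_left₀ (by linarith) h 2
    norm_num at this ⊢
    linarith
  have e2 : (h0 - T) ^ 2 ≤ 3 / 16 := by
    have k : h0 - T ≤ h0 / 2 := by linarith
    have : (h0 - T) ^ 2 ≤ (h0 / 2) ^ 2 := pow_le_pow_left₀ (by linarith) k 2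
    linarith
  have D0 : 40 / 100 ≤ Wc T - c1 T := by linarith
  refine ⟨D0, ?_⟩
  -- the circle of radius `√3`
  have TT : T ^ 2 ≤ 1 / 4 := by
    have := pow_le_pow_left₀ T0.le hT 2
    linarith
  have T3 : T ^ 2 ≤ 3 := by linarith
  have c3s := c3_sq T3
  have c3n := c3_nonneg T
  have c3l : 165 / 100 ≤ c3 T := by
    refine le_of_sq2 c3n ?_
    linarith
  have c3u : c3 T ≤ 1733 / 1000 := by
    refine le_of_sq2 (by norm_num) ?_
    have := sq_nonneg T
    linarith
  -- the sine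
  obtain ⟨σ, eσ⟩ : ∃ σ, c3 T / (4 * h0) - T / 2 = σ := ⟨_, rfl⟩
  have q4 : c3 T / (4 * h0) * (4 * h0) = c3 T := by
    field_simp
  have σl : 22 / 100 ≤ σ := by
    rw [← eσ]
    have : 47 / 100 ≤ c3 T / (4 * h0) := by
      rw [le_div_iff₀ (by linarith)]
      linarith
    linarith
  have σu : σ ≤ 30 / 100 := by
    rw [← eσ]
    have : c3 T / (4 * h0) ≤ 51 / 100 := by
      rw [div_le_iff₀ (by linarith)]
      linarith
    linarith
  have eσ' : T / 2 - c3 T / (4 * h0) = -σ := by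
    rw [← eσ]
    ring
  have eR3 : R3 par s T = (1 - 2 * σ) * (3 / 2 - h0 * -σ / (1 + (c3 T / 2 + T / (4 * h0)))) := by
    unfold R3
    rw [if_neg (by linarith), if_pos (by linarith), eσ', abs_neg, abs_of_nonneg (by linarith),
      RA_eq hs (by linarith)]
  have p0 : 0 ≤ T / (4 * h0) := by positivity
  have fr : 0 ≤ h0 * σ / (1 + (c3 T / 2 + T / (4 * h0))) ∧
      h0 * σ / (1 + (c3 T / 2 + T / (4 * h0))) ≤ 15 / 100 := by
    constructor
    · exact div_nonneg (mul_nonneg hh.le (by linarith)) (by linarith)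
    · rw [div_le_iff₀ (by linarith)]
      have : h0 * σ ≤ 86603 / 100000 * (30 / 100) :=
        mul_le_mul b2.le σu (by linarith) (by norm_num)
      linarith
  have r3 : 0 ≤ R3 par s T ∧ R3 par s T ≤ 93 / 100 := by
    rw [eR3, mul_neg, neg_div, sub_neg_eq_add]
    constructor
    · exact mul_nonneg (by linarith) (by linarith)
    · have : (1 - 2 * σ) * (3 / 2 + h0 * σ / (1 + (c3 T / 2 + T / (4 * h0)))) ≤
          56 / 100 * (165 / 100) :=
        mul_le_mul (by linarith) (by linarith) (by linarith) (by norm_num)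
      linarith
  -- the value on `W`
  have eW : RW par s T = R3 par s T - 27 / 20 * (c3 T - Wc T) := by
    have z : 2 < (h0 - T) / s := by
      rw [lt_div_iff₀ hs]
      linarith
    have m : par.mC = 27 / 20 := rfl
    unfold RW slL
    rw [if_neg h.not_gt, if_pos (by linarith), if_neg (by linarith), if_neg (by linarith), m]
  have v0 : -(14 / 100) ≤ (1 / T - 2) * (T - h0) ∧ (1 / T - 2) * (T - h0) ≤ 0 := by
    have e : (1 / T - 2) * (T - h0) = -((1 - 2 * T) * ((h0 - T) / T)) := by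
      field_simp
      ring
    have g1 : 0 ≤ (h0 - T) / T := div_nonneg (by linarith) T0.le
    have g2 : (h0 - T) / T ≤ 1 := by
      rw [div_le_one T0]
      linarith
    have g3 : (1 - 2 * T) * ((h0 - T) / T) ≤ (1 - 2 * T) * 1 :=
      mul_le_mul_of_nonneg_left g2 (by linarith)
    have g4 : 0 ≤ (1 - 2 * T) * ((h0 - T) / T) := mul_nonneg (by linarith) g1
    rw [e]
    constructor <;> linarith
  rw [eW, abs_le]
  constructor <;> linarith

/-- The kernels at an almost horizontal edge. -/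
theorem ubm_free {s X T : ℝ} (hs : 0 < s) (hs1 : s ≤ 11 / 400) (h5 : 5 * s ≤ T)
    (hT : T ≤ 1 / 2) (a : c1 T ≤ X) (b : X ≤ Wc T) :
    |kA s X T - (1 / T - 2) * tau T| ≤ 3 * (X - c1 T) ∧ kR s X T = 0 ∧ kX s X T = 0 := by
  obtain ⟨b1, b2⟩ := h0_bd
  have hh := h0_pos
  have T0 : 0 < T := by linarith
  by_cases c : h0 / 2 ≤ T → X ≤ c1 T + 1 / 3 * (Wc T - c1 T)
  · obtain ⟨F1, F2, F3⟩ := l3b4_free hs hs1 (by linarith) hT a b c
    exact ⟨F1.trans (by linarith), F2, F3⟩
  · rw [Classical.not_imp, not_le] at c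
    obtain ⟨h, hX⟩ := c
    obtain ⟨D0, hW⟩ := ubm_W hs hs1 h hT
    have hlt : T < h0 := by linarith
    have ra := RA_eq hs (by linarith : 4 * s ≤ T)
    have xa := xA_far hs (by linarith : 4 * s ≤ T)
    have zz : 13 < (h0 - T) / s := by
      rw [lt_div_iff₀ hs]
      linarith
    obtain ⟨lam, elam⟩ : ∃ l, (X - (c1 T + 1 / 3 * (Wc T - c1 T))) / (2 / 3 * (Wc T - c1 T)) = l :=
      ⟨_, rfl⟩
    have el : X - c1 T = 1 / 3 * (Wc T - c1 T) + lam * (2 / 3 * (Wc T - c1 T)) := by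
      rw [← elam, div_mul_cancel₀ _ (by positivity)]
      ring
    have l0 : 0 ≤ lam := by
      rw [← elam]
      exact div_nonneg (by linarith) (by linarith)
    have l1 : lam ≤ 1 := by
      rw [← elam, div_le_one (by linarith)]
      linarith
    have R : kR s X T = 0 := by
      unfold kR
      rw [ubm_seg (adm_vR s) T0.le hlt hX.le b]
      have v1 : vR par s T 1 = 0 := by
        simp only [vR, Matrix.cons_val_one, Matrix.cons_val_zero]
        rw [if_neg h.not_gt, if_pos hlt]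
      have v2 : vR par s T 2 = 0 := by
        simp only [vR, Matrix.cons_val]
        rw [if_neg h.not_gt, if_pos hlt]
        unfold taper
        rw [if_neg (by linarith), if_neg (by linarith), mul_zero]
      rw [v1, v2, sub_self, zero_mul, add_zero]
    have L : kX s X T = 0 := by
      unfold kX
      rw [ubm_seg (adm_vX par s) T0.le hlt hX.le b]
      have v1 : vX par s T 1 = 0 := by
        simp only [vX, vx, Matrix.cons_val_one, Matrix.cons_val_zero]
        rw [if_neg h.not_gt, if_pos hlt]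
        unfold X1
        rw [if_pos hT, xa, mul_zero]
      have v2 : vX par s T 2 = 0 := by
        simp only [vX, vx, Matrix.cons_val]
        rw [if_neg h.not_gt, if_pos hlt]
        unfold xW
        rw [if_neg (by linarith), if_neg (by linarith), mul_zero]
      rw [v1, v2, sub_self, zero_mul, add_zero]
    refine ⟨?_, R, L⟩
    have v1 : vA par s T 1 = (1 / T - 2) * (T - h0) +
        353 / 500 * (1 / 3 * (Wc T - c1 T)) := by
      simp only [vA, Matrix.cons_val_one, Matrix.cons_val_zero]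
      rw [if_neg h.not_gt, if_pos hlt]
      have e1 : par.l2 = 353 / 500 := rfl
      have e2 : R1 par s T = (1 / T - 2) * (T - h0) := by
        unfold R1
        rw [if_neg h.not_gt, if_pos hT, ra]
        field_simp
      rw [e1, e2]
    have v2 : vA par s T 2 = RW par s T := by
      simp only [vA, Matrix.cons_val]
      rw [if_pos hlt]
    have e : kA s X T - (1 / T - 2) * tau T =
        (1 - lam) * (353 / 500 * (1 / 3 * (Wc T - c1 T))) +
          lam * (RW par s T - (1 / T - 2) * (T - h0)) := by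
      unfold kA
      rw [ubm_seg (adm_vA par s) T0.le hlt hX.le b, v1, v2, elam, tau_mi h (by linarith)]
      ring
    rw [e, el]
    obtain ⟨w1, w2⟩ := abs_le.1 hW
    have m1 := mul_le_mul_of_nonneg_left w1 l0
    have m2 := mul_le_mul_of_nonneg_left w2 l0
    have m3 : 0 ≤ (1 - lam) * (Wc T - c1 T) := mul_nonneg (by linarith) (by linarith)
    rw [abs_le]
    constructor
    · linarith
    · linarith

/-- The square of the distance. -/
theorem ubm_sq {C x C' x' d : ℝ} (h : Rot C x) (h' : Rot C' x') (hd : 0 ≤ d)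
    (hq : (C - C') ^ 2 + (x - x') ^ 2 ≤ d ^ 2) :
    (C / 2 + C' / 2 + h0 * (x - x')) ^ 2 + (x / 2 + x' / 2 + h0 * (C' - C)) ^ 2 ≤
      1 + d ^ 2 / 2 + 2 * h0 * d := by
  have hh := h0_pos
  have hq' := h0_sq'
  have a := h.sq
  have a' := h'.sq
  obtain ⟨S, eS⟩ : ∃ S, x * C' - x' * C = S := ⟨_, rfl⟩
  obtain ⟨P, eP⟩ : ∃ P, C * C' + x * x' = P := ⟨_, rfl⟩
  have e1 : S ^ 2 + P ^ 2 = 1 := by
    rw [← eS, ← eP]
    linear_combination (C' ^ 2 + x' ^ 2) * a + a'
  have e2 : (C - C') ^ 2 + (x - x') ^ 2 = 2 - 2 * P := by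
    rw [← eP]
    linear_combination a + a'
  have P1 : P ≤ 1 := by
    have := sq_nonneg (C - C')
    have := sq_nonneg (x - x')
    linarith
  have S1 : S ≤ d := by
    refine le_of_sq2 hd ?_
    have := sq_nonneg (1 - P)
    linarith
  have e3 : (C / 2 + C' / 2 + h0 * (x - x')) ^ 2 + (x / 2 + x' / 2 + h0 * (C' - C)) ^ 2 =
      1 + (2 - 2 * P) / 2 + 2 * h0 * S := by
    rw [← eS, ← eP]
    linear_combination (1 / 4) * a + (1 / 4) * a' + (3 / 4) * a + (3 / 4) * a' +
      ((x - x') ^ 2 + (C' - C) ^ 2) * hq'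
  rw [e3]
  have := mul_le_mul_of_nonneg_left S1 (by linarith : 0 ≤ 2 * h0)
  linarith

/-- The edge is left of `W`. -/
theorem ubm_lt {s X T : ℝ} (hs : 0 < s) (hs1 : s ≤ 11 / 400) (h5 : 5 * s ≤ T) (hT : T ≤ 1 / 2)
    (h : X ^ 2 + T ^ 2 ≤ 1 + (79 / 10 * s) ^ 2 / 2 + 2 * h0 * (79 / 10 * s)) : X ≤ Wc T := by
  obtain ⟨b1, b2⟩ := h0_bd
  have hh := h0_pos
  have hq' := h0_sq'
  have T0 : 0 < T := by linarith
  obtain ⟨C, C0, eC, eW, eW2, -⟩ := low_sq T0.le (by linarith : T < h0)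
  have eC' : C ^ 2 = 1 / 4 + 2 * h0 * T - T ^ 2 := by linear_combination eC - hq'
  have k1 : (79 / 10 * s) ^ 2 / 2 + 2 * h0 * (79 / 10 * s) ≤ 1455 / 100 * s := by
    have e1 : s ^ 2 ≤ 11 / 400 * s := by
      rw [pow_two]
      exact mul_le_mul_of_nonneg_right hs1 hs.le
    have e2 := mul_le_mul_of_nonneg_right b2.le hs.le
    linarith
  have k2 : 1455 / 100 * s ≤ C - 1 / 2 + 2 * h0 * T := by
    rcases le_total T (23 / 100) with h1 | h1
    · have c : 1 / 2 + 1178 / 1000 * T ≤ C := by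
        refine le_of_sq2 C0 ?_
        rw [eC']
        have e2 := mul_nonneg T0.le (by linarith : 0 ≤ h0 - 86602 / 100000)
        have e3 := mul_nonneg T0.le (by linarith : 0 ≤ 23 / 100 - T)
        linarith
      have e2 := mul_nonneg T0.le (by linarith : 0 ≤ h0 - 86602 / 100000)
      linarith
    · have c := (low_bd T0.le (by linarith : T < h0)).1
      rw [eW] at c
      have e2 := mul_nonneg T0.le (by linarith : 0 ≤ h0 - 86602 / 100000)
      linarith
  refine le_of_sq2 (by rw [eW]; linarith) ?_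
  linarith

/-- Unit sides 12, 13 at `60 - θ` and `120 - θ'`, the free side is the reference. -/
theorem hs_UBm {s C x C' x' : ℝ} (hs : 0 < s) (hs1 : s ≤ 11 / 400) (h : Rot C x) (h' : Rot C' x')
    (ho : x' ≤ x) (hq : (C - C') ^ 2 + (x - x') ^ 2 ≤ (79 / 10 * s) ^ 2)
    (ht : 5 * s ≤ h0 * C' + x' / 2 - (h0 * C - x / 2))
    (hl : 1 ≤ (-(C' / 2) + h0 * x' - (C / 2 + h0 * x)) ^ 2 +
      (h0 * C' + x' / 2 - (h0 * C - x / 2)) ^ 2) :
    cost s (-(1 / (h0 * C' + x' / 2 - (h0 * C - x / 2)) - 2)) 0 (C / 2 + h0 * x)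
      (-(C' / 2) + h0 * x') (h0 * C - x / 2) (h0 * C' + x' / 2 - (h0 * C - x / 2)) ≤
      E1 (x - x') := by
  have g1 := h0_gt
  have g2 := h0_lt
  have hh := h0_pos
  obtain ⟨b1, b2⟩ := h0_bd
  have hq' := h0_sq'
  -- the displacement
  obtain ⟨q, q1, q2, q3, q4⟩ := mv h h'
  have Ch := h.Ch
  have Ch' := h'.Ch
  have a0 : 0 ≤ x - x' := by linarith
  have as : x - x' ≤ 79 / 10 * s := by
    refine le_of_sq2 (by linarith) ?_
    have := sq_nonneg (C - C')
    linarith
  have q5 : |q| * (2 * h0) ≤ 1 := by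
    have : |x + x'| ≤ 1 := by
      rw [abs_le]
      constructor <;> linarith [h.lo, h.hi, h'.lo, h'.hi]
    linarith
  have q6 : |h0 * q| ≤ 1 / 2 := by
    rw [abs_mul, abs_of_pos hh]
    linarith
  obtain ⟨q7, q8⟩ := abs_le.1 q6
  have q9 : q ≤ 29 / 50 := (abs_le.1 q4).2
  -- the free side
  have S1 := ubm_sq h h' (by linarith : 0 ≤ 79 / 10 * s) hq
  obtain ⟨t, et⟩ : ∃ t, h0 * C' + x' / 2 - (h0 * C - x / 2) = t := ⟨_, rfl⟩
  have e13 : h0 * C - x / 2 + t = h0 * C' + x' / 2 := by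
    rw [← et]
    ring
  have tx : x - t = (x - x') * (1 / 2 - h0 * q) := by
    rw [← et]
    linear_combination (-h0) * q1
  have tx' : t - x' = (x - x') * (1 / 2 + h0 * q) := by
    rw [← et]
    linear_combination h0 * q1
  have et2 : x / 2 + x' / 2 + h0 * (C' - C) = t := by
    rw [← et]
    ring
  rw [et2] at S1
  rw [et] at ht hl ⊢
  have p1 : 0 ≤ (x - x') * (1 / 2 - h0 * q) := mul_nonneg a0 (by linarith)
  have p3 : 0 ≤ (x - x') * (1 / 2 + h0 * q) := mul_nonneg a0 (by linarith)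
  have p4 : (x - x') * (1 / 2 + h0 * q) ≤ (x - x') * 1 :=
    mul_le_mul_of_nonneg_left (by linarith) a0
  have t0 : 0 < t := by linarith
  have tl : t ≤ 1 / 2 := by linarith [h.hi]
  have x5 : 5 * s ≤ x := by linarith
  have qn : 0 ≤ q := by
    by_contra hc
    rw [not_le] at hc
    have := mul_nonpos_of_nonpos_of_nonneg hc.le (by linarith : 0 ≤ C + C')
    linarith
  have hqn : 0 ≤ h0 * q := mul_nonneg hh.le qn
  have p2 : (x - x') * (1 / 2 - h0 * q) ≤ (x - x') * (1 / 2) :=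
    mul_le_mul_of_nonneg_left (by linarith) a0
  obtain ⟨X, eX⟩ : ∃ X, C / 2 + C' / 2 + h0 * (x - x') = X := ⟨_, rfl⟩
  have e23 : -(C' / 2) + h0 * x' - (C / 2 + h0 * x) = -X := by
    rw [← eX]
    ring
  rw [eX] at S1
  have eXX : X = C + (x - x') * (q / 2 + h0) := by
    rw [← eX]
    linear_combination (1 / 2) * q1
  have p5 : 0 ≤ (x - x') * (q / 2 + h0) := mul_nonneg a0 (by linarith)
  have p6 : (x - x') * (q / 2 + h0) ≤ (x - x') * (1157 / 1000) :=
    mul_le_mul_of_nonneg_left (by linarith) a0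
  have X0 : 0 ≤ X := by linarith
  have ec := n0_facts h (by linarith)
  have cx : C ≤ c1 t := by
    rw [← ec]
    exact c1_anti t0.le (by linarith) (by linarith [h.hi])
  have cX : c1 t ≤ X := by
    refine le_of_sq2 X0 ?_
    have e1 := c1_sq t0.le (by linarith)
    rw [e23, neg_sq] at hl
    linarith
  have mX : X - c1 t ≤ (x - x') * (1157 / 1000) := by linarith
  have bX : X ≤ Wc t := ubm_lt hs hs1 ht tl S1
  obtain ⟨F1, F2, F3⟩ := ubm_free hs hs1 ht tl cX bX
  -- the two nodes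
  obtain ⟨u, hu, -, hu2, hu3, -⟩ := h.half
  obtain ⟨u', hu', -, hu2', -, -⟩ := h'.half
  have u0 := hu3 (by linarith)
  have u1 := (abs_le.1 hu2).2
  have hu5 : 0 ≤ h0 * u := mul_nonneg hh.le u0
  have hu6 : h0 * u ≤ 233 / 1000 := by
    have := mul_le_mul b2.le u1 u0 (by norm_num)
    linarith
  have hu7 : |h0 * u'| ≤ 233 / 1000 := by
    rw [abs_mul, abs_of_pos hh]
    have := mul_le_mul b2.le hu2' (abs_nonneg _) (by norm_num)
    linarith
  obtain ⟨hu8, hu9⟩ := abs_le.1 hu7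
  have N1 := n60_res hs hs1 h.neg (-(1 / t - 2))
  have N2 := n60_res hs hs1 h' (1 / t - 2)
  have k3 : C / 2 - h0 * -x = C / 2 + h0 * x := by ring
  have k4 : h0 * C + -x / 2 = h0 * C - x / 2 := by ring
  have NR1 := n60_kR (s := s) h.neg
  have NR2 := n60_kR (s := s) h'
  have NX1 := n60_kX_dn hs hs1 h.neg (by linarith)
  have NX2 := lev60p hs hs1 h' x5 ho
  rw [k3, k4] at N1 NR1 NX1
  rw [neg_neg, lvl_far hs x5] at NX1
  rw [abs_neg, abs_of_nonneg (by linarith : 0 ≤ x), RA_eq hs (by linarith)] at N1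
  have v1 : (1 : ℝ) / 2 - h0 * (-x / (1 + C)) = 1 / 2 + h0 * u := by
    rw [neg_div, hu]
    ring
  rw [v1] at N1
  rw [hu'] at N2
  have r1 : |1 - 2 * x - -(1 / t - 2) * -x| = (x - x') * (1 / 2 - h0 * q) / t := by
    have : 1 - 2 * x - -(1 / t - 2) * -x = -((x - x') * (1 / 2 - h0 * q) / t) := by
      rw [← tx]
      field_simp
      ring
    rw [this, abs_neg, abs_of_nonneg (div_nonneg p1 t0.le)]
  rw [r1] at N1
  have P2 := psi_dn hs (by linarith : 4 * s ≤ t) tl (by linarith : x' ≤ t)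
  -- the cost
  have st1 : s / t ≤ 1 / 5 := by
    rw [div_le_iff₀ t0]
    linarith
  have st0 : 0 ≤ s / t := div_nonneg hs.le t0.le
  have st : s * (1 / t + 7 / 3) ≤ 265 / 1000 := by
    have : s * (1 / t) ≤ 1 / 5 := by
      rw [mul_one_div, div_le_iff₀ t0]
      linarith
    linarith
  have st3 : 0 ≤ s * (1 / t + 7 / 3) := by positivity
  have neg2 : -(C' / 2) + h0 * x' = -(C' / 2 - h0 * x') := by ring
  have res : ∀ A κ τ : ℝ, |-A - -κ * τ| = |A - κ * τ| := by
    intro A κ τ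
    rw [show -A - -κ * τ = -(A - κ * τ) by ring, abs_neg]
  have c12 : s * |kA s (C / 2 + h0 * x) (h0 * C - x / 2) - -(1 / t - 2) *
      tau (h0 * C - x / 2)| ≤ 74 / 1000 * (x - x') := by
    rw [N1]
    have e : s * ((x - x') * (1 / 2 - h0 * q) / t * (1 / 2 + h0 * u)) =
        s / t * ((x - x') * (1 / 2 - h0 * q) * (1 / 2 + h0 * u)) := by
      field_simp
    rw [e]
    have k2 : (x - x') * (1 / 2 - h0 * q) * (1 / 2 + h0 * u) ≤
        (x - x') * (1 / 2) * (733 / 1000) :=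
      mul_le_mul p2 (by linarith) (by linarith) (by linarith)
    have k5 := mul_le_mul st1 k2 (mul_nonneg p1 (by linarith)) (by norm_num)
    linarith
  have c13 : s * |kA s (-(C' / 2) + h0 * x') (h0 * C' + x' / 2) - -(1 / t - 2) *
      tau (h0 * C' + x' / 2)| ≤ 195 / 1000 * (x - x') := by
    rw [neg2, kA_neg, res, N2]
    have m1 := mul_le_mul_of_nonneg_right P2 (by linarith : 0 ≤ 1 / 2 - h0 * u')
    have m2 := mul_le_mul_of_nonneg_left m1 hs.le
    have m3 : s * ((1 / t + 7 / 3) * (t - x') * (1 / 2 - h0 * u')) =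
        s * (1 / t + 7 / 3) * ((t - x') * (1 / 2 - h0 * u')) := by ring
    have m4 : (t - x') * (1 / 2 - h0 * u') ≤ (x - x') * 1 * (733 / 1000) :=
      mul_le_mul (by linarith) (by linarith) (by linarith) (by linarith)
    have m5 := mul_le_mul st m4 (mul_nonneg (by linarith) (by linarith)) (by norm_num)
    linarith
  have c23 : s * |kA s (-X) t - -(1 / t - 2) * tau t| ≤ 96 / 1000 * (x - x') := by
    rw [kA_neg, res]
    have k1 := mul_le_mul_of_nonneg_left F1 hs.le
    have k2 : s * (3 * (X - c1 t)) ≤ 11 / 400 * (3 * (X - c1 t)) :=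
      mul_le_mul_of_nonneg_right hs1 (mul_nonneg (by norm_num) (by linarith))
    linarith
  have L2 : |kX s (-(C' / 2) + h0 * x') (h0 * C' + x' / 2)| ≤ 8 / 1000 * (x - x') := by
    rw [neg2, kX_neg, abs_neg]
    refine NX2.trans ?_
    have := mul_le_mul_of_nonneg_right hs1 a0
    linarith
  unfold cost E1
  rw [e23, e13, kR_neg s X t, F2, kX_neg s X t, F3, NR1, NX1]
  have z2 : kR s (-(C' / 2) + h0 * x') (h0 * C' + x' / 2) = 0 := by
    rw [neg2, kR_neg, NR2, neg_zero]
  rw [z2]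
  simp only [neg_zero, add_zero, abs_zero, mul_zero, zero_add]
  have e : 57736 / 100000 * s * (|kA s (C / 2 + h0 * x) (h0 * C - x / 2) - -(1 / t - 2) *
      tau (h0 * C - x / 2)| + |kA s (-X) t - -(1 / t - 2) * tau t| +
      |kA s (-(C' / 2) + h0 * x') (h0 * C' + x' / 2) - -(1 / t - 2) *
      tau (h0 * C' + x' / 2)|) =
      57736 / 100000 * (s * |kA s (C / 2 + h0 * x) (h0 * C - x / 2) - -(1 / t - 2) *
      tau (h0 * C - x / 2)| + s * |kA s (-X) t - -(1 / t - 2) * tau t| +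
      s * |kA s (-(C' / 2) + h0 * x') (h0 * C' + x' / 2) - -(1 / t - 2) *
      tau (h0 * C' + x' / 2)|) := by ring
  rw [e]
  have fin : (x - x') * (231 / 1000) ≤ (x - x') * (288 / 1000 - 26 / 100 * (x - x')) :=
    mul_le_mul_of_nonneg_left (by linarith) a0
  linarith

end Pool.Agent.Strip051.LC.E0.Out
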