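import Pool.Agent.Strip051.LC.E0.OutL

/-! # Small rests: the strips next to the direction of 30 degrees, above -/

namespace Pool.Agent.Strip051.LC.E0.Out

open Pool.Agent.StripNear Pool.Agent.StripSquare Pool.Agent.Strip051 Pool.Agent.Strip051.Sweep
open Pool.Agent.Strip051.LC.Line (tau)

/-! ### The node of the height `T` -/

/-- The node of the height `T` on the outer circle, as a rotation. -/
theorem secc_node {T : ℝ} (h : h0 ≤ T) (hT' : T ≤ 3 / 2) :
    ∃ C' x', Rot C' x' ∧ T = h0 * C' + 3 / 2 * x' ∧ c3 T = 3 / 2 * C' - h0 * x' ∧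
      x' = T / 2 - c3 T * (h0 / 3) := by
  have hh := h0_pos
  have hq := h0_sq'
  have g1 := h0_lt_one
  have h3 : T ^ 2 ≤ 3 := by nlinarith
  have e3 := c3_sq h3
  have p3 := c3_nonneg T
  have u3 := (c3_half (by linarith) h3).2 h
  have l3 : h0 ≤ c3 T := by
    refine le_of_sq2 p3 ?_
    nlinarith
  refine ⟨c3 T / 2 + T * (h0 / 3), T / 2 - c3 T * (h0 / 3), ⟨?_, ?_, ?_, ?_⟩, ?_, ?_, rfl⟩
  · have : 0 ≤ T * (h0 / 3) := mul_nonneg (by linarith) (by linarith)
    linarith
  · linear_combination (1 / 3) * e3 + (c3 T ^ 2 / 9 + T ^ 2 / 9) * hq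
  · nlinarith [mul_le_mul_of_nonneg_right u3 hh.le]
  · have := mul_le_mul_of_nonneg_right l3 hh.le
    nlinarith
  · linear_combination (-T / 3) * hq
  · linear_combination (-c3 T / 3) * hq

/-- The kernel at the node. -/
theorem secc_R3 {s T C' x' : ℝ} (hs : 0 < s) (hs1 : s ≤ 11 / 400) (h : Rot C' x')
    (hx : 4 * s ≤ x') (eT : T = h0 * C' + 3 / 2 * x') (eX : c3 T = 3 / 2 * C' - h0 * x') :
    R3 par s T = (1 / x' - 2) * tau T := by
  have x0 : 0 < x' := by linarith
  obtain ⟨e1, e2, e3, e3', e4, e5, e6⟩ := n30_facts h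
  have a := n30_kA hs hs1 h x0.ne'
  rw [← eX, ← eT, abs_of_pos x0, RA_eq hs hx, kA_c3 (by rw [eT]; exact e2)
    (by rw [eT]; exact e3')] at a
  rw [a]
  field_simp

/-! ### The difference of the kernels on the circle -/

/-- The half angles. -/
theorem secc_tan {C x C' x' m u e k : ℝ} (hm0 : 0 ≤ m) (hm : m ≤ C') (hC : C' ≤ C) (hx : 0 ≤ x)
    (hxx : x ≤ x') (hu : x ≤ u) (hE : C - C' ≤ e * (x' - x))
    (num : u * e ≤ (k * (1 + m) - 1) * (1 + m)) (hk : 0 ≤ k) (hk1 : 1 ≤ k * (1 + m)) :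
    x' / (1 + C') - x / (1 + C) ≤ k * (x' - x) := by
  have hD : 0 ≤ x' - x := by linarith
  have n1 : 0 < 1 + C' := by linarith
  have n2 : 0 < 1 + C := by linarith
  rw [div_sub_div _ _ n1.ne' n2.ne', div_le_iff₀ (mul_pos n1 n2)]
  have a1 : x * (C - C') ≤ u * (e * (x' - x)) := mul_le_mul hu hE (by linarith) (by linarith)
  have a2 : (k * (1 + m) - 1) * (1 + m) ≤ (k * (1 + m) - 1) * (1 + C) :=
    mul_le_mul_of_nonneg_left (by linarith) (by linarith)
  have a3 := mul_le_mul_of_nonneg_right (num.trans a2) hD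
  have a4 : k * (x' - x) * ((1 + m) * (1 + C)) ≤ k * (x' - x) * ((1 + C') * (1 + C)) :=
    mul_le_mul_of_nonneg_left (mul_le_mul_of_nonneg_right (by linarith) n2.le)
      (mul_nonneg hk hD)
  linarith

/-- The difference of the kernels on the circle. -/
theorem secc_diff {C x C' x' T T0 : ℝ} (h : Rot C x) (h' : Rot C' x') (x0 : 0 < x)
    (hxx : x ≤ x') (eT0 : T0 = h0 * C + 3 / 2 * x) (eT : T = h0 * C' + 3 / 2 * x') :
    999 / 1000 * (x' - x) ≤ T - T0 ∧
      |(1 / x' - 2) * tau T - (1 / x - 2) * tau T| ≤ (1 / x + 1 / 2) * (T - T0) := by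
  have hh := h0_pos
  have hq := h0_sq'
  obtain ⟨b1, b2⟩ := h0_bd
  have c1 := h.Ch
  have c2 := h'.Ch
  have s1 := h.sq
  have s2 := h'.sq
  have t1 := h.hi
  have t2 := h'.hi
  have x0' : 0 < x' := by linarith
  have hD : 0 ≤ x' - x := by linarith
  obtain ⟨-, -, -, -, -, -, f1⟩ := n30_facts h
  obtain ⟨-, -, -, -, -, -, f2⟩ := n30_facts h'
  rw [← eT0] at f1
  rw [← eT] at f2
  have eE : (C - C') * (C + C') = (x' - x) * (x' + x) := by linear_combination s1 - s2
  have E0 : 0 ≤ C - C' := by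
    have : 0 ≤ (C - C') * (C + C') := by
      rw [eE]
      exact mul_nonneg hD (by linarith)
    exact nonneg_of_mul_nonneg_left this (by linarith)
  -- the sines
  have Ebd : ∀ c u v : ℝ, 0 < c → c ≤ C' → x' ≤ u → u ≤ v * c → C - C' ≤ v * (x' - x) := by
    intro c u v hc hc' hu hv
    have k1 : (C - C') * (2 * c) ≤ (C - C') * (C + C') :=
      mul_le_mul_of_nonneg_left (by linarith) E0
    have k2 : (x' - x) * (x' + x) ≤ (x' - x) * (2 * u) :=
      mul_le_mul_of_nonneg_left (by linarith) hD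
    have k3 : (x' - x) * (2 * u) ≤ (x' - x) * (2 * (v * c)) :=
      mul_le_mul_of_nonneg_left (by linarith) hD
    have k4 : (C - C') * (2 * c) ≤ v * (x' - x) * (2 * c) := by linarith
    exact le_of_mul_le_mul_right k4 (by linarith)
  have E1 : C - C' ≤ 5774 / 10000 * (x' - x) :=
    Ebd (86602 / 100000) (1 / 2) (5774 / 10000) (by norm_num) (by linarith) t2 (by norm_num)
  have hTT : T - T0 = 3 / 2 * (x' - x) - h0 * (C - C') := by
    rw [eT, eT0]
    ring
  have R1 : 999 / 1000 * (x' - x) ≤ T - T0 := by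
    have k := mul_le_mul b2.le E1 E0 (by norm_num)
    rw [hTT]
    linarith
  refine ⟨R1, ?_⟩
  have hTT0 : 0 ≤ T - T0 := by linarith
  -- the difference
  set w := 3 / 2 - h0 * x / (1 + C) with hw
  set w' := 3 / 2 - h0 * x' / (1 + C') with hw'
  have eww : w - w' = h0 * (x' / (1 + C') - x / (1 + C)) := by
    rw [hw, hw']
    ring
  have eabs : |(1 / x' - 2) * tau T - (1 / x - 2) * tau T| = (x' - x) / (x * x') * |tau T| := by
    have : (1 / x' - 2) * tau T - (1 / x - 2) * tau T = -((x' - x) / (x * x') * tau T) := by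
      field_simp
      ring
    rw [this, abs_neg, abs_mul, abs_of_nonneg (div_nonneg hD (by positivity))]
  have q0 : 0 ≤ (x' - x) / (x * x') := div_nonneg hD (by positivity)
  have eD : (x' - x) / (x * x') * (T - h0) = 1 / x * (T - T0) + (w - w') := by
    have k1 : T - T0 = x' * w' - x * w := by rw [← f1, ← f2]; ring
    rw [k1, f2]
    field_simp
    ring
  rw [eabs]
  rcases le_or_gt x' (2 / 5) with hc | hc
  · have cc : 916 / 1000 ≤ C' := by
      refine le_of_sq2 h'.C0 ?_
      nlinarith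
    have E2 : C - C' ≤ 437 / 1000 * (x' - x) :=
      Ebd (916 / 1000) (2 / 5) (437 / 1000) (by norm_num) cc hc (by norm_num)
    have k1 := secc_tan (k := 58 / 100) (by norm_num : (0 : ℝ) ≤ 916 / 1000) cc (by linarith)
      x0.le hxx (by linarith : x ≤ 2 / 5) E2 (by norm_num) (by norm_num) (by norm_num)
    have k2 : w - w' ≤ 503 / 1000 * (x' - x) := by
      rw [eww]
      have := mul_le_mul_of_nonneg_left k1 hh.le
      have := mul_le_mul_of_nonneg_right b2.le hD
      linarith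
    have k3 : 1121 / 1000 * (x' - x) ≤ T - T0 := by
      have k := mul_le_mul b2.le E2 E0 (by norm_num)
      rw [hTT]
      linarith
    have k4 : |tau T| ≤ T - h0 := by
      have p0 : h0 / 2 ≤ T := by
        have : 0 ≤ x' * w' := by
          refine mul_nonneg x0'.le ?_
          have : h0 * x' / (1 + C') ≤ 1 / 2 := by
            rw [div_le_iff₀ (by linarith)]
            have := mul_le_mul_of_nonneg_left h'.hi hh.le
            linarith
          linarith
        linarith
      have p1 : h0 ≤ T := by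
        have : 0 ≤ x' * w' := by
          refine mul_nonneg x0'.le ?_
          have : h0 * x' / (1 + C') ≤ 1 / 2 := by
            rw [div_le_iff₀ (by linarith)]
            have := mul_le_mul_of_nonneg_left h'.hi hh.le
            linarith
          linarith
        linarith
      rcases lt_or_ge T (3 * h0 / 2) with h5 | h5
      · rw [tau_mi p0 h5, abs_of_nonneg (by linarith)]
      · have h6 : T ≤ 2 * h0 := by
          have := mul_le_mul_of_nonneg_left h'.C1 hh.le
          rw [eT]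
          linarith
        rw [tau_hi h5, abs_of_nonpos (by linarith)]
        linarith
    have k5 := mul_le_mul_of_nonneg_left k4 q0
    rw [eD] at k5
    linarith
  · have ww : 126 / 100 ≤ w' := by
      have : h0 * x' / (1 + C') ≤ 24 / 100 := by
        rw [div_le_iff₀ (by linarith)]
        have := mul_le_mul_of_nonneg_left h'.hi hh.le
        linarith
      linarith
    have h5 : 137 / 100 ≤ T := by
      have := mul_le_mul hc.le ww (by norm_num) x0'.le
      linarith
    have k1 := secc_tan (k := 63 / 100) (by norm_num : (0 : ℝ) ≤ 866 / 1000)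
      (by linarith : (866 / 1000 : ℝ) ≤ C') (by linarith)
      x0.le hxx (by linarith : x ≤ 1 / 2) E1 (by norm_num) (by norm_num) (by norm_num)
    have k2 : w - w' ≤ 546 / 1000 * (x' - x) := by
      rw [eww]
      have := mul_le_mul_of_nonneg_left k1 hh.le
      have := mul_le_mul_of_nonneg_right b2.le hD
      linarith
    have h6 : T ≤ 3 / 2 := by
      obtain ⟨-, -, e3, -⟩ := n30_facts h'
      rw [eT]
      exact e3
    have k4 : |tau T| = (T - h0) - (2 * T - 3 * h0) := by
      rw [tau_hi (by linarith), abs_of_nonpos (by linarith)]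
      ring
    have k5 : 4 * (x' - x) ≤ (x' - x) / (x * x') := by
      rw [le_div_iff₀ (by positivity)]
      have : x * x' ≤ 1 / 2 * (1 / 2) := mul_le_mul t1 t2 x0'.le (by norm_num)
      have := mul_le_mul_of_nonneg_left this hD
      linarith
    have k6 : (x' - x) / (x * x') * (14 / 100) ≤ (x' - x) / (x * x') * (2 * T - 3 * h0) :=
      mul_le_mul_of_nonneg_left (by linarith) q0
    rw [k4, mul_sub, eD]
    linarith

/-! ### The slope between the inner node and the circle -/

/-- The value at the inner node. -/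
theorem secc_v2 {s T : ℝ} (hs : 0 < s) (h : h0 + 5 * s ≤ T) (h1 : T < 3 * h0 / 2) :
    vA par s T 2 = Gx T - 2 * (T - h0) + (4 * h0 - 3) * Wc T +
      353 / 500 * (3 / 20 * (c3 T - Wc T)) := by
  have hh := h0_pos
  have hq := h0_sq'
  have hT3 : T ^ 2 ≤ 3 := by nlinarith
  obtain ⟨o1, o2, o3, o4, o5⟩ := order5 (by linarith : 0 ≤ T) hT3
  have oW : c1 T ≤ Wc T := by linarith
  have a := ker_c1W (s := s) (X := Wc T) (by linarith) h1 oW le_rfl
  have b := ker_c1W_aff (s := s) (X := Wc T) hs (by linarith) h1 (fun h2 => by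
    have F := tu_facts (T := T) (by linarith) h2.le
    have e := F.eT
    have c := mul_le_mul_of_nonneg_left F.C1 hh.le
    linarith) oW le_rfl
  rw [a] at b
  have v : vA par s T 2 = RW par s T + par.l1 * (3 / 20 * (c3 T - Wc T)) := by
    have : vA par s T 2 = if T < h0 then RW par s T
      else if T < 3 * h0 / 2 then RW par s T + par.l1 * (3 / 20 * (c3 T - Wc T))
      else (Wc T + 3 / 20 * (c3 T - Wc T)) / 2 := rfl
    rw [this, if_neg (by linarith), if_pos h1]
  have w : RW par s T = R1x s T + slU par s ((T - h0) / s) * (Wc T - c1 T) := by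
    unfold RW
    rw [if_neg (by linarith), if_neg (by linarith)]
    rfl
  have l : par.l1 = 353 / 500 := rfl
  rw [v, w, b, l]

/-- The slope below the height one. -/
theorem secc_c1 {s T C' x' : ℝ} (hs : 0 < s) (h' : Rot C' x') (x0 : 0 < x')
    (e6 : T - h0 = x' * (3 / 2 - h0 * x' / (1 + C'))) (h : h0 + 5 * s ≤ T) (h1 : T < 1) :
    |(1 / x' - 2) * (T - h0) - vA par s T 2| ≤ 17 / 16 * (c3 T - Wc T) := by
  have hh := h0_pos
  have hq := h0_sq'
  obtain ⟨b1, b2⟩ := h0_bd
  have c2 := h'.Ch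
  have eR : (1 / x' - 2) * (T - h0) = 3 / 2 - h0 * x' / (1 + C') - 2 * (T - h0) := by
    have : 1 / x' * (x' * (3 / 2 - h0 * x' / (1 + C'))) = 3 / 2 - h0 * x' / (1 + C') := by
      field_simp
    rw [sub_mul]
    nth_rewrite 1 [e6]
    rw [this]
  have w0 : 0 ≤ h0 * x' / (1 + C') := div_nonneg (mul_nonneg hh.le x0.le) (by linarith)
  have w1 : h0 * x' / (1 + C') ≤ 24 / 100 := by
    rw [div_le_iff₀ (by linarith)]
    have := mul_le_mul_of_nonneg_left h'.hi hh.le
    linarith
  have hT3 : T ^ 2 ≤ 3 := by nlinarith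
  have e3 := c3_sq hT3
  have p3 := c3_nonneg T
  have u3 := (c3_half (by linarith) hT3).2 (by linarith : h0 ≤ T)
  have l3 : 1414 / 1000 ≤ c3 T := by
    refine le_of_sq2 p3 ?_
    nlinarith
  obtain ⟨W0, W1, W2⟩ := upp_bd (by linarith : h0 ≤ T) hT3
  have W3 : 48 / 100 ≤ Wc T := by nlinarith
  obtain ⟨G1, G2⟩ := Gu_bd (by linarith : h0 ≤ T) h1.le
  have eG : Gx T = Gu T := if_pos h1.le
  have m1 := mul_le_mul (by linarith : (464 / 1000 : ℝ) ≤ 4 * h0 - 3) W3 (by norm_num)
    (by linarith)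
  have m2 := mul_le_mul (by linarith : 4 * h0 - 3 ≤ (465 / 1000 : ℝ)) W1 W0 (by norm_num)
  rw [eR, secc_v2 hs h (by linarith), eG, abs_le]
  constructor <;> linarith

/-- The slope above the height one. -/
theorem secc_c2 {s T C' x' : ℝ} (hs : 0 < s) (h' : Rot C' x') (x0 : 0 < x')
    (e6 : T - h0 = x' * (3 / 2 - h0 * x' / (1 + C'))) (h : h0 + 5 * s ≤ T) (h1 : 1 ≤ T)
    (h2 : T < 3 * h0 / 2) :
    |(1 / x' - 2) * (T - h0) - vA par s T 2| ≤ 17 / 16 * (c3 T - Wc T) := by
  have hh := h0_pos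
  have hq := h0_sq'
  obtain ⟨b1, b2⟩ := h0_bd
  have c2 := h'.Ch
  have w0 : 0 ≤ h0 * x' / (1 + C') := div_nonneg (mul_nonneg hh.le x0.le) (by linarith)
  have eR : (1 / x' - 2) * (T - h0) = 3 / 2 - h0 * x' / (1 + C') - 2 * (T - h0) := by
    have : 1 / x' * (x' * (3 / 2 - h0 * x' / (1 + C'))) = 3 / 2 - h0 * x' / (1 + C') := by
      field_simp
    rw [sub_mul]
    nth_rewrite 1 [e6]
    rw [this]
  have eR0 : 0 ≤ (1 / x' - 2) * (T - h0) := by
    refine mul_nonneg ?_ (by linarith)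
    have : 2 ≤ 1 / x' := by
      rw [le_div_iff₀ x0]
      linarith [h'.hi]
    linarith
  have w2 : 288 / 1000 * (T - h0) ≤ h0 * x' / (1 + C') := by
    rw [le_div_iff₀ (by linarith)]
    have k1 : T - h0 ≤ x' * (3 / 2) := by
      rw [e6]
      exact mul_le_mul_of_nonneg_left (by linarith) x0.le
    have k2 : 288 / 1000 * (T - h0) * (1 + C') ≤ 288 / 1000 * (T - h0) * 2 :=
      mul_le_mul_of_nonneg_left (by linarith [h'.C1]) (mul_nonneg (by norm_num) (by linarith))
    have k3 := mul_le_mul_of_nonneg_right b1.le x0.le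
    linarith
  have hT3 : T ^ 2 ≤ 3 := by nlinarith
  have e3 := c3_sq hT3
  have p3 := c3_nonneg T
  obtain ⟨C, C0, eC, eW, -, -⟩ := upp_sq (by linarith : h0 ≤ T) hT3
  obtain ⟨W0, W1, W2⟩ := upp_bd (by linarith : h0 ≤ T) hT3
  have eG : Gx T = 2 * (T - h0) := by
    unfold Gx
    rcases h1.eq_or_lt with h3 | h3
    · rw [← h3, if_pos le_rfl, Gu_one]
      ring
    · rw [if_neg h3.not_ge]
  have m2 := mul_le_mul (by linarith : 4 * h0 - 3 ≤ (465 / 1000 : ℝ)) W1 W0 (by norm_num)
  have m1 := mul_le_mul_of_nonneg_right (by linarith : (464 / 1000 : ℝ) ≤ 4 * h0 - 3) W0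
  have l3 : 114 / 100 ≤ c3 T := by
    refine le_of_sq2 p3 ?_
    nlinarith
  rw [secc_v2 hs h h2, eG, abs_le]
  constructor
  · linarith
  · rw [eR]
    rcases le_or_gt T (11 / 10) with h4 | h4
    · have l4 : 1337 / 1000 ≤ c3 T := by
        refine le_of_sq2 p3 ?_
        nlinarith
      have l5 : Wc T ≤ 492 / 1000 := by
        have : C ≤ 992 / 1000 := by
          refine le_of_sq2 (by norm_num) ?_
          nlinarith
        linarith
      linarith
    · have l5 : Wc T ≤ 473 / 1000 := by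
        have : C ≤ 973 / 1000 := by
          refine le_of_sq2 (by norm_num) ?_
          nlinarith
        linarith
      linarith

/-- The slope next to the vertical direction, one interval of heights. -/
theorem secc_hi {T x' a ca cb wa xa : ℝ} (h2 : T ≤ 3 / 2) (ha : a ≤ T)
    (ex : x' = T / 2 - c3 T * (h0 / 3)) (hx' : x' ≤ 1 / 2)
    (hca : c3 T ≤ ca) (hcb : cb ≤ c3 T) (hwa : Wc T ≤ wa) (hw0 : 0 ≤ Wc T) (hc0 : 0 ≤ c3 T)
    (hxa0 : 0 < xa) (hxa : xa ≤ a / 2 - ca * (28868 / 100000))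
    (num : (173206 / 100000 - a) * (1 / xa - 2) + (17 / 20 * wa + 3 / 20 * ca) / 2 ≤
      17 / 16 * (cb - wa)) :
    |(1 / x' - 2) * (T - 2 * h0) - (Wc T + 3 / 20 * (c3 T - Wc T)) / 2| ≤
      17 / 16 * (c3 T - Wc T) := by
  have hh := h0_pos
  obtain ⟨b1, b2⟩ := h0_bd
  have k0 : xa ≤ x' := by
    have : c3 T * (h0 / 3) ≤ ca * (28868 / 100000) :=
      mul_le_mul hca (by linarith) (by linarith) (by linarith)
    linarith
  have x0 : 0 < x' := by linarith
  have k1 : 2 ≤ 1 / x' := by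
    rw [le_div_iff₀ x0]
    linarith
  have k2 : 1 / x' ≤ 1 / xa := one_div_le_one_div_of_le hxa0 k0
  have k3 : (2 * h0 - T) * (1 / x' - 2) ≤ (173206 / 100000 - a) * (1 / xa - 2) :=
    mul_le_mul (by linarith) (by linarith) (by linarith) (by linarith)
  have k4 : 0 ≤ (2 * h0 - T) * (1 / x' - 2) := mul_nonneg (by linarith) (by linarith)
  have e : (1 / x' - 2) * (T - 2 * h0) - (Wc T + 3 / 20 * (c3 T - Wc T)) / 2 =
      -((2 * h0 - T) * (1 / x' - 2) + (17 / 20 * Wc T + 3 / 20 * c3 T) / 2) := by ring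
  rw [e, abs_neg, abs_of_nonneg (by linarith)]
  linarith

/-- The slope next to the vertical direction. -/
theorem secc_c3 {T x' : ℝ} (h1 : 3 * h0 / 2 ≤ T) (h2 : T ≤ 3 / 2)
    (ex : x' = T / 2 - c3 T * (h0 / 3)) (hx' : x' ≤ 1 / 2) :
    |(1 / x' - 2) * (T - 2 * h0) - (Wc T + 3 / 20 * (c3 T - Wc T)) / 2| ≤
      17 / 16 * (c3 T - Wc T) := by
  have hh := h0_pos
  have hq := h0_sq'
  obtain ⟨b1, b2⟩ := h0_bd
  have hT3 : T ^ 2 ≤ 3 := by nlinarith
  have e3 := c3_sq hT3
  have p3 := c3_nonneg T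
  obtain ⟨C, C0, eC, eW, -, -⟩ := upp_sq (by linarith : h0 ≤ T) hT3
  obtain ⟨W0, W1, W2⟩ := upp_bd (by linarith : h0 ≤ T) hT3
  rcases le_or_gt T (132 / 100) with h4 | h4
  · refine secc_hi (a := 1299 / 1000) (ca := 1146 / 1000) (cb := 1121 / 1000)
      (wa := 402 / 1000) (xa := 3186 / 10000) h2 (by linarith) ex hx' ?_ ?_ ?_ W0 p3
      (by norm_num) (by norm_num) (by norm_num)
    · refine le_of_sq2 (by norm_num) ?_
      nlinarith
    · refine le_of_sq2 p3 ?_
      nlinarith
    · have : C ≤ 902 / 1000 := by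
        refine le_of_sq2 (by norm_num) ?_
        nlinarith
      linarith
  rcases le_or_gt T (14 / 10) with h5 | h5
  · refine secc_hi (a := 132 / 100) (ca := 1122 / 1000) (cb := 1019 / 1000)
      (wa := 392 / 1000) (xa := 336 / 1000) h2 (by linarith) ex hx' ?_ ?_ ?_ W0 p3
      (by norm_num) (by norm_num) (by norm_num)
    · refine le_of_sq2 (by norm_num) ?_
      nlinarith
    · refine le_of_sq2 p3 ?_
      nlinarith
    · have : C ≤ 892 / 1000 := by
        refine le_of_sq2 (by norm_num) ?_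
        nlinarith
      linarith
  · refine secc_hi (a := 14 / 10) (ca := 102 / 100) (cb := 866 / 1000)
      (wa := 346 / 1000) (xa := 405 / 1000) h2 (by linarith) ex hx' ?_ ?_ ?_ W0 p3
      (by norm_num) (by norm_num) (by norm_num)
    · refine le_of_sq2 (by norm_num) ?_
      nlinarith
    · refine le_of_sq2 p3 ?_
      nlinarith
    · have : C ≤ 846 / 1000 := by
        refine le_of_sq2 (by norm_num) ?_
        nlinarith
      linarith

/-- The slope between the inner node and the circle. -/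
theorem secc_slope {s T C' x' : ℝ} (hs : 0 < s) (hs1 : s ≤ 11 / 400) (h' : Rot C' x')
    (hx' : 4 * s ≤ x') (eT : T = h0 * C' + 3 / 2 * x') (eX : c3 T = 3 / 2 * C' - h0 * x')
    (ex : x' = T / 2 - c3 T * (h0 / 3)) (h : h0 + 5 * s ≤ T) (hT' : T ≤ 3 / 2) :
    |R3 par s T - vA par s T 2| ≤ 17 / 16 * (c3 T - Wc T) := by
  have hh := h0_pos
  have hq := h0_sq'
  obtain ⟨b1, b2⟩ := h0_bd
  have x0 : 0 < x' := by linarith
  obtain ⟨-, -, -, -, -, -, f2⟩ := n30_facts h'
  rw [← eT] at f2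
  rw [secc_R3 hs hs1 h' hx' eT eX]
  rcases lt_or_ge T (3 * h0 / 2) with h2 | h2
  · rw [tau_mi (by linarith) h2]
    rcases lt_or_ge T 1 with h1 | h1
    · exact secc_c1 hs h' x0 f2 h h1
    · exact secc_c2 hs h' x0 f2 h h1 h2
  · rw [tau_hi h2]
    have : vA par s T 2 = if T < h0 then RW par s T
      else if T < 3 * h0 / 2 then RW par s T + par.l1 * (3 / 20 * (c3 T - Wc T))
      else (Wc T + 3 / 20 * (c3 T - Wc T)) / 2 := rfl
    rw [this, if_neg (by linarith), if_neg (by linarith)]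
    exact secc_c3 h2 hT' ex h'.hi

/-! ### The segment between the inner node and the circle -/

/-- The kernels between the inner node and the circle. -/
theorem secc_seg {v : ℝ → Fin 4 → ℝ} (hv : K.adm v) {X T : ℝ} (h : h0 ≤ T) (h3 : T ^ 2 ≤ 3)
    (lo : Wc T + 3 / 20 * (c3 T - Wc T) ≤ X) (hi : X ≤ c3 T) (hS : Wc T < c3 T) :
    ker K.nodes v (fun _ _ => 0) X T =
      v T 3 - (v T 3 - v T 2) * ((c3 T - X) / (17 / 20 * (c3 T - Wc T))) := by
  have hh := h0_pos
  have e2 : pos.cv 2 T = Wc T + 3 / 20 * (c3 T - Wc T) := cv_two_high h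
  have e3 : pos.cv 3 T = c3 T := cv_three T
  have e := K.seg v hv 2 X T (by linarith) h3 (by
    change pos.cv 2 T ≤ X
    rwa [e2]) (by
    change X ≤ pos.cv 3 T
    rwa [e3])
  rw [e]
  change v T 2 + (v T 3 - v T 2) * ((X - pos.cv 2 T) / (pos.cv 3 T - pos.cv 2 T)) = _
  rw [e2, e3]
  have n1 : c3 T - Wc T ≠ 0 := by linarith
  have e4 : c3 T - (Wc T + 3 / 20 * (c3 T - Wc T)) = 17 / 20 * (c3 T - Wc T) := by ring
  rw [e4]
  have n2 : 17 / 20 * (c3 T - Wc T) ≠ 0 := mul_ne_zero (by norm_num) n1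
  field_simp
  ring

/-- The taper far away. -/
theorem secc_taper {z : ℝ} (h : 4 ≤ z) : taper z = 0 := by
  unfold taper
  rw [if_neg (by linarith)]
  split_ifs with h5
  · rw [le_antisymm h5 h, pl_right (by norm_num)]
  · rfl

/-- The correction at the inner node. -/
theorem secc_vR {s T : ℝ} (hs : 0 < s) (h : h0 + 5 * s ≤ T) : vR par s T 2 = 0 := by
  have hh := h0_pos
  have : vR par s T 2 = if T < h0 / 2 then r2 par s * taper (T / s)
    else if T < h0 then (r2 par s - r2d par s) * taper ((h0 - T) / s)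
    else if T < 3 * h0 / 2 then (r2 par s + r2d par s) * taper ((T - h0) / s)
    else 0 := rfl
  rw [this, if_neg (by linarith), if_neg (by linarith), secc_taper (by
    rw [le_div_iff₀ hs]
    linarith), mul_zero, ite_self]

/-- The level at the inner node. -/
theorem secc_vX {s T : ℝ} (hs : 0 < s) (hs1 : s ≤ 11 / 400) (h : h0 + 5 * s ≤ T)
    (hT' : T ≤ 3 / 2) : vX par s T 2 = 0 := by
  have hh := h0_pos
  have hq := h0_sq'
  obtain ⟨b1, b2⟩ := h0_bd
  have hT3 : T ^ 2 ≤ 3 := by nlinarith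
  have e3 := c3_sq hT3
  have p3 := c3_nonneg T
  have : vX par s T 2 = s ^ 2 * (if T < h0 / 2 then xA par s (T / s)
    else if T < h0 then xW par s ((h0 - T) / s)
    else if T < 3 * h0 / 2 then xW par s ((T - h0) / s)
    else XV par s (pos.cv 2 T)) := rfl
  rw [this, if_neg (by linarith), if_neg (by linarith)]
  split_ifs with h2
  · have z : 4 ≤ (T - h0) / s := by
      rw [le_div_iff₀ hs]
      linarith
    unfold xW
    rw [if_neg (by linarith), if_neg (by linarith), mul_zero]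
  · obtain ⟨C, C0, eC, eW, -, -⟩ := upp_sq (by linarith : h0 ≤ T) hT3
    have l1 : 866 / 1000 ≤ c3 T := by
      refine le_of_sq2 p3 ?_
      nlinarith
    have l2 : 77 / 100 ≤ C := by
      refine le_of_sq2 C0 ?_
      nlinarith
    have l3 : 5 * s ≤ pos.cv 2 T / (2 * h0) := by
      rw [cv_two_high (by linarith), le_div_iff₀ (by linarith)]
      have : s * h0 ≤ 11 / 400 * (867 / 1000) := mul_le_mul hs1 (by linarith) hh.le (by norm_num)
      linarith
    have a := lvl_far hs l3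
    have b := xA_far hs (by linarith : 4 * s ≤ pos.cv 2 T / (2 * h0))
    unfold lvl at a
    unfold XV
    rw [b]
    linear_combination 2 * a

/-- The levels of two directions. -/
theorem secc_lvl {s x x' : ℝ} (hs : 0 < s) (hx : 4 * s ≤ x) (hxx : x ≤ x') :
    0 ≤ lvl s x - lvl s x' ∧ lvl s x - lvl s x' ≤ 571 / 2250 * (s * (x' - x)) ∧
      lvl s x' ≤ 571 / 2250 * (s * s) := by
  rcases le_or_gt x' (5 * s) with h | h
  · rw [lvl_mid hs (by linarith) (by linarith : x ≤ 5 * s), lvl_mid hs (by linarith) h]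
    have k1 : 0 ≤ s * (x' - x) := mul_nonneg hs.le (by linarith)
    have k2 : s * (5 * s - x') ≤ s * s := mul_le_mul_of_nonneg_left (by linarith) hs.le
    refine ⟨by linarith, by linarith, by linarith⟩
  · rw [lvl_far hs h.le, sub_zero]
    have k0 : 0 ≤ s * s := mul_nonneg hs.le hs.le
    refine ⟨lvl_nonneg hs (by linarith), ?_, by linarith⟩
    rcases le_or_gt x (5 * s) with h2 | h2
    · rw [lvl_mid hs (by linarith) h2]
      have k2 : s * (5 * s - x) ≤ s * (x' - x) := mul_le_mul_of_nonneg_left (by linarith) hs.le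
      linarith
    · rw [lvl_far hs h2.le]
      have k1 : 0 ≤ s * (x' - x) := mul_nonneg hs.le (by linarith)
      linarith

/-- Next to the direction of 30 degrees, above. -/
theorem sec_p30 {s C x X T : ℝ} (hs : 0 < s) (hs1 : s ≤ 11 / 400) (h : Rot C x) (hx : 4 * s ≤ x)
    (hA : Ann X T) (hN : Nr s (3 / 2 * C - h0 * x) (h0 * C + 3 / 2 * x) X T)
    (hT : h0 * C + 3 / 2 * x ≤ T) (hT' : T ≤ 3 / 2) (hX : X ≤ 3 / 2 * C - h0 * x) :
    Sec s (1 / x - 2) x (-lvl s x) (3 / 2 * C - h0 * x) (h0 * C + 3 / 2 * x) X T (1 / 2) (5 / 4) := by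
  have hh := h0_pos
  have hq := h0_sq'
  obtain ⟨b1, b2⟩ := h0_bd
  have x0 : 0 < x := by linarith
  obtain ⟨n1, n2, n3, n4, n5, n6, n7⟩ := n30_facts h
  obtain ⟨a1, a2⟩ := hN.abs hs
  obtain ⟨T0, hT0⟩ : ∃ T0, T0 = h0 * C + 3 / 2 * x := ⟨_, rfl⟩
  obtain ⟨X0, hX0⟩ : ∃ X0, X0 = 3 / 2 * C - h0 * x := ⟨_, rfl⟩
  rw [← hT0] at hT a2 n1 n2 n3 n4 n5 n7 ⊢
  rw [← hX0] at hX a1 n1 n5 ⊢
  have T5 : h0 + 5 * s ≤ T0 := by
    have k1 : h0 * x / (1 + C) ≤ 24 / 100 := by
      rw [div_le_iff₀ (by linarith [h.C0])]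
      have := mul_le_mul_of_nonneg_left h.hi hh.le
      linarith [h.Ch]
    have k2 := mul_le_mul hx (by linarith : 126 / 100 ≤ 3 / 2 - h0 * x / (1 + C)) (by norm_num)
      x0.le
    linarith
  obtain ⟨C', x', h', eT, eX, ex⟩ := secc_node (T := T) (by linarith) hT'
  have hT3 : T ^ 2 ≤ 3 := by nlinarith
  have e3 := c3_sq hT3
  have p3 := c3_nonneg T
  have c := c3_anti n2 hT hT3
  rw [n1] at c
  have hxx : x ≤ x' := by
    rw [quot4] at n5
    have := mul_le_mul_of_nonneg_right c hh.le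
    rw [ex, ← n5]
    linarith
  have hx' : 4 * s ≤ x' := by linarith
  obtain ⟨D1, D2⟩ := secc_diff h h' x0 hxx hT0 eT
  have hXc : X ≤ c3 T := by
    refine le_of_sq2 p3 ?_
    have := hA.hi
    linarith
  have l3 : 866 / 1000 ≤ c3 T := by
    refine le_of_sq2 p3 ?_
    nlinarith
  obtain ⟨W0, W1, W2⟩ := upp_bd (by linarith : h0 ≤ T) hT3
  have hS : Wc T < c3 T := by linarith
  rw [abs_of_nonpos (by linarith : X - X0 ≤ 0)] at a1
  have lo : Wc T + 3 / 20 * (c3 T - Wc T) ≤ X := by linarith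
  have S0 : 0 < 17 / 20 * (c3 T - Wc T) := by linarith
  have g0 : 0 ≤ (c3 T - X) / (17 / 20 * (c3 T - Wc T)) := div_nonneg (by linarith) S0.le
  have g1 : (c3 T - X) / (17 / 20 * (c3 T - Wc T)) ≤ 1 := by
    rw [div_le_one S0]
    linarith
  have g2 : (c3 T - X) / (17 / 20 * (c3 T - Wc T)) ≤ (c3 T - X) * (33 / 10) := by
    rw [div_le_iff₀ S0]
    have := mul_le_mul_of_nonneg_left (by linarith : 1 ≤ 33 / 10 * (17 / 20 * (c3 T - Wc T)))
      (by linarith : 0 ≤ c3 T - X)
    linarith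
  have tT : |T - T0| = T - T0 := abs_of_nonneg (by linarith)
  have tX : |X - X0| = X0 - X := by
    rw [abs_of_nonpos (by linarith)]
    ring
  -- the levels
  have eL : kX s X T = -(lvl s x' * (1 - (c3 T - X) / (17 / 20 * (c3 T - Wc T)))) := by
    have a : kX s (c3 T) T = -lvl s x' := by
      have := n30_kX_up (s := s) h' (by linarith : 0 ≤ x')
      rw [← eX, ← eT, xA_far hs hx', mul_zero, mul_zero, zero_sub] at this
      exact this
    have b : kX s (c3 T) T = vX par s T 3 := by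
      unfold kX
      exact ker_c3 (adm_vX par s) (by linarith) hT3
    have d : kX s X T = vX par s T 3 - (vX par s T 3 - vX par s T 2) *
        ((c3 T - X) / (17 / 20 * (c3 T - Wc T))) := by
      unfold kX
      exact secc_seg (adm_vX par s) (by linarith) hT3 lo hXc hS
    rw [d, ← b, a, secc_vX hs hs1 (by linarith) hT']
    ring
  refine ⟨?_, ?_, ?_, ?_⟩
  · have d : kA s X T = vA par s T 3 - (vA par s T 3 - vA par s T 2) *
        ((c3 T - X) / (17 / 20 * (c3 T - Wc T))) := by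
      unfold kA
      exact secc_seg (adm_vA par s) (by linarith) hT3 lo hXc hS
    have v3 : vA par s T 3 = R3 par s T := rfl
    rw [v3] at d
    have k1 := secc_slope hs hs1 h' hx' eT eX ex (by linarith) hT'
    have k2 : |(R3 par s T - vA par s T 2) * ((c3 T - X) / (17 / 20 * (c3 T - Wc T)))| ≤
        5 / 4 * (c3 T - X) := by
      rw [abs_mul, abs_of_nonneg g0]
      refine (mul_le_mul_of_nonneg_right k1 g0).trans (le_of_eq ?_)
      have : c3 T - Wc T ≠ 0 := by linarith
      field_simp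
      ring
    rw [← secc_R3 hs hs1 h' hx' eT eX] at D2
    have k3 : kA s X T - (1 / x - 2) * tau T = (R3 par s T - (1 / x - 2) * tau T) -
        (R3 par s T - vA par s T 2) * ((c3 T - X) / (17 / 20 * (c3 T - Wc T))) := by
      rw [d]
      ring
    rw [k3, tT, tX]
    refine (abs_sub _ _).trans ?_
    linarith
  · have d : kR s X T = 0 := by
      unfold kR
      rw [secc_seg (adm_vR s) (by linarith) hT3 lo hXc hS, secc_vR hs (by linarith)]
      have : vR par s T 3 = 0 := rfl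
      rw [this]
      ring
    rw [d, abs_zero, mul_zero, tT, tX]
    linarith
  · rw [eL, tT, tX]
    obtain ⟨m1, m2, m3⟩ := secc_lvl hs hx hxx
    have m4 := lvl_nonneg hs (by linarith : 0 ≤ x')
    generalize (c3 T - X) / (17 / 20 * (c3 T - Wc T)) = gg at g0 g1 g2 ⊢
    have m5 : 0 ≤ lvl s x' * gg := mul_nonneg m4 g0
    have m6 : lvl s x' * gg ≤ 571 / 2250 * (s * s) * ((c3 T - X) * (33 / 10)) :=
      mul_le_mul m3 g2 g0 (by positivity)
    have m7 : s * s ≤ 11 / 400 * (11 / 400) := mul_le_mul hs1 hs1 hs.le (by norm_num)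
    have m8 := mul_le_mul_of_nonneg_right m7 (by linarith : 0 ≤ c3 T - X)
    have m9 := mul_le_mul_of_nonneg_right hs1 (by linarith : 0 ≤ x' - x)
    have e : -(lvl s x' * (1 - gg)) - -lvl s x = (lvl s x - lvl s x') + lvl s x' * gg := by ring
    rw [e, abs_of_nonneg (by linarith)]
    linarith
  · intro h5
    rw [eL, lvl_far hs (by linarith : 5 * s ≤ x'), zero_mul, neg_zero, abs_zero, tT, tX]
    linarith

end Pool.Agent.Strip051.LC.E0.Out
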