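import Pool.Agent.Strip051.LC.E0.OutM
import Pool.Agent.Strip051.LC.E0.O3.Lev

/-! # Small rests: the half strip L2A -/

namespace Pool.Agent.Strip051.LC.E0.Out

open Pool.Agent.StripNear Pool.Agent.StripSquare Pool.Agent.Strip051 Pool.Agent.Strip051.Sweep
open Pool.Agent.Strip051.LC.Line (tau)

theorem l2a_dist {s a b : ℝ} (hs : 0 < s) (hq : b ^ 2 + a ^ 2 ≤ (22 / 10 * s) ^ 2) :
    a ≤ 22 / 10 * s := by
  have h : |a| ≤ 22 / 10 * s := by
    refine le_of_sq2 (by linarith) ?_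
    rw [sq_abs]
    linarith [sq_nonneg b]
  exact (le_abs_self a).trans h

/-- The displacement of the free side. -/
theorem l2a_q {s C x C' x' : ℝ} (hs : 0 < s) (h : Rot C x) (h' : Rot C' x')
    (hx : 4 * s ≤ x) (ho : x' ≤ x) (ha : x - x' ≤ 22 / 10 * s) :
    ∃ q : ℝ, C' - C = (x - x') * q ∧ 0 ≤ q ∧ q * h0 ≤ x ∧ q * (3 / 2) ≤ h0 := by
  have hh := h0_pos
  have hq' := h0_sq'
  have hc := h.Ch
  have hc' := h'.Ch
  obtain ⟨b1, b2⟩ := h0_bd
  obtain ⟨q', e1, e2, e3, -⟩ := mv h h'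
  have p : 0 < C + C' := by linarith
  have s1 : 0 < x + x' := by linarith
  have q0 : 0 ≤ q' := by
    by_contra hn
    have : q' * (C + C') < 0 := mul_neg_of_neg_of_pos (not_le.1 hn) p
    linarith
  rw [abs_of_nonneg q0, abs_of_pos s1] at e2
  have hx1 := h.hi
  refine ⟨q', e1, q0, by linarith, ?_⟩
  have e4 : q' * h0 ≤ 1 / 2 := by linarith
  have e5 := mul_le_mul_of_nonneg_right e4 hh.le
  have e6 : q' * h0 * h0 = q' * (3 / 4) := by linear_combination q' * hq'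
  linarith

/-- A unit side at `θ` and a side `√3` at `150 + θ'`: the point next to the free side. -/
theorem nr_L2A {s C x C' x' : ℝ} (hs : 0 < s) (_ : s ≤ 11 / 400) (h : Rot C x) (h' : Rot C' x')
    (hx : 4 * s ≤ x) (ho : x' ≤ x)
    (hq : (C - C') ^ 2 + (x - x') ^ 2 ≤ (22 / 10 * s) ^ 2) :
    Nr s (C / 2 + h0 * x) (h0 * C - x / 2) (-(C + (-(3 / 2 * C') - h0 * x'))) (x + (h0 * C' - 3 / 2 * x')) ∧ h0 * C - x / 2 ≤ x + (h0 * C' - 3 / 2 * x') ∧ x + (h0 * C' - 3 / 2 * x') ≤ h0 + 3 / 2 * s := by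
  have hh := h0_pos
  have hq' := h0_sq'
  have ha := l2a_dist hs hq
  obtain ⟨q, hq1, q0, -, -⟩ := l2a_q hs h h' hx ho ha
  refine ⟨?_, ?_, ?_⟩
  · unfold Nr
    have e : (-(C + (-(3 / 2 * C') - h0 * x')) - (C / 2 + h0 * x)) ^ 2 +
        (x + (h0 * C' - 3 / 2 * x') - (h0 * C - x / 2)) ^ 2 =
        3 * ((C - C') ^ 2 + (x - x') ^ 2) := by
      linear_combination ((C - C') ^ 2 + (x - x') ^ 2) * hq'
    rw [e]
    linarith [sq_nonneg s]
  · have hc : 0 ≤ C' - C := by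
      rw [hq1]
      exact mul_nonneg (by linarith) q0
    have := mul_nonneg hh.le hc
    linarith
  · have := mul_le_mul_of_nonneg_left h'.C1 hh.le
    linarith

theorem l2a_iT {a i x dT : ℝ} (i0 : 0 ≤ i) (ix : i * x = 1) (T1 : dT ≤ a * (3 / 2 + x)) :
    i * dT ≤ 3 / 2 * (i * a) + a := by
  have h := mul_le_mul_of_nonneg_left T1 i0
  have e : i * (a * (3 / 2 + x)) = 3 / 2 * (i * a) + a := by linear_combination a * ix
  linarith

theorem l2a_T2 {a x dT : ℝ} (a0 : 0 ≤ a) (h : x ≤ 1 / 2) (T1 : dT ≤ a * (3 / 2 + x)) :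
    dT ≤ 2 * a := by
  have := mul_le_mul_of_nonneg_left h a0
  linarith

theorem l2a_num {s a i dT dX P Q R U V : ℝ} (hs : 0 < s) (hs1 : s ≤ 11 / 400) (a0 : 0 ≤ a)
    (i0 : 0 ≤ i) (isa : i * s * a ≤ 1 / 4 * a) (iT : i * dT ≤ 3 / 2 * (i * a) + a)
    (T2 : dT ≤ 2 * a) (X1 : dX ≤ a * h0)
    (hP : P ≤ (i + 7 / 3) * a * (3 / 2 + h0 * (67 / 250)))
    (hQ : Q ≤ (i + 5) * dT + 1 * dX) (hR : s * R ≤ 1 / 16 * (dT + dX))
    (hU : U ≤ 111 / 100 * s * a) (hV : V ≤ 1 / 25 * (dT + dX)) :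
    57736 / 100000 * s * (P + Q) + 101 / 1000 * s ^ 2 * R + 1 / 2 * (U + V) ≤ 84 / 100 * a := by
  have sa : s * a ≤ 11 / 400 * a := mul_le_mul_of_nonneg_right hs1 a0
  have X2 : dX ≤ 8661 / 10000 * a := by
    have := mul_le_mul_of_nonneg_left h0_bd.2.le a0
    linarith
  have u1 := mul_le_mul_of_nonneg_left iT hs.le
  have u2 := mul_le_mul_of_nonneg_left T2 hs.le
  have u3 := mul_le_mul_of_nonneg_left X2 hs.le
  have t2 : s * ((i + 5) * dT + 1 * dX) ≤
      3 / 2 * (i * s * a) + 11 * (s * a) + 8661 / 10000 * (s * a) := by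
    linarith only [u1, u2, u3]
  have t1 := mul_le_mul_of_nonneg_left hP hs.le
  have t3 := mul_le_mul_of_nonneg_left hQ hs.le
  have t4 := mul_le_mul_of_nonneg_left hR hs.le
  have t5 : s * ((i + 7 / 3) * a * (3 / 2 + h0 * (67 / 250))) ≤
      17322 / 10000 * (i * s * a + 7 / 3 * (s * a)) := by
    have v : 3 / 2 + h0 * (67 / 250) ≤ 17322 / 10000 := by
      have := h0_bd.2
      linarith
    have w : 0 ≤ i * s * a + 7 / 3 * (s * a) := by positivity
    have := mul_le_mul_of_nonneg_left v w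
    linarith only [this]
  have t6 : s * (1 / 16 * (dT + dX)) ≤ 1 / 16 * (3 * (s * a)) := by
    have u4 := mul_nonneg hs.le a0
    linarith only [u2, u3, u4]
  have g1 : s * (s * R) = s ^ 2 * R := by ring
  have g2 : 57736 / 100000 * s * (P + Q) = 57736 / 100000 * (s * P + s * Q) := by ring
  rw [g2, mul_assoc (101 / 1000) (s ^ 2) R, ← g1]
  linarith only [sa, isa, T2, X2, hU, hV, t1, t2, t3, t4, t5, t6, a0]

/-- A unit side at `θ` and a side `√3` at `150 + θ'`. -/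
theorem hs_L2A {s C x C' x' : ℝ} (hs : 0 < s) (hs1 : s ≤ 11 / 400) (h : Rot C x) (h' : Rot C' x')
    (hx : 4 * s ≤ x) (ho : x' ≤ x)
    (hq : (C - C') ^ 2 + (x - x') ^ 2 ≤ (22 / 10 * s) ^ 2)
    (S : Sec s (-(1 / x - 2)) x (lvl s x) (C / 2 + h0 * x) (h0 * C - x / 2)
      (-(C + (-(3 / 2 * C') - h0 * x'))) (x + (h0 * C' - 3 / 2 * x')) 5 1) :
    cost s (1 / x - 2) (lvl s x) (C) (C + (-(3 / 2 * C') - h0 * x')) (x) (h0 * C' - 3 / 2 * x') ≤ 84 / 100 * (x - x') := by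
  have hh := h0_pos
  have g1 := h0_gt
  have g2 := h0_lt
  have ha := l2a_dist hs hq
  have x0 : 0 < x := by linarith only [hx, hs]
  obtain ⟨q, hq1, q0, hq2, hq3⟩ := l2a_q hs h h' hx ho ha
  obtain ⟨a, ea⟩ : ∃ a, a = x - x' := ⟨_, rfl⟩
  have a0 : 0 ≤ a := by linarith only [ea, ho]
  obtain ⟨i, hi⟩ : ∃ i, i = 1 / x := ⟨_, rfl⟩
  have i0 : 0 < i := by rw [hi]; positivity
  have ix : i * x = 1 := by rw [hi]; field_simp
  have is : i * s ≤ 1 / 4 := by
    have := mul_le_mul_of_nonneg_left hx i0.le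
    linarith only [this, ix]
  have hR : RA par s x = 1 - 2 * x := RA_eq hs hx
  -- the side 12
  have A12 : |kA s C x - (1 / x - 2) * tau x| = 0 := by
    have r := n0_res (s := s) h x0.le (1 / x - 2)
    rw [hR] at r
    have z : 1 - 2 * x - (1 / x - 2) * x = 0 := by
      rw [← hi]
      linear_combination -ix
    rw [z, abs_zero] at r
    exact le_antisymm r (abs_nonneg _)
  have R12 : kR s C x = 0 := n0_kR hs h hx
  have X12 : kX s C x = 0 := n0_kX hs h hx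
  -- the side 23
  have e23 : C + (-(3 / 2 * C') - h0 * x') - C = -(3 / 2 * C' + h0 * x') := by ring
  have n1 : 3 / 2 * C' - h0 * -x' = 3 / 2 * C' + h0 * x' := by ring
  have n2 : h0 * C' + 3 / 2 * -x' = h0 * C' - 3 / 2 * x' := by ring
  obtain ⟨u, hu, hu1, hu2, hu3, -⟩ := h'.neg.half
  have A23 : |kA s (-(3 / 2 * C' + h0 * x')) (h0 * C' - 3 / 2 * x') -
      (1 / x - 2) * tau (h0 * C' - 3 / 2 * x')| ≤ (i + 7 / 3) * a * (3 / 2 + h0 * (67 / 250)) := by
    have r := n30_res hs hs1 h'.neg (-(1 / x - 2))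
    rw [n1, n2, abs_neg, hu] at r
    have p := psi_dn hs hx h.hi ho
    have z : RA par s |x'| - -(1 / x - 2) * -x' = RA par s |x'| - (1 / x - 2) * x' := by ring
    rw [z] at r
    rw [kA_neg, show -kA s (3 / 2 * C' + h0 * x') (h0 * C' - 3 / 2 * x') -
      (1 / x - 2) * tau (h0 * C' - 3 / 2 * x') =
      -(kA s (3 / 2 * C' + h0 * x') (h0 * C' - 3 / 2 * x') -
        -(1 / x - 2) * tau (h0 * C' - 3 / 2 * x')) by ring, abs_neg]
    refine r.trans ?_
    rw [← hi, ← ea] at p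
    rw [← hi]
    have hu4 := (abs_le.1 hu2).1
    have t : 3 / 2 - h0 * u ≤ 3 / 2 + h0 * (67 / 250) := by
      have := mul_le_mul_of_nonneg_left hu4 hh.le
      linarith only [this]
    have t0 : 0 ≤ 3 / 2 - h0 * u := by
      have hu5 := (abs_le.1 hu2).2
      have := mul_le_mul_of_nonneg_left hu5 hh.le
      linarith only [this, g2]
    exact mul_le_mul p t t0 (mul_nonneg (by linarith only [i0]) a0)
  have R23 : kR s (-(3 / 2 * C' + h0 * x')) (h0 * C' - 3 / 2 * x') = 0 := by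
    have r := n30_kR (s := s) h'.neg
    rw [n1, n2] at r
    rw [kR_neg, r, neg_zero]
  have X23 : |kX s (-(3 / 2 * C' + h0 * x')) (h0 * C' - 3 / 2 * x') + lvl s x| ≤
      111 / 100 * s * a := by
    have r := lev30m hs hs1 h' hx ho ha
    rw [kX_neg, ea, neg_add_eq_sub, abs_sub_comm]
    exact r
  -- the free side
  obtain ⟨dT, hdT⟩ : ∃ d, d = |x + (h0 * C' - 3 / 2 * x') - (h0 * C - x / 2)| := ⟨_, rfl⟩
  obtain ⟨dX, hdX⟩ : ∃ d, d = |-(C + (-(3 / 2 * C') - h0 * x')) - (C / 2 + h0 * x)| := ⟨_, rfl⟩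
  have T0 : 0 ≤ dT := by rw [hdT]; exact abs_nonneg _
  have X0 : 0 ≤ dX := by rw [hdX]; exact abs_nonneg _
  have T1 : dT ≤ a * (3 / 2 + x) := by
    rw [hdT, show x + (h0 * C' - 3 / 2 * x') - (h0 * C - x / 2) =
      3 / 2 * (x - x') + h0 * (C' - C) by ring, hq1, ← ea,
      show 3 / 2 * a + h0 * (a * q) = a * (3 / 2 + q * h0) by ring,
      abs_of_nonneg (mul_nonneg a0 (by positivity))]
    exact mul_le_mul_of_nonneg_left (by linarith only [hq2]) a0
  have X1 : dX ≤ a * h0 := by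
    rw [hdX, show -(C + (-(3 / 2 * C') - h0 * x')) - (C / 2 + h0 * x) =
      -(h0 * (x - x') - 3 / 2 * (C' - C)) by ring, abs_neg, hq1, ← ea,
      show h0 * a - 3 / 2 * (a * q) = a * (h0 - q * (3 / 2)) by ring,
      abs_of_nonneg (mul_nonneg a0 (by linarith only [hq3]))]
    exact mul_le_mul_of_nonneg_left (by linarith only [q0]) a0
  have sA := S.A
  have sR := S.R
  have sL := S.L
  rw [← hdT, ← hdX] at sA sR sL
  rw [← hi] at sA
  have hX : C + (-(3 / 2 * C') - h0 * x') = -(-(C + (-(3 / 2 * C') - h0 * x'))) := by ring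
  have A13 : |kA s (C + (-(3 / 2 * C') - h0 * x')) (x + (h0 * C' - 3 / 2 * x')) -
      (1 / x - 2) * tau (x + (h0 * C' - 3 / 2 * x'))| ≤ (i + 5) * dT + 1 * dX := by
    rw [hX, kA_neg, ← hi, show -kA s (-(C + (-(3 / 2 * C') - h0 * x')))
      (x + (h0 * C' - 3 / 2 * x')) - (i - 2) * tau (x + (h0 * C' - 3 / 2 * x')) =
      -(kA s (-(C + (-(3 / 2 * C') - h0 * x'))) (x + (h0 * C' - 3 / 2 * x')) -
        -(i - 2) * tau (x + (h0 * C' - 3 / 2 * x'))) by ring, abs_neg]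
    exact sA
  have R13 : s * |kR s (C + (-(3 / 2 * C') - h0 * x')) (x + (h0 * C' - 3 / 2 * x'))| ≤
      1 / 16 * (dT + dX) := by
    rw [hX, kR_neg, abs_neg]
    exact sR
  have X13 : |kX s (C + (-(3 / 2 * C') - h0 * x')) (x + (h0 * C' - 3 / 2 * x')) + lvl s x| ≤
      1 / 25 * (dT + dX) := by
    rw [hX, kX_neg, neg_add_eq_sub, abs_sub_comm]
    exact sL
  unfold cost
  rw [e23, A12, R12, X12, R23, abs_zero, zero_add, zero_add, zero_add, zero_add, ← ea]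
  exact l2a_num hs hs1 a0 (by rw [hi]; positivity) (mul_le_mul_of_nonneg_right is a0)
    (l2a_iT i0.le ix T1) (l2a_T2 a0 h.hi T1) X1 A23 A13 R13 X23 X13

end Pool.Agent.Strip051.LC.E0.Out
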