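import Pool.Agent.Strip051.LC.E0.O3.StrA
import Pool.Agent.Strip051.LC.E0.O3.H_L2A

/-! # Small rests: the strips -/

namespace Pool.Agent.Strip051.LC.E0.Out

open Pool.Agent.StripNear Pool.Agent.StripSquare Pool.Agent.Strip051 Pool.Agent.Strip051.Sweep
open Pool.Agent.Strip051.LC.Line (tau)

section

variable {s C x C' x' : ℝ}

theorem strip_L2A (hs : 0 < s) (hs1 : s ≤ 11 / 400) (h : Rot C x) (h' : Rot C' x')
    (hx : 4 * s ≤ x) (ho : x' ≤ x) (hq : (C - C') ^ 2 + (x - x') ^ 2 ≤ (22 / 10 * s) ^ 2)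
    (hS : Sides C (C + (-(3 / 2 * C') - h0 * x')) x (h0 * C' - 3 / 2 * x'))
    (hE : 84 / 100 * (x - x') ≤
      exn C (C + (-(3 / 2 * C') - h0 * x')) x (h0 * C' - 3 / 2 * x')) :
    OK2 s C (C + (-(3 / 2 * C') - h0 * x')) x (h0 * C' - 3 / 2 * x') := by
  obtain ⟨n1, n2, n3⟩ := nr_L2A hs hs1 h h' hx ho hq
  exact ok2_of hs hs1 hS ⟨_, _, lvl_nonneg hs (by linarith), (hs_L2A hs hs1 h h' hx ho hq
    (sec_m60 hs hs1 h hx (ann13 hS).neg n1 (by linarith) n3)).trans hE⟩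

end

end Pool.Agent.Strip051.LC.E0.Out
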