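import Pool.Agent.Strip051.LC.E0.OutL

/-! # Small rests: the strip next to the direction of 30 degrees, below -/

namespace Pool.Agent.Strip051.LC.E0.Out

open Pool.Agent.StripNear Pool.Agent.StripSquare Pool.Agent.Strip051 Pool.Agent.Strip051.Sweep
open Pool.Agent.Strip051.LC.Line (tau)

/-! ### Between the nodes -/

/-- A bound which is affine in the abscissa holds between the nodes. -/
theorem secd_conv {v : ℝ → Fin 4 → ℝ} (hv : K.adm v) {X T X0 a b χ : ℝ} (hT : 0 ≤ T)
    (hX : 0 ≤ X) (h1 : 1 ≤ X ^ 2 + T ^ 2) (h3 : X ^ 2 + T ^ 2 ≤ 3)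
    (hB : ∀ j, |v T j - χ| ≤ a + b * (X0 - pos.cv j T)) :
    |ker K.nodes v (fun _ _ => 0) X T - χ| ≤ a + b * (X0 - X) := by
  have hT3 : T ^ 2 ≤ 3 := by nlinarith [sq_nonneg X]
  obtain ⟨i, g1, g2⟩ := K.seg_pos hT hX h1 h3
  rw [one_mul] at g1 g2
  rw [K.seg v hv i X T hT hT3 g1 g2]
  have p0 := hB i.castSucc
  have p1 := hB i.succ
  change |v T i.castSucc + (v T i.succ - v T i.castSucc) *
    ((X - pos.cv i.castSucc T) / (pos.cv i.succ T - pos.cv i.castSucc T)) - χ| ≤ _
  change pos.cv i.castSucc T ≤ X at g1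
  change X ≤ pos.cv i.succ T at g2
  clear hB
  generalize v T i.castSucc = y0 at *
  generalize v T i.succ = y1 at *
  generalize pos.cv i.castSucc T = q0 at *
  generalize pos.cv i.succ T = q1 at *
  have hl : ∃ l : ℝ, 0 ≤ l ∧ l ≤ 1 ∧ (X - q0) / (q1 - q0) = l ∧ X = (1 - l) * q0 + l * q1 := by
    rcases (g1.trans g2).eq_or_lt with h | h
    · exact ⟨0, le_rfl, zero_le_one, by rw [h, sub_self, div_zero], by linarith⟩
    · have : 0 < q1 - q0 := by linarith
      refine ⟨(X - q0) / (q1 - q0), div_nonneg (by linarith) this.le, ?_, rfl, ?_⟩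
      · rw [div_le_one this]
        linarith
      · field_simp
        ring
  obtain ⟨l, l0, l1, el, eX⟩ := hl
  rw [el]
  have m0 := mul_le_mul_of_nonneg_left p0 (by linarith : 0 ≤ 1 - l)
  have m1 := mul_le_mul_of_nonneg_left p1 l0
  have h5 : |y0 + (y1 - y0) * l - χ| ≤ (1 - l) * |y0 - χ| + l * |y1 - χ| := by
    rw [show y0 + (y1 - y0) * l - χ = (1 - l) * (y0 - χ) + l * (y1 - χ) by ring]
    refine (abs_add_le _ _).trans ?_
    rw [abs_mul, abs_mul, abs_of_nonneg l0, abs_of_nonneg (by linarith : 0 ≤ 1 - l)]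
  refine h5.trans ((add_le_add m0 m1).trans (le_of_eq ?_))
  rw [eX]
  ring

/-! ### Geometry of the circle -/

/-- The direction of a point on the circle of radius `√3`. -/
theorem secd_rot {T : ℝ} (hT : 0 ≤ T) (h : T ≤ h0) :
    Rot (c3 T / 2 + T / (4 * h0)) (c3 T / (4 * h0) - T / 2) ∧ 3 / 2 ≤ c3 T ∧
      c3 T = 3 / 2 * (c3 T / 2 + T / (4 * h0)) + h0 * (c3 T / (4 * h0) - T / 2) ∧
      T = h0 * (c3 T / 2 + T / (4 * h0)) - 3 / 2 * (c3 T / (4 * h0) - T / 2) := by
  have hh := h0_pos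
  have hq := h0_sq'
  have hT3 : T ^ 2 ≤ 3 := by nlinarith
  obtain ⟨r1, r2, r3⟩ := c3_rot hT3
  have e := c3_sq hT3
  have c0 := c3_nonneg T
  have lo : 3 / 2 ≤ c3 T := by nlinarith
  have hi : c3 T ≤ 2 * h0 := le_of_sq2 (by linarith) (by nlinarith)
  have x0 : 0 ≤ c3 T / (4 * h0) - T / 2 := by
    rw [quot4]
    nlinarith
  refine ⟨⟨by positivity, ?_, by linarith, ?_⟩, lo, by linarith, by linarith⟩
  · linarith
  · rw [quot4]
    nlinarith

/-- Two points of the circle of radius `√3`. -/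
theorem secd_geo {C x C' x' : ℝ} (h : Rot C x) (h' : Rot C' x') (hx : 0 ≤ x) (hx' : 0 ≤ x')
    (hT : h0 * C - 3 / 2 * x ≤ h0 * C' - 3 / 2 * x') :
    x' ≤ x ∧ ∃ q, 0 ≤ q ∧ 3 / 2 * q ≤ h0 ∧ q * (C + C') = x + x' ∧
      h0 * C' - 3 / 2 * x' - (h0 * C - 3 / 2 * x) = (x - x') * (3 / 2 + h0 * q) ∧
      3 / 2 * C + h0 * x - (3 / 2 * C' + h0 * x') = (x - x') * (h0 - 3 / 2 * q) := by
  have hh := h0_pos
  have hq := h0_sq'
  have a := h.Ch
  have a' := h'.Ch
  have b := h.sq
  have b' := h'.sq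
  have c := h.hi
  have c' := h'.hi
  have p : 0 < C + C' := by linarith
  obtain ⟨q, hqe⟩ : ∃ q, q = (x + x') / (C + C') := ⟨_, rfl⟩
  have e1 : q * (C + C') = x + x' := by
    rw [hqe]
    field_simp
  have q0 : 0 ≤ q := by
    rw [hqe]
    exact div_nonneg (by linarith) p.le
  have q1 : 3 / 2 * q ≤ h0 := by
    have k1 : q * (2 * h0) ≤ 1 := by
      have := mul_le_mul_of_nonneg_left (by linarith : 2 * h0 ≤ C + C') q0
      linarith
    have k2 := mul_le_mul_of_nonneg_left k1 hh.le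
    have e : h0 * (q * (2 * h0)) = 3 / 2 * q := by linear_combination (2 * q) * hq
    linarith
  have e2 : C' - C = (x - x') * q := by
    have : (C' - C) * (C + C') = (x - x') * q * (C + C') := by
      rw [mul_assoc, e1]
      linear_combination b' - b
    exact mul_right_cancel₀ p.ne' this
  have e3 : h0 * C' - 3 / 2 * x' - (h0 * C - 3 / 2 * x) = (x - x') * (3 / 2 + h0 * q) := by
    linear_combination h0 * e2
  have e4 : 3 / 2 * C + h0 * x - (3 / 2 * C' + h0 * x') = (x - x') * (h0 - 3 / 2 * q) := by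
    linear_combination (-3 / 2) * e2
  refine ⟨?_, q, q0, q1, e1, e3, e4⟩
  by_contra hc
  rw [not_le] at hc
  have : 0 < (x' - x) * (3 / 2 + h0 * q) := mul_pos (by linarith) (by positivity)
  linarith

/-- The abscissa of the point on the circle. -/
theorem secd_X0 {s C x : ℝ} (hs : 0 < s) (hs1 : s ≤ 11 / 400) (h : Rot C x) (hx : 4 * s ≤ x) :
    3 / 2 + 27 / 10 * s ≤ 3 / 2 * C + h0 * x := by
  have hh := h0_pos
  obtain ⟨b1, b2⟩ := h0_bd
  have x0 : 0 ≤ x := by linarith
  have a := h.Ch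
  have b := h.sq
  rcases le_or_gt x (1 / 5) with k | k
  · have hC : 979 / 1000 ≤ C := by
      refine le_of_sq2 h.C0 ?_
      nlinarith
    have k1 : (1 - C) * (197 / 100) ≤ x * x := by
      have e : (1 - C) * (1 + C) = x * x := by linear_combination -b
      rw [← e]
      exact mul_le_mul_of_nonneg_left (by linarith) (by linarith [h.C1])
    have k2 : x * x ≤ x * (1 / 5) := mul_le_mul_of_nonneg_left k x0
    have k3 := mul_nonneg x0 (by linarith : 0 ≤ h0 - 86602 / 100000)
    linarith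
  · have k1 := chord_bd h.C0 x0 b h.hi
    have k3 := mul_nonneg x0 (by linarith : 0 ≤ h0 - 86602 / 100000)
    linarith

/-! ### The residue on the circle -/

theorem secd_num1 {h ix p q : ℝ} (b1 : 86602 / 100000 ≤ h) (b2 : h ≤ 86603 / 100000)
    (p0 : 0 ≤ p) (p1 : p ≤ 56 / 1000) (q0 : 0 ≤ q) (q1 : q ≤ 19 / 100)
    (hp : 49 / 100 ≤ ix * (q - p)) :
    (3 / 2 + h * p) * (ix + 7 / 3) ≤
      (ix + 1) * (3 / 2 + h * q) + 13 / 4 * (h - 3 / 2 * q) := by
  have m1 : h * p ≤ 86603 / 100000 * (56 / 1000) := mul_le_mul b2 p1 p0 (by norm_num)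
  have m2 : 0 ≤ h * q := mul_nonneg (by linarith) q0
  have m3 : 86602 / 100000 * (49 / 100) ≤ h * (ix * (q - p)) :=
    mul_le_mul b1 hp (by norm_num) (by linarith)
  have e : (ix + 1) * (3 / 2 + h * q) + 13 / 4 * (h - 3 / 2 * q) -
      (3 / 2 + h * p) * (ix + 7 / 3) =
      h * (ix * (q - p)) + h * q + 13 / 4 * h - 39 / 8 * q - 2 - 7 / 3 * (h * p) := by
    ring
  linarith

theorem secd_num0 {s C x C' x' q : ℝ} (hs : 0 < s) (hs1 : s ≤ 11 / 400) (h : Rot C x)
    (r : Rot C' x') (x0 : 0 < x) (x0' : 0 < x') (k : x' ≤ 4 * s) (dx : 0 ≤ x - x') (q0 : 0 ≤ q)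
    (e1 : q * (C + C') = x + x') (qx : x + x' ≤ 2 * q)
    (hN : (x - x') * (3 / 2 + h0 * q) ≤ 79 / 10 * s) :
    q ≤ 19 / 100 ∧ x' / (1 + C') ≤ 56 / 1000 ∧ 49 / 100 ≤ 1 / x * (q - x' / (1 + C')) := by
  have hh := h0_pos
  have d1 : (x - x') * (3 / 2) ≤ 79 / 10 * s := by
    have := mul_nonneg dx (mul_nonneg hh.le q0)
    linarith
  have x1 : x' ≤ 11 / 100 := by linarith
  have x2 : x ≤ 255 / 1000 := by linarith
  have c1 : 966 / 1000 ≤ C := by
    refine le_of_sq2 h.C0 ?_
    have k1 := h.sq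
    have k2 := mul_le_mul x2 x2 x0.le (by norm_num)
    linarith [pow_two x]
  have c2 : 99 / 100 ≤ C' := by
    refine le_of_sq2 r.C0 ?_
    have k1 := r.sq
    have k2 := mul_le_mul x1 x1 x0'.le (by norm_num)
    linarith [pow_two x']
  have q2 : q ≤ 19 / 100 := by
    have := mul_le_mul_of_nonneg_left (by linarith : 1956 / 1000 ≤ C + C') q0
    linarith
  have k2 : 0 < 1 + C' := by linarith
  have p1 : x' / (1 + C') ≤ 503 / 1000 * x' := by
    rw [div_le_iff₀ k2]
    have := mul_le_mul_of_nonneg_left (by linarith : 199 / 100 ≤ 1 + C') x0'.le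
    linarith
  refine ⟨q2, by linarith, ?_⟩
  have p2 : 49 / 100 * x ≤ q - x' / (1 + C') := by linarith
  have p3 := mul_le_mul_of_nonneg_left p2 (by positivity : 0 ≤ 1 / x)
  have e : 1 / x * (49 / 100 * x) = 49 / 100 := by
    field_simp
  linarith

theorem secd_c3 {s C x T : ℝ} (hs : 0 < s) (hs1 : s ≤ 11 / 400) (h : Rot C x) (hx : 4 * s ≤ x)
    (hT : 0 ≤ T) (h1 : h0 * C - 3 / 2 * x ≤ T) (h2 : T ≤ h0 - s)
    (hN : T - (h0 * C - 3 / 2 * x) ≤ 79 / 10 * s) :
    |R3 par s T + (1 / x - 2) * tau T| ≤ (1 / x + 1) * (T - (h0 * C - 3 / 2 * x)) +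
      13 / 4 * (3 / 2 * C + h0 * x - c3 T) := by
  have hh := h0_pos
  have hq := h0_sq'
  obtain ⟨b1, b2⟩ := h0_bd
  have hT3 : T ^ 2 ≤ 3 := by nlinarith
  have x0 : 0 < x := by linarith
  obtain ⟨r, lo, eX, eT⟩ := secd_rot hT (by linarith)
  have xp : s / 2 ≤ c3 T / (4 * h0) - T / 2 := by
    rw [quot4]
    have := mul_nonneg (by linarith : 0 ≤ c3 T - 3 / 2) hh.le
    linarith
  -- the abscissa below `h0 / 2`
  have xl : T < h0 / 2 → 2675 / 10000 ≤ c3 T / (4 * h0) - T / 2 := by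
    intro k
    have e := c3_sq hT3
    have : 16770 / 10000 ≤ c3 T := by
      refine le_of_sq2 (c3_nonneg T) ?_
      nlinarith
    rw [quot4]
    have := mul_le_mul this b1.le (by norm_num) (by linarith)
    linarith
  have n := n30_kA hs hs1 r.neg (by linarith)
  have F := n30_facts r.neg
  rw [show 3 / 2 * (c3 T / 2 + T / (4 * h0)) - h0 * -(c3 T / (4 * h0) - T / 2) = c3 T by linarith,
    show h0 * (c3 T / 2 + T / (4 * h0)) + 3 / 2 * -(c3 T / (4 * h0) - T / 2) = T by linarith,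
    kA_c3 hT hT3, abs_neg, abs_of_nonneg (by linarith : 0 ≤ c3 T / (4 * h0) - T / 2)] at n
  have f6 := F.2.2.2.2.2.2
  rw [show h0 * (c3 T / 2 + T / (4 * h0)) + 3 / 2 * -(c3 T / (4 * h0) - T / 2) = T by linarith]
    at f6
  clear F
  generalize c3 T / (4 * h0) - T / 2 = x' at *
  generalize c3 T / 2 + T / (4 * h0) = C' at *
  obtain ⟨hxx, q, q0, q1, e1, e3, e4⟩ := secd_geo h r x0.le (by linarith) (by linarith)
  have C1 := h.C1
  have C1' := r.C1
  have Ch' := r.Ch
  have x0' : 0 < x' := by linarith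
  have eT' : T - (h0 * C - 3 / 2 * x) = (x - x') * (3 / 2 + h0 * q) := by linarith
  have eX' : 3 / 2 * C + h0 * x - c3 T = (x - x') * (h0 - 3 / 2 * q) := by linarith
  have qx : x + x' ≤ 2 * q := by
    rw [← e1]
    have := mul_le_mul_of_nonneg_left (by linarith : C + C' ≤ 2) q0
    linarith
  have dx : 0 ≤ x - x' := by linarith
  have w0 : 0 < 3 / 2 + h0 * q := by positivity
  rw [eT', eX']
  have eR : R3 par s T + (1 / x - 2) * tau T =
      -(tau T / x' * (RA par s x' - (1 / x - 2) * x')) := by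
    rw [n]
    field_simp
    ring
  rw [eR, abs_neg, abs_mul, abs_div, abs_of_pos x0']
  rcases le_or_gt (4 * s) x' with k | k
  · have tb : |tau T| / x' ≤ 3 / 2 + h0 * q := by
      rw [div_le_iff₀ x0']
      rcases lt_or_ge T (h0 / 2) with k1 | k1
      · rw [tau_lo k1, abs_of_nonneg hT]
        have k2 := xl k1
        have k3 : 2675 / 10000 ≤ q := by linarith
        have k4 := mul_le_mul b1.le k3 (by norm_num) hh.le
        have k5 := mul_le_mul (by linarith : (17316 / 10000 : ℝ) ≤ 3 / 2 + h0 * q) k2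
          (by norm_num) w0.le
        linarith
      · rw [tau_mi k1 (by linarith), f6]
        have k2 : 0 < 1 + C' := by linarith
        have k3 : x' / (1 + C') ≤ q := by
          rw [div_le_iff₀ k2]
          have := mul_le_mul_of_nonneg_left (by linarith : C + C' ≤ 1 + C') q0
          linarith
        have k4 : -x' * (3 / 2 - h0 * -x' / (1 + C')) = -(x' * (3 / 2 + h0 * (x' / (1 + C')))) := by
          ring
        have k5 : 0 ≤ x' / (1 + C') := by positivity
        rw [k4, abs_neg, abs_of_nonneg (by positivity)]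
        have := mul_le_mul_of_nonneg_left k3 hh.le
        rw [mul_comm]
        exact mul_le_mul_of_nonneg_right (by linarith) x0'.le
    have e : RA par s x' - (1 / x - 2) * x' = 1 / x * (x - x') := by
      rw [RA_eq hs k]
      field_simp
      ring
    have k6 : 0 ≤ 1 / x * (x - x') := by positivity
    rw [e, abs_of_nonneg k6]
    have k7 := mul_le_mul_of_nonneg_right tb k6
    have k8 : 0 ≤ (x - x') * (3 / 2 + h0 * q) := by positivity
    have k9 : 0 ≤ (x - x') * (h0 - 3 / 2 * q) := mul_nonneg dx (by linarith)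
    linarith
  · have k1 : h0 / 2 ≤ T := by
      by_contra hc
      rw [not_le] at hc
      have := xl hc
      linarith
    rw [tau_mi k1 (by linarith), f6]
    have k2 : 0 < 1 + C' := by linarith
    have k4 : -x' * (3 / 2 - h0 * -x' / (1 + C')) = -(x' * (3 / 2 + h0 * (x' / (1 + C')))) := by
      ring
    have k5 : 0 ≤ x' / (1 + C') := by positivity
    have P := psi_dn hs hx h.hi hxx
    rw [abs_of_pos x0'] at P
    have k6 : |-x' * (3 / 2 - h0 * -x' / (1 + C'))| / x' = 3 / 2 + h0 * (x' / (1 + C')) := by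
      rw [k4, abs_neg, abs_of_nonneg (by positivity)]
      field_simp
    rw [k6]
    have m1 := mul_le_mul_of_nonneg_left P
      (by positivity : 0 ≤ 3 / 2 + h0 * (x' / (1 + C')))
    obtain ⟨n1, n2, n3⟩ := secd_num0 hs hs1 h r x0 x0' k.le dx q0 e1 qx (by rw [← eT']; exact hN)
    have m3 := secd_num1 (ix := 1 / x) b1.le b2.le k5 n2 q0 n1 n3
    have m4 := mul_le_mul_of_nonneg_right m3 dx
    refine m1.trans (le_trans (le_of_eq ?_) (m4.trans (le_of_eq ?_))) <;> ring

/-! ### The slopes -/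

/-- The pinned slope. -/
theorem secd_pin {s : ℝ} (hs : 0 < s) (hs1 : s ≤ 11 / 400) : pinL par s ≤ 13 / 4 := by
  obtain ⟨eg, a, ag, b⟩ := g_facts hs hs1
  have hh := h0_pos
  have g1 := h0_gt
  have g2 := h0_lt
  have hq := h0_sq'
  set T := h0 - s with hTd
  have hT0 : 0 ≤ T := by linarith
  have hT3 : T ^ 2 ≤ 3 := by nlinarith
  have e := c3_sq hT3
  have c0 := c3_nonneg T
  have cl : 3 / 2 ≤ c3 T := by nlinarith
  have c4 : c3 T ≤ 31 / 20 := by nlinarith
  have ec : (c3 T - 3 / 2) * (c3 T + 3 / 2) = s * (2 * h0 - s) := by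
    rw [hTd] at e ⊢
    nlinarith
  have b1 : 1 / 2 * s ≤ c3 T - 3 / 2 := by nlinarith
  have d1 : 1 / 2 * s ≤ c3 T - (1 / 2 + g s) := by linarith
  have es : T / 2 - c3 T / (4 * h0) = -(s / 2 + (c3 T - 3 / 2) * h0 / 3) := by
    rw [quot4, hTd]
    ring
  have s0 : 0 ≤ s / 2 + (c3 T - 3 / 2) * h0 / 3 := by
    have : 0 ≤ (c3 T - 3 / 2) * h0 := mul_nonneg (by linarith) hh.le
    linarith
  have n1 : R3 par s T = RA par s (s / 2 + (c3 T - 3 / 2) * h0 / 3) *
      (3 / 2 + h0 * (s / 2 + (c3 T - 3 / 2) * h0 / 3) / (1 + (c3 T / 2 + T / (4 * h0)))) := by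
    unfold R3
    rw [if_neg (by linarith), if_pos (by linarith), es, abs_neg, abs_of_nonneg s0]
    ring
  generalize s / 2 + (c3 T - 3 / 2) * h0 / 3 = σ at *
  obtain ⟨q1, q2⟩ := RA_one hs
  obtain ⟨p1, p2⟩ := Pe_bd9 hs hs1
  have f0 : 0 ≤ T / (4 * h0) := by positivity
  have f1 : h0 * σ / (1 + (c3 T / 2 + T / (4 * h0))) ≤ 1 / 2 * σ := by
    rw [div_le_iff₀ (by positivity)]
    have := mul_nonneg s0 (by linarith : 0 ≤ 1 / 2 * (1 + (c3 T / 2 + T / (4 * h0))) - h0)
    linarith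
  have f2 : 0 ≤ h0 * σ / (1 + (c3 T / 2 + T / (4 * h0))) := by positivity
  have n3 : R3 par s T ≤ 3 / 2 := by
    rw [n1]
    have k1 := mul_le_mul_of_nonneg_right (RA_le2 hs s0)
      (by linarith : 0 ≤ 3 / 2 + h0 * σ / (1 + (c3 T / 2 + T / (4 * h0))))
    have k2 := mul_nonneg s0 f2
    linarith
  unfold pinL
  rw [← hTd, div_le_iff₀ (by linarith)]
  linarith

theorem secd_slL {s z : ℝ} (hs : 0 < s) (hs1 : s ≤ 11 / 400) (hz : 1 ≤ z) :
    slL par s z ≤ 13 / 4 := by
  have h := secd_pin hs hs1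
  have e : par.sC = 0 := rfl
  have e' : par.mC = 27 / 20 := rfl
  unfold slL
  split_ifs with h1 h2
  · rw [e, le_antisymm h1 hz]
    linarith
  · exact h
  · rw [e']
    norm_num

/-- The circle and `W` below `h0 / 2`. -/
theorem secd_gap {T : ℝ} (hT : 0 ≤ T) (h : T ≤ h0 / 2) :
    2 * h0 - 1271 / 10000 * T ≤ c3 T ∧ Wc T ≤ 11935 / 10000 + 4804 / 10000 * T := by
  have hh := h0_pos
  have hq := h0_sq'
  obtain ⟨b1, b2⟩ := h0_bd
  have hT3 : T ^ 2 ≤ 3 := by nlinarith
  have e := c3_sq hT3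
  obtain ⟨w1, w2⟩ := W_dn hT (by linarith)
  constructor
  · refine le_of_sq2 (c3_nonneg T) ?_
    have := mul_nonneg hT
      (by linarith : 0 ≤ 4 * h0 * (1271 / 10000) - (1 + (1271 / 10000) ^ 2) * T)
    nlinarith
  · have : Wc T - 1 / 2 ≤ 6935 / 10000 + 4804 / 10000 * T := by
      refine le_of_sq2 (by linarith) ?_
      have k1 := mul_nonneg hT (by linarith : 0 ≤ 86603 / 100000 - h0)
      have k2 := sq_nonneg (T - 433 / 1000)
      nlinarith
    linarith

theorem secd_W {s T : ℝ} (hs : 0 < s) (hs1 : s ≤ 11 / 400) (hT : 0 ≤ T) (hT' : T ≤ h0 - s) :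
    |RW par s T - R3 par s T| ≤ 13 / 4 * (c3 T - Wc T) := by
  have hh := h0_pos
  have hq := h0_sq'
  obtain ⟨b1, b2⟩ := h0_bd
  have hT3 : T ^ 2 ≤ 3 := by nlinarith
  obtain ⟨o1, o2, o3, o4, o5⟩ := order5 hT hT3
  rcases lt_or_ge T (h0 / 2) with h1 | h1
  · obtain ⟨g1, g2⟩ := secd_gap hT h1.le
    obtain ⟨r, lo, eX, eT⟩ := secd_rot hT (by linarith)
    have eW : RW par s T = RA par s T := if_pos h1
    have e3 : R3 par s T =
        -(T * (RA par s (c3 T / (4 * h0) - T / 2) / (c3 T / (4 * h0) - T / 2))) := if_pos h1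
    have xl : 1 / 2 - 5367 / 10000 * T ≤ c3 T / (4 * h0) - T / 2 := by
      rw [quot4]
      have k1 := mul_le_mul_of_nonneg_right g1 hh.le
      have k2 := mul_nonneg hT (by linarith : 0 ≤ 86603 / 100000 - h0)
      linarith
    have xu := r.hi
    rw [eW, e3]
    generalize c3 T / (4 * h0) - T / 2 = x' at *
    have x4 : 4 * s ≤ x' := by linarith
    rw [RA_eq hs x4]
    have x0 : 0 < x' := by linarith
    have u0 : 0 ≤ T * ((1 - 2 * x') / x') :=
      mul_nonneg hT (div_nonneg (by linarith) x0.le)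
    have G : 53854 / 100000 - 6075 / 10000 * T ≤ c3 T - Wc T := by linarith
    rcases le_or_gt (4 * s) T with k | k
    · rw [RA_eq hs k, abs_of_nonneg (by linarith)]
      have m1 := mul_nonneg hT (by linarith : 0 ≤ 433015 / 1000000 - T)
      have m2 : T ≤ x' * (13 / 4 * (53854 / 100000 - 6075 / 10000 * T) - 1 + 4 * T) := by
        have := mul_le_mul_of_nonneg_right xl
          (by linarith : 0 ≤ 13 / 4 * (53854 / 100000 - 6075 / 10000 * T) - 1 + 4 * T)
        linarith
      have m3 : x' * (T * ((1 - 2 * x') / x')) = T * (1 - 2 * x') := by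
        field_simp
      have m4 := mul_le_mul_of_nonneg_left G x0.le
      refine le_of_mul_le_mul_left ?_ x0
      linarith
    · have A0 := RA_nonneg hs hT (by linarith)
      have A1 := RA_le hs hT (s := s)
      rw [abs_of_nonneg (by linarith)]
      have m1 : (1 - 2 * x') / x' ≤ 27 / 100 := by
        rw [div_le_iff₀ x0]
        linarith
      have m2 := mul_le_mul_of_nonneg_left m1 hT
      linarith
  · have eW : RW par s T = R3 par s T - slL par s ((h0 - T) / s) * (c3 T - Wc T) := by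
      unfold RW
      rw [if_neg (by linarith), if_pos (by linarith)]
    have z : 1 ≤ (h0 - T) / s := by
      rw [le_div_iff₀ hs]
      linarith
    have s0 := slL_nonneg hs hs1 (by linarith : 0 ≤ (h0 - T) / s)
    rw [eW, sub_sub_cancel_left, abs_neg, abs_of_nonneg (mul_nonneg s0 (by linarith))]
    exact mul_le_mul_of_nonneg_right (secd_slL hs hs1 z) (by linarith)

/-- The kernel on the circle of radius `√3` above `h0 / 2`. -/
theorem secd_R3 {s T : ℝ} (h : h0 / 2 ≤ T) (h' : T < h0) :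
    ∃ x w, 0 ≤ x ∧ 3 / 2 ≤ w ∧ w ≤ 3 / 2 + 465 / 1000 * x ∧ x * w = h0 - T ∧
      R3 par s T = RA par s x * w := by
  have hh := h0_pos
  have hq := h0_sq'
  have hT : 0 ≤ T := by linarith
  obtain ⟨r, lo, eX, eT⟩ := secd_rot hT h'.le
  have x0 : 0 ≤ c3 T / (4 * h0) - T / 2 := by
    rw [quot4]
    have := mul_nonneg (by linarith : 0 ≤ c3 T - 3 / 2) hh.le
    linarith
  have F := (n30_facts r.neg).2.2.2.2.2.2
  rw [show h0 * (c3 T / 2 + T / (4 * h0)) + 3 / 2 * -(c3 T / (4 * h0) - T / 2) = T by linarith]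
    at F
  have e3 : R3 par s T = RA par s (c3 T / (4 * h0) - T / 2) *
      (3 / 2 + h0 * (c3 T / (4 * h0) - T / 2) / (1 + (c3 T / 2 + T / (4 * h0)))) := by
    unfold R3
    rw [if_neg (by linarith), if_pos (by linarith),
      show T / 2 - c3 T / (4 * h0) = -(c3 T / (4 * h0) - T / 2) by ring, abs_neg,
      abs_of_nonneg x0]
    ring
  obtain ⟨k1, k2, -, -⟩ := half_bd r.Ch x0 r.sq
  refine ⟨c3 T / (4 * h0) - T / 2, _, x0, ?_, ?_, ?_, e3⟩
  · have := mul_nonneg (by norm_num : (0 : ℝ) ≤ 433 / 1000) x0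
    linarith
  · linarith
  · generalize c3 T / (4 * h0) - T / 2 = x at *
    generalize c3 T / 2 + T / (4 * h0) = C at *
    have : -x * (3 / 2 - h0 * -x / (1 + C)) = -(x * (3 / 2 + h0 * x / (1 + C))) := by
      ring
    linarith

/-- The distance of the two curves. -/
theorem secd_D {T : ℝ} (h : h0 / 2 ≤ T) (h' : T < h0) :
    9714 / 10000 - 1238 / 1000 * (h0 - T) - 2858 / 10000 * (h0 - T) ^ 2 ≤ Wc T - c1 T := by
  have hh := h0_pos
  have hq := h0_sq'
  obtain ⟨b1, b2⟩ := h0_bd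
  have hT : 0 ≤ T := by linarith
  obtain ⟨w1, w2⟩ := W_dn hT h'
  have e1 := c1_sq hT (by linarith)
  have k1 : 1 - (h0 - T) ^ 2 ≤ Wc T - 1 / 2 := by
    have : Wc T - 1 / 2 ≤ 1 := by nlinarith [sq_nonneg (h0 - T)]
    nlinarith
  have k2 : c1 T ≤ (149 / 100 - T ^ 2) / (14 / 10) := by
    rw [le_div_iff₀ (by norm_num)]
    nlinarith [sq_nonneg (c1 T - 7 / 10)]
  obtain ⟨u, hu⟩ : ∃ u, u = h0 - T := ⟨_, rfl⟩
  have T2 : T ^ 2 = 3 / 4 - 2 * (h0 * u) + u ^ 2 := by
    rw [show T = h0 - u by linarith]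
    linear_combination hq
  rw [← hu] at k1 ⊢
  rw [T2] at k2
  have u0 : 0 ≤ u := by linarith
  have hu0 : h0 * u ≤ 86603 / 100000 * u := mul_le_mul_of_nonneg_right b2.le u0
  have u2 := sq_nonneg u
  linarith

/-- The unit circle between `1 / 2` and `h0`. -/
theorem secd_R1 {s T : ℝ} (hs : 0 < s) (k : 1 / 2 < T) (h' : T < h0) :
    0 ≤ R1 par s T ∧ R1 par s T ≤ 733 / 1000 := by
  have hh := h0_pos
  have hq := h0_sq'
  obtain ⟨b1, b2⟩ := h0_bd
  have hT : 0 ≤ T := by linarith
  have e1 := c1_sq hT (by linarith)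
  have o1 := c1_nonneg T
  obtain ⟨r1, r2⟩ := c1_rot hT (by linarith)
  have cl : 1 / 2 ≤ c1 T := by
    refine le_of_sq2 o1 ?_
    nlinarith
  have cu : c1 T ≤ h0 := by
    refine le_of_sq2 hh.le ?_
    nlinarith
  have y0 : T / 2 - h0 * c1 T ≤ 0 := by
    have := mul_le_mul_of_nonneg_left cl hh.le
    linarith
  have y1 : -(1 / 2) ≤ T / 2 - h0 * c1 T := by
    have := mul_le_mul_of_nonneg_left cu hh.le
    nlinarith
  have C0 : 0 ≤ c1 T / 2 + h0 * T := by positivity
  unfold R1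
  rw [if_neg (by linarith), if_neg (by linarith), abs_of_nonpos y0]
  clear e1 cl cu r2 o1
  generalize T / 2 - h0 * c1 T = y at *
  generalize c1 T / 2 + h0 * T = C at *
  have hC : h0 ≤ C := by
    refine le_of_sq2 C0 ?_
    nlinarith
  obtain ⟨v1, v2, -, -⟩ := half_bd hC (by linarith : 0 ≤ -y) (by rw [neg_sq]; exact r1)
  have ey : h0 * y / (1 + C) = -(h0 * -y / (1 + C)) := by ring
  rw [ey, sub_neg_eq_add]
  have B0 := RA_nonneg hs (by linarith : 0 ≤ -y) (by linarith)
  have B1 := RA_le hs (by linarith : 0 ≤ -y) (s := s)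
  constructor
  · exact mul_nonneg B0 (by linarith)
  · have := mul_le_mul B1 (by linarith : 1 / 2 + h0 * -y / (1 + C) ≤ 733 / 1000)
      (by linarith) zero_le_one
    linarith

/-- The slope between `W` and the point at one third, abstractly. -/
theorem secd_num2 {r1 r3 rw' d S G : ℝ} (hd : 1 / 2 ≤ d) (e : rw' = r3 - S * G)
    (S0 : 0 ≤ S * G) (S1 : S * G ≤ 91 / 100) (a : r3 - r1 ≤ 13 / 6 * d)
    (b : r1 - r3 ≤ 1 / 20) :
    |r1 + 353 / 500 * (1 / 3 * d) - rw'| ≤ 13 / 6 * d := by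
  rw [e, abs_le]
  constructor <;> linarith

theorem secd_one {s T : ℝ} (hs : 0 < s) (hs1 : s ≤ 11 / 400) (h : h0 / 2 ≤ T)
    (hT' : T ≤ h0 - s) :
    |R1 par s T + 353 / 500 * (1 / 3 * (Wc T - c1 T)) - RW par s T| ≤
      13 / 6 * (Wc T - c1 T) := by
  have hh := h0_pos
  have hq := h0_sq'
  obtain ⟨b1, b2⟩ := h0_bd
  have hT : 0 ≤ T := by linarith
  have hT3 : T ^ 2 ≤ 3 := by nlinarith
  obtain ⟨o1, o2, o3, o4, o5⟩ := order5 hT hT3
  have oW : Wc T ≤ c3 T := by linarith
  have d0 : 1 / 2 ≤ Wc T - c1 T ∧ c3 T - Wc T ≤ 28 / 100 := by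
    obtain ⟨w1, w2⟩ := W_dn hT (by linarith)
    have e1 := c1_sq hT (by linarith)
    have e3 := c3_sq hT3
    constructor
    · have : c1 T ≤ Wc T - 1 / 2 := by
        refine le_of_sq2 w2 ?_
        nlinarith
      linarith
    · have k1 : 9 / 10 ≤ Wc T - 1 / 2 := by nlinarith
      have k2 : c3 T ≤ 168 / 100 := by nlinarith [c3_nonneg T]
      linarith
  clear o1 o2 o3 o4 o5
  have eW : RW par s T = R3 par s T - slL par s ((h0 - T) / s) * (c3 T - Wc T) := by
    unfold RW
    rw [if_neg (by linarith), if_pos (by linarith)]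
  have z : 1 ≤ (h0 - T) / s := by
    rw [le_div_iff₀ hs]
    linarith
  have s0 := slL_nonneg hs hs1 (by linarith : 0 ≤ (h0 - T) / s)
  have s1 := secd_slL hs hs1 z
  have S0 : 0 ≤ slL par s ((h0 - T) / s) * (c3 T - Wc T) := mul_nonneg s0 (by linarith)
  have S1 : slL par s ((h0 - T) / s) * (c3 T - Wc T) ≤ 13 / 4 * (28 / 100) :=
    mul_le_mul s1 d0.2 (by linarith) (by norm_num)
  have D := secd_D h (by linarith)
  have L : R3 par s T - R1 par s T ≤ 13 / 6 * (Wc T - c1 T) ∧
      R1 par s T - R3 par s T ≤ 1 / 20 := by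
    obtain ⟨x, w, x0, hw, hw', exw, eR3⟩ := secd_R3 (s := s) h (by linarith)
    have d1 := d0.1
    clear d0 eW z s0 s1 S0 S1 oW hT3
    generalize Wc T - c1 T = d at *
    have xu : x * (3 / 2) ≤ h0 - T := by
      rw [← exw]
      exact mul_le_mul_of_nonneg_left hw x0
    have A := RA_ge hs x0 (s := s)
    have A1 := RA_le hs x0 (s := s)
    have R3lo : (1 - 2 * x) * (3 / 2) ≤ R3 par s T := by
      rw [eR3]
      exact mul_le_mul A hw (by norm_num) (by linarith)
    rcases le_or_gt T (1 / 2) with k | k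
    · have eR1 : R1 par s T = (1 - 2 * T) * ((T - h0) / T) := by
        unfold R1
        rw [if_neg (by linarith), if_pos k, RA_eq hs (by linarith)]
      have q0 : -1 ≤ (T - h0) / T := by
        rw [le_div_iff₀ (by linarith)]
        linarith
      have q1 : (T - h0) / T ≤ 0 := div_nonpos_of_nonpos_of_nonneg (by linarith) hT
      have m1 := mul_le_mul_of_nonneg_left q0 (by linarith : 0 ≤ 1 - 2 * T)
      have m2 := mul_le_mul_of_nonneg_left q1 (by linarith : 0 ≤ 1 - 2 * T)
      rw [← eR1] at m1 m2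
      have x4 : 22 / 100 ≤ x := by
        by_contra hc
        rw [not_le] at hc
        have := mul_le_mul hc.le (by linarith : w ≤ 1603 / 1000) (by linarith) (by norm_num)
        linarith
      have R3up : R3 par s T = w - 2 * (h0 - T) := by
        rw [eR3, RA_eq hs (by linarith), ← exw]
        ring
      constructor <;> linarith
    · obtain ⟨r0, r1⟩ := secd_R1 hs k (by linarith)
      have R3up : R3 par s T ≤ 13 / 6 * d := by
        obtain ⟨u, hu⟩ : ∃ u, u = h0 - T := ⟨_, rfl⟩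
        rw [← hu] at D xu exw
        have u0 : 0 ≤ u := by linarith
        have u1 : u ≤ 3661 / 10000 := by linarith
        rcases le_or_gt (4 * s) x with k4 | k4
        · have e : R3 par s T = w - 2 * u := by
            rw [eR3, RA_eq hs k4, ← exw]
            ring
          rw [e]
          have : u ^ 2 ≤ 3661 / 10000 * u := by
            rw [pow_two]
            exact mul_le_mul_of_nonneg_right u1 u0
          linarith
        · have e : R3 par s T ≤ w := by
            rw [eR3]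
            have := mul_le_mul_of_nonneg_right A1 (by linarith : 0 ≤ w)
            linarith
          have u2 : u ≤ 171 / 1000 := by
            rw [← exw]
            have := mul_le_mul (by linarith : x ≤ 11 / 100) (by linarith : w ≤ 1552 / 1000)
              (by linarith) (by norm_num)
            linarith
          have : u ^ 2 ≤ 171 / 1000 * u := by
            rw [pow_two]
            exact mul_le_mul_of_nonneg_right u2 u0
          linarith
      constructor <;> linarith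
  exact secd_num2 d0.1 eW S0 (by linarith) L.1 L.2

/-! ### The kernel -/

/-- The residue at the nodes. -/
theorem secd_vA {s C x T : ℝ} (hs : 0 < s) (hs1 : s ≤ 11 / 400) (h : Rot C x) (hx : 4 * s ≤ x)
    (hT : 0 ≤ T) (h1 : h0 * C - 3 / 2 * x ≤ T) (h2 : T ≤ h0 - s)
    (hN : T - (h0 * C - 3 / 2 * x) ≤ 79 / 10 * s) (j : Fin 4) :
    |vA par s T j - -(1 / x - 2) * tau T| ≤ (1 / x + 1) * (T - (h0 * C - 3 / 2 * x)) +
      13 / 4 * (3 / 2 * C + h0 * x - pos.cv j T) := by
  have hh := h0_pos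
  have g1 := h0_lt_one
  have hq := h0_sq'
  have hT3 : T ^ 2 ≤ 3 := by nlinarith
  have lt : T < h0 := by linarith
  obtain ⟨o1, o2, o3, o4, o5⟩ := order5 hT hT3
  have v3 := secd_c3 hs hs1 h hx hT h1 h2 hN
  have v23 := secd_W hs hs1 hT h2
  have key : ∀ a b c m : ℝ, |a| ≤ m → |b - a| ≤ c → |b| ≤ m + c := fun a b c m h1 h2 => by
    have : |b| ≤ |a| + |b - a| := by
      have := abs_add_le a (b - a)
      rwa [add_sub_cancel] at this
    linarith
  have v2 := key _ (RW par s T + (1 / x - 2) * tau T) (13 / 4 * (c3 T - Wc T)) _ v3 (by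
    rw [show RW par s T + (1 / x - 2) * tau T - (R3 par s T + (1 / x - 2) * tau T) =
      RW par s T - R3 par s T by ring]
    exact v23)
  have rw' : ∀ y : ℝ, y - -(1 / x - 2) * tau T = y + (1 / x - 2) * tau T := fun y => by ring
  rw [rw']
  have p0 : pos.cv 0 T = c1 T := cv_zero T
  have p1 : pos.cv 1 T = c1 T + 1 / 3 * (Wc T - c1 T) := cv_one_low lt
  have p2 : pos.cv 2 T = Wc T := cv_two_low lt
  have p3 : pos.cv 3 T = c3 T := cv_three T
  have n3 : vA par s T 3 = R3 par s T := rfl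
  have n2 : vA par s T 2 = RW par s T := by
    simp only [vA, Matrix.cons_val]
    rw [if_pos lt]
  have n0 : vA par s T 0 = R1 par s T := if_pos (by linarith)
  rcases lt_or_ge T (h0 / 2) with k | k
  · have eW : RW par s T = RA par s T := if_pos k
    have e1 : R1 par s T = RA par s T := if_pos k
    have n1 : vA par s T 1 = RA par s T := by
      simp only [vA, Matrix.cons_val_one, Matrix.cons_val_zero]
      rw [if_pos k]
    rw [eW] at v2 n2
    rw [e1] at n0
    fin_cases j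
    · change |vA par s T 0 + _| ≤ _ + 13 / 4 * (_ - pos.cv 0 T)
      rw [n0, p0]
      linarith
    · change |vA par s T 1 + _| ≤ _ + 13 / 4 * (_ - pos.cv 1 T)
      rw [n1, p1]
      linarith
    · change |vA par s T 2 + _| ≤ _ + 13 / 4 * (_ - pos.cv 2 T)
      rw [n2, p2]
      linarith
    · change |vA par s T 3 + _| ≤ _ + 13 / 4 * (_ - pos.cv 3 T)
      rw [n3, p3]
      linarith
  · have n1 : vA par s T 1 = R1 par s T + 353 / 500 * (1 / 3 * (Wc T - c1 T)) := by
      simp only [vA, Matrix.cons_val_one, Matrix.cons_val_zero]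
      rw [if_neg (by linarith), if_pos lt]
      rfl
    have v12 := secd_one hs hs1 k h2
    have v1 := key _ (R1 par s T + 353 / 500 * (1 / 3 * (Wc T - c1 T)) +
      (1 / x - 2) * tau T) (13 / 6 * (Wc T - c1 T)) _ v2 (by
      rw [show R1 par s T + 353 / 500 * (1 / 3 * (Wc T - c1 T)) + (1 / x - 2) * tau T -
        (RW par s T + (1 / x - 2) * tau T) =
        R1 par s T + 353 / 500 * (1 / 3 * (Wc T - c1 T)) - RW par s T by ring]
      exact v12)
    have v0 := key _ (R1 par s T + (1 / x - 2) * tau T)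
      (353 / 500 * (1 / 3 * (Wc T - c1 T))) _ v1 (by
      rw [show R1 par s T + (1 / x - 2) * tau T - (R1 par s T +
        353 / 500 * (1 / 3 * (Wc T - c1 T)) + (1 / x - 2) * tau T) =
        -(353 / 500 * (1 / 3 * (Wc T - c1 T))) by ring, abs_neg]
      exact (abs_of_nonneg (by linarith)).le)
    fin_cases j
    · change |vA par s T 0 + _| ≤ _ + 13 / 4 * (_ - pos.cv 0 T)
      rw [n0, p0]
      linarith
    · change |vA par s T 1 + _| ≤ _ + 13 / 4 * (_ - pos.cv 1 T)
      rw [n1, p1]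
      linarith
    · change |vA par s T 2 + _| ≤ _ + 13 / 4 * (_ - pos.cv 2 T)
      rw [n2, p2]
      linarith
    · change |vA par s T 3 + _| ≤ _ + 13 / 4 * (_ - pos.cv 3 T)
      rw [n3, p3]
      linarith

/-- The numbers of the correction. -/
theorem secd_r2 {s : ℝ} (hs : 0 < s) (hs1 : s ≤ 11 / 400) :
    |r2 par s| ≤ 3 / 10 ∧ |r2 par s - r2d par s| ≤ 44 / 100 := by
  obtain ⟨a1, a2⟩ := x1_bd hs hs1
  obtain ⟨b1, b2⟩ := xm_bd hs hs1
  obtain ⟨-, c1', -, c2'⟩ := g_facts hs hs1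
  obtain ⟨p1, p2⟩ := Pe_bd9 hs hs1
  obtain ⟨q1, q2⟩ := RA_one hs
  have hh := h0_pos
  have g1 := h0_gt
  have k1 : 0 ≤ s * (s / g s + 1 / (2 * h0)) := by
    have : 0 < g s := by linarith
    positivity
  have k2 : s * (s / g s + 1 / (2 * h0)) ≤ 2 / 100 := by
    have h1 : s / g s ≤ 3 / 100 := by
      rw [div_le_iff₀ (by linarith)]
      linarith
    have h2 : 1 / (2 * h0) ≤ 3 / 5 := by
      rw [div_le_iff₀ (by positivity)]
      linarith
    nlinarith
  have x0 : 0 < x1 s := by linarith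
  have k3 : 999 / 1000 ≤ g s * xm par s / x1 s := by
    rw [le_div_iff₀ x0]
    have := mul_le_mul c2' b1 (by norm_num) (by linarith)
    linarith
  have k4 : g s * xm par s / x1 s ≤ 1225 / 1000 := by
    rw [div_le_iff₀ x0]
    have := mul_le_mul c1' b2 (by linarith) (by norm_num)
    linarith
  have k5 : 1 / 2 ≤ xm par s / (2 * x1 s) := by
    rw [le_div_iff₀ (by linarith)]
    linarith
  have k6 : xm par s / (2 * x1 s) ≤ 613 / 1000 := by
    rw [div_le_iff₀ (by linarith)]
    linarith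
  unfold r2 r2d
  rw [abs_le, abs_le]
  refine ⟨⟨?_, ?_⟩, ?_, ?_⟩ <;> linarith

/-- The curves at the abscissa. -/
theorem secd_pos {s C x T : ℝ} (hs : 0 < s) (hs1 : s ≤ 11 / 400) (h : Rot C x) (hx : 4 * s ≤ x)
    (hT : 0 ≤ T) (h1 : h0 * C - 3 / 2 * x ≤ T) (h2 : T ≤ h0 - s) :
    c3 T ≤ 3 / 2 * C + h0 * x ∧ Wc T + 27 / 10 * s ≤ 3 / 2 * C + h0 * x ∧ c1 T ≤ Wc T ∧
      (T < h0 / 2 → Wc T + 27 / 100 ≤ 3 / 2 * C + h0 * x) ∧ 6 * s ≤ h0 - (h0 * C - 3 / 2 * x) := by
  have hh := h0_pos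
  have hq := h0_sq'
  obtain ⟨b1, b2⟩ := h0_bd
  have hT3 : T ^ 2 ≤ 3 := by nlinarith
  obtain ⟨o1, o2, o3, o4, o5⟩ := order5 hT hT3
  obtain ⟨r, lo, eX, eT⟩ := secd_rot hT (by linarith)
  have x0' : 0 ≤ c3 T / (4 * h0) - T / 2 := by
    rw [quot4]
    have := mul_nonneg (by linarith : 0 ≤ c3 T - 3 / 2) hh.le
    linarith
  have x0 : 0 ≤ x := by linarith
  have k3 : c3 T ≤ 3 / 2 * C + h0 * x := by
    generalize c3 T / (4 * h0) - T / 2 = x' at *
    generalize c3 T / 2 + T / (4 * h0) = C' at *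
    obtain ⟨hxx, q, q0, q1, e1, e3, e4⟩ := secd_geo h r x0 x0' (by linarith)
    have : 0 ≤ (x - x') * (h0 - 3 / 2 * q) := mul_nonneg (by linarith) (by linarith)
    linarith
  obtain ⟨w1, w2⟩ := W_dn hT (by linarith)
  have kW : Wc T ≤ 3 / 2 := by nlinarith [sq_nonneg (h0 - T)]
  have k4 := secd_X0 hs hs1 h hx
  refine ⟨k3, by linarith, by linarith, fun k => ?_, ?_⟩
  · obtain ⟨g1, g2⟩ := secd_gap hT k.le
    linarith
  · have := mul_le_mul_of_nonneg_left h.C1 hh.le
    linarith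

/-- The correction at the nodes. -/
theorem secd_vR {s C x T : ℝ} (hs : 0 < s) (hs1 : s ≤ 11 / 400) (h : Rot C x) (hx : 4 * s ≤ x)
    (hT : 0 ≤ T) (h1 : h0 * C - 3 / 2 * x ≤ T) (h2 : T ≤ h0 - s) (j : Fin 4) :
    s * |vR par s T j| ≤
      1 / 16 * (T - (h0 * C - 3 / 2 * x) + (3 / 2 * C + h0 * x - pos.cv j T)) := by
  have hh := h0_pos
  have lt : T < h0 := by linarith
  obtain ⟨k3, k2, k1, kl, k6⟩ := secd_pos hs hs1 h hx hT h1 h2
  obtain ⟨r1, r2'⟩ := secd_r2 hs hs1
  have p0 : pos.cv 0 T = c1 T := cv_zero T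
  have p1 : pos.cv 1 T = c1 T + 1 / 3 * (Wc T - c1 T) := cv_one_low lt
  have p2 : pos.cv 2 T = Wc T := cv_two_low lt
  have p3 : pos.cv 3 T = c3 T := cv_three T
  have low : T < h0 / 2 → s * |r2 par s * taper (T / s)| ≤ 1 / 16 * (27 / 100) := by
    intro _
    rw [abs_mul]
    have m1 := mul_le_mul r1 (taper_bd (div_nonneg hT hs.le)) (abs_nonneg _) (by norm_num)
    have m2 := mul_le_mul hs1 m1 (by positivity) (by norm_num)
    linarith
  fin_cases j
  · change s * |vR par s T 0| ≤ 1 / 16 * (_ + (_ - pos.cv 0 T))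
    rw [p0]
    simp only [vR, Matrix.cons_val_zero]
    split_ifs with k
    · linarith [low k, kl k]
    · rw [abs_zero, mul_zero]
      linarith
  · change s * |vR par s T 1| ≤ 1 / 16 * (_ + (_ - pos.cv 1 T))
    rw [p1]
    simp only [vR, Matrix.cons_val_one, Matrix.cons_val_zero]
    split_ifs with k
    · linarith [low k, kl k]
    · rw [abs_zero, mul_zero]
      linarith
  · change s * |vR par s T 2| ≤ 1 / 16 * (_ + (_ - pos.cv 2 T))
    rw [p2]
    simp only [vR, Matrix.cons_val]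
    split_ifs with k
    · linarith [low k, kl k]
    · -- near `h0`
      have z1 : 1 ≤ (h0 - T) / s := by
        rw [le_div_iff₀ hs]
        linarith
      have ez : h0 - T = (h0 - T) / s * s := by field_simp
      rw [abs_mul]
      generalize (h0 - T) / s = z at *
      have t0 : |taper z| ≤ max (1 / 3 * (4 - z)) 0 := by
        unfold taper
        split_ifs with h5 h6
        · have : z = 1 := le_antisymm h5 z1
          rw [this]
          norm_num
        · have e : pl 1 1 4 0 z = 1 / 3 * (4 - z) := by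
            unfold pl
            ring
          rw [e, abs_of_nonneg (by linarith)]
          exact le_max_left _ _
        · rw [abs_zero]
          exact le_max_right _ _
      have m1 := mul_le_mul r2' t0 (abs_nonneg _) (by norm_num)
      have m2 := mul_le_mul_of_nonneg_left m1 hs.le
      rcases le_or_gt z 4 with h5 | h5
      · rw [max_eq_left (by linarith)] at m2
        have m3 := mul_nonneg hs.le (by linarith : 0 ≤ z - 1)
        linarith
      · rw [max_eq_right (by linarith)] at m2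
        linarith
  · change s * |vR par s T 3| ≤ 1 / 16 * (_ + (_ - pos.cv 3 T))
    rw [p3]
    have : vR par s T 3 = 0 := rfl
    rw [this, abs_zero, mul_zero]
    linarith

/-! ### The levels -/

theorem secd_xA {s w : ℝ} (hs : 0 < s) (hs1 : s ≤ 11 / 400) (hw : 0 ≤ w) :
    xA par s w ≤ 319 / 375 * max (4 - w) 0 := by
  obtain ⟨a1, a2⟩ := x1_bd hs hs1
  obtain ⟨b1, b2⟩ := xm_bd hs hs1
  have ea : par.a1 = 319 / 250 := rfl
  rcases le_or_gt w 4 with h4 | h4
  · rw [max_eq_left (by linarith)]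
    unfold xA
    split_ifs with h1 h2
    · have := le_trans (le_abs_self _) (x0_bd hs hs1 hw h1)
      linarith
    · have := pl_le_aff (a := -(319 / 375)) (b := 319 / 375 * 4) (y0 := x1 s + xm par s / 2)
        (y1 := par.a1) (by norm_num : (3 / 2 : ℝ) < 5 / 2) (not_le.1 h1).le h2 (by linarith)
        (by rw [ea]; norm_num)
      linarith
    · have := pl_le_aff (a := -(319 / 375)) (b := 319 / 375 * 4) (y0 := par.a1)
        (y1 := 0) (by norm_num : (5 / 2 : ℝ) < 4) (not_le.1 h2).le h4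
        (by rw [ea]; norm_num) (by norm_num)
      linarith
  · rw [max_eq_right (by linarith), mul_zero]
    unfold xA
    rw [if_neg (by linarith), if_neg (by linarith), if_neg (by linarith)]

theorem secd_lvl {s x : ℝ} (hs : 0 < s) (hx : 0 ≤ x) :
    lvl s x ≤ 571 / 2250 * (s * max (5 * s - x) 0) := by
  rcases le_or_gt (5 * s) x with h | h
  · rw [lvl_far hs h]
    have := le_max_right (5 * s - x) 0
    positivity
  · rw [max_eq_left (by linarith)]
    rcases le_or_gt (2 * s) x with h2 | h2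
    · rw [lvl_mid hs h2 h.le]
    · have z0 : 0 ≤ x / (2 * s) := div_nonneg hx (by linarith)
      have z1 : x / (2 * s) ≤ 1 := by
        rw [div_le_one (by linarith)]
        exact h2.le
      have k1 : xB par (x / (2 * s)) ≤ 571 / 750 := by
        unfold xB par
        rw [if_pos z1]
        simp only
        nlinarith
      have k2 := mul_le_mul_of_nonneg_left k1 (sq_nonneg s)
      have k3 := mul_nonneg hs.le (by linarith : 0 ≤ 2 * s - x)
      unfold lvl
      nlinarith

/-- The level on the circle. -/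
theorem secd_X3 {s C x T : ℝ} (hs : 0 < s) (hs1 : s ≤ 11 / 400) (h : Rot C x) (hx : 4 * s ≤ x)
    (hT : 0 ≤ T) (h1 : h0 * C - 3 / 2 * x ≤ T) (h2 : T ≤ h0 - s) :
    |s ^ 2 * X3 par s T - lvl s x| ≤
        1 / 25 * (T - (h0 * C - 3 / 2 * x) + (3 / 2 * C + h0 * x - c3 T)) ∧
      (5 * s ≤ x → |s ^ 2 * X3 par s T| ≤
        1 / 64 * (T - (h0 * C - 3 / 2 * x) + (3 / 2 * C + h0 * x - c3 T))) := by
  have hh := h0_pos
  have hq := h0_sq'
  obtain ⟨r, lo, eX, eT⟩ := secd_rot hT (by linarith)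
  have x0' : 0 ≤ c3 T / (4 * h0) - T / 2 := by
    rw [quot4]
    have := mul_nonneg (by linarith : 0 ≤ c3 T - 3 / 2) hh.le
    linarith
  have x0 : 0 ≤ x := by linarith
  have e3 : s ^ 2 * X3 par s T = s ^ 2 * xA par s ((c3 T / (4 * h0) - T / 2) / s) +
      lvl s (c3 T / (4 * h0) - T / 2) := by
    unfold X3 lvl
    rw [if_pos (by linarith)]
    ring
  rw [e3]
  generalize c3 T / (4 * h0) - T / 2 = x' at *
  generalize c3 T / 2 + T / (4 * h0) = C' at *
  obtain ⟨hxx, q, q0, q1, -, f3, f4⟩ := secd_geo h r x0 x0' (by linarith)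
  have dx : 0 ≤ x - x' := by linarith
  have D : 2 * (x - x') ≤ T - (h0 * C - 3 / 2 * x) + (3 / 2 * C + h0 * x - c3 T) := by
    have e : T - (h0 * C - 3 / 2 * x) + (3 / 2 * C + h0 * x - c3 T) =
        (x - x') * (3 / 2 + h0 - (3 / 2 - h0) * q) := by
      linear_combination f3 + f4 + eT - eX
    rw [e]
    have g1 := h0_lt_one
    have k1 : (3 / 2 - h0) * q ≤ h0 - 1 / 2 := by
      have := mul_le_mul_of_nonneg_left q1 (by linarith : 0 ≤ (3 / 2 - h0) * (2 / 3))
      nlinarith
    have := mul_le_mul_of_nonneg_left (by linarith : 2 ≤ 3 / 2 + h0 - (3 / 2 - h0) * q) dx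
    linarith
  -- the two parts
  have A0 : 0 ≤ s ^ 2 * xA par s (x' / s) :=
    mul_nonneg (sq_nonneg s) (xA_nonneg hs hs1 (div_nonneg x0' hs.le))
  have A1 : s ^ 2 * xA par s (x' / s) ≤ 319 / 375 * (s * (x - x')) := by
    have k := mul_le_mul_of_nonneg_left (secd_xA hs hs1 (div_nonneg x0' hs.le)) (sq_nonneg s)
    have e : s ^ 2 * (319 / 375 * max (4 - x' / s) 0) = 319 / 375 * (s * max (4 * s - x') 0) := by
      have : s * max (4 - x' / s) 0 = max (4 * s - x') 0 := by
        rw [mul_max_of_nonneg _ _ hs.le, mul_zero]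
        congr 1
        field_simp
      rw [← this]
      ring
    rw [e] at k
    have k2 : max (4 * s - x') 0 ≤ x - x' := max_le (by linarith) dx
    have := mul_le_mul_of_nonneg_left k2 hs.le
    linarith
  have B0 := lvl_nonneg hs x0'
  have B1 := secd_lvl hs x0'
  have L0 := lvl_nonneg hs x0
  have sx : s * (x - x') ≤ 11 / 400 * (x - x') := mul_le_mul_of_nonneg_right hs1 dx
  constructor
  · have B2 : lvl s x' - lvl s x ≤ 571 / 2250 * (s * (x - x')) := by
      rcases le_or_gt (5 * s) x with k | k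
      · have k2 : max (5 * s - x') 0 ≤ x - x' := max_le (by linarith) dx
        have := mul_le_mul_of_nonneg_left k2 hs.le
        linarith
      · rw [lvl_mid hs (by linarith) k.le]
        rw [max_eq_left (by linarith)] at B1
        linarith
    have B3 : lvl s x - lvl s x' ≤ 2 / 25 * (x - x') := by
      rcases le_or_gt (5 * s) x with k | k
      · rw [lvl_far hs k]
        linarith
      · rcases le_or_gt (2 * s) x' with k2 | k2
        · rw [lvl_mid hs (by linarith) k.le, lvl_mid hs k2 (by linarith)]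
          have := mul_nonneg hs.le dx
          linarith
        · have k3 := lvl_mid hs (by linarith : 2 * s ≤ x) k.le
          have k4 := mul_le_mul hs1 (by linarith : 5 * s - x ≤ s) (by linarith)
            (by norm_num : (0 : ℝ) ≤ 11 / 400)
          linarith
    rw [abs_le]
    constructor
    · linarith
    · linarith
  · intro k
    have k2 : max (5 * s - x') 0 ≤ x - x' := max_le (by linarith) dx
    have k3 := mul_le_mul_of_nonneg_left k2 hs.le
    rw [abs_of_nonneg (by linarith)]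
    linarith

/-- The level at the other nodes. -/
theorem secd_vx {s T : ℝ} (hs : 0 < s) (hs1 : s ≤ 11 / 400) (hT : 0 ≤ T) (lt : T < h0)
    (j : Fin 4) (hj : j ≠ 3) : |vx par s T j| ≤ 32 / 25 := by
  have g1 := h0_lt_one
  have A := xA_bd hs hs1 (div_nonneg hT hs.le)
  have B := X1_128 hs hs1 hT (by linarith)
  fin_cases j
  · change |vx par s T 0| ≤ _
    simp only [vx, Matrix.cons_val_zero]
    rw [if_pos (by linarith)]
    exact B
  · change |vx par s T 1| ≤ _
    simp only [vx, Matrix.cons_val_one, Matrix.cons_val_zero]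
    split_ifs with k
    · exact A
    · exact B
  · change |vx par s T 2| ≤ _
    simp only [vx, Matrix.cons_val]
    split_ifs with k
    · exact A
    · have := xW_bd hs hs1 (w := (h0 - T) / s) (div_nonneg (by linarith) hs.le)
      linarith
  · exact absurd rfl hj

theorem secd_vX {s C x T : ℝ} (hs : 0 < s) (hs1 : s ≤ 11 / 400) (h : Rot C x) (hx : 4 * s ≤ x)
    (hT : 0 ≤ T) (h1 : h0 * C - 3 / 2 * x ≤ T) (h2 : T ≤ h0 - s) (j : Fin 4) :
    |vX par s T j - lvl s x| ≤
        1 / 25 * (T - (h0 * C - 3 / 2 * x) + (3 / 2 * C + h0 * x - pos.cv j T)) ∧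
      (5 * s ≤ x → |vX par s T j| ≤
        1 / 64 * (T - (h0 * C - 3 / 2 * x) + (3 / 2 * C + h0 * x - pos.cv j T))) := by
  have lt : T < h0 := by linarith
  rcases eq_or_ne j 3 with rfl | hj
  · have p3 : pos.cv 3 T = c3 T := cv_three T
    rw [p3]
    exact secd_X3 hs hs1 h hx hT h1 h2
  · obtain ⟨k3, k2, k1, kl, k6⟩ := secd_pos hs hs1 h hx hT h1 h2
    have p0 : pos.cv 0 T = c1 T := cv_zero T
    have p1 : pos.cv 1 T = c1 T + 1 / 3 * (Wc T - c1 T) := cv_one_low lt
    have p2 : pos.cv 2 T = Wc T := cv_two_low lt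
    have pj : pos.cv j T ≤ Wc T := by
      fin_cases j
      · exact p0.trans_le k1
      · exact p1.trans_le (by linarith)
      · exact p2.le
      · exact absurd rfl hj
    have V := secd_vx hs hs1 hT lt j hj
    have V2 : |vX par s T j| ≤ 32 / 25 * s ^ 2 := by
      unfold vX
      rw [abs_mul, abs_of_nonneg (sq_nonneg s)]
      have := mul_le_mul_of_nonneg_left V (sq_nonneg s)
      linarith
    have x0 : 0 ≤ x := by linarith
    have L0 := lvl_nonneg hs x0
    have L1 : lvl s x ≤ 4 / 5 * s ^ 2 := by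
      have k := le_trans (le_abs_self _) (xB_bd (div_nonneg x0 (by linarith : 0 ≤ 2 * s)))
      have := mul_le_mul_of_nonneg_left k (sq_nonneg s)
      unfold lvl
      linarith
    have s2 : s ^ 2 ≤ 11 / 400 * s := by nlinarith
    have V3 := abs_le.1 V2
    constructor
    · rw [abs_le]
      constructor <;> linarith [V3.1, V3.2]
    · intro _
      linarith

/-! ### The strip -/

/-- Next to the direction of 30 degrees, below. -/
theorem sec_m30 {s C x X T : ℝ} (hs : 0 < s) (hs1 : s ≤ 11 / 400) (h : Rot C x) (hx : 4 * s ≤ x)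
    (hA : Ann X T) (hN : Nr s (3 / 2 * C + h0 * x) (h0 * C - 3 / 2 * x) X T)
    (hT : h0 * C - 3 / 2 * x ≤ T) (hT' : T ≤ h0 - s) (hX : X ≤ 3 / 2 * C + h0 * x) :
    Sec s (-(1 / x - 2)) x (lvl s x) (3 / 2 * C + h0 * x) (h0 * C - 3 / 2 * x) X T 1
      (13 / 4) := by
  have T0 := hA.T0
  obtain ⟨n1, n2⟩ := hN.abs hs
  have k := secd_X0 hs hs1 h hx
  have hX0 : 0 ≤ X := by linarith [(abs_le.1 n1).1]
  have eT : |T - (h0 * C - 3 / 2 * x)| = T - (h0 * C - 3 / 2 * x) := abs_of_nonneg (by linarith)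
  have eX : |X - (3 / 2 * C + h0 * x)| = 3 / 2 * C + h0 * x - X := by
    rw [abs_sub_comm]
    exact abs_of_nonneg (by linarith)
  rw [eT] at n2
  refine ⟨?_, ?_, ?_, ?_⟩
  · rw [eT, eX]
    exact secd_conv (adm_vA par s) T0 hX0 hA.lo hA.hi
      (secd_vA hs hs1 h hx T0 hT hT' n2)
  · rw [eT, eX]
    have := secd_conv (adm_vR s) T0 hX0 hA.lo hA.hi (χ := 0)
      (a := 1 / 16 * (1 / s) * (T - (h0 * C - 3 / 2 * x))) (b := 1 / 16 * (1 / s))
      (X0 := 3 / 2 * C + h0 * x) (fun j => by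
        rw [sub_zero]
        have m := secd_vR hs hs1 h hx T0 hT hT' j
        refine le_of_mul_le_mul_left (m.trans (le_of_eq ?_)) hs
        field_simp)
    rw [sub_zero] at this
    have m := mul_le_mul_of_nonneg_left this hs.le
    refine m.trans (le_of_eq ?_)
    field_simp
  · rw [eT, eX]
    have := secd_conv (adm_vX par s) T0 hX0 hA.lo hA.hi (χ := lvl s x)
      (a := 1 / 25 * (T - (h0 * C - 3 / 2 * x))) (b := 1 / 25)
      (X0 := 3 / 2 * C + h0 * x) (fun j => by
        have m := (secd_vX hs hs1 h hx T0 hT hT' j).1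
        linarith)
    refine this.trans (le_of_eq ?_)
    ring
  · intro h5
    rw [eT, eX]
    have := secd_conv (adm_vX par s) T0 hX0 hA.lo hA.hi (χ := 0)
      (a := 1 / 64 * (T - (h0 * C - 3 / 2 * x))) (b := 1 / 64)
      (X0 := 3 / 2 * C + h0 * x) (fun j => by
        have m := (secd_vX hs hs1 h hx T0 hT hT' j).2 h5
        rw [sub_zero]
        linarith)
    rw [sub_zero] at this
    refine this.trans (le_of_eq ?_)
    ring

end Pool.Agent.Strip051.LC.E0.Out
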