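import Pool.Agent.Strip051.LC.E0.OutM

/-! # Small rests: the order of two directions -/

namespace Pool.Agent.Strip051.LC.E0.Out

open Pool.Agent.StripNear Pool.Agent.StripSquare Pool.Agent.Strip051 Pool.Agent.Strip051.Sweep
open Pool.Agent.Strip051.LC.Line (tau)

section

variable {C x C' x' : ℝ}

/-- The cosine and the sine of the angle between two directions. -/
theorem geo_sq (h : Rot C x) (h' : Rot C' x') :
    (C * C' + x * x') ^ 2 + (x * C' - C * x') ^ 2 = 1 := by
  have e : (C * C' + x * x') ^ 2 + (x * C' - C * x') ^ 2 =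
      (C ^ 2 + x ^ 2) * (C' ^ 2 + x' ^ 2) := by ring
  rw [e, h.sq, h'.sq, one_mul]

/-- The sign of the sine. -/
theorem geo_sgn (h : Rot C x) (h' : Rot C' x') :
    (x * C' - C * x') * (C + C') = (x - x') * (1 + (C * C' + x * x')) := by
  linear_combination x * h'.sq - x' * h.sq

/-- The cosine is at least `1 / 2`. -/
theorem geo_half (h : Rot C x) (h' : Rot C' x') : 1 / 2 ≤ C * C' + x * x' := by
  have hh := h0_pos
  have hq := h0_sq'
  have a := h.Ch
  have a' := h'.Ch
  have p : h0 * h0 ≤ C * C' := mul_le_mul a a' hh.le (by linarith)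
  have q : -(1 / 4) ≤ x * x' := by
    have l := h.lo
    have u := h.hi
    have l' := h'.lo
    have u' := h'.hi
    have e : 0 ≤ (x + x') ^ 2 := sq_nonneg _
    have e1 : x ^ 2 ≤ 1 / 4 := by nlinarith
    have e2 : x' ^ 2 ≤ 1 / 4 := by nlinarith
    nlinarith
  nlinarith

theorem geo_neg (h : Rot C x) (h' : Rot C' x') (hx : x < x') :
    x * C' - C * x' < 0 := by
  have hh := h0_pos
  have a := h.Ch
  have a' := h'.Ch
  have s := geo_sgn h h'
  have d := geo_half h h'
  by_contra hM
  rw [not_lt] at hM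
  have e1 : 0 ≤ (x * C' - C * x') * (C + C') := mul_nonneg hM (by linarith)
  have e2 : (x - x') * (1 + (C * C' + x * x')) < 0 :=
    mul_neg_of_neg_of_pos (by linarith) (by linarith)
  linarith

/-- The order of the two angles, unit sides. -/
theorem geo_ord (h : Rot C x) (h' : Rot C' x')
    (h1 : C * C' + x * x' - 2 * h0 * (x * C' - C * x') ≤ 1) : x' ≤ x := by
  obtain ⟨b1, b2⟩ := h0_bd
  by_contra hx
  rw [not_le] at hx
  have m := geo_neg h h' hx
  have d := geo_half h h'
  have q := geo_sq h h'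
  generalize C * C' + x * x' = D at *
  generalize x * C' - C * x' = M at *
  have e1 : 2 * h0 * (-M) * (1 + D) ≤ (1 - D) * (1 + D) :=
    mul_le_mul_of_nonneg_right (by linarith) (by linarith)
  have e2 : -M ≤ 1 := by nlinarith
  have e3 : (-M) * (2 * h0 * (1 + D)) ≤ (-M) * (-M) := by nlinarith
  have e4 : 2 * h0 * (1 + D) ≤ -M := le_of_mul_le_mul_left e3 (by linarith)
  nlinarith

/-- The order of the two angles, a unit side and a side of length `√3`. -/
theorem geo_ord3 (h : Rot C x) (h' : Rot C' x')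
    (h1 : 3 * (C * C' + x * x') - 2 * h0 * (x * C' - C * x') ≤ 3)
    (hc : 0 ≤ h0 * (C * C' + x * x') + 3 / 2 * (x * C' - C * x')) : x' ≤ x := by
  obtain ⟨b1, b2⟩ := h0_bd
  by_contra hx
  rw [not_le] at hx
  have m := geo_neg h h' hx
  have d := geo_half h h'
  have q := geo_sq h h'
  generalize C * C' + x * x' = D at *
  generalize x * C' - C * x' = M at *
  have e1 : 2 * h0 * (-M) * (1 + D) ≤ 3 * (1 - D) * (1 + D) :=
    mul_le_mul_of_nonneg_right (by linarith) (by linarith)
  have e3 : (-M) * (2 * h0 * (1 + D)) ≤ (-M) * (3 * (-M)) := by nlinarith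
  have e4 : 2 * h0 * (1 + D) ≤ 3 * (-M) := le_of_mul_le_mul_left e3 (by linarith)
  nlinarith

/-- The extreme case. -/
theorem geo_ex (h : Rot C x) (h' : Rot C' x') (hD : C * C' + x * x' ≤ 1 / 2) :
    C = h0 ∧ C' = h0 ∧ (x = 1 / 2 ∧ x' = -(1 / 2) ∨ x = -(1 / 2) ∧ x' = 1 / 2) := by
  have hh := h0_pos
  have hq := h0_sq'
  have a := h.Ch
  have a' := h'.Ch
  have l := h.lo
  have u := h.hi
  have l' := h'.lo
  have u' := h'.hi
  have e1 : x ^ 2 ≤ 1 / 4 := by nlinarith
  have e2 : x' ^ 2 ≤ 1 / 4 := by nlinarith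
  have e3 : -(1 / 4) ≤ x * x' := by nlinarith [sq_nonneg (x + x')]
  have e4 : C * C' ≤ h0 * h0 := by nlinarith
  have c1 : C = h0 := by
    refine le_antisymm ?_ a
    have e5 : C * h0 ≤ h0 * h0 := (mul_le_mul_of_nonneg_left a' h.C0).trans e4
    exact le_of_mul_le_mul_right e5 hh
  have c2 : C' = h0 := by
    refine le_antisymm ?_ a'
    have e5 : h0 * C' ≤ h0 * h0 := (mul_le_mul_of_nonneg_right a h'.C0).trans e4
    exact le_of_mul_le_mul_left e5 hh
  refine ⟨c1, c2, ?_⟩
  have e6 : x * x' ≤ -(1 / 4) := by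
    rw [c1, c2] at hD
    nlinarith
  have e7 : (x + x') ^ 2 ≤ 0 := by nlinarith
  have e8 : x + x' = 0 := by
    have := sq_nonneg (x + x')
    have e9 : (x + x') ^ 2 = 0 := le_antisymm e7 this
    exact pow_eq_zero_iff (two_ne_zero) |>.mp e9
  have e9 : x' = -x := by linarith
  rw [e9] at e6 ⊢
  have e10 : (x - 1 / 2) * (x + 1 / 2) = 0 := by nlinarith
  rcases mul_eq_zero.mp e10 with e | e
  · left
    constructor <;> linarith
  · right
    constructor <;> linarith

end

end Pool.Agent.Strip051.LC.E0.Out
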