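import Pool.Agent.Strip051.LC.E0.O3.Lev
import Pool.Agent.Strip051.LC.E0.O3.H_L3B4

/-! # Small rests, half strips: a long side at `30 - θ`, a unit side at `60 - θ'` -/

namespace Pool.Agent.Strip051.LC.E0.Out

open Pool.Agent.StripNear Pool.Agent.StripSquare Pool.Agent.Strip051 Pool.Agent.Strip051.Sweep
open Pool.Agent.Strip051.LC.Line (tau)

/-- The levels next to a reference of height at least `5 s`. -/
theorem l1b_lvl {s t y : ℝ} (hs : 0 < s) (ht : 5 * s ≤ t) (hy : 0 ≤ y) (ho : y ≤ t) :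
    |lvl s y| ≤ 26 / 100 * s * (t - y) := by
  have := lvl_lip hs (by linarith : 4 * s ≤ t) hy ho
  rwa [lvl_far hs ht, zero_sub, abs_neg] at this

theorem l1b_xA {s t y : ℝ} (hs : 0 < s) (hs1 : s ≤ 11 / 400) (ht : 5 * s ≤ t) (hy : 0 ≤ y)
    (ho : y ≤ t) : |s ^ 2 * xA par s (y / s)| ≤ 86 / 100 * s * (t - y) := by
  obtain ⟨X, hX, -, -⟩ := scl hs t
  obtain ⟨w, hw, hw1, -⟩ := scl hs y
  have h1 : 4 ≤ X := le_of_mul_le_mul_left (by linarith) hs
  have h2 : 0 ≤ w := by
    rw [hw] at hy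
    exact nonneg_of_mul_nonneg_right hy hs
  have h3 : w ≤ X := le_of_mul_le_mul_left (by linarith) hs
  have h4 := abs_sc hs (u_0 hs hs1 h1 h2 h3)
  rw [hw1]
  refine h4.trans (le_of_eq ?_)
  rw [hX, hw]
  ring

/-- A side 12 of length `√3` at `30 - θ` and a unit side 13 at `60 - θ'`, the free side is the
reference. -/
theorem hs_L1B {s C x C' x' : ℝ} (hs : 0 < s) (hs1 : s ≤ 11 / 400) (h : Rot C x) (h' : Rot C' x')
    (ho : x' ≤ x) (hq : (C - C') ^ 2 + (x - x') ^ 2 ≤ (22 / 10 * s) ^ 2)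
    (ht : 5 * s ≤ h0 * C' - x' / 2 - (h0 * C - 3 / 2 * x))
    (ht' : h0 * C' - x' / 2 - (h0 * C - 3 / 2 * x) ≤ 1 / 2)
    (hl : 1 ≤ (C' / 2 + h0 * x' - (3 / 2 * C + h0 * x)) ^ 2 +
      (h0 * C' - x' / 2 - (h0 * C - 3 / 2 * x)) ^ 2) :
    cost s (-(1 / (h0 * C' - x' / 2 - (h0 * C - 3 / 2 * x)) - 2)) 0 (3 / 2 * C + h0 * x)
      (C' / 2 + h0 * x') (h0 * C - 3 / 2 * x) (h0 * C' - x' / 2 - (h0 * C - 3 / 2 * x)) ≤
      84 / 100 * (x - x') := by
  have g1 := h0_gt
  have g2 := h0_lt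
  have hh := h0_pos
  obtain ⟨b1, b2⟩ := h0_bd
  have hq' := h0_sq'
  -- the displacement
  obtain ⟨q, q1, q2, q3, q4⟩ := mv h h'
  have Ch := h.Ch
  have Ch' := h'.Ch
  have a0 : 0 ≤ x - x' := by linarith
  have as : x - x' ≤ 22 / 10 * s := by
    refine le_of_sq2 (by linarith) ?_
    have := sq_nonneg (C - C')
    linarith
  have q5 : |q| * (2 * h0) ≤ 1 := by
    have : |x + x'| ≤ 1 := by
      rw [abs_le]
      constructor <;> linarith [h.lo, h.hi, h'.lo, h'.hi]
    linarith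
  have q6 : |h0 * q| ≤ 1 / 2 := by
    rw [abs_mul, abs_of_pos hh]
    linarith
  obtain ⟨q7, q8⟩ := abs_le.1 q6
  -- the free side
  obtain ⟨t, et⟩ : ∃ t, h0 * C' - x' / 2 - (h0 * C - 3 / 2 * x) = t := ⟨_, rfl⟩
  have e13 : h0 * C - 3 / 2 * x + t = h0 * C' - x' / 2 := by
    rw [← et]
    ring
  have tx : t - x = (x - x') * (1 / 2 + h0 * q) := by
    rw [← et]
    linear_combination h0 * q1
  have tx' : t - x' = (x - x') * (3 / 2 + h0 * q) := by
    rw [← et]
    linear_combination h0 * q1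
  rw [et] at ht ht' hl ⊢
  have p1 : 0 ≤ (x - x') * (1 / 2 + h0 * q) := mul_nonneg a0 (by linarith)
  have p2 : (x - x') * (1 / 2 + h0 * q) ≤ (x - x') * 1 :=
    mul_le_mul_of_nonneg_left (by linarith) a0
  have p3 : 0 ≤ (x - x') * (3 / 2 + h0 * q) := mul_nonneg a0 (by linarith)
  have p4 : (x - x') * (3 / 2 + h0 * q) ≤ (x - x') * 2 :=
    mul_le_mul_of_nonneg_left (by linarith) a0
  have t0 : 0 < t := by linarith
  have x0 : 0 < x' := by linarith
  have qn : 0 ≤ q := by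
    by_contra hc
    rw [not_le] at hc
    have := mul_nonpos_of_nonpos_of_nonneg hc.le (by linarith : 0 ≤ C + C')
    linarith
  obtain ⟨X, eX⟩ : ∃ X, 3 / 2 * C + h0 * x - (C' / 2 + h0 * x') = X := ⟨_, rfl⟩
  have e23 : C' / 2 + h0 * x' - (3 / 2 * C + h0 * x) = -X := by
    rw [← eX]
    ring
  have eXX : X = C + (x - x') * (h0 - q / 2) := by
    rw [← eX]
    linear_combination (-1 / 2) * q1
  have q9 : q ≤ 29 / 50 := (abs_le.1 q4).2
  have p5 : 0 ≤ (x - x') * (h0 - q / 2) := mul_nonneg a0 (by linarith)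
  have p6 : (x - x') * (h0 - q / 2) ≤ (x - x') * (867 / 1000) :=
    mul_le_mul_of_nonneg_left (by linarith) a0
  have X0 : 0 ≤ X := by linarith
  have ec := n0_facts h (by linarith)
  have c1p := c1_nonneg t
  have c1s := c1_sq t0.le (by linarith : t ≤ 1)
  have ct : h0 ≤ c1 t := by
    refine le_of_sq2 c1p ?_
    nlinarith
  have cX : c1 t ≤ X := by
    refine le_of_sq2 X0 ?_
    rw [e23, neg_sq] at hl
    linarith
  have cC : C - c1 t ≤ 58 / 100 * (t - x) := by
    have e1 : (C - c1 t) * (C + c1 t) = (t - x) * (t + x) := by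
      linear_combination h.sq - c1s
    have e2 : (t - x) * (t + x) ≤ (t - x) * 1 :=
      mul_le_mul_of_nonneg_left (by linarith [h.hi]) (by linarith)
    by_contra hc
    rw [not_le] at hc
    have e3 : 0 ≤ C - c1 t := by linarith
    have e4 : (C - c1 t) * (173 / 100) ≤ (C - c1 t) * (C + c1 t) :=
      mul_le_mul_of_nonneg_left (by linarith) e3
    linarith
  have mX : X - c1 t ≤ 145 / 100 * (x - x') := by linarith
  have cone := h.C1
  have bX : X ≤ Wc t := by
    rcases le_total t (7 / 50) with h1 | h1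
    · have := low_near t0.le h1
      linarith
    · have hx7 : 7 / 100 ≤ x := by linarith
      rcases le_total t (36 / 100) with h2 | h2
      · have := l3b4_low t0.le h2
        linarith
      · have := (low_bd t0.le (by linarith : t < h0)).1
        linarith
  have cXX : h0 / 2 ≤ t → X ≤ c1 t + 1 / 3 * (Wc t - c1 t) := by
    intro h1
    have e1 := (low_bd t0.le (by linarith : t < h0)).2.2.2
    have e2 : c1 t ≤ 91 / 100 := by
      refine le_of_sq2 (by norm_num) ?_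
      have := pow_le_pow_left₀ (by linarith) h1 2
      norm_num at this ⊢
      linarith
    have e3 : (h0 - t) ^ 2 ≤ 3 / 16 := by
      have : h0 - t ≤ h0 / 2 := by linarith
      have : (h0 - t) ^ 2 ≤ (h0 / 2) ^ 2 := pow_le_pow_left₀ (by linarith) this 2
      linarith
    linarith
  obtain ⟨F1, F2, F3⟩ := l3b4_free hs hs1 (by linarith) ht' cX bX cXX
  -- the two nodes
  obtain ⟨u, hu, -, hu2, hu3, -⟩ := h.half
  obtain ⟨u', hu', -, hu2', hu3', -⟩ := h'.half
  have u0 := hu3 (by linarith)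
  have u0' := hu3' (by linarith)
  have u1 := (abs_le.1 hu2).2
  have u1' := (abs_le.1 hu2').2
  have hu5 : 0 ≤ h0 * u := mul_nonneg hh.le u0
  have hu6 : h0 * u ≤ 233 / 1000 := by
    have := mul_le_mul b2.le u1 u0 (by norm_num)
    linarith
  have hu5' : 0 ≤ h0 * u' := mul_nonneg hh.le u0'
  have hu6' : h0 * u' ≤ 233 / 1000 := by
    have := mul_le_mul b2.le u1' u0' (by norm_num)
    linarith
  have N1 := n30_res hs hs1 h.neg (-(1 / t - 2))
  have N2 := n60_res hs hs1 h'.neg (-(1 / t - 2))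
  have k1 : 3 / 2 * C - h0 * -x = 3 / 2 * C + h0 * x := by ring
  have k2 : h0 * C + 3 / 2 * -x = h0 * C - 3 / 2 * x := by ring
  have k3 : C' / 2 - h0 * -x' = C' / 2 + h0 * x' := by ring
  have k4 : h0 * C' + -x' / 2 = h0 * C' - x' / 2 := by ring
  have NR1 := n30_kR (s := s) h.neg
  have NR2 := n60_kR (s := s) h'.neg
  have NX1 := n30_kX_dn (s := s) h.neg (by linarith)
  have NX2 := n60_kX_dn hs hs1 h'.neg (by linarith)
  rw [k1, k2] at N1 NR1 NX1
  rw [k3, k4] at N2 NR2 NX2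
  rw [neg_neg] at NX1 NX2
  have P1 := psi_dn hs (by linarith : 4 * s ≤ t) ht' (by linarith : x ≤ t)
  have P2 := psi_dn hs (by linarith : 4 * s ≤ t) ht' (by linarith : x' ≤ t)
  have R1 : |RA par s |-x| - -(1 / t - 2) * -x| ≤ (1 / t + 7 / 3) * (t - x) := by
    rw [abs_neg x, show -(1 / t - 2) * -x = (1 / t - 2) * x by ring]
    exact P1
  have R2 : |RA par s |-x'| - -(1 / t - 2) * -x'| ≤ (1 / t + 7 / 3) * (t - x') := by
    rw [abs_neg x', show -(1 / t - 2) * -x' = (1 / t - 2) * x' by ring]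
    exact P2
  have v1 : (3 : ℝ) / 2 - h0 * (-x / (1 + C)) = 3 / 2 + h0 * u := by
    rw [neg_div, hu]
    ring
  have v2 : (1 : ℝ) / 2 - h0 * (-x' / (1 + C')) = 1 / 2 + h0 * u' := by
    rw [neg_div, hu']
    ring
  rw [v1] at N1
  rw [v2] at N2
  have st : s * (1 / t + 7 / 3) ≤ 265 / 1000 := by
    have : s * (1 / t) ≤ 1 / 5 := by
      rw [mul_one_div, div_le_iff₀ t0]
      linarith
    linarith
  have st0 : 0 ≤ s * (1 / t + 7 / 3) := by positivity
  have c12 : s * |kA s (3 / 2 * C + h0 * x) (h0 * C - 3 / 2 * x) - -(1 / t - 2) *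
      tau (h0 * C - 3 / 2 * x)| ≤ 46 / 100 * (x - x') := by
    have m1 : |kA s (3 / 2 * C + h0 * x) (h0 * C - 3 / 2 * x) - -(1 / t - 2) *
      tau (h0 * C - 3 / 2 * x)| ≤ (1 / t + 7 / 3) * (t - x) * (3 / 2 + h0 * u) :=
      N1.trans (mul_le_mul_of_nonneg_right R1 (by linarith))
    have m2 := mul_le_mul_of_nonneg_left m1 hs.le
    have m3 : s * ((1 / t + 7 / 3) * (t - x) * (3 / 2 + h0 * u)) =
        s * (1 / t + 7 / 3) * ((t - x) * (3 / 2 + h0 * u)) := by ring
    have m4 : (t - x) * (3 / 2 + h0 * u) ≤ (x - x') * (1733 / 1000) :=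
      mul_le_mul (by linarith) (by linarith) (by linarith) a0
    have m5 := mul_le_mul st m4 (mul_nonneg (by linarith) (by linarith)) (by norm_num)
    linarith
  have c13 : s * |kA s (C' / 2 + h0 * x') (h0 * C' - x' / 2) - -(1 / t - 2) *
      tau (h0 * C' - x' / 2)| ≤ 39 / 100 * (x - x') := by
    have m1 : |kA s (C' / 2 + h0 * x') (h0 * C' - x' / 2) - -(1 / t - 2) *
      tau (h0 * C' - x' / 2)| ≤ (1 / t + 7 / 3) * (t - x') * (1 / 2 + h0 * u') :=
      N2.le.trans (mul_le_mul_of_nonneg_right R2 (by linarith))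
    have m2 := mul_le_mul_of_nonneg_left m1 hs.le
    have m3 : s * ((1 / t + 7 / 3) * (t - x') * (1 / 2 + h0 * u')) =
        s * (1 / t + 7 / 3) * ((t - x') * (1 / 2 + h0 * u')) := by ring
    have m4 : (t - x') * (1 / 2 + h0 * u') ≤ (x - x') * 2 * (733 / 1000) :=
      mul_le_mul (by linarith) (by linarith) (by linarith) (by linarith)
    have m5 := mul_le_mul st m4 (mul_nonneg (by linarith) (by linarith)) (by norm_num)
    linarith
  have res : ∀ A κ τ : ℝ, |-A - -κ * τ| = |A - κ * τ| := by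
    intro A κ τ
    rw [show -A - -κ * τ = -(A - κ * τ) by ring, abs_neg]
  have c23 : s * |kA s (-X) t - -(1 / t - 2) * tau t| ≤ 3 / 100 * (x - x') := by
    rw [kA_neg, res]
    have k1 := mul_le_mul_of_nonneg_left F1 hs.le
    have k2 : s * (353 / 500 * (X - c1 t)) ≤ 11 / 400 * (353 / 500 * (X - c1 t)) :=
      mul_le_mul_of_nonneg_right hs1 (mul_nonneg (by norm_num) (by linarith))
    linarith
  have L1 : |kX s (3 / 2 * C + h0 * x) (h0 * C - 3 / 2 * x)| ≤ 4 / 100 * (x - x') := by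
    rw [NX1]
    have m1 := l1b_xA hs hs1 ht (by linarith : 0 ≤ x) (by linarith)
    have m2 := l1b_lvl hs ht (by linarith : 0 ≤ x) (by linarith)
    refine (abs_add_le _ _).trans ((add_le_add m1 m2).trans ?_)
    have m3 : s * (t - x) ≤ 11 / 400 * (x - x') := mul_le_mul hs1 (by linarith) (by linarith)
      (by norm_num)
    linarith
  have L2 : |kX s (C' / 2 + h0 * x') (h0 * C' - x' / 2)| ≤ 2 / 100 * (x - x') := by
    rw [NX2]
    refine (l1b_lvl hs ht x0.le (by linarith)).trans ?_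
    have m3 : s * (t - x') ≤ 11 / 400 * ((x - x') * 2) := mul_le_mul hs1 (by linarith)
      (by linarith) (by norm_num)
    linarith
  unfold cost
  rw [e23, e13, kR_neg s X t, F2, kX_neg s X t, F3, NR1, NR2]
  simp only [neg_zero, add_zero, abs_zero, mul_zero]
  have e : 57736 / 100000 * s * (|kA s (3 / 2 * C + h0 * x) (h0 * C - 3 / 2 * x) -
      -(1 / t - 2) * tau (h0 * C - 3 / 2 * x)| + |kA s (-X) t - -(1 / t - 2) * tau t| +
      |kA s (C' / 2 + h0 * x') (h0 * C' - x' / 2) - -(1 / t - 2) * tau (h0 * C' - x' / 2)|) =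
      57736 / 100000 * (s * |kA s (3 / 2 * C + h0 * x) (h0 * C - 3 / 2 * x) -
      -(1 / t - 2) * tau (h0 * C - 3 / 2 * x)| + s * |kA s (-X) t - -(1 / t - 2) * tau t| +
      s * |kA s (C' / 2 + h0 * x') (h0 * C' - x' / 2) - -(1 / t - 2) *
      tau (h0 * C' - x' / 2)|) := by ring
  rw [e]
  linarith

end Pool.Agent.Strip051.LC.E0.Out
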