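import Pool.Agent.Strip051.LC.E0.O3.Lev

/-! # Small rests: the half strip L3B1 -/

namespace Pool.Agent.Strip051.LC.E0.Out

open Pool.Agent.StripNear Pool.Agent.StripSquare Pool.Agent.Strip051 Pool.Agent.Strip051.Sweep
open Pool.Agent.Strip051.LC.Line (tau)

/-- A unit side 12 at `θ` and a side 13 of length `√3` at `30 + θ'`, the reference: the point next to the free side. -/
theorem nr_L3B1 {s C x C' x' : ℝ} (hs : 0 < s) (hs1 : s ≤ 11 / 400) (h : Rot C x) (h' : Rot C' x')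
    (hx : 0 ≤ x) (hx' : 4 * s ≤ x') (ho : x ≤ x')
    (hq : (C - C') ^ 2 + (x - x') ^ 2 ≤ (22 / 10 * s) ^ 2) :
    Nr s (C' / 2 - h0 * x') (h0 * C' + x' / 2) (3 / 2 * C' - h0 * x' - C) (h0 * C' + 3 / 2 * x' - x) ∧ h0 * C' + x' / 2 ≤ h0 * C' + 3 / 2 * x' - x := by
  constructor
  · unfold Nr
    have e : (3 / 2 * C' - h0 * x' - C - (C' / 2 - h0 * x')) ^ 2 +
        (h0 * C' + 3 / 2 * x' - x - (h0 * C' + x' / 2)) ^ 2 = (C - C') ^ 2 + (x - x') ^ 2 := by
      ring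
    rw [e]
    nlinarith [sq_nonneg s]
  · linarith

/-- A unit side 12 at `θ` and a side 13 of length `√3` at `30 + θ'`, the reference. -/
theorem hs_L3B1 {s C x C' x' : ℝ} (hs : 0 < s) (hs1 : s ≤ 11 / 400) (h : Rot C x) (h' : Rot C' x')
    (hx : 0 ≤ x) (hx' : 4 * s ≤ x') (ho : x ≤ x')
    (hq : (C - C') ^ 2 + (x - x') ^ 2 ≤ (22 / 10 * s) ^ 2)
    (S : Sec s (1 / x' - 2) x' (-lvl s x') (C' / 2 - h0 * x') (h0 * C' + x' / 2)
      (3 / 2 * C' - h0 * x' - C) (h0 * C' + 3 / 2 * x' - x) 3 1) :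
    cost s (1 / x' - 2) (lvl s x') (C) (3 / 2 * C' - h0 * x') (x) (h0 * C' + 3 / 2 * x' - x) ≤ 84 / 100 * (x' - x) := by
  have hh := h0_pos
  have x0 : 0 < x' := by linarith
  obtain ⟨a, ea⟩ : ∃ a, a = x' - x := ⟨_, rfl⟩
  have a0 : 0 ≤ a := by linarith
  obtain ⟨i, hi⟩ : ∃ i, i = 1 / x' := ⟨_, rfl⟩
  have i0 : 0 < i := by rw [hi]; positivity
  have ix : i * x' = 1 := by rw [hi]; field_simp
  have is : i * s ≤ 1 / 4 := by
    have := mul_le_mul_of_nonneg_left hx' i0.le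
    linarith
  -- the side 12
  have A12 : |kA s C x - (1 / x' - 2) * tau x| ≤ (i + 7 / 3) * a := by
    have r := n0_res (s := s) h hx (1 / x' - 2)
    have p := psi_dn hs hx' h'.hi ho
    rw [abs_of_nonneg hx] at p
    rw [hi, ea]
    exact r.trans p
  obtain ⟨X12, R12⟩ := lev0 hs hs1 h hx' hx ho
  rw [← ea] at X12 R12
  -- the side 13
  have A13 : |kA s (3 / 2 * C' - h0 * x') (h0 * C' + 3 / 2 * x') -
      (1 / x' - 2) * tau (h0 * C' + 3 / 2 * x')| = 0 := by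
    have r := n30_res hs hs1 h' (1 / x' - 2)
    have z : |RA par s |x'| - (1 / x' - 2) * x'| = 0 := by
      rw [psi_up hs hx' le_rfl, sub_self, mul_zero]
    rw [z, zero_mul] at r
    exact le_antisymm r (abs_nonneg _)
  have R13 : kR s (3 / 2 * C' - h0 * x') (h0 * C' + 3 / 2 * x') = 0 := n30_kR h'
  have X13 : kX s (3 / 2 * C' - h0 * x') (h0 * C' + 3 / 2 * x') = -lvl s x' := by
    rw [n30_kX_up h' x0.le, xA_far hs hx']
    ring
  -- the side 23
  obtain ⟨q, hq1, -, -, hq2⟩ := mv h h'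
  have dT : |h0 * C' + 3 / 2 * x' - x - (h0 * C' + x' / 2)| = a := by
    rw [show h0 * C' + 3 / 2 * x' - x - (h0 * C' + x' / 2) = a by rw [ea]; ring]
    exact abs_of_nonneg a0
  have dX : |3 / 2 * C' - h0 * x' - C - (C' / 2 - h0 * x')| ≤ 29 / 50 * a := by
    rw [show 3 / 2 * C' - h0 * x' - C - (C' / 2 - h0 * x') = C' - C by ring, hq1,
      show x - x' = -a by rw [ea]; ring, abs_mul, abs_neg, abs_of_nonneg a0]
    have := mul_le_mul_of_nonneg_left hq2 a0
    linarith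
  have sA := S.A
  have sR := S.R
  have sL := S.L
  rw [dT, ← hi] at sA
  rw [dT] at sR sL
  have et : x + (h0 * C' + 3 / 2 * x' - x) = h0 * C' + 3 / 2 * x' := by ring
  unfold cost
  rw [et, A13, R13, X13, neg_add_cancel, abs_zero, add_zero, add_zero, add_zero, ← ea]
  rw [sub_neg_eq_add] at sL
  rw [← hi] at A12 ⊢
  -- the numbers
  have sa : s * a ≤ 11 / 400 * a := mul_le_mul_of_nonneg_right hs1 a0
  have ia : s * ((i + 7 / 3) * a) ≤ (1 / 4 + 7 / 3 * (11 / 400)) * a := by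
    have := mul_le_mul_of_nonneg_right is a0
    nlinarith
  have ib : s * ((i + 3) * a + 1 * (29 / 50 * a)) ≤ (1 / 4 + 358 / 100 * (11 / 400)) * a := by
    have := mul_le_mul_of_nonneg_right is a0
    nlinarith
  have t1 := mul_le_mul_of_nonneg_left A12 hs.le
  have t2 := mul_le_mul_of_nonneg_left sA hs.le
  have t2' : s * ((i + 3) * a + 1 * |3 / 2 * C' - h0 * x' - C - (C' / 2 - h0 * x')|) ≤
      s * ((i + 3) * a + 1 * (29 / 50 * a)) := by
    apply mul_le_mul_of_nonneg_left _ hs.le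
    linarith
  have t3 := mul_le_mul_of_nonneg_left R12 hs.le
  have t4 : s * |kR s (3 / 2 * C' - h0 * x' - C) (h0 * C' + 3 / 2 * x' - x)| ≤ 1 / 10 * a := by
    linarith
  have t5 := mul_le_mul_of_nonneg_left t4 hs.le
  nlinarith

end Pool.Agent.Strip051.LC.E0.Out
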