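import Pool.Agent.Strip051.LC.E0.OutM

/-! # Small rests: the half strip L3B2 -/

namespace Pool.Agent.Strip051.LC.E0.Out

open Pool.Agent.StripNear Pool.Agent.StripSquare Pool.Agent.Strip051 Pool.Agent.Strip051.Sweep
open Pool.Agent.Strip051.LC.Line (tau)

theorem l3b2_dist {s a b : ℝ} (hs : 0 < s) (hq : b ^ 2 + a ^ 2 ≤ (22 / 10 * s) ^ 2) :
    |a| ≤ 22 / 10 * s ∧ |b| ≤ 22 / 10 * s := by
  constructor
  · refine le_of_sq2 (by linarith) ?_
    rw [sq_abs]
    nlinarith [sq_nonneg b]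
  · refine le_of_sq2 (by linarith) ?_
    rw [sq_abs]
    nlinarith [sq_nonneg a]

/-- The level of a long node next to the vertical direction. -/
theorem l3b2_lev90 {s x C' x' : ℝ} (hs : 0 < s) (hs1 : s ≤ 11 / 400) (h' : Rot C' x')
    (hx : 5 * s ≤ x) (ho : x' ≤ x) (ha : x - x' ≤ 22 / 10 * s) :
    |kX s (2 * h0 * x') (2 * h0 * C')| ≤ 52 / 100 * s * (x - x') := by
  have h1 : 14 / 5 * s ≤ x' := by linarith
  have n : 0 ≤ s * (x - x') := mul_nonneg hs.le (by linarith)
  rw [n90_kX hs hs1 h' (by linarith)]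
  rcases le_or_gt (5 * s) x' with h5 | h5
  · rw [lvl_far hs h5, xA_far hs (by linarith), mul_zero, mul_zero, sub_zero, abs_zero]
    linarith
  · rw [lvl_mid hs (by linarith) h5.le]
    have a1 : s * (5 * s - x') ≤ s * (x - x') := mul_le_mul_of_nonneg_left (by linarith) hs.le
    have a2 : 0 ≤ s * (5 * s - x') := mul_nonneg hs.le (by linarith)
    rcases le_or_gt (4 * s) x' with h4 | h4
    · rw [xA_far hs h4, mul_zero, sub_zero, abs_of_nonneg (by linarith)]
      linarith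
    · have w1 : 5 / 2 < x' / s := by
        rw [lt_div_iff₀ hs]
        linarith
      have w2 : x' / s ≤ 4 := by
        rw [div_le_iff₀ hs]
        linarith
      have e : s ^ 2 * xA par s (x' / s) = 319 / 375 * (s * (4 * s - x')) := by
        unfold xA
        rw [if_neg (by linarith), if_neg (by linarith), if_pos w2]
        unfold pl par
        simp only
        field_simp
        ring
      rw [e]
      have a3 : 0 ≤ s * (4 * s - x') := mul_nonneg hs.le (by linarith)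
      have a4 : 0 ≤ s * (x' - 14 / 5 * s) := mul_nonneg hs.le (by linarith)
      rw [abs_le]
      constructor
      · nlinarith
      · nlinarith

/-- A unit side 12 at `60 - θ` and a side 13 of length `√3` at `90 - θ'`: the point next to the free side. -/
theorem nr_L3B2 {s C x C' x' : ℝ} (hs : 0 < s) (hs1 : s ≤ 11 / 400) (h : Rot C x) (h' : Rot C' x')
    (hx : 5 * s ≤ x) (ho : x' ≤ x)
    (hq : (C - C') ^ 2 + (x - x') ^ 2 ≤ (22 / 10 * s) ^ 2) :
    Nr s (C / 2 - h0 * x) (h0 * C + x / 2) (-(2 * h0 * x' - (C / 2 + h0 * x))) (2 * h0 * C' - (h0 * C - x / 2)) ∧ h0 * C + x / 2 ≤ 2 * h0 * C' - (h0 * C - x / 2) := by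
  have hh := h0_pos
  have hq' := h0_sq'
  obtain ⟨ha, -⟩ := l3b2_dist hs hq
  have hx0 : 0 ≤ x' := by linarith [(abs_le.1 ha).2]
  constructor
  · unfold Nr
    have e : (-(2 * h0 * x' - (C / 2 + h0 * x)) - (C / 2 - h0 * x)) ^ 2 +
        (2 * h0 * C' - (h0 * C - x / 2) - (h0 * C + x / 2)) ^ 2 =
        3 * ((C - C') ^ 2 + (x - x') ^ 2) := by
      linear_combination (4 * ((C - C') ^ 2 + (x - x') ^ 2)) * hq'
    rw [e]
    nlinarith [sq_nonneg s]
  · have hC : C ≤ C' := by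
      refine le_of_sq2 h'.C0 ?_
      have a := h.sq
      have b := h'.sq
      nlinarith
    nlinarith

/-- A unit side 12 at `60 - θ` and a side 13 of length `√3` at `90 - θ'`. -/
theorem hs_L3B2 {s C x C' x' : ℝ} (hs : 0 < s) (hs1 : s ≤ 11 / 400) (h : Rot C x) (h' : Rot C' x')
    (hx : 5 * s ≤ x) (ho : x' ≤ x)
    (hq : (C - C') ^ 2 + (x - x') ^ 2 ≤ (22 / 10 * s) ^ 2)
    (S : Sec s (1 / x - 2) x (-lvl s x) (C / 2 - h0 * x) (h0 * C + x / 2)
      (-(2 * h0 * x' - (C / 2 + h0 * x))) (2 * h0 * C' - (h0 * C - x / 2)) (1 / 2) 1) :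
    cost s (-(1 / x - 2)) 0 (C / 2 + h0 * x) (2 * h0 * x') (h0 * C - x / 2) (2 * h0 * C' - (h0 * C - x / 2)) ≤ 84 / 100 * (x - x') := by
  have hh := h0_pos
  have g1 := h0_gt
  have g2 := h0_lt
  obtain ⟨ha, -⟩ := l3b2_dist hs hq
  have ha2 := (abs_le.1 ha).2
  have x0 : 0 < x := by linarith
  have hx0 : 0 < x' := by linarith
  obtain ⟨a, ea⟩ : ∃ a, a = x - x' := ⟨_, rfl⟩
  have a0 : 0 ≤ a := by linarith
  obtain ⟨i, hi⟩ : ∃ i, i = 1 / x := ⟨_, rfl⟩
  have i0 : 0 < i := by rw [hi]; positivity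
  have ix : i * x = 1 := by rw [hi]; field_simp
  have i2 : 2 ≤ i := by
    have := h.hi
    nlinarith
  have is : i * s ≤ 1 / 5 := by nlinarith
  -- the side 12
  have n := h.neg
  have e1 : C / 2 - h0 * -x = C / 2 + h0 * x := by ring
  have e2 : h0 * C + -x / 2 = h0 * C - x / 2 := by ring
  have hR : RA par s x = 1 - 2 * x := RA_eq hs (by linarith)
  have A12 : |kA s (C / 2 + h0 * x) (h0 * C - x / 2) - -(1 / x - 2) * tau (h0 * C - x / 2)| = 0 := by
    have r := n60_res hs hs1 n (-(1 / x - 2))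
    rw [e1, e2, abs_neg, abs_of_pos x0, hR] at r
    have z : 1 - 2 * x - -(1 / x - 2) * -x = 0 := by
      rw [← hi]
      linear_combination -ix
    rw [r, z, abs_zero, zero_mul]
  have R12 : kR s (C / 2 + h0 * x) (h0 * C - x / 2) = 0 := by
    have r := n60_kR (s := s) n
    rwa [e1, e2] at r
  have X12 : kX s (C / 2 + h0 * x) (h0 * C - x / 2) = 0 := by
    have r := n60_kX_dn hs hs1 n (by linarith)
    rwa [e1, e2, neg_neg, lvl_far hs hx] at r
  -- the side 13
  obtain ⟨u, hu, hu1, hu2, hu3, -⟩ := h'.half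
  have u0 := hu3 hx0.le
  have ux : u * (2 * h0) ≤ 93 / 100 * x' := by
    have hc := h'.Ch
    have t : u * (1 + 0.866) ≤ x' := by
      rw [← hu1]
      exact mul_le_mul_of_nonneg_left (by linarith) u0
    have t' : u * (2 * h0) ≤ u * 1.7322 := mul_le_mul_of_nonneg_left (by linarith) u0
    linarith
  have A13 : |kA s (2 * h0 * x') (2 * h0 * C') - -(1 / x - 2) * tau (2 * h0 * C')| ≤
      (i + 7 / 3) * a * (93 / 100 * x') := by
    have r := n90_res hs hs1 h' hx0 (1 / x - 2)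
    have p := psi_dn hs (by linarith : 4 * s ≤ x) h.hi ho
    rw [abs_of_pos hx0] at p
    rw [show kA s (2 * h0 * x') (2 * h0 * C') - -(1 / x - 2) * tau (2 * h0 * C') =
      kA s (2 * h0 * x') (2 * h0 * C') + (1 / x - 2) * tau (2 * h0 * C') by ring, r, hu, hi, ea]
    refine mul_le_mul p (by linarith) (by positivity) ?_
    rw [← hi, ← ea]
    positivity
  have R13 : kR s (2 * h0 * x') (2 * h0 * C') = 0 := n90_kR h' hx0.le
  have X13 := l3b2_lev90 hs hs1 h' hx ho ha2
  rw [← ea] at X13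
  -- the side 23
  obtain ⟨q, hq1, hq2, -, -⟩ := mv h h'
  have hq3 : |q| * (2 * h0) ≤ 2 * x := by
    rw [abs_of_pos (by linarith : 0 < x + x')] at hq2
    linarith
  have dT : |2 * h0 * C' - (h0 * C - x / 2) - (h0 * C + x / 2)| = a * (|q| * (2 * h0)) := by
    rw [show 2 * h0 * C' - (h0 * C - x / 2) - (h0 * C + x / 2) = (2 * h0) * (C' - C) by ring, hq1,
      ← ea, abs_mul (2 * h0), abs_mul a, abs_of_nonneg a0, abs_of_pos (by positivity : 0 < 2 * h0)]
    ring
  have dX : |-(2 * h0 * x' - (C / 2 + h0 * x)) - (C / 2 - h0 * x)| = 2 * h0 * a := by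
    rw [show -(2 * h0 * x' - (C / 2 + h0 * x)) - (C / 2 - h0 * x) = 2 * h0 * a by rw [ea]; ring]
    exact abs_of_nonneg (by positivity)
  obtain ⟨d, hd⟩ : ∃ d, d = a * (|q| * (2 * h0)) := ⟨_, rfl⟩
  have d0 : 0 ≤ d := by rw [hd]; positivity
  have d1 : d ≤ a * (2 * x) := by rw [hd]; exact mul_le_mul_of_nonneg_left hq3 a0
  have dh : 2 * h0 * a ≤ 17322 / 10000 * a := by nlinarith
  have sA := S.A
  have sR := S.R
  have sL := S.L5 hx
  rw [dT, dX, ← hd] at sA sR sL
  rw [← hi] at sA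
  have hX : 2 * h0 * x' - (C / 2 + h0 * x) = -(-(2 * h0 * x' - (C / 2 + h0 * x))) := by ring
  have A23 : |kA s (2 * h0 * x' - (C / 2 + h0 * x)) (2 * h0 * C' - (h0 * C - x / 2)) -
      -(1 / x - 2) * tau (2 * h0 * C' - (h0 * C - x / 2))| ≤
      (i + 1 / 2) * d + 1 * (17322 / 10000 * a) := by
    rw [hX, kA_neg, ← hi]
    rw [show -kA s (-(2 * h0 * x' - (C / 2 + h0 * x))) (2 * h0 * C' - (h0 * C - x / 2)) -
      -(i - 2) * tau (2 * h0 * C' - (h0 * C - x / 2)) =
      -(kA s (-(2 * h0 * x' - (C / 2 + h0 * x))) (2 * h0 * C' - (h0 * C - x / 2)) -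
      (i - 2) * tau (2 * h0 * C' - (h0 * C - x / 2))) by ring, abs_neg]
    linarith
  have R23 : s * |kR s (2 * h0 * x' - (C / 2 + h0 * x)) (2 * h0 * C' - (h0 * C - x / 2))| ≤
      1 / 16 * (d + 17322 / 10000 * a) := by
    rw [hX, kR_neg, abs_neg]
    linarith
  have X23 : |kX s (2 * h0 * x' - (C / 2 + h0 * x)) (2 * h0 * C' - (h0 * C - x / 2))| ≤
      1 / 64 * (d + 17322 / 10000 * a) := by
    rw [hX, kX_neg, abs_neg]
    linarith
  have et : h0 * C - x / 2 + (2 * h0 * C' - (h0 * C - x / 2)) = 2 * h0 * C' := by ring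
  unfold cost
  rw [et, A12, R12, X12, R13, add_zero, add_zero, abs_zero, zero_add, zero_add, zero_add, add_zero,
    ← ea]
  -- the numbers
  have id : i * d ≤ 2 * a := by
    have := mul_le_mul_of_nonneg_left d1 i0.le
    have e : i * (a * (2 * x)) = 2 * a := by linear_combination (2 * a) * ix
    linarith
  have dd : d ≤ a := by
    have := mul_le_mul_of_nonneg_left h.hi a0
    linarith
  have ia : (i + 7 / 3) * a * (93 / 100 * x') ≤ 21 / 10 * a := by
    have k1 : (i + 7 / 3) * x' ≤ 13 / 6 := by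
      have k2 : i * x' ≤ 1 := by
        have := mul_le_mul_of_nonneg_left ho i0.le
        linarith
      have := h'.hi
      linarith
    have := mul_le_mul_of_nonneg_left k1 a0
    nlinarith
  have t1 : |kA s (2 * h0 * x' - (C / 2 + h0 * x)) (2 * h0 * C' - (h0 * C - x / 2)) -
      -(1 / x - 2) * tau (2 * h0 * C' - (h0 * C - x / 2))| +
      |kA s (2 * h0 * x') (2 * h0 * C') - -(1 / x - 2) * tau (2 * h0 * C')| ≤ 7 * a := by
    linarith
  have t2 := mul_le_mul_of_nonneg_left t1 hs.le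
  have t3 : s * a ≤ 11 / 400 * a := mul_le_mul_of_nonneg_right hs1 a0
  have t4 := mul_le_mul_of_nonneg_left R23 hs.le
  have t5 : s * d ≤ 11 / 400 * a := by
    have := mul_le_mul_of_nonneg_right hs1 d0
    linarith
  nlinarith

end Pool.Agent.Strip051.LC.E0.Out
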