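import Pool.Agent.Strip051.LC.E0.OutM

/-! # Small rests: the half strip L3B3 -/

namespace Pool.Agent.Strip051.LC.E0.Out

open Pool.Agent.StripNear Pool.Agent.StripSquare Pool.Agent.Strip051 Pool.Agent.Strip051.Sweep
open Pool.Agent.Strip051.LC.Line (tau)

theorem l3b3_dist {s a b : ℝ} (hs : 0 < s) (hq : b ^ 2 + a ^ 2 ≤ (22 / 10 * s) ^ 2) :
    |a| ≤ 22 / 10 * s ∧ |b| ≤ 22 / 10 * s := by
  constructor
  · refine le_of_sq2 (by linarith) ?_
    rw [sq_abs]
    nlinarith [sq_nonneg b]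
  · refine le_of_sq2 (by linarith) ?_
    rw [sq_abs]
    nlinarith [sq_nonneg a]

/-- A unit side 12 at `60 + θ` and a side 13 of length `√3` at `90 + θ'`: the point next to the free side. -/
theorem nr_L3B3 {s C x C' x' : ℝ} (hs : 0 < s) (hs1 : s ≤ 11 / 400) (h : Rot C x) (h' : Rot C' x')
    (hx : 5 * s ≤ x) (ho : x ≤ x')
    (hq : (C - C') ^ 2 + (x - x') ^ 2 ≤ (22 / 10 * s) ^ 2) :
    Nr s (C / 2 + h0 * x) (h0 * C - x / 2) (-(-(2 * h0 * x') - (C / 2 - h0 * x))) (2 * h0 * C' - (h0 * C + x / 2)) ∧ h0 * C - x / 2 - 4 * s ≤ 2 * h0 * C' - (h0 * C + x / 2) ∧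
      2 * h0 * C' - (h0 * C + x / 2) ≤ h0 + 3 / 2 * s := by
  have hh := h0_pos
  have hq' := h0_sq'
  have g2 := h0_lt
  obtain ⟨-, hc⟩ := l3b3_dist hs hq
  have hc2 := (abs_le.1 hc).2
  have x0 : 0 < x := by linarith
  have hC : C' ≤ C := by
    refine le_of_sq2 h.C0 ?_
    have a := h.sq
    have b := h'.sq
    nlinarith
  refine ⟨?_, ?_, ?_⟩
  · unfold Nr
    have e : (-(-(2 * h0 * x') - (C / 2 - h0 * x)) - (C / 2 + h0 * x)) ^ 2 +
        (2 * h0 * C' - (h0 * C + x / 2) - (h0 * C - x / 2)) ^ 2 =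
        3 * ((C - C') ^ 2 + (x - x') ^ 2) := by
      linear_combination (4 * ((C - C') ^ 2 + (x - x') ^ 2)) * hq'
    rw [e]
    nlinarith [sq_nonneg s]
  · have := mul_le_mul_of_nonneg_left hc2 (by positivity : 0 ≤ 2 * h0)
    nlinarith
  · have a := mul_le_mul_of_nonneg_left hC hh.le
    have b := mul_le_mul_of_nonneg_left h'.C1 hh.le
    linarith

/-- A unit side 12 at `60 + θ` and a side 13 of length `√3` at `90 + θ'`. -/
theorem hs_L3B3 {s C x C' x' : ℝ} (hs : 0 < s) (hs1 : s ≤ 11 / 400) (h : Rot C x) (h' : Rot C' x')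
    (hx : 5 * s ≤ x) (ho : x ≤ x')
    (hq : (C - C') ^ 2 + (x - x') ^ 2 ≤ (22 / 10 * s) ^ 2)
    (S : Sec s (-(1 / x - 2)) x (lvl s x) (C / 2 + h0 * x) (h0 * C - x / 2)
      (-(-(2 * h0 * x') - (C / 2 - h0 * x))) (2 * h0 * C' - (h0 * C + x / 2)) 5 1) :
    cost s (1 / x - 2) 0 (C / 2 - h0 * x) (-(2 * h0 * x')) (h0 * C + x / 2) (2 * h0 * C' - (h0 * C + x / 2)) ≤ 84 / 100 * (x' - x) := by
  have hh := h0_pos
  have g1 := h0_gt
  have g2 := h0_lt
  obtain ⟨ha, -⟩ := l3b3_dist hs hq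
  have ha1 := (abs_le.1 ha).1
  have x0 : 0 < x := by linarith
  have hx0 : 0 < x' := by linarith
  have x2 : x' ≤ 144 / 100 * x := by linarith
  obtain ⟨a, ea⟩ : ∃ a, a = x' - x := ⟨_, rfl⟩
  have a0 : 0 ≤ a := by linarith
  obtain ⟨i, hi⟩ : ∃ i, i = 1 / x := ⟨_, rfl⟩
  have i0 : 0 < i := by rw [hi]; positivity
  have ix : i * x = 1 := by rw [hi]; field_simp
  have ix' : i * x' ≤ 144 / 100 := by
    have := mul_le_mul_of_nonneg_left x2 i0.le
    linarith
  -- the side 12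
  have hR : RA par s x = 1 - 2 * x := RA_eq hs (by linarith)
  have A12 : |kA s (C / 2 - h0 * x) (h0 * C + x / 2) - (1 / x - 2) * tau (h0 * C + x / 2)| = 0 := by
    have r := n60_res hs hs1 h (1 / x - 2)
    rw [abs_of_pos x0, hR] at r
    have z : 1 - 2 * x - (1 / x - 2) * x = 0 := by
      rw [← hi]
      linear_combination -ix
    rw [r, z, abs_zero, zero_mul]
  have R12 : kR s (C / 2 - h0 * x) (h0 * C + x / 2) = 0 := n60_kR h
  have X12 : kX s (C / 2 - h0 * x) (h0 * C + x / 2) = 0 := by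
    rw [n60_kX_up hs hs1 h x0.le, xA_far hs (by linarith), lvl_far hs hx, mul_zero, sub_zero]
  -- the side 13
  obtain ⟨u, hu, hu1, hu2, hu3, -⟩ := h'.half
  have u0 := hu3 hx0.le
  have ux : u * (2 * h0) ≤ 93 / 100 * x' := by
    have hc := h'.Ch
    have t : u * (1 + 0.866) ≤ x' := by
      rw [← hu1]
      exact mul_le_mul_of_nonneg_left (by linarith) u0
    have t' : u * (2 * h0) ≤ u * 1.7322 := mul_le_mul_of_nonneg_left (by linarith) u0
    linarith
  have A13 : |kA s (-(2 * h0 * x')) (2 * h0 * C') - (1 / x - 2) * tau (2 * h0 * C')| ≤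
      i * a * (93 / 100 * x') := by
    have r := n90_res hs hs1 h' hx0 (1 / x - 2)
    have p := psi_up hs (by linarith : 4 * s ≤ x) ho
    rw [abs_of_pos hx0] at p
    rw [kA_neg, show -kA s (2 * h0 * x') (2 * h0 * C') - (1 / x - 2) * tau (2 * h0 * C') =
      -(kA s (2 * h0 * x') (2 * h0 * C') + (1 / x - 2) * tau (2 * h0 * C')) by ring, abs_neg, r, p,
      hu, ← hi, ← ea]
    exact mul_le_mul_of_nonneg_left (by linarith) (by positivity)
  have R13 : kR s (-(2 * h0 * x')) (2 * h0 * C') = 0 := by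
    rw [kR_neg, n90_kR h' hx0.le, neg_zero]
  have X13 : kX s (-(2 * h0 * x')) (2 * h0 * C') = 0 := by
    rw [kX_neg, n90_kX hs hs1 h' hx0.le, xA_far hs (by linarith), lvl_far hs (by linarith)]
    ring
  -- the side 23
  obtain ⟨q, hq1, hq2, -, -⟩ := mv h h'
  have hq3 : |q| * (2 * h0) ≤ 2 * x' := by
    rw [abs_of_pos (by linarith : 0 < x + x')] at hq2
    linarith
  have dT : |2 * h0 * C' - (h0 * C + x / 2) - (h0 * C - x / 2)| = a * (|q| * (2 * h0)) := by
    rw [show 2 * h0 * C' - (h0 * C + x / 2) - (h0 * C - x / 2) = (2 * h0) * (C' - C) by ring, hq1,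
      show (x - x') * q = -(a * q) by rw [ea]; ring, mul_neg, abs_neg, abs_mul (2 * h0), abs_mul a,
      abs_of_nonneg a0, abs_of_pos (by positivity : 0 < 2 * h0)]
    ring
  have dX : |-(-(2 * h0 * x') - (C / 2 - h0 * x)) - (C / 2 + h0 * x)| = 2 * h0 * a := by
    rw [show -(-(2 * h0 * x') - (C / 2 - h0 * x)) - (C / 2 + h0 * x) = 2 * h0 * a by rw [ea]; ring]
    exact abs_of_nonneg (by positivity)
  obtain ⟨d, hd⟩ : ∃ d, d = a * (|q| * (2 * h0)) := ⟨_, rfl⟩
  have d0 : 0 ≤ d := by rw [hd]; positivity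
  have d1 : d ≤ a * (2 * x') := by rw [hd]; exact mul_le_mul_of_nonneg_left hq3 a0
  have dh : 2 * h0 * a ≤ 17322 / 10000 * a := by nlinarith
  have sA := S.A
  have sR := S.R
  have sL := S.L5 hx
  rw [dT, dX, ← hd] at sA sR sL
  rw [← hi] at sA
  have hX : -(2 * h0 * x') - (C / 2 - h0 * x) = -(-(-(2 * h0 * x') - (C / 2 - h0 * x))) := by ring
  have A23 : |kA s (-(2 * h0 * x') - (C / 2 - h0 * x)) (2 * h0 * C' - (h0 * C + x / 2)) -
      (1 / x - 2) * tau (2 * h0 * C' - (h0 * C + x / 2))| ≤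
      (i + 5) * d + 1 * (17322 / 10000 * a) := by
    rw [hX, kA_neg, ← hi]
    rw [show -kA s (-(-(2 * h0 * x') - (C / 2 - h0 * x))) (2 * h0 * C' - (h0 * C + x / 2)) -
      (i - 2) * tau (2 * h0 * C' - (h0 * C + x / 2)) =
      -(kA s (-(-(2 * h0 * x') - (C / 2 - h0 * x))) (2 * h0 * C' - (h0 * C + x / 2)) -
      -(i - 2) * tau (2 * h0 * C' - (h0 * C + x / 2))) by ring, abs_neg]
    linarith
  have R23 : s * |kR s (-(2 * h0 * x') - (C / 2 - h0 * x)) (2 * h0 * C' - (h0 * C + x / 2))| ≤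
      1 / 16 * (d + 17322 / 10000 * a) := by
    rw [hX, kR_neg, abs_neg]
    linarith
  have X23 : |kX s (-(2 * h0 * x') - (C / 2 - h0 * x)) (2 * h0 * C' - (h0 * C + x / 2))| ≤
      1 / 64 * (d + 17322 / 10000 * a) := by
    rw [hX, kX_neg, abs_neg]
    linarith
  have et : h0 * C + x / 2 + (2 * h0 * C' - (h0 * C + x / 2)) = 2 * h0 * C' := by ring
  unfold cost
  rw [et, A12, R12, X12, R13, X13, add_zero, add_zero, abs_zero, zero_add, zero_add, zero_add,
    add_zero, add_zero, ← ea]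
  -- the numbers
  have id : i * d ≤ 288 / 100 * a := by
    have k1 := mul_le_mul_of_nonneg_left d1 i0.le
    have k2 := mul_le_mul_of_nonneg_left ix' a0
    nlinarith
  have dd : d ≤ a := by
    have := mul_le_mul_of_nonneg_left h'.hi a0
    linarith
  have ia : i * a * (93 / 100 * x') ≤ 14 / 10 * a := by
    have k2 := mul_le_mul_of_nonneg_left ix' a0
    nlinarith
  have t1 : |kA s (-(2 * h0 * x') - (C / 2 - h0 * x)) (2 * h0 * C' - (h0 * C + x / 2)) -
      (1 / x - 2) * tau (2 * h0 * C' - (h0 * C + x / 2))| +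
      |kA s (-(2 * h0 * x')) (2 * h0 * C') - (1 / x - 2) * tau (2 * h0 * C')| ≤ 12 * a := by
    linarith
  have t2 := mul_le_mul_of_nonneg_left t1 hs.le
  have t3 : s * a ≤ 11 / 400 * a := mul_le_mul_of_nonneg_right hs1 a0
  have t4 := mul_le_mul_of_nonneg_left R23 hs.le
  have t5 : s * d ≤ 11 / 400 * a := by
    have := mul_le_mul_of_nonneg_right hs1 d0
    linarith
  nlinarith

end Pool.Agent.Strip051.LC.E0.Out
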