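import Pool.Agent.Strip051.LC.E0.O3.Lev

/-! # Small rests: the half-strip next to a free side, two unit sides on both sides of `60` -/

namespace Pool.Agent.Strip051.LC.E0.Out

open Pool.Agent.StripNear Pool.Agent.StripSquare Pool.Agent.Strip051 Pool.Agent.Strip051.Sweep
open Pool.Agent.Strip051.LC.Line (tau)

/-- The displacement of the second side. -/
private theorem lam_geo {s C x C' x' : ℝ} (hs : 0 < s) (h : Rot C x) (h' : Rot C' x')
    (hx : 5 * s ≤ x) (ho : x' ≤ x)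
    (hq : (C - C') ^ 2 + (x - x') ^ 2 ≤ (79 / 10 * s) ^ 2) :
    ∃ q : ℝ, C' - C = (x - x') * q ∧ 0 ≤ q ∧ q ≤ 29 / 50 ∧ h0 * q ≤ 1 / 2 ∧
      x - x' ≤ 79 / 10 * s := by
  have hh := h0_pos
  obtain ⟨q, e, k1, k2, k3⟩ := mv h h'
  have a7 : x - x' ≤ 79 / 10 * s := by
    refine le_of_sq2 (by linarith) ?_
    nlinarith [sq_nonneg (C - C')]
  have c := h.Ch
  have c' := h'.Ch
  have q0 : 0 ≤ q := by
    by_contra hc
    rw [not_le] at hc
    have := mul_neg_of_neg_of_pos hc (by linarith : 0 < C + C')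
    linarith
  have p : |x + x'| ≤ 1 := by
    rw [abs_le]
    constructor <;> linarith [h.lo, h.hi, h'.lo, h'.hi]
  rw [abs_of_nonneg q0] at k1 k3
  exact ⟨q, e, q0, k3, by linarith, a7⟩

/-- Unit sides at the angles `60 - θ` and `120 - θ'`: the point next to the free side. -/
theorem nr_LAm {s C x C' x' : ℝ} (hs : 0 < s) (hs1 : s ≤ 11 / 400) (h : Rot C x) (h' : Rot C' x')
    (hx : 5 * s ≤ x) (ho : x' ≤ x)
    (hq : (C - C') ^ 2 + (x - x') ^ 2 ≤ (79 / 10 * s) ^ 2) :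
    Nr s (2 * h0 * x) (2 * h0 * C) (C / 2 + h0 * x + (-(C' / 2) + h0 * x'))
        (h0 * C - x / 2 + (h0 * C' + x' / 2)) ∧
      2 * h0 * C - 4 * s ≤ h0 * C - x / 2 + (h0 * C' + x' / 2) ∧
      h0 * C - x / 2 + (h0 * C' + x' / 2) ≤ 2 * h0 * C ∧
      C / 2 + h0 * x + (-(C' / 2) + h0 * x') ≤ 2 * h0 * x := by
  have hh := h0_pos
  obtain ⟨q, e, q0, q1, q2, a7⟩ := lam_geo hs h h' hx ho hq
  have a0 : 0 ≤ x - x' := by linarith
  have m0 := mul_nonneg a0 q0
  have m1 := mul_nonneg hh.le m0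
  have m2 := mul_le_mul_of_nonneg_left q2 a0
  refine ⟨?_, ?_, ?_, ?_⟩
  · unfold Nr
    have e1 : (C / 2 + h0 * x + (-(C' / 2) + h0 * x') - 2 * h0 * x) ^ 2 +
        (h0 * C - x / 2 + (h0 * C' + x' / 2) - 2 * h0 * C) ^ 2 =
        (C - C') ^ 2 + (x - x') ^ 2 := by
      linear_combination ((C - C') ^ 2 + (x - x') ^ 2) * h0_sq'
    rw [e1]
    exact hq
  · have e1 : h0 * C - x / 2 + (h0 * C' + x' / 2) = 2 * h0 * C + (h0 * ((x - x') * q) -
        (x - x') / 2) := by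
      linear_combination h0 * e
    rw [e1]
    linarith
  · have e1 : h0 * C - x / 2 + (h0 * C' + x' / 2) = 2 * h0 * C + ((x - x') * (h0 * q) -
        (x - x') * (1 / 2)) := by
      linear_combination h0 * e
    rw [e1]
    linarith
  · have e1 : C / 2 + h0 * x + (-(C' / 2) + h0 * x') = 2 * h0 * x - ((x - x') * q / 2 +
        h0 * (x - x')) := by
      linear_combination (-1 / 2) * e
    rw [e1]
    have := mul_nonneg hh.le a0
    linarith

/-- The numbers: everything is a multiple of `a`. -/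
private theorem lam_num {s x a q u r A1 A2 R L : ℝ} (hs : 0 < s) (hs1 : s ≤ 11 / 400)
    (a0 : 0 ≤ a) (a7 : a ≤ 79 / 10 * s) (q0 : 0 ≤ q) (q1 : q ≤ 29 / 50)
    (r0 : 0 ≤ r) (hr : r ≤ 1 / 5) (hrs : s * (1 / x) = r) (u1 : 1 / 2 - h0 * u ≤ 27 / 50)
    (hA1 : A1 ≤ (1 / x + 7 / 3) * a * (1 / 2 - h0 * u))
    (hA2 : A2 ≤ (1 / x + 1 / 4) * (a * (1 / 2 - h0 * q)) + 3 / 5 * (a * (q / 2 + h0)))
    (hR : s * R ≤ 1 / 16 * (a * (1 / 2 - h0 * q) + a * (q / 2 + h0)))
    (hL : L ≤ 26 / 100 * s * a + 1 / 64 * (a * (1 / 2 - h0 * q) + a * (q / 2 + h0))) :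
    57736 / 100000 * s * (A1 + A2) + 101 / 1000 * s ^ 2 * R + 1 / 2 * L ≤ E1 a := by
  have hh := h0_pos
  have g2 := h0_lt
  obtain ⟨b1, b2⟩ := h0_bd
  set p := a * (1 / 2 - h0 * q) with hp
  set v := a * (q / 2 + h0) with hv
  have m0 := mul_nonneg a0 q0
  have m1 := mul_nonneg hh.le m0
  have m2 := mul_le_mul_of_nonneg_left q1 a0
  have m3 := mul_le_mul_of_nonneg_left b2.le a0
  have m4 := mul_le_mul_of_nonneg_right b1.le m0
  have p1 : p ≤ a / 2 := by linarith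
  have v1 : v ≤ 1157 / 1000 * a := by linarith
  have v0 : 0 ≤ v := by
    rw [hv]
    exact mul_nonneg a0 (by linarith)
  have pv : p + v ≤ 1367 / 1000 * a := by linarith
  have sa0 := mul_nonneg hs.le a0
  have sa1 : s * a ≤ 11 / 400 * a := mul_le_mul_of_nonneg_right hs1 a0
  have aa : a * a ≤ 869 / 4000 * a := mul_le_mul_of_nonneg_right (by linarith) a0
  -- the second side
  have c1 : s * A1 ≤ (1 / 5 + 77 / 1200) * (27 / 50) * a := by
    have d1 := mul_le_mul_of_nonneg_left hA1 hs.le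
    have d2 : s * ((1 / x + 7 / 3) * a * (1 / 2 - h0 * u)) =
        (r + 7 / 3 * s) * a * (1 / 2 - h0 * u) := by
      rw [← hrs]
      ring
    rw [d2] at d1
    have d3 := mul_le_mul_of_nonneg_left u1 (mul_nonneg (by linarith : 0 ≤ r + 7 / 3 * s) a0)
    have d4 := mul_le_mul_of_nonneg_right (by linarith : r + 7 / 3 * s ≤ 1 / 5 + 77 / 1200) a0
    linarith
  -- the free side
  have c2 : s * A2 ≤ ((1 / 5 + 11 / 1600) * (1 / 2) + 3 / 5 * (11 / 400) * (1157 / 1000)) * a := by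
    have d1 := mul_le_mul_of_nonneg_left hA2 hs.le
    have d2 : s * ((1 / x + 1 / 4) * p + 3 / 5 * v) = (r + s / 4) * p + 3 / 5 * (s * v) := by
      rw [← hrs]
      ring
    rw [d2] at d1
    have d3 := mul_le_mul_of_nonneg_left p1 (by linarith : 0 ≤ r + s / 4)
    have d4 := mul_le_mul_of_nonneg_right (by linarith : r + s / 4 ≤ 1 / 5 + 11 / 1600) a0
    have d5 := mul_le_mul_of_nonneg_right hs1 v0
    linarith
  have c3 : s ^ 2 * R ≤ 11 / 400 * (1 / 16 * (1367 / 1000 * a)) := by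
    have d1 := mul_le_mul_of_nonneg_left hR hs.le
    have d2 : s * (s * R) = s ^ 2 * R := by ring
    have d3 := mul_le_mul_of_nonneg_left pv hs.le
    rw [d2] at d1
    linarith
  unfold E1
  linarith

/-- Unit sides at the angles `60 - θ` and `120 - θ'`. -/
theorem hs_LAm {s C x C' x' : ℝ} (hs : 0 < s) (hs1 : s ≤ 11 / 400) (h : Rot C x) (h' : Rot C' x')
    (hx : 5 * s ≤ x) (ho : x' ≤ x)
    (hq : (C - C') ^ 2 + (x - x') ^ 2 ≤ (79 / 10 * s) ^ 2)
    (S : Sec s (-(1 / x - 2)) x 0 (2 * h0 * x) (2 * h0 * C)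
      (C / 2 + h0 * x + (-(C' / 2) + h0 * x')) (h0 * C - x / 2 + (h0 * C' + x' / 2))
      (1 / 4) (3 / 5)) :
    cost s (-(1 / x - 2)) 0 (C / 2 + h0 * x) (C / 2 + h0 * x + (-(C' / 2) + h0 * x'))
      (h0 * C - x / 2) (h0 * C' + x' / 2) ≤ E1 (x - x') := by
  have hh := h0_pos
  have g2 := h0_lt
  obtain ⟨b1, b2⟩ := h0_bd
  have x0 : 0 < x := by linarith
  obtain ⟨q, e, q0, q1, q2, a7⟩ := lam_geo hs h h' hx ho hq
  have a0 : 0 ≤ x - x' := by linarith
  have m0 := mul_nonneg a0 q0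
  have m1 := mul_nonneg hh.le m0
  have m2 := mul_le_mul_of_nonneg_left q2 a0
  -- the displacements of the free side
  have eT : |h0 * C - x / 2 + (h0 * C' + x' / 2) - 2 * h0 * C| =
      (x - x') * (1 / 2 - h0 * q) := by
    have e1 : h0 * C - x / 2 + (h0 * C' + x' / 2) - 2 * h0 * C =
        -((x - x') * (1 / 2 - h0 * q)) := by
      linear_combination h0 * e
    rw [e1, abs_neg, abs_of_nonneg (mul_nonneg a0 (by linarith))]
  have eX : |C / 2 + h0 * x + (-(C' / 2) + h0 * x') - 2 * h0 * x| =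
      (x - x') * (q / 2 + h0) := by
    have e1 : C / 2 + h0 * x + (-(C' / 2) + h0 * x') - 2 * h0 * x =
        -((x - x') * (q / 2 + h0)) := by
      linear_combination (-1 / 2) * e
    rw [e1, abs_neg, abs_of_nonneg (mul_nonneg a0 (by linarith))]
  obtain ⟨SA, SR, -, SL⟩ := S
  rw [eT, eX] at SA SR SL
  have SL' := SL hx
  -- the first side
  have n := h.neg
  have A12 : |kA s (C / 2 + h0 * x) (h0 * C - x / 2) - -(1 / x - 2) * tau (h0 * C - x / 2)| =
      0 := by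
    have r := n60_res hs hs1 n (-(1 / x - 2))
    rw [show C / 2 - h0 * -x = C / 2 + h0 * x by ring,
      show h0 * C + -x / 2 = h0 * C - x / 2 by ring] at r
    rw [r, abs_neg, abs_of_pos x0, RA_eq hs (by linarith)]
    have : 1 - 2 * x - -(1 / x - 2) * -x = 0 := by
      field_simp
      ring
    rw [this]
    simp
  have R12 : kR s (C / 2 + h0 * x) (h0 * C - x / 2) = 0 := by
    have r := n60_kR (s := s) n
    rwa [show C / 2 - h0 * -x = C / 2 + h0 * x by ring,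
      show h0 * C + -x / 2 = h0 * C - x / 2 by ring] at r
  have L12 : kX s (C / 2 + h0 * x) (h0 * C - x / 2) = 0 := by
    have r := n60_kX_dn hs hs1 n (by linarith)
    rw [show C / 2 - h0 * -x = C / 2 + h0 * x by ring,
      show h0 * C + -x / 2 = h0 * C - x / 2 by ring, neg_neg, lvl_far hs hx] at r
    exact r
  -- the second side
  have e23 : C / 2 + h0 * x + (-(C' / 2) + h0 * x') - (C / 2 + h0 * x) =
      -(C' / 2 - h0 * x') := by ring
  obtain ⟨u, hu, hu1, hu2, -, -⟩ := h'.half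
  have u1 : 1 / 2 - h0 * u ≤ 27 / 50 := by
    have c' := h'.Ch
    have w : -(29 / 10 * s) ≤ u * (1 + C') := by linarith
    have : -(43 / 1000) ≤ u := by
      by_contra hc
      rw [not_le] at hc
      have := mul_le_mul_of_nonneg_right hc.le (by linarith : 0 ≤ 1 + C')
      linarith
    nlinarith
  have u0 : 0 ≤ 1 / 2 - h0 * u := by
    have := (abs_le.1 hu2).2
    nlinarith
  have A23 : |kA s (-(C' / 2 - h0 * x')) (h0 * C' + x' / 2) -
      -(1 / x - 2) * tau (h0 * C' + x' / 2)| ≤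
      (1 / x + 7 / 3) * (x - x') * (1 / 2 - h0 * u) := by
    have r := n60_res hs hs1 h' (1 / x - 2)
    rw [kA_neg, show -kA s (C' / 2 - h0 * x') (h0 * C' + x' / 2) -
      -(1 / x - 2) * tau (h0 * C' + x' / 2) = -(kA s (C' / 2 - h0 * x') (h0 * C' + x' / 2) -
      (1 / x - 2) * tau (h0 * C' + x' / 2)) by ring, abs_neg, r, hu]
    exact mul_le_mul_of_nonneg_right (psi_dn hs (by linarith) h.hi ho) u0
  have R23 : kR s (-(C' / 2 - h0 * x')) (h0 * C' + x' / 2) = 0 := by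
    rw [kR_neg, n60_kR h', neg_zero]
  have L23 : |kX s (-(C' / 2 - h0 * x')) (h0 * C' + x' / 2)| ≤ 26 / 100 * s * (x - x') := by
    rw [kX_neg, abs_neg]
    exact lev60p hs hs1 h' hx ho
  have hr : s * (1 / x) ≤ 1 / 5 := by
    rw [mul_one_div, div_le_iff₀ x0]
    linarith
  unfold cost
  rw [e23, A12, R12, L12, R23, abs_zero]
  simp only [add_zero, zero_add]
  exact lam_num hs hs1 a0 a7 q0 q1 (by positivity) hr rfl u1 A23 SA SR (by linarith)

end Pool.Agent.Strip051.LC.E0.Out
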