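import Pool.Agent.Strip051.LC.E0.O3.Lev

namespace Pool.Agent.Strip051.LC.E0.Out

open Pool.Agent.StripNear Pool.Agent.StripSquare Pool.Agent.Strip051 Pool.Agent.Strip051.Sweep
open Pool.Agent.Strip051.LC.Line (tau)

/-- The displacements of the free side. -/
theorem lap_disp {s C x C' x' : ℝ} (hs : 0 < s) (h : Rot C x) (h' : Rot C' x')
    (hx : 4 * s ≤ x) (ho : x ≤ x') :
    ∃ q : ℝ, 0 ≤ q ∧ q ≤ 29 / 50 ∧ h0 * q ≤ 1 / 2 ∧ C' - C = -((x' - x) * q) ∧
      q * (C + C') = x + x' := by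
  have hh := h0_pos
  obtain ⟨q, e1, e2, e3, e4⟩ := mv h h'
  have a := h.Ch
  have a' := h'.Ch
  have q0 : 0 ≤ q := by
    by_contra hc
    rw [not_le] at hc
    have : q * (C + C') < 0 := mul_neg_of_neg_of_pos hc (by linarith)
    linarith
  refine ⟨q, q0, (abs_le.1 e4).2, ?_, by rw [e1]; ring, e3⟩
  rw [abs_of_nonneg q0, abs_of_nonneg (by linarith : 0 ≤ x + x')] at e2
  have := h.hi
  have := h'.hi
  nlinarith

/-- Unit sides at the angles `θ` and `60 + θ'`: the point next to the free side. -/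
theorem nr_LAp {s C x C' x' : ℝ} (hs : 0 < s) (hs1 : s ≤ 11 / 400) (h : Rot C x) (h' : Rot C' x')
    (hx : 4 * s ≤ x) (ho : x ≤ x')
    (hq : (C - C') ^ 2 + (x - x') ^ 2 ≤ (79 / 10 * s) ^ 2) :
    Nr s (3 / 2 * C - h0 * x) (h0 * C + 3 / 2 * x) (C + (C' / 2 - h0 * x')) (x + (h0 * C' + x' / 2)) ∧ h0 * C + 3 / 2 * x ≤ x + (h0 * C' + x' / 2) ∧ x + (h0 * C' + x' / 2) ≤ 3 / 2 ∧
      C + (C' / 2 - h0 * x') ≤ 3 / 2 * C - h0 * x := by
  have hh := h0_pos
  have hsq := h0_sq'
  obtain ⟨q, q0, q1, q2, e, -⟩ := lap_disp hs h h' hx ho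
  have a0 : 0 ≤ x' - x := by linarith
  refine ⟨?_, ?_, ?_, ?_⟩
  · unfold Nr
    refine le_trans (le_of_eq ?_) hq
    linear_combination ((C' - C) ^ 2 + (x' - x) ^ 2) * hsq
  · have := mul_nonneg a0 (by linarith : 0 ≤ 1 / 2 - h0 * q)
    nlinarith
  · obtain ⟨-, -, t2, -⟩ := n60_facts h'
    have := h.hi
    linarith
  · have : 0 ≤ (x' - x) * q := mul_nonneg a0 q0
    have := mul_nonneg hh.le a0
    nlinarith

/-- Unit sides at the angles `θ` and `60 + θ'`. -/
theorem hs_LAp {s C x C' x' : ℝ} (hs : 0 < s) (hs1 : s ≤ 11 / 400) (h : Rot C x) (h' : Rot C' x')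
    (hx : 4 * s ≤ x) (ho : x ≤ x')
    (hq : (C - C') ^ 2 + (x - x') ^ 2 ≤ (79 / 10 * s) ^ 2)
    (S : Sec s (1 / x - 2) x (-lvl s x) (3 / 2 * C - h0 * x) (h0 * C + 3 / 2 * x)
      (C + (C' / 2 - h0 * x')) (x + (h0 * C' + x' / 2)) (1 / 2) (5 / 4)) :
    cost s (1 / x - 2) (lvl s x) (C) (C + (C' / 2 - h0 * x')) (x) (h0 * C' + x' / 2) ≤ E1 (x' - x) := by
  have hh := h0_pos
  obtain ⟨b1, b2⟩ := h0_bd
  have x0 : 0 < x := by linarith
  have x0' : 0 < x' := by linarith
  obtain ⟨q, q0, q1, q2, e, -⟩ := lap_disp hs h h' hx ho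
  set a := x' - x with ha
  have a0 : 0 ≤ a := by linarith
  -- the size of the deviation
  have a1 : a ≤ 79 / 10 * s := by
    refine le_of_sq2 (by linarith) ?_
    nlinarith [sq_nonneg (C - C')]
  -- the displacements
  have dT : |x + (h0 * C' + x' / 2) - (h0 * C + 3 / 2 * x)| ≤ a * (1 / 2) := by
    have e2 : x + (h0 * C' + x' / 2) - (h0 * C + 3 / 2 * x) = a * (1 / 2 - h0 * q) := by
      linear_combination h0 * e
    rw [e2, abs_of_nonneg (mul_nonneg a0 (by linarith))]
    exact mul_le_mul_of_nonneg_left (by nlinarith [mul_nonneg hh.le q0]) a0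
  have dX : |C + (C' / 2 - h0 * x') - (3 / 2 * C - h0 * x)| ≤ a * (1157 / 1000) := by
    have e2 : C + (C' / 2 - h0 * x') - (3 / 2 * C - h0 * x) = -(a * (h0 + q / 2)) := by
      linear_combination (1 / 2) * e
    rw [e2, abs_neg, abs_of_nonneg (mul_nonneg a0 (by positivity))]
    exact mul_le_mul_of_nonneg_left (by linarith) a0
  -- the sum of the displacements, without the cancelling part
  have dS : |x + (h0 * C' + x' / 2) - (h0 * C + 3 / 2 * x)| +
      |C + (C' / 2 - h0 * x') - (3 / 2 * C - h0 * x)| ≤ a * (13665 / 10000) := by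
    have e2 : x + (h0 * C' + x' / 2) - (h0 * C + 3 / 2 * x) = a * (1 / 2 - h0 * q) := by
      linear_combination h0 * e
    have e3 : C + (C' / 2 - h0 * x') - (3 / 2 * C - h0 * x) = -(a * (h0 + q / 2)) := by
      linear_combination (1 / 2) * e
    rw [e2, e3, abs_neg, abs_of_nonneg (mul_nonneg a0 (by linarith)),
      abs_of_nonneg (mul_nonneg a0 (by positivity)), ← mul_add]
    refine mul_le_mul_of_nonneg_left ?_ a0
    have g1 := h0_gt
    nlinarith [mul_nonneg q0 (by linarith : 0 ≤ h0 - 1 / 2)]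
  -- the reference side
  have r1 : |kA s C x - (1 / x - 2) * tau x| = 0 := by
    refine le_antisymm ?_ (abs_nonneg _)
    refine le_trans (n0_res h x0.le _) (le_of_eq ?_)
    rw [RA_eq hs hx, abs_eq_zero]
    field_simp
    ring
  have r2 := n0_kR hs h hx
  have r3 := n0_kX hs h hx
  -- the unit side
  have u1 : |kA s (C' / 2 - h0 * x') (h0 * C' + x' / 2) -
      (1 / x - 2) * tau (h0 * C' + x' / 2)| ≤ 1 / x * a * (1 / 2) := by
    rw [n60_res hs hs1 h', psi_up hs hx ho]
    refine mul_le_mul_of_nonneg_left ?_ (by positivity)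
    have : 0 ≤ x' / (1 + C') := div_nonneg x0'.le (by linarith [h'.C0])
    nlinarith [mul_nonneg hh.le this]
  have u2 := n60_kR (s := s) h'
  have u3 := lev60q hs hs1 h' hx ho
  -- the free side
  have f1 := S.A
  have f2 := S.R
  have f3 := S.L
  rw [sub_neg_eq_add] at f3
  have ex : C + (C' / 2 - h0 * x') - C = C' / 2 - h0 * x' := by ring
  unfold cost E1
  rw [ex, r1, r2, r3, u2]
  simp only [abs_zero, zero_add]
  set A := |kA s (C + (C' / 2 - h0 * x')) (x + (h0 * C' + x' / 2)) -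
    (1 / x - 2) * tau (x + (h0 * C' + x' / 2))|
  set R := |kR s (C + (C' / 2 - h0 * x')) (x + (h0 * C' + x' / 2))|
  set L := |kX s (C + (C' / 2 - h0 * x')) (x + (h0 * C' + x' / 2)) + lvl s x|
  set DT := |x + (h0 * C' + x' / 2) - (h0 * C + 3 / 2 * x)|
  set DX := |C + (C' / 2 - h0 * x') - (3 / 2 * C - h0 * x)|
  set U := |kA s (C' / 2 - h0 * x') (h0 * C' + x' / 2) - (1 / x - 2) * tau (h0 * C' + x' / 2)|
  set V := |kX s (C' / 2 - h0 * x') (h0 * C' + x' / 2) + lvl s x|
  -- the quotient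
  obtain ⟨r, hr⟩ : ∃ r : ℝ, r = s * (1 / x) := ⟨_, rfl⟩
  have r0 : 0 ≤ r := by rw [hr]; positivity
  have r4 : r ≤ 1 / 4 := by
    rw [hr, mul_one_div, div_le_iff₀ x0]
    linarith
  have u1s : s * U ≤ r * a * (1 / 2) := by
    have := mul_le_mul_of_nonneg_left u1 hs.le
    have e2 : s * (1 / x * a * (1 / 2)) = r * a * (1 / 2) := by rw [hr]; ring
    linarith
  have f1s : s * A ≤ (r + s * (1 / 2)) * (a * (1 / 2)) + s * (5 / 4) * (a * (1157 / 1000)) := by
    have t1 := mul_le_mul_of_nonneg_left f1 hs.le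
    have e2 : s * ((1 / x + 1 / 2) * DT + 5 / 4 * DX) = (r + s * (1 / 2)) * DT + s * (5 / 4) * DX := by
      rw [hr]
      ring
    have t2 := mul_le_mul_of_nonneg_left dT (by positivity : 0 ≤ r + s * (1 / 2))
    have t3 := mul_le_mul_of_nonneg_left dX (by positivity : 0 ≤ s * (5 / 4))
    linarith
  have f2s : s ^ 2 * R ≤ s * (1 / 16 * (a * (13665 / 10000))) := by
    have t1 := mul_le_mul_of_nonneg_left (le_trans f2 (mul_le_mul_of_nonneg_left dS
      (by norm_num : (0 : ℝ) ≤ 1 / 16))) hs.le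
    calc s ^ 2 * R = s * (s * R) := by ring
      _ ≤ _ := t1
  -- the level of the free side together with the quotient
  have key : 57736 / 100000 * (r * a) + 1 / 2 * L ≤ 1718 / 10000 * a := by
    rcases le_total (5 * s) x with h5 | h5
    · have r5 : r ≤ 1 / 5 := by
        rw [hr, mul_one_div, div_le_iff₀ x0]
        linarith
      have l5 := S.L5 h5
      have z := lvl_far hs h5
      have L5' : L ≤ 1 / 64 * (a * (13665 / 10000)) := by
        have : L = |kX s (C + (C' / 2 - h0 * x')) (x + (h0 * C' + x' / 2))| := by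
          show |_ + lvl s x| = _
          rw [z, add_zero]
        rw [this]
        exact le_trans l5 (mul_le_mul_of_nonneg_left dS (by norm_num))
      have := mul_le_mul_of_nonneg_right r5 a0
      linarith
    · have L4 : L ≤ 1 / 25 * (a * (13665 / 10000)) :=
        le_trans f3 (mul_le_mul_of_nonneg_left dS (by norm_num))
      have := mul_le_mul_of_nonneg_right r4 a0
      linarith
  have sa : 0 ≤ s * a := mul_nonneg hs.le a0
  have sa1 := mul_le_mul_of_nonneg_right hs1 a0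
  have aa := mul_le_mul_of_nonneg_right a1 a0
  have e5 : 57736 / 100000 * s * (U + A) = 57736 / 100000 * (s * U) + 57736 / 100000 * (s * A) := by
    ring
  have e6 : 101 / 1000 * s ^ 2 * R = 101 / 1000 * (s ^ 2 * R) := by ring
  rw [e5, e6]
  nlinarith
  
end Pool.Agent.Strip051.LC.E0.Out
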