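import Pool.Agent.Strip051.LC.E0.OutM

/-! # Small rests: unit sides at the angles `θ` and `120 + θ'` -/

namespace Pool.Agent.Strip051.LC.E0.Out

open Pool.Agent.StripNear Pool.Agent.StripSquare Pool.Agent.Strip051 Pool.Agent.Strip051.Sweep
open Pool.Agent.Strip051.LC.Line (tau)

private theorem ua_lev {s x C' x' : ℝ} (hs : 0 < s) (hs1 : s ≤ 11 / 400) (h' : Rot C' x')
    (hx : 5 * s ≤ x) (ho : x' ≤ x) :
    |kX s (C' / 2 + h0 * x') (h0 * C' - x' / 2)| ≤ 26 / 100 * s * (x - x') := by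
  have hn := h'.neg
  have a1 : C' / 2 - h0 * -x' = C' / 2 + h0 * x' := by ring
  have a2 : h0 * C' + -x' / 2 = h0 * C' - x' / 2 := by ring
  rcases lt_or_ge 0 x' with h1 | h1
  · have e := n60_kX_dn hs hs1 hn (by linarith : -x' < 0)
    rw [a1, a2, neg_neg] at e
    rw [e, abs_of_nonneg (lvl_nonneg hs h1.le)]
    rcases le_or_gt (5 * s) x' with h2 | h2
    · rw [lvl_far hs h2]
      exact mul_nonneg (by linarith) (by linarith)
    · rcases le_or_gt (2 * s) x' with h3 | h3
      · rw [lvl_mid hs h3 h2.le]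
        have p1 : 0 ≤ s * (5 * s - x') := mul_nonneg hs.le (by linarith)
        have p2 : 0 ≤ s * (x - 5 * s) := mul_nonneg hs.le (by linarith)
        nlinarith
      · obtain ⟨z, hz⟩ : ∃ z, z = x' / (2 * s) := ⟨_, rfl⟩
        have ez : x' = 2 * s * z := by
          rw [hz]
          field_simp
        have z0 : 0 ≤ z := by
          rw [hz]
          exact div_nonneg h1.le (by linarith)
        have z1 : z ≤ 1 := by
          rw [hz, div_le_one (by linarith)]
          linarith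
        unfold lvl xB
        rw [← hz, if_pos z1]
        unfold par
        simp only
        have p1 : 0 ≤ s ^ 2 * z := mul_nonneg (sq_nonneg s) z0
        have p2 : 0 ≤ s ^ 2 * z * (1 - z) := mul_nonneg p1 (by linarith)
        have p3 : 0 ≤ s ^ 2 * (1 - z) := mul_nonneg (sq_nonneg s) (by linarith)
        have p4 : 0 ≤ s * (x - 5 * s) := mul_nonneg hs.le (by linarith)
        rw [ez]
        nlinarith
  · have e := n60_kX_up hs hs1 hn (by linarith : 0 ≤ -x')
    rw [a1, a2] at e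
    have w0 : 0 ≤ -x' / s := div_nonneg (by linarith) hs.le
    have w1 : 0 ≤ -x' / (2 * s) := div_nonneg (by linarith) (by linarith)
    have b1 := xA_nonneg hs hs1 w0
    have b2 := le_trans (le_abs_self _) (xA_bd hs hs1 w0)
    have b3 := xB_nonneg w1
    have b4 := le_trans (le_abs_self _) (xB_bd w1)
    have s2 : 0 ≤ s ^ 2 := sq_nonneg s
    have c1 := mul_nonneg s2 b1
    have c2 := mul_le_mul_of_nonneg_left b2 s2
    have c3 := mul_nonneg s2 b3
    have c4 := mul_le_mul_of_nonneg_left b4 s2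
    have p4 : 0 ≤ s * (x - 5 * s) := mul_nonneg hs.le (by linarith)
    have p5 : 0 ≤ s * -x' := mul_nonneg hs.le (by linarith)
    rw [e]
    unfold lvl
    rw [abs_le]
    constructor <;> nlinarith

private theorem ua_a {s C x C' x' : ℝ} (hs : 0 < s)
    (hq : (C - C') ^ 2 + (x - x') ^ 2 ≤ (79 / 10 * s) ^ 2) : x - x' ≤ 79 / 10 * s := by
  refine le_of_sq2 (by linarith) ?_
  nlinarith [sq_nonneg (C - C')]

/-- Unit sides at the angles `θ` and `120 + θ'`: the point next to the free side. -/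
theorem nr_UA {s C x C' x' : ℝ} (hs : 0 < s) (hs1 : s ≤ 11 / 400) (h : Rot C x) (h' : Rot C' x')
    (hx : 5 * s ≤ x) (ho : x' ≤ x)
    (hq : (C - C') ^ 2 + (x - x') ^ 2 ≤ (79 / 10 * s) ^ 2) :
    Nr s (C / 2 - h0 * x) (h0 * C + x / 2) (C + (-(C' / 2) - h0 * x')) (x + (h0 * C' - x' / 2)) ∧ h0 * C + x / 2 ≤ x + (h0 * C' - x' / 2) := by
  have hh := h0_pos
  have hq0 := h0_sq'
  constructor
  · unfold Nr
    have e : (C + (-(C' / 2) - h0 * x') - (C / 2 - h0 * x)) ^ 2 +
        (x + (h0 * C' - x' / 2) - (h0 * C + x / 2)) ^ 2 = (C - C') ^ 2 + (x - x') ^ 2 := by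
      linear_combination ((C - C') ^ 2 + (x - x') ^ 2) * hq0
    rw [e]
    exact hq
  · obtain ⟨q, e1, e2, e3, e4⟩ := mv h h'
    have q1 : |q| * (2 * h0) ≤ 1 := by
      refine le_trans e2 ?_
      rw [abs_le]
      constructor <;> linarith [h.lo, h.hi, h'.lo, h'.hi]
    have q2 : -1 ≤ q * (2 * h0) := by
      have := mul_le_mul_of_nonneg_right (neg_abs_le q) (by linarith : 0 ≤ 2 * h0)
      linarith
    have q3 : 0 ≤ (x - x') * (1 / 2 + h0 * q) := mul_nonneg (by linarith) (by linarith)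
    have e5 : x + (h0 * C' - x' / 2) - (h0 * C + x / 2) = (x - x') * (1 / 2 + h0 * q) := by
      linear_combination h0 * e1
    linarith

/-- Unit sides at the angles `θ` and `120 + θ'`. -/
theorem hs_UA {s C x C' x' : ℝ} (hs : 0 < s) (hs1 : s ≤ 11 / 400) (h : Rot C x) (h' : Rot C' x')
    (hx : 5 * s ≤ x) (ho : x' ≤ x)
    (hq : (C - C') ^ 2 + (x - x') ^ 2 ≤ (79 / 10 * s) ^ 2)
    (S : Sec s (1 / x - 2) x (-lvl s x) (C / 2 - h0 * x) (h0 * C + x / 2)
      (C + (-(C' / 2) - h0 * x')) (x + (h0 * C' - x' / 2)) (1 / 2) 1) :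
    cost s (1 / x - 2) 0 (C) (C + (-(C' / 2) - h0 * x')) (x) (h0 * C' - x' / 2) ≤ E1 (x - x') := by
  have hh := h0_pos
  obtain ⟨b1, b2⟩ := h0_bd
  have x0 : 0 < x := by linarith
  have xh := h.hi
  have a79 := ua_a hs hq
  obtain ⟨a, ha⟩ : ∃ a, a = x - x' := ⟨_, rfl⟩
  have a0 : 0 ≤ a := by linarith
  obtain ⟨k, hk⟩ : ∃ k, k = 1 / x - 2 := ⟨_, rfl⟩
  -- the reference side
  have n12 : |kA s C x - k * tau x| ≤ 0 := by
    refine le_trans (n0_res h x0.le k) ?_
    have e := psi_up (x := x) (x' := x) hs (by linarith) le_rfl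
    rw [abs_of_pos x0, ← hk, sub_self, mul_zero] at e
    exact e.le
  have r12 : kR s C x = 0 := n0_kR hs h (by linarith)
  have l12 : kX s C x = 0 := n0_kX hs h (by linarith)
  -- the unit side at `120`
  have eX : C + (-(C' / 2) - h0 * x') - C = -(C' / 2 + h0 * x') := by ring
  have hn := h'.neg
  have a1 : C' / 2 - h0 * -x' = C' / 2 + h0 * x' := by ring
  have a2 : h0 * C' + -x' / 2 = h0 * C' - x' / 2 := by ring
  obtain ⟨u, hu, hu1, hu2, hu3, hu4⟩ := h'.half
  have n23 : |kA s (-(C' / 2 + h0 * x')) (h0 * C' - x' / 2) - k * tau (h0 * C' - x' / 2)| ≤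
      (1 / x + 7 / 3) * a * (1 / 2 + h0 * u) := by
    have e := n60_res hs hs1 hn (-k)
    rw [a1, a2, abs_neg] at e
    have e1 : -k * -x' = k * x' := by ring
    have e2 : (1 : ℝ) / 2 - h0 * (-x' / (1 + C')) = 1 / 2 + h0 * u := by
      rw [← hu]
      ring
    rw [e1, e2] at e
    have e3 : kA s (-(C' / 2 + h0 * x')) (h0 * C' - x' / 2) - k * tau (h0 * C' - x' / 2) =
        -(kA s (C' / 2 + h0 * x') (h0 * C' - x' / 2) - -k * tau (h0 * C' - x' / 2)) := by
      rw [kA_neg]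
      ring
    rw [e3, abs_neg, e]
    have p := psi_dn hs (by linarith : 4 * s ≤ x) xh ho
    rw [← hk, ← ha] at p
    refine mul_le_mul_of_nonneg_right p ?_
    have := mul_le_mul_of_nonneg_left (abs_le.1 hu2).1 hh.le
    linarith
  have r23 : kR s (-(C' / 2 + h0 * x')) (h0 * C' - x' / 2) = 0 := by
    rw [kR_neg]
    have e := n60_kR (s := s) hn
    rw [a1, a2] at e
    rw [e, neg_zero]
  have l23 : |kX s (-(C' / 2 + h0 * x')) (h0 * C' - x' / 2)| ≤ 26 / 100 * s * a := by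
    rw [kX_neg, abs_neg, ha]
    exact ua_lev hs hs1 h' hx ho
  -- the free side
  obtain ⟨q, e1, e2, e3, e4⟩ := mv h h'
  rw [← ha] at e1
  have xx0 : 0 ≤ x + x' := by linarith
  have q0 : 0 ≤ q := by
    have hC : 0 < C + C' := by linarith [h.Ch, h'.Ch]
    by_contra hc
    rw [not_le] at hc
    have := mul_neg_of_neg_of_pos hc hC
    linarith
  rw [abs_of_nonneg q0, abs_of_nonneg xx0] at e2
  rw [abs_of_nonneg q0] at e4
  have hqx : h0 * q ≤ x := by linarith
  have dT : |x + (h0 * C' - x' / 2) - (h0 * C + x / 2)| = a * (1 / 2 + h0 * q) := by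
    have e5 : x + (h0 * C' - x' / 2) - (h0 * C + x / 2) = a * (1 / 2 + h0 * q) := by
      linear_combination h0 * e1 - 1 / 2 * ha
    rw [e5, abs_of_nonneg (mul_nonneg a0 (by positivity))]
  have dX : |C + (-(C' / 2) - h0 * x') - (C / 2 - h0 * x)| = a * (h0 - q / 2) := by
    have e5 : C + (-(C' / 2) - h0 * x') - (C / 2 - h0 * x) = a * (h0 - q / 2) := by
      linear_combination (-1 / 2) * e1 - h0 * ha
    rw [e5, abs_of_nonneg (mul_nonneg a0 (by linarith))]
  have SA := S.A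
  have SR := S.R
  have SL := S.L5 hx
  rw [dT, dX, ← hk] at SA
  rw [dT, dX] at SR SL
  -- the numbers
  obtain ⟨r, hr⟩ : ∃ r, r = s * (1 / x) := ⟨_, rfl⟩
  have r0 : 0 ≤ r := by
    rw [hr]
    positivity
  have rx : r * x = s := by
    rw [hr]
    field_simp
  have r5 : r ≤ 1 / 5 := by
    by_contra hc
    rw [not_le] at hc
    have : 1 / 5 * x < r * x := mul_lt_mul_of_pos_right hc x0
    linarith
  have hux : h0 * u ≤ 465 / 1000 * x := by
    rcases le_or_gt 0 x' with g | g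
    · have u0 := hu3 g
      have c := h'.Ch
      have p0 : u * (1 + h0) ≤ x' := by
        rw [← hu1]
        exact mul_le_mul_of_nonneg_left (by linarith) u0
      have p1 : u * (186602 / 100000) ≤ u * (1 + h0) :=
        mul_le_mul_of_nonneg_left (by linarith) u0
      have p2 : h0 * u ≤ 86603 / 100000 * u := mul_le_mul_of_nonneg_right b2.le u0
      linarith
    · have u0 := hu4 g.le
      have p2 : h0 * u ≤ 0 := mul_nonpos_of_nonneg_of_nonpos hh.le u0
      linarith
  have hu5 : h0 * u ≤ 2324 / 10000 := by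
    have := mul_le_mul_of_nonneg_left (abs_le.1 hu2).2 hh.le
    linarith
  have F1 : (r + 7 / 3 * s) * (1 / 2 + h0 * u) ≤ r / 2 + 465 / 1000 * s + 7 / 3 * s * (7324 / 10000) := by
    have g1 : r * (h0 * u) ≤ r * (465 / 1000 * x) := mul_le_mul_of_nonneg_left hux r0
    have g2 : 7 / 3 * s * (1 / 2 + h0 * u) ≤ 7 / 3 * s * (7324 / 10000) :=
      mul_le_mul_of_nonneg_left (by linarith) (by linarith)
    have g3 : r * (465 / 1000 * x) = 465 / 1000 * s := by rw [← rx]; ring
    have e5 : (r + 7 / 3 * s) * (1 / 2 + h0 * u) =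
        r / 2 + r * (h0 * u) + 7 / 3 * s * (1 / 2 + h0 * u) := by ring
    linarith
  have F2 : (r + 1 / 2 * s) * (1 / 2 + h0 * q) ≤ r / 2 + s + 1 / 2 * s := by
    have g1 : r * (h0 * q) ≤ r * x := mul_le_mul_of_nonneg_left hqx r0
    have g2 : 1 / 2 * s * (1 / 2 + h0 * q) ≤ 1 / 2 * s * 1 :=
      mul_le_mul_of_nonneg_left (by linarith) (by linarith)
    have e5 : (r + 1 / 2 * s) * (1 / 2 + h0 * q) =
        r / 2 + r * (h0 * q) + 1 / 2 * s * (1 / 2 + h0 * q) := by ring
    linarith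
  have F3 : s * (h0 - q / 2) ≤ s * (86603 / 100000) :=
    mul_le_mul_of_nonneg_left (by linarith) hs.le
  have D : (1 / 2 + h0 * q) + (h0 - q / 2) ≤ 18661 / 10000 := by linarith
  -- the sum
  have m1 : s * |kA s (-(C' / 2 + h0 * x')) (h0 * C' - x' / 2) - k * tau (h0 * C' - x' / 2)| ≤
      a * ((r + 7 / 3 * s) * (1 / 2 + h0 * u)) := by
    have g := mul_le_mul_of_nonneg_left n23 hs.le
    have e5 : s * ((1 / x + 7 / 3) * a * (1 / 2 + h0 * u)) =
        a * ((r + 7 / 3 * s) * (1 / 2 + h0 * u)) := by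
      rw [hr]
      ring
    linarith
  have m2 : s * |kA s (C + (-(C' / 2) - h0 * x')) (x + (h0 * C' - x' / 2)) -
      k * tau (x + (h0 * C' - x' / 2))| ≤
      a * ((r + 1 / 2 * s) * (1 / 2 + h0 * q) + s * (h0 - q / 2)) := by
    have g := mul_le_mul_of_nonneg_left SA hs.le
    have e5 : s * ((1 / x + 1 / 2) * (a * (1 / 2 + h0 * q)) + 1 * (a * (h0 - q / 2))) =
        a * ((r + 1 / 2 * s) * (1 / 2 + h0 * q) + s * (h0 - q / 2)) := by
      rw [hr]
      ring
    linarith
  have m3 : s ^ 2 * |kR s (C + (-(C' / 2) - h0 * x')) (x + (h0 * C' - x' / 2))| ≤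
      a * (s / 16 * (18661 / 10000)) := by
    have g := mul_le_mul_of_nonneg_left SR hs.le
    have g2 : a * (s / 16) * ((1 / 2 + h0 * q) + (h0 - q / 2)) ≤ a * (s / 16) * (18661 / 10000) :=
      mul_le_mul_of_nonneg_left D (mul_nonneg a0 (by linarith))
    have e5 : s * (1 / 16 * (a * (1 / 2 + h0 * q) + a * (h0 - q / 2))) =
        a * (s / 16) * ((1 / 2 + h0 * q) + (h0 - q / 2)) := by ring
    have e6 : s ^ 2 * |kR s (C + (-(C' / 2) - h0 * x')) (x + (h0 * C' - x' / 2))| =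
        s * (s * |kR s (C + (-(C' / 2) - h0 * x')) (x + (h0 * C' - x' / 2))|) := by ring
    linarith
  have m4 : |kX s (C + (-(C' / 2) - h0 * x')) (x + (h0 * C' - x' / 2))| ≤
      a * (1 / 64 * (18661 / 10000)) := by
    have g2 : a * (1 / 64) * ((1 / 2 + h0 * q) + (h0 - q / 2)) ≤ a * (1 / 64) * (18661 / 10000) :=
      mul_le_mul_of_nonneg_left D (mul_nonneg a0 (by norm_num))
    have e5 : 1 / 64 * (a * (1 / 2 + h0 * q) + a * (h0 - q / 2)) =
        a * (1 / 64) * ((1 / 2 + h0 * q) + (h0 - q / 2)) := by ring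
    linarith
  have M1 := mul_le_mul_of_nonneg_left F1 a0
  have M2 := mul_le_mul_of_nonneg_left (add_le_add F2 F3) a0
  have n12' : |kA s C x - k * tau x| = 0 := le_antisymm n12 (abs_nonneg _)
  unfold cost E1
  rw [eX, r12, l12, r23, add_zero, add_zero, ← hk, ← ha, n12']
  simp only [abs_zero, zero_add]
  have fin : a * (57736 / 100000 * ((r / 2 + 465 / 1000 * s + 7 / 3 * s * (7324 / 10000)) +
      (r / 2 + s + 1 / 2 * s + s * (86603 / 100000))) + 101 / 1000 * (s / 16 * (18661 / 10000)) +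
      1 / 2 * (26 / 100 * s + 1 / 64 * (18661 / 10000))) ≤ a * (288 / 1000 - 26 / 100 * a) := by
    refine mul_le_mul_of_nonneg_left ?_ a0
    linarith
  have e7 : 57736 / 100000 * s * (|kA s (-(C' / 2 + h0 * x')) (h0 * C' - x' / 2) -
      k * tau (h0 * C' - x' / 2)| + |kA s (C + (-(C' / 2) - h0 * x')) (x + (h0 * C' - x' / 2)) -
      k * tau (x + (h0 * C' - x' / 2))|) =
      57736 / 100000 * (s * |kA s (-(C' / 2 + h0 * x')) (h0 * C' - x' / 2) -
      k * tau (h0 * C' - x' / 2)| + s * |kA s (C + (-(C' / 2) - h0 * x')) (x + (h0 * C' - x' / 2)) -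
      k * tau (x + (h0 * C' - x' / 2))|) := by ring
  rw [e7]
  linarith

end Pool.Agent.Strip051.LC.E0.Out
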