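import Pool.Agent.Strip051.LC.E0.OutM

/-! # Small rests: half strip `UB` -/

namespace Pool.Agent.Strip051.LC.E0.Out

open Pool.Agent.StripNear Pool.Agent.StripSquare Pool.Agent.Strip051 Pool.Agent.Strip051.Sweep
open Pool.Agent.Strip051.LC.Line (tau)

/-- The displacement of the cosine, for two nonnegative sines. -/
theorem ub_mv {C x C' x' : ℝ} (h : Rot C x) (h' : Rot C' x') (hx : 0 ≤ x) (hx' : 0 ≤ x') :
    ∃ q : ℝ, C - C' = (x' - x) * q ∧ 0 ≤ q ∧ h0 * q ≤ 1 / 2 := by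
  have hh := h0_pos
  have a := h.Ch
  have a' := h'.Ch
  have p : 0 < C + C' := by linarith
  obtain ⟨q, e1, e2, e3, -⟩ := mv h h'
  have q0 : 0 ≤ q := by
    by_contra hc
    rw [not_le] at hc
    nlinarith [mul_pos_of_neg_of_neg hc (by linarith : -(C + C') < 0)]
  refine ⟨q, by linear_combination -e1, q0, ?_⟩
  rw [abs_of_nonneg q0, abs_of_nonneg (by linarith)] at e2
  linarith [h.hi, h'.hi]

/-- The displacement is at most `79 / 10 s`. -/
theorem ub_a {s C x C' x' : ℝ} (hs : 0 < s)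
    (hq : (C - C') ^ 2 + (x - x') ^ 2 ≤ (79 / 10 * s) ^ 2) : x' - x ≤ 79 / 10 * s := by
  refine le_of_sq2 (by linarith) ?_
  nlinarith [sq_nonneg (C - C')]

/-- Unit sides 12, 13 at the angles `θ` and `60 + θ'`: the point next to the free side. -/
theorem nr_UB {s C x C' x' : ℝ} (hs : 0 < s) (hs1 : s ≤ 11 / 400) (h : Rot C x) (h' : Rot C' x')
    (hx : 5 * s ≤ x) (ho : x ≤ x')
    (hq : (C - C') ^ 2 + (x - x') ^ 2 ≤ (79 / 10 * s) ^ 2) :
    Nr s (C / 2 + h0 * x) (h0 * C - x / 2) (-(C' / 2 - h0 * x' - C)) (h0 * C' + x' / 2 - x) ∧ h0 * C - x / 2 ≤ h0 * C' + x' / 2 - x ∧ h0 * C' + x' / 2 - x ≤ h0 + 3 / 2 * s := by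
  have hh := h0_pos
  have x0 : 0 ≤ x := by linarith
  obtain ⟨q, e, q0, q1⟩ := ub_mv h h' x0 (by linarith)
  have a := ub_a hs hq
  refine ⟨?_, ?_, ?_⟩
  · unfold Nr
    refine le_of_eq_of_le ?_ hq
    linear_combination ((C - C') ^ 2 + (x' - x) ^ 2) * h0_sq'
  · have : 0 ≤ (x' - x) * (1 / 2 - h0 * q) := mul_nonneg (by linarith) (by linarith)
    have e2 : h0 * C' + x' / 2 - x - (h0 * C - x / 2) = (x' - x) * (1 / 2 - h0 * q) := by
      linear_combination -h0 * e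
    linarith
  · have := mul_le_mul_of_nonneg_left h'.C1 hh.le
    linarith

/-- Unit sides 12, 13 at the angles `θ` and `60 + θ'`. -/
theorem hs_UB {s C x C' x' : ℝ} (hs : 0 < s) (hs1 : s ≤ 11 / 400) (h : Rot C x) (h' : Rot C' x')
    (hx : 5 * s ≤ x) (ho : x ≤ x')
    (hq : (C - C') ^ 2 + (x - x') ^ 2 ≤ (79 / 10 * s) ^ 2)
    (S : Sec s (-(1 / x - 2)) x (lvl s x) (C / 2 + h0 * x) (h0 * C - x / 2)
      (-(C' / 2 - h0 * x' - C)) (h0 * C' + x' / 2 - x) 5 1) :
    cost s (1 / x - 2) 0 (C) (C' / 2 - h0 * x') (x) (h0 * C' + x' / 2 - x) ≤ E1 (x' - x) := by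
  have hh := h0_pos
  obtain ⟨b1, b2⟩ := h0_bd
  have x0 : 0 < x := by linarith
  have x1 : 0 < x' := by linarith
  have w4 : 4 * s ≤ x := by linarith
  have w5 : 5 * s ≤ x' := by linarith
  obtain ⟨q, e, q0, q1⟩ := ub_mv h h' x0.le x1.le
  obtain ⟨u, hu, -, hu2, hu3, -⟩ := h'.half
  have u0 := hu3 x1.le
  have u1 : u ≤ 67 / 250 := (abs_le.1 hu2).2
  have a := ub_a hs hq
  have a0 : 0 ≤ x' - x := by linarith
  -- the side 12
  have z1 : |kA s C x - (1 / x - 2) * tau x| = 0 := by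
    rw [n0_kA h x0]
    have := ref_zero (s := s) (x := x) (τ := tau x) hs w4
    rw [abs_of_pos x0] at this
    rw [this, abs_zero]
  have z2 : |kR s C x| = 0 := by
    rw [n0_kR hs h w4, abs_zero]
  have z3 : |kX s C x| = 0 := by
    rw [n0_kX hs h w4, abs_zero]
  -- the side 13
  have t1 : x + (h0 * C' + x' / 2 - x) = h0 * C' + x' / 2 := by ring
  have y1 : |kA s (C' / 2 - h0 * x') (h0 * C' + x' / 2) -
      (1 / x - 2) * tau (h0 * C' + x' / 2)| = 1 / x * (x' - x) * (1 / 2 - h0 * u) := by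
    rw [n60_res hs hs1 h' (1 / x - 2), psi_up hs w4 ho, hu]
  have y2 : |kR s (C' / 2 - h0 * x') (h0 * C' + x' / 2)| = 0 := by
    rw [n60_kR h', abs_zero]
  have y3 : |kX s (C' / 2 - h0 * x') (h0 * C' + x' / 2) + 0| = 0 := by
    rw [n60_kX_up hs hs1 h' x1.le, xA_far hs (by linarith), lvl_far hs w5]
    simp
  -- the side 23
  have t2 : C' / 2 - h0 * x' - C = -(-(C' / 2 - h0 * x' - C)) := by ring
  set X := -(C' / 2 - h0 * x' - C) with hX
  set T := h0 * C' + x' / 2 - x with hT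
  have dX : |X - (C / 2 + h0 * x)| = (x' - x) * (h0 + q / 2) := by
    have : X - (C / 2 + h0 * x) = (x' - x) * (h0 + q / 2) := by
      rw [hX]
      linear_combination e / 2
    rw [this, abs_of_nonneg (mul_nonneg a0 (by linarith))]
  have dT : |T - (h0 * C - x / 2)| = (x' - x) * (1 / 2 - h0 * q) := by
    have : T - (h0 * C - x / 2) = (x' - x) * (1 / 2 - h0 * q) := by
      rw [hT]
      linear_combination -h0 * e
    rw [this, abs_of_nonneg (mul_nonneg a0 (by linarith))]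
  have v1 : |kA s (-X) T - (1 / x - 2) * tau T| ≤
      (1 / x + 5) * ((x' - x) * (1 / 2 - h0 * q)) + 1 * ((x' - x) * (h0 + q / 2)) := by
    have := S.A
    rw [dX, dT] at this
    rw [kA_neg, ← abs_neg]
    rwa [show -(-kA s X T - (1 / x - 2) * tau T) = kA s X T - -(1 / x - 2) * tau T by ring]
  have v2 : s * |kR s (-X) T| ≤
      1 / 16 * ((x' - x) * (1 / 2 - h0 * q) + (x' - x) * (h0 + q / 2)) := by
    have := S.R
    rw [dX, dT] at this
    rwa [kR_neg, abs_neg]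
  have v3 : |kX s (-X) T + 0| ≤
      1 / 64 * ((x' - x) * (1 / 2 - h0 * q) + (x' - x) * (h0 + q / 2)) := by
    have := S.L5 hx
    rw [dX, dT] at this
    rwa [kX_neg, add_zero, abs_neg]
  unfold cost E1
  rw [t1, t2, z1, z2, z3, y1, y2, y3]
  -- the ratio
  have r0 : 0 ≤ s * (1 / x) := by positivity
  have r1 : s * (1 / x) ≤ 1 / 5 := by
    rw [mul_one_div, div_le_iff₀ x0]
    linarith
  set r := s * (1 / x) with hr
  have m1 : s * (|kA s (-X) T - (1 / x - 2) * tau T|) ≤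
      (r + 5 * s) * ((x' - x) * (1 / 2 - h0 * q)) + s * ((x' - x) * (h0 + q / 2)) := by
    refine (mul_le_mul_of_nonneg_left v1 hs.le).trans (le_of_eq ?_)
    rw [hr]
    ring
  have m2 : s * (1 / x * (x' - x) * (1 / 2 - h0 * u)) = r * ((x' - x) * (1 / 2 - h0 * u)) := by
    rw [hr]
    ring
  have m3 := mul_le_mul_of_nonneg_left v2 hs.le
  have hq0 : 0 ≤ h0 * q := mul_nonneg hh.le q0
  have hu0 : 0 ≤ h0 * u := mul_nonneg hh.le u0
  have q2 : q ≤ 29 / 50 := by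
    by_contra hc
    rw [not_le] at hc
    nlinarith
  -- the number
  have N : 57736 / 100000 * ((r + 5 * s) * (1 / 2 - h0 * q) + s * (h0 + q / 2) +
      r * (1 / 2 - h0 * u)) + 101 / 1000 * s * (1 / 16 * ((1 / 2 - h0 * q) + (h0 + q / 2))) +
      1 / 2 * (1 / 64 * ((1 / 2 - h0 * q) + (h0 + q / 2))) ≤
      288 / 1000 - 26 / 100 * (x' - x) := by
    have n1 : (r + 5 * s) * (1 / 2 - h0 * q) ≤ (1 / 5 + 5 * s) * (1 / 2) :=
      mul_le_mul (by linarith) (by linarith) (by linarith) (by linarith)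
    have n2 : s * (h0 + q / 2) ≤ s * (29 / 25) :=
      mul_le_mul_of_nonneg_left (by linarith) hs.le
    have n3 : r * (1 / 2 - h0 * u) ≤ 1 / 5 * (1 / 2) := by
      refine (mul_le_mul_of_nonneg_left (by linarith : 1 / 2 - h0 * u ≤ 1 / 2) r0).trans ?_
      linarith
    have n4 : 1 / 16 * ((1 / 2 - h0 * q) + (h0 + q / 2)) ≤ 1 / 16 * (83 / 50) := by linarith
    have n5 : s * (1 / 16 * ((1 / 2 - h0 * q) + (h0 + q / 2))) ≤ s * (1 / 16 * (83 / 50)) :=
      mul_le_mul_of_nonneg_left n4 hs.le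
    linarith
  have := mul_le_mul_of_nonneg_left N a0
  nlinarith [this, m1, m2, m3, v3]

end Pool.Agent.Strip051.LC.E0.Out
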