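import Pool.Agent.Strip051.LC.E0.O3.SecE2

/-! # Small rests: the sector next to the vertical direction -/

namespace Pool.Agent.Strip051.LC.E0.Out

open Pool.Agent.StripNear Pool.Agent.StripSquare Pool.Agent.Strip051 Pool.Agent.Strip051.Sweep
open Pool.Agent.Strip051.LC.Line (tau)

/-! ### The levels -/

theorem sece_xB0 {s x : ℝ} (hs : 0 < s) (h : 5 * s ≤ x) : xB par (x / (2 * s)) = 0 := by
  have := lvl_far hs h
  unfold lvl at this
  rcases mul_eq_zero.1 this with h1 | h1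
  · exact absurd h1 (by positivity)
  · exact h1

/-- The height. -/
theorem sece_low {s T T0 : ℝ} (hs1 : s ≤ 11 / 400) (h : SeceT s T0) (hT : T0 - 4 * s ≤ T)
    (hT' : T ≤ T0) :
    139 / 100 ≤ T ∧ T ^ 2 ≤ 3 ∧ 3 * h0 / 2 ≤ T ∧ c3 T ≤ 104 / 100 := by
  have lo := h.lo
  have b2 := h0_bd.2
  have k1 : 139 / 100 ≤ T := by linarith
  have k2 : T ^ 2 ≤ 3 := (pow_le_pow_left₀ (by linarith) hT' 2).trans h.sq
  refine ⟨k1, k2, by linarith, le_of_sq2 (by norm_num) ?_⟩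
  have e := c3_sq k2
  have := pow_le_pow_left₀ (by norm_num : (0 : ℝ) ≤ 139 / 100) k1 2
  linarith

/-- The level vanishes on the circle. -/
theorem sece_X3 {s T T0 : ℝ} (hs : 0 < s) (hs1 : s ≤ 11 / 400) (h : SeceT s T0)
    (hT : T0 - 4 * s ≤ T) (hT' : T ≤ T0) : X3 par s T = 0 := by
  have hh := h0_pos
  obtain ⟨b1, b2⟩ := h0_bd
  obtain ⟨k1, k2, k3, k4⟩ := sece_low hs1 h hT hT'
  unfold X3
  rw [if_neg (by linarith)]
  split_ifs with h1
  · have : c3 T / (4 * h0) ≤ 1 / 3 := by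
      rw [div_le_iff₀ (by positivity)]
      linarith
    rw [xA_far hs (by linarith), sece_xB0 hs (by linarith)]
    ring
  · have : 5 * s ≤ c3 T / (2 * h0) := by
      rw [le_div_iff₀ (by positivity)]
      have c := c3_anti (by linarith : 0 ≤ T) hT' h.sq
      have := h.x
      linarith
    rw [xA_far hs (by linarith), sece_xB0 hs this]
    ring

theorem sece_b {T : ℝ} (h : 3 * h0 / 2 ≤ T) (h3 : T ^ 2 ≤ 3) (hc : 0 < c3 T)
    (hc' : c3 T ≤ 104 / 100) :
    0 ≤ seceb T ∧ seceb T ≤ 425 / 1000 * c3 T ^ 2 + 15 / 100 * c3 T ∧ seceb T < c3 T := by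
  obtain ⟨t1, t2, t3, t4, -, -⟩ := sece_T h h3
  have e : seceb T = 85 / 100 * Wc T + 15 / 100 * c3 T := by
    unfold seceb
    ring
  have := mul_nonneg hc.le (by linarith : 0 ≤ 104 / 100 - c3 T)
  rw [e]
  refine ⟨by linarith, by linarith, by linarith⟩

theorem sece_key {s c b X0 v : ℝ} (hs : 0 < s) (hs1 : s ≤ 11 / 400) (hX : 10 * h0 * s ≤ X0)
    (hc : X0 ≤ c) (hc1 : c ≤ 104 / 100) (hb : b ≤ 425 / 1000 * c ^ 2 + 15 / 100 * c)
    (hv : v ≤ 7 / 25 * (b / (2 * h0) / s)) (hv' : v ≤ 7 / 5) :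
    128 * s ^ 2 * v * (2 * h0) ≤ (c - b) * (X0 + c) := by
  have hh := h0_pos
  obtain ⟨b1, b2⟩ := h0_bd
  have hX8 : 866 / 100 * s ≤ X0 := by
    have := mul_nonneg (by linarith : 0 ≤ h0 - 86602 / 100000) hs.le
    linarith
  have c0 : 0 ≤ c := by linarith
  have hd0 : 0 ≤ 85 / 100 - 425 / 1000 * c := by linarith
  have hd : c * (85 / 100 - 425 / 1000 * c) ≤ c - b := by linarith
  have hd1 : c * (85 / 100 - 425 / 1000 * c) * (X0 + c) ≤ (c - b) * (X0 + c) :=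
    mul_le_mul_of_nonneg_right hd (by linarith)
  refine le_trans ?_ hd1
  have cc := mul_nonneg c0 c0
  rcases le_or_gt c (77 / 100) with h | h
  · have m1 : 128 * s ^ 2 * v * (2 * h0) ≤ 3584 / 100 * (s * b) := by
      have n1 : 128 * s ^ 2 * (2 * h0) * v ≤ 128 * s ^ 2 * (2 * h0) * (7 / 25 * (b / (2 * h0) / s)) :=
        mul_le_mul_of_nonneg_left hv (by positivity)
      have e : 128 * s ^ 2 * (2 * h0) * (7 / 25 * (b / (2 * h0) / s)) = 3584 / 100 * (s * b) := by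
        field_simp
        ring
      linarith
    have m2 : s * b ≤ s * (425 / 1000 * c ^ 2 + 15 / 100 * c) :=
      mul_le_mul_of_nonneg_left hb hs.le
    have m3 : c * (85 / 100 - 425 / 1000 * c) * (866 / 100 * s + c) ≤
        c * (85 / 100 - 425 / 1000 * c) * (X0 + c) :=
      mul_le_mul_of_nonneg_left (by linarith) (mul_nonneg c0 hd0)
    have m4 : 0 ≤ c * c * (11 / 400 - s) := mul_nonneg cc (by linarith)
    have m5 : 0 ≤ c * c * (77 / 100 - c) := mul_nonneg cc (by linarith)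
    have m6 : 0 ≤ c * s := mul_nonneg c0 hs.le
    linarith
  · have m1 : s ^ 2 * v ≤ s ^ 2 * (7 / 5) := mul_le_mul_of_nonneg_left hv' (sq_nonneg s)
    have m1' := mul_le_mul_of_nonneg_right m1 hh.le
    have m2 : s ^ 2 ≤ (11 / 400) ^ 2 := pow_le_pow_left₀ hs.le hs1 2
    have m3 : s ^ 2 * h0 ≤ (11 / 400) ^ 2 * (86603 / 100000) :=
      mul_le_mul m2 b2.le hh.le (by norm_num)
    have m4 : 0 ≤ c * (85 / 100 - 425 / 1000 * c) * X0 :=
      mul_nonneg (mul_nonneg c0 hd0) (by linarith)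
    have m5 : 0 ≤ c * c * (442 / 1000 - 425 / 1000 * c) := mul_nonneg cc (by linarith)
    have m6 := pow_le_pow_left₀ (by norm_num : (0 : ℝ) ≤ 77 / 100) h.le 2
    linarith

theorem sece_left {s w ω V y : ℝ} (hs : 0 < s) (hs1 : s ≤ 11 / 400) (h0w : 0 ≤ ω) (hw : ω ≤ w)
    (hw5 : w < 5) (V0 : 0 ≤ V) (v1 : V ≤ 7 / 25 * w)
    (v2 : 5 / 2 ≤ w → w ≤ 5 → V ≤ 571 / 1125 * (5 - w)) (hy : 2 * h0 * s * (5 - ω) ≤ y) :
    s ^ 2 * (V * (ω / w)) ≤ 1 / 64 * y := by
  obtain ⟨b1, b2⟩ := h0_bd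
  have w0 : 0 ≤ w := h0w.trans hw
  have q0 : 0 ≤ ω / w := div_nonneg h0w w0
  have q1 : ω / w ≤ 1 := div_le_one_of_le₀ hw w0
  have y1 : 17 / 10 * (s * (5 - ω)) ≤ y := by
    have := mul_nonneg (by linarith : 0 ≤ 2 * h0 - 17 / 10)
      (mul_nonneg hs.le (by linarith : 0 ≤ 5 - ω))
    linarith
  have hss : s ^ 2 ≤ 11 / 400 * s := by
    have := mul_le_mul_of_nonneg_right hs1 hs.le
    linarith
  rcases le_or_gt ω (7 / 2) with h7 | h7
  · have m1 : V * (ω / w) ≤ 7 / 25 * ω := by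
      rcases w0.eq_or_lt with h | h
      · rw [← h, div_zero, mul_zero]
        linarith
      · calc V * (ω / w) ≤ 7 / 25 * w * (ω / w) := mul_le_mul_of_nonneg_right v1 q0
          _ = 7 / 25 * ω := by field_simp
    have m2 : s ^ 2 * (V * (ω / w)) ≤ 11 / 400 * s * (7 / 25 * ω) :=
      mul_le_mul hss m1 (mul_nonneg V0 q0) (by linarith)
    have m3 := mul_nonneg hs.le (by linarith : 0 ≤ 7 / 2 - ω)
    linarith
  · have m1 : V * (ω / w) ≤ 571 / 1125 * (5 - ω) := by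
      have := mul_le_mul (v2 (by linarith) hw5.le) q1 q0 (by linarith)
      linarith
    have m2 : s ^ 2 * (V * (ω / w)) ≤ 11 / 400 * s * (571 / 1125 * (5 - ω)) :=
      mul_le_mul hss m1 (mul_nonneg V0 q0) (by linarith)
    have m3 := mul_nonneg hs.le (by linarith : 0 ≤ 5 - ω)
    linarith

theorem sece_right {s V c b X X0 T T0 : ℝ} (hcb : b < c) (hXc : X ≤ c) (hX0 : X ≤ X0)
    (K : 128 * s ^ 2 * V * (2 * h0) ≤ (c - b) * (X0 + c))
    (p : (c - X0) * (c + X0) = (T0 - T) * (T0 + T)) (hT : T ≤ T0) (hTT : T0 + T ≤ 4 * h0)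
    (hcc : X0 + c ≤ 4 * h0) :
    s ^ 2 * (V * ((c - X) / (c - b))) ≤ 1 / 64 * ((T0 - T) + (X0 - X)) := by
  have hh := h0_pos
  have m1 := mul_le_mul_of_nonneg_right K (by linarith : 0 ≤ c - X)
  have m2 : (X0 + c) * (c - X) ≤ 4 * h0 * ((T0 - T) + (X0 - X)) := by
    have := mul_le_mul_of_nonneg_left hTT (by linarith : 0 ≤ T0 - T)
    have := mul_le_mul_of_nonneg_left hcc (by linarith : 0 ≤ X0 - X)
    linarith
  have m3 := mul_le_mul_of_nonneg_left m2 (by linarith : 0 ≤ c - b)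
  have e : s ^ 2 * (V * ((c - X) / (c - b))) = s ^ 2 * V * (c - X) / (c - b) := by ring
  rw [e, div_le_iff₀ (by linarith)]
  refine le_of_mul_le_mul_left ?_ (by positivity : 0 < 256 * h0)
  linarith

/-- The levels. -/
theorem sece_lev {s X T T0 : ℝ} (hs : 0 < s) (hs1 : s ≤ 11 / 400) (h : SeceT s T0)
    (hT : T0 - 4 * s ≤ T) (hT' : T ≤ T0) (a : 0 ≤ X) (b : X ≤ c3 T0) :
    |kX s X T| ≤ 1 / 64 * ((T0 - T) + (c3 T0 - X)) := by
  have hh := h0_pos
  obtain ⟨b1, b2⟩ := h0_bd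
  obtain ⟨k1, k2, k3, k4⟩ := sece_low hs1 h hT hT'
  have hX3 := sece_X3 hs hs1 h hT hT'
  have hx := h.x
  have hx0 := mul_pos hh hs
  obtain ⟨p1, -, -, p4, -⟩ := sece_pair k3 hT' h.sq
  have c0 : 0 < c3 T := by linarith
  obtain ⟨q0, q1, q2⟩ := sece_b k3 k2 c0 k4
  have w0 : 0 ≤ seceb T / (2 * h0) / s := div_nonneg (div_nonneg q0 (by linarith)) hs.le
  obtain ⟨v1, v2, v3⟩ := sece_V hs hs1 w0
  have eb : seceb T = 2 * h0 * s * (seceb T / (2 * h0) / s) := by field_simp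
  have r0 : 0 ≤ (T0 - T) + (c3 T0 - X) := by linarith
  rcases le_or_gt 5 (seceb T / (2 * h0) / s) with h5 | h5
  · rcases le_total X (seceb T) with hX | hX
    · rw [sece_kX_lo k3 k2 a hX, sece_XV hs, v3 h5, zero_mul, mul_zero, abs_zero]
      linarith
    · rw [sece_kX_hi k3 k2 hX (b.trans p1) q2 hX3, sece_XV hs, v3 h5, zero_mul, mul_zero,
        abs_zero]
      linarith
  have hq := h0_sq'
  rcases le_or_gt X (seceb T) with hX | hX
  · rw [sece_kX_lo k3 k2 a hX, sece_XV hs, abs_mul, abs_mul, abs_of_nonneg (sq_nonneg s),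
      abs_of_nonneg (div_nonneg a q0)]
    have eX : X = 2 * h0 * s * (X / (2 * h0) / s) := by field_simp
    have er : X / seceb T = X / (2 * h0) / s / (seceb T / (2 * h0) / s) := by
      rw [div_div_div_cancel_right₀ hs.ne', div_div_div_cancel_right₀ (by positivity)]
    have ω0 : 0 ≤ X / (2 * h0) / s := div_nonneg (div_nonneg a (by linarith)) hs.le
    have ωw : X / (2 * h0) / s ≤ seceb T / (2 * h0) / s :=
      div_le_div_of_nonneg_right (div_le_div_of_nonneg_right hX (by linarith)) hs.le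
    rw [er]
    have := sece_left (y := c3 T0 - X) hs hs1 ω0 ωw h5 (abs_nonneg _) v1 v2 (by linarith)
    linarith
  · rw [sece_kX_hi k3 k2 hX.le (b.trans p1) q2 hX3, sece_XV hs, abs_mul, abs_mul,
      abs_of_nonneg (sq_nonneg s),
      abs_of_nonneg (div_nonneg (by linarith) (by linarith) : 0 ≤ (c3 T - X) / (c3 T - seceb T))]
    have K := sece_key hs hs1 hx p1 k4 q1 v1 (v1.trans (by linarith))
    have hT2 : T0 ≤ 2 * h0 := (sece_T (k3.trans hT') h.sq).1
    exact sece_right q2 (b.trans p1) b K p4 hT' (by linarith) (by linarith)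

/-! ### The sector -/

/-- Next to the vertical direction, below. -/
theorem sec_m90 {s C x X T : ℝ} (hs : 0 < s) (hs1 : s ≤ 11 / 400) (h : Rot C x)
    (hx : 5 * s ≤ x) (hA : Ann X T) (hN : Nr s (2 * h0 * x) (2 * h0 * C) X T)
    (hT : 2 * h0 * C - 4 * s ≤ T) (hT' : T ≤ 2 * h0 * C) (hX : X ≤ 2 * h0 * x) :
    Sec s (-(1 / x - 2)) x 0 (2 * h0 * x) (2 * h0 * C) X T (1 / 4) (3 / 5) := by
  have hh := h0_pos
  obtain ⟨b1, b2⟩ := h0_bd
  have x0 : 0 < x := by linarith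
  obtain ⟨e1, e2, e3, e4⟩ := n90_facts h x0.le
  obtain ⟨y1, y2⟩ := hN.abs hs
  have hX0 : 10 * h0 * s ≤ 2 * h0 * x := by
    have := mul_le_mul_of_nonneg_left hx (by linarith : 0 ≤ 2 * h0)
    linarith
  have hST : SeceT s (2 * h0 * C) := ⟨e2, e3, by rwa [e1]⟩
  have aX : 0 ≤ X := by
    have := (abs_le.1 y1).1
    have := mul_nonneg (by linarith : 0 ≤ h0 - 86602 / 100000) hs.le
    linarith
  have bX : X ≤ c3 (2 * h0 * C) := by rwa [e1]
  obtain ⟨k1, k2, k3, k4⟩ := sece_low hs1 hST hT hT'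
  have eT : |T - 2 * h0 * C| = 2 * h0 * C - T := by
    rw [abs_of_nonpos (by linarith)]
    ring
  have eX : |X - 2 * h0 * x| = 2 * h0 * x - X := by
    rw [abs_of_nonpos (by linarith)]
    ring
  have lev := sece_lev hs hs1 hST hT hT' aX bX
  rw [e1] at lev
  have p1 := (sece_pair k3 hT' e3).1
  have hkR : kR s X T = 0 := sece_kR k3 k2 aX (bX.trans p1)
  refine ⟨?_, ?_, ?_, fun _ => ?_⟩
  · have A1 := sece_ver hs hs1 hST hT hT' aX bX
    have A2 := sece_hor hs hST aX bX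
    rw [e1] at A2
    have A3 := n90_kA hs hs1 h x0
    have A4 := ref_zero (τ := tau (2 * h0 * C)) hs (by linarith : 4 * s ≤ x)
    rw [abs_of_pos x0] at A4
    have t1 := tau_hi k3
    have t0 := tau_hi (by linarith : 3 * h0 / 2 ≤ 2 * h0 * C)
    have ix : 2 ≤ 1 / x := by
      rw [le_div_iff₀ x0]
      linarith [h.hi]
    have hz : kA s (2 * h0 * x) (2 * h0 * C) + (1 / x - 2) * tau (2 * h0 * C) = 0 := by
      rw [A3]
      linear_combination -A4
    have A5 : |(1 / x - 2) * (tau T - tau (2 * h0 * C))| =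
        (1 / x - 2) * (2 * h0 * C - T) := by
      rw [t1, t0, abs_mul, abs_of_nonneg (by linarith : 0 ≤ 1 / x - 2),
        show T - 2 * h0 - (2 * h0 * C - 2 * h0) = T - 2 * h0 * C by ring, eT]
    have e : kA s X T - -(1 / x - 2) * tau T = (kA s X T - kA s X (2 * h0 * C)) +
        (kA s X (2 * h0 * C) - kA s (2 * h0 * x) (2 * h0 * C)) +
        (1 / x - 2) * (tau T - tau (2 * h0 * C)) := by
      linear_combination hz
    rw [e, eT, eX]
    refine (abs_add_le _ _).trans ?_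
    have := abs_add_le (kA s X T - kA s X (2 * h0 * C))
      (kA s X (2 * h0 * C) - kA s (2 * h0 * x) (2 * h0 * C))
    rw [A5]
    linarith
  · rw [hkR, abs_zero, mul_zero, eT, eX]
    linarith
  · rw [eT, eX, sub_zero]
    linarith
  · rw [eT, eX]
    exact lev

end Pool.Agent.Strip051.LC.E0.Out
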