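import Pool.Agent.Strip051.LC.E0.O3.SecE1

/-! # Small rests: next to the vertical direction, the kernel at two heights -/

namespace Pool.Agent.Strip051.LC.E0.Out

open Pool.Agent.StripNear Pool.Agent.StripSquare Pool.Agent.Strip051 Pool.Agent.Strip051.Sweep
open Pool.Agent.Strip051.LC.Line (tau)

/-! ### The kernel at two heights -/

/-- The defect of the kernel. -/
noncomputable def seceE (X b c F : ℝ) : ℝ := F * (max (X - b) 0 / (c - b))

theorem sece_E {X b b0 c d F F0 r : ℝ} (hF0 : 0 ≤ F0) (hF : F0 ≤ F) (hd : b0 < d) (hbb : b0 ≤ b)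
    (hcc : b - b0 ≤ c - d) (hX : X ≤ d) (hr : 0 ≤ r) (f4 : F0 * (c - d) ≤ r * (d - b0))
    (f5 : (F - F0) * (d - b0) ≤ r * (d - b0) + F * (b - b0)) :
    |seceE X b c F - seceE X b0 d F0| ≤ r := by
  unfold seceE
  have m0 := le_max_right (X - b) 0
  have n0 := le_max_right (X - b0) 0
  have n1 : max (X - b0) 0 ≤ d - b0 := max_le (by linarith) (by linarith)
  have hmn : max (X - b) 0 ≤ max (X - b0) 0 := max_le_max (by linarith) le_rfl
  have p0 : 0 < d - b0 := by linarith
  have q0 : d - b0 ≤ c - b := by linarith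
  rw [abs_le]
  constructor
  · -- lower bound
    have k1 : F0 * (max (X - b) 0 / (c - b)) ≤ F * (max (X - b) 0 / (c - b)) :=
      mul_le_mul_of_nonneg_right hF (div_nonneg m0 (by linarith))
    have k2 : (max (X - b0) 0 - (c - d)) / (d - b0) ≤ max (X - b) 0 / (c - b) := by
      rcases le_or_gt (max (X - b0) 0) (c - d) with h | h
      · exact (div_nonpos_of_nonpos_of_nonneg (by linarith) p0.le).trans
          (div_nonneg m0 (by linarith))
      · have hb : X - b0 = max (X - b0) 0 := by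
          rcases le_total (X - b0) 0 with h1 | h1
          · rw [max_eq_right h1] at h
            linarith
          · rw [max_eq_left h1]
        have hb2 : max (X - b) 0 = max (X - b0) 0 - (b - b0) := by
          rw [← hb, max_eq_left (by linarith)]
          ring
        rw [hb2, div_le_div_iff₀ p0 (by linarith)]
        generalize max (X - b0) 0 = m at *
        have : 0 ≤ (c - d - (b - b0)) * (d - b0 - m + (c - d)) :=
          mul_nonneg (by linarith) (by linarith)
        linarith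
    have k3 := mul_le_mul_of_nonneg_left k2 hF0
    have k4 : F0 * ((max (X - b0) 0 - (c - d)) / (d - b0)) =
        F0 * (max (X - b0) 0 / (d - b0)) - F0 * (c - d) / (d - b0) := by
      field_simp
    have k5 : F0 * (c - d) / (d - b0) ≤ r := by
      rw [div_le_iff₀ p0]
      exact f4
    linarith
  · -- upper bound
    have k1 : F * (max (X - b) 0 / (c - b)) ≤ F * (max (X - b) 0 / (d - b0)) :=
      mul_le_mul_of_nonneg_left (div_le_div_of_nonneg_left m0 p0 q0) (by linarith)
    have k2 : F * max (X - b) 0 - F0 * max (X - b0) 0 ≤ r * (d - b0) := by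
      rcases le_or_gt (X - b) 0 with h | h
      · rw [max_eq_right h]
        have := mul_nonneg hF0 n0
        have := mul_nonneg hr p0.le
        linarith
      · have e1 : max (X - b) 0 = X - b := max_eq_left h.le
        have e2 : max (X - b0) 0 = X - b0 := max_eq_left (by linarith)
        rw [e1, e2]
        have := mul_le_mul_of_nonneg_left (by linarith : X - b0 ≤ d - b0)
          (by linarith : 0 ≤ F - F0)
        linarith
    have k3 : F * (max (X - b) 0 / (d - b0)) - F0 * (max (X - b0) 0 / (d - b0)) ≤ r := by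
      rw [show F * (max (X - b) 0 / (d - b0)) - F0 * (max (X - b0) 0 / (d - b0)) =
        (F * max (X - b) 0 - F0 * max (X - b0) 0) / (d - b0) by field_simp, div_le_iff₀ p0]
      exact k2
    linarith

theorem sece_kA {s X T : ℝ} (h : 3 * h0 / 2 ≤ T) (h3 : T ^ 2 ≤ 3) (a : 0 ≤ X)
    (b : X ≤ c3 T) (hc : seceb T < c3 T) :
    kA s X T = X / 2 - seceE X (seceb T) (c3 T) (c3 T / 2 - R3 par s T) := by
  unfold seceE
  rcases le_total X (seceb T) with h1 | h1
  · rw [sece_kA_lo h h3 a h1, max_eq_right (by linarith), zero_div, mul_zero, sub_zero]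
  · rw [sece_kA_hi h h3 h1 b hc, max_eq_left (by linarith)]

/-- The reference height. -/
structure SeceT (s T0 : ℝ) : Prop where
  lo : 3 / 2 ≤ T0
  sq : T0 ^ 2 ≤ 3
  x : 10 * h0 * s ≤ c3 T0

theorem sece_ref {s T0 : ℝ} (hs : 0 < s) (h : SeceT s T0) :
    0 < c3 T0 ∧ seceb T0 < c3 T0 ∧ 0 ≤ c3 T0 / 2 - R3 par s T0 ∧
      c3 T0 / 2 - R3 par s T0 ≤ 11 / 10 * (c3 T0 - seceb T0) ∧
      c3 T0 / 2 - R3 par s T0 = (2 * h0 - T0) * (2 - c3 T0 / (2 * h0 + T0) / 2) ∧
      c3 T0 * (85 / 100 - 425 / 1000 * c3 T0) ≤ c3 T0 - seceb T0 := by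
  have hh := h0_pos
  obtain ⟨b1, b2⟩ := h0_bd
  obtain ⟨lo, sq, hx⟩ := h
  have c0 : 0 < c3 T0 := lt_of_lt_of_le (by positivity) hx
  obtain ⟨u0, u1, u2, u3, u4⟩ := sece_u lo sq
  obtain ⟨t1, t2, t3, t4, t5, -⟩ := sece_T (by linarith : 3 * h0 / 2 ≤ T0) sq
  have hc : 4 * s ≤ c3 T0 / (2 * h0) := by
    rw [le_div_iff₀ (by positivity)]
    have := mul_nonneg hh.le hs.le
    linarith
  have eF := sece_F hs lo sq hc
  have eb : c3 T0 - seceb T0 = 85 / 100 * (c3 T0 - Wc T0) := by
    unfold seceb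
    ring
  have k1 : c3 T0 * (85 / 100 - 425 / 1000 * c3 T0) ≤ c3 T0 - seceb T0 := by
    rw [eb]
    linarith
  have k2 : 0 < c3 T0 * (85 / 100 - 425 / 1000 * c3 T0) := mul_pos c0 (by linarith)
  refine ⟨c0, by linarith, ?_, ?_, eF, k1⟩
  · rw [eF]
    exact mul_nonneg (by linarith) (by linarith)
  · rw [eF, eb]
    have m1 : (2 * h0 - T0) * (2 - c3 T0 / (2 * h0 + T0) / 2) ≤ 2 * (2 * h0 - T0) := by
      have := mul_nonneg (by linarith : 0 ≤ 2 * h0 - T0) u0
      linarith
    have m2 : c3 T0 / (2 * h0 + T0) * (2 + 935 / 1000 * T0) ≤ 935 / 1000 := by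
      rw [div_mul_eq_mul_div, div_le_iff₀ (by linarith)]
      have := mul_le_mul_of_nonneg_right (by linarith : c3 T0 ≤ 86603 / 100000)
        (by linarith : 0 ≤ 2 + 935 / 1000 * T0)
      linarith
    have m3 := mul_le_mul_of_nonneg_left m2 c0.le
    have m4 : c3 T0 * (c3 T0 / (2 * h0 + T0) * (2 + 935 / 1000 * T0)) =
        (2 * h0 - T0) * (2 + 935 / 1000 * T0) := by
      rw [← u3]
      ring
    rw [m4] at m3
    linarith

/-- Along the height `T0`. -/
theorem sece_hor {s X T0 : ℝ} (hs : 0 < s) (h : SeceT s T0) (a : 0 ≤ X) (b : X ≤ c3 T0) :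
    |kA s X T0 - kA s (c3 T0) T0| ≤ 3 / 5 * (c3 T0 - X) := by
  have g2 := h0_bd.2
  obtain ⟨c0, c1, f0, f1, -, -⟩ := sece_ref hs h
  have hT : 3 * h0 / 2 ≤ T0 := by linarith [h.lo]
  rw [sece_kA hT h.sq a b c1, sece_kA hT h.sq c0.le le_rfl c1]
  unfold seceE
  rw [max_eq_left (by linarith : (0 : ℝ) ≤ c3 T0 - seceb T0), div_self (by linarith)]
  generalize c3 T0 / 2 - R3 par s T0 = F at *
  generalize seceb T0 = β at *
  generalize c3 T0 = c at *
  have p0 : 0 < c - β := by linarith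
  have k1 : 0 ≤ F * (1 - max (X - β) 0 / (c - β)) := by
    refine mul_nonneg f0 ?_
    have : max (X - β) 0 / (c - β) ≤ 1 := by
      rw [div_le_one p0]
      exact max_le (by linarith) (by linarith)
    linarith
  have k2 : F * (1 - max (X - β) 0 / (c - β)) ≤ 11 / 10 * (c - X) := by
    have e : 1 - max (X - β) 0 / (c - β) = (c - β - max (X - β) 0) / (c - β) := by
      field_simp
    have m : c - β - max (X - β) 0 ≤ c - X := by
      have := le_max_left (X - β) 0
      linarith
    rw [e]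
    calc F * ((c - β - max (X - β) 0) / (c - β))
        ≤ 11 / 10 * (c - β) * ((c - X) / (c - β)) := by
          refine mul_le_mul f1 (div_le_div_of_nonneg_right m p0.le) (div_nonneg ?_ p0.le)
            (by linarith)
          have := max_le (by linarith : X - β ≤ c - β) (by linarith : (0 : ℝ) ≤ c - β)
          linarith
      _ = 11 / 10 * (c - X) := by
          field_simp
  rw [abs_le]
  constructor <;> linarith

/-- Between the heights `T0` and `T`. -/
theorem sece_ver {s X T T0 : ℝ} (hs : 0 < s) (hs1 : s ≤ 11 / 400) (h : SeceT s T0)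
    (hT : T0 - 4 * s ≤ T) (hT' : T ≤ T0) (a : 0 ≤ X) (b : X ≤ c3 T0) :
    |kA s X T - kA s X T0| ≤ 9 / 4 * (T0 - T) := by
  have hh := h0_pos
  have g1 := h0_gt
  obtain ⟨b1, b2⟩ := h0_bd
  have lo := h.lo
  obtain ⟨c0, c1, f0, f1, eF, k1⟩ := sece_ref hs h
  have hTl : 3 * h0 / 2 ≤ T := by linarith
  have hT3 : T ^ 2 ≤ 3 := (pow_le_pow_left₀ (by linarith) hT' 2).trans h.sq
  obtain ⟨p1, p2, p3, p4, p5⟩ := sece_pair hTl hT' h.sq
  obtain ⟨u0, u1, u2, u3, u4⟩ := sece_u lo h.sq
  obtain ⟨t1, t2, t3, t4, t5, -⟩ := sece_T (by linarith : 3 * h0 / 2 ≤ T0) h.sq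
  have eb : seceb T - seceb T0 = 85 / 100 * (Wc T - Wc T0) + 15 / 100 * (c3 T - c3 T0) := by
    unfold seceb
    ring
  have hcb : seceb T < c3 T := by linarith
  rw [sece_kA hTl hT3 a (b.trans p1) hcb, sece_kA (by linarith) h.sq a b c1]
  -- the defects
  have hFm : c3 T0 / 2 - R3 par s T0 ≤ c3 T / 2 - R3 par s T ∧
      (c3 T / 2 - R3 par s T - (c3 T0 / 2 - R3 par s T0)) * (c3 T0 - seceb T0) ≤
        9 / 4 * (T0 - T) * (c3 T0 - seceb T0) +
          (c3 T / 2 - R3 par s T) * (seceb T - seceb T0) := by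
    have hp0 : 0 < c3 T0 - seceb T0 := by linarith
    have hb0 : 0 ≤ seceb T - seceb T0 := by linarith
    rcases le_or_gt (3 / 2) T with h2 | h2
    · have hc : 4 * s ≤ c3 T / (2 * h0) := by
        rw [le_div_iff₀ (by positivity)]
        have := h.x
        have := mul_nonneg hh.le hs.le
        linarith
      have eF' := sece_F hs h2 hT3 hc
      obtain ⟨q1, q2⟩ := sece_Fpair h2 hT' h.sq
      rw [← eF, ← eF'] at q1 q2
      refine ⟨q1, ?_⟩
      have := mul_le_mul_of_nonneg_right q2 hp0.le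
      have := mul_nonneg (by linarith : 0 ≤ c3 T / 2 - R3 par s T) hb0
      have := mul_nonneg (by linarith : 0 ≤ T0 - T) hp0.le
      linarith
    · obtain ⟨r1, r2⟩ := sece_Flow hs hs1 (by linarith) h2
      have h32 : ((3 : ℝ) / 2) ^ 2 ≤ 3 := by norm_num
      obtain ⟨q1, q2⟩ := sece_Fpair le_rfl lo h.sq
      obtain ⟨v0, v1, v2, v3, v4⟩ := sece_u le_rfl h32
      have hq := h0_sq'
      have ec : c3 (3 / 2) = h0 := by
        have e := c3_sq h32
        have e' : (c3 (3 / 2) - h0) * (c3 (3 / 2) + h0) = 0 := by linear_combination e - hq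
        have := c3_nonneg (3 / 2)
        rcases mul_eq_zero.1 e' with h | h
        · linarith
        · linarith
      have eh : (2 * h0 - 3 / 2) * (2 - c3 (3 / 2) / (2 * h0 + 3 / 2) / 2) = h0 / 2 := by
        rw [ec] at v2 v3 ⊢
        generalize h0 / (2 * h0 + 3 / 2) = v at *
        have e2 : v = 2 - 2 * h0 := by
          have : h0 * v = h0 * (2 - 2 * h0) := by linear_combination v3 + 2 * hq
          exact mul_left_cancel₀ hh.ne' this
        rw [e2]
        linear_combination 2 * hq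
      rw [eh, ← eF] at q1 q2
      refine ⟨by linarith, ?_⟩
      obtain ⟨s1, s2, s3, s4, s5⟩ := sece_pair (by linarith : 3 * h0 / 2 ≤ 3 / 2) lo h.sq
      obtain ⟨C, C0, eC, eW, -⟩ := upp_sq (by linarith : h0 ≤ 3 / 2) h32
      have hC : 77 / 100 ≤ C := by
        refine le_of_sq2 C0 ?_
        have := pow_le_pow_left₀ (by linarith : 0 ≤ 3 / 2 - h0)
          (by linarith : 3 / 2 - h0 ≤ 63398 / 100000) 2
        linarith
      have hW : 27 / 100 ≤ Wc (3 / 2) := by linarith
      have hd : c3 T0 - seceb T0 ≤ 507 / 1000 := by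
        have : c3 T0 - seceb T0 = 85 / 100 * (c3 T0 - Wc T0) := by
          unfold seceb
          ring
        linarith
      have hb1 : 49 / 100 * (T0 - T) ≤ seceb T - seceb T0 := by
        have := mul_le_mul_of_nonneg_left (by linarith : 1157 / 1000 ≤ T0 + T - 2 * h0)
          (by linarith : 0 ≤ T0 - T)
        linarith
      have m1 : (c3 T / 2 - R3 par s T - (c3 T0 / 2 - R3 par s T0)) * (c3 T0 - seceb T0) ≤
          2622 / 1000 * (T0 - T) * (c3 T0 - seceb T0) :=
        mul_le_mul_of_nonneg_right (by linarith) hp0.le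
      have m2 : 433 / 1000 * (49 / 100 * (T0 - T)) ≤
          (c3 T / 2 - R3 par s T) * (seceb T - seceb T0) :=
        mul_le_mul (by linarith) hb1 (by linarith) (by linarith)
      have m3 : (T0 - T) * (c3 T0 - seceb T0) ≤ (T0 - T) * (507 / 1000) :=
        mul_le_mul_of_nonneg_left hd (by linarith)
      linarith
  obtain ⟨hF1, hF2⟩ := hFm
  have f4 : (c3 T0 / 2 - R3 par s T0) * (c3 T - c3 T0) ≤
      9 / 4 * (T0 - T) * (c3 T0 - seceb T0) := by
    have n1 : c3 T0 * (c3 T - c3 T0) ≤ (T0 - T) * T0 := by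
      have := sq_nonneg (c3 T - c3 T0)
      have := sq_nonneg (T0 - T)
      linarith
    have n2 : (c3 T0 / 2 - R3 par s T0) ≤ 2 * (c3 T0 / (2 * h0 + T0)) * c3 T0 := by
      rw [eF]
      have := mul_nonneg (by linarith : 0 ≤ 2 * h0 - T0) u0
      linarith
    have n3 := mul_le_mul_of_nonneg_right n2 (by linarith : 0 ≤ c3 T - c3 T0)
    have n4 := mul_le_mul_of_nonneg_left n1 (by linarith : 0 ≤ 2 * (c3 T0 / (2 * h0 + T0)))
    have n5 : 2 * (c3 T0 / (2 * h0 + T0)) * T0 ≤ c3 T0 := by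
      have := mul_nonneg u0 (by linarith : 0 ≤ 2 * h0 - T0)
      linarith
    have n6 := mul_le_mul_of_nonneg_left n5 (by linarith : 0 ≤ T0 - T)
    have n7 : (T0 - T) * (c3 T0 * (85 / 100 - 425 / 1000 * c3 T0)) ≤
        (T0 - T) * (c3 T0 - seceb T0) := mul_le_mul_of_nonneg_left k1 (by linarith)
    have n8 : c3 T0 ≤ 9 / 4 * (c3 T0 * (85 / 100 - 425 / 1000 * c3 T0)) := by
      have := mul_nonneg c0.le (by linarith : 0 ≤ 9125 / 10000 - 95625 / 100000 * c3 T0)
      linarith
    have n9 := mul_le_mul_of_nonneg_left n8 (by linarith : 0 ≤ T0 - T)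
    linarith
  have := sece_E (r := 9 / 4 * (T0 - T)) f0 hF1 c1 (by linarith) (by linarith) b (by linarith)
    f4 hF2
  rw [show X / 2 - seceE X (seceb T) (c3 T) (c3 T / 2 - R3 par s T) -
    (X / 2 - seceE X (seceb T0) (c3 T0) (c3 T0 / 2 - R3 par s T0)) =
    -(seceE X (seceb T) (c3 T) (c3 T / 2 - R3 par s T) -
      seceE X (seceb T0) (c3 T0) (c3 T0 / 2 - R3 par s T0)) by ring, abs_neg]
  exact this

end Pool.Agent.Strip051.LC.E0.Out
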