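import Pool.Agent.Strip051.LC.E0.OutN
import Pool.Agent.Strip051.LC.E0.O3.SecA
import Pool.Agent.Strip051.LC.E0.O3.SecB
import Pool.Agent.Strip051.LC.E0.O3.SecC
import Pool.Agent.Strip051.LC.E0.O3.SecE
import Pool.Agent.Strip051.LC.E0.O3.H_UA
import Pool.Agent.Strip051.LC.E0.O3.H_UB
import Pool.Agent.Strip051.LC.E0.O3.H_LAp
import Pool.Agent.Strip051.LC.E0.O3.H_L3B1
import Pool.Agent.Strip051.LC.E0.O3.H_LAm
import Pool.Agent.Strip051.LC.E0.O3.H_L3B2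
import Pool.Agent.Strip051.LC.E0.O3.H_L3B3
import Pool.Agent.Strip051.LC.E0.O3.H_L3B4

/-! # Small rests: the strips -/

namespace Pool.Agent.Strip051.LC.E0.Out

open Pool.Agent.StripNear Pool.Agent.StripSquare Pool.Agent.Strip051 Pool.Agent.Strip051.Sweep
open Pool.Agent.Strip051.LC.Line (tau)

section

variable {s C x C' x' : ℝ}

/-- The annulus condition from the sides. -/
theorem ann12 {X12 X13 t t' : ℝ} (h : Sides X12 X13 t t') : Ann X12 t := ⟨h.t0, h.a1, h.a3⟩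

theorem ann23 {X12 X13 t t' : ℝ} (h : Sides X12 X13 t t') : Ann (X13 - X12) t' :=
  ⟨h.t1, h.b1, h.b3⟩

theorem ann13 {X12 X13 t t' : ℝ} (h : Sides X12 X13 t t') : Ann X13 (t + t') :=
  ⟨add_nonneg h.t0 h.t1, h.c1, h.c3⟩

theorem Ann.neg {X T : ℝ} (h : Ann X T) : Ann (-X) T :=
  ⟨h.T0, by rw [neg_sq]; exact h.lo, by rw [neg_sq]; exact h.hi⟩

theorem strip_UA (hs : 0 < s) (hs1 : s ≤ 11 / 400) (h : Rot C x) (h' : Rot C' x')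
    (hx : 5 * s ≤ x) (ho : x' ≤ x) (hq : (C - C') ^ 2 + (x - x') ^ 2 ≤ (79 / 10 * s) ^ 2)
    (hS : Sides C (C + (-(C' / 2) - h0 * x')) x (h0 * C' - x' / 2))
    (hE : E1 (x - x') ≤ exn C (C + (-(C' / 2) - h0 * x')) x (h0 * C' - x' / 2)) :
    OK2 s C (C + (-(C' / 2) - h0 * x')) x (h0 * C' - x' / 2) := by
  obtain ⟨n1, n2⟩ := nr_UA hs hs1 h h' hx ho hq
  exact ok2_of hs hs1 hS ⟨_, 0, le_rfl, (hs_UA hs hs1 h h' hx ho hq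
    (sec_p60 hs hs1 h hx (ann13 hS) n1 n2)).trans hE⟩

theorem strip_UB (hs : 0 < s) (hs1 : s ≤ 11 / 400) (h : Rot C x) (h' : Rot C' x')
    (hx : 5 * s ≤ x) (ho : x ≤ x') (hq : (C - C') ^ 2 + (x - x') ^ 2 ≤ (79 / 10 * s) ^ 2)
    (hS : Sides C (C' / 2 - h0 * x') x (h0 * C' + x' / 2 - x))
    (hE : E1 (x' - x) ≤ exn C (C' / 2 - h0 * x') x (h0 * C' + x' / 2 - x)) :
    OK2 s C (C' / 2 - h0 * x') x (h0 * C' + x' / 2 - x) := by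
  obtain ⟨n1, n2, n3⟩ := nr_UB hs hs1 h h' hx ho hq
  exact ok2_of hs hs1 hS ⟨_, 0, le_rfl, (hs_UB hs hs1 h h' hx ho hq
    (sec_m60 hs hs1 h (by linarith) (ann23 hS).neg n1 (by linarith) n3)).trans hE⟩

theorem strip_LAp (hs : 0 < s) (hs1 : s ≤ 11 / 400) (h : Rot C x) (h' : Rot C' x')
    (hx : 4 * s ≤ x) (ho : x ≤ x') (hq : (C - C') ^ 2 + (x - x') ^ 2 ≤ (79 / 10 * s) ^ 2)
    (hS : Sides C (C + (C' / 2 - h0 * x')) x (h0 * C' + x' / 2))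
    (hE : E1 (x' - x) ≤ exn C (C + (C' / 2 - h0 * x')) x (h0 * C' + x' / 2)) :
    OK2 s C (C + (C' / 2 - h0 * x')) x (h0 * C' + x' / 2) := by
  obtain ⟨n1, n2, n3, n4⟩ := nr_LAp hs hs1 h h' hx ho hq
  exact ok2_of hs hs1 hS ⟨_, _, lvl_nonneg hs (by linarith), (hs_LAp hs hs1 h h' hx ho hq
    (sec_p30 hs hs1 h hx (ann13 hS) n1 n2 n3 n4)).trans hE⟩

theorem strip_L3B1 (hs : 0 < s) (hs1 : s ≤ 11 / 400) (h : Rot C x) (h' : Rot C' x')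
    (hx : 0 ≤ x) (hx' : 4 * s ≤ x') (ho : x ≤ x')
    (hq : (C - C') ^ 2 + (x - x') ^ 2 ≤ (22 / 10 * s) ^ 2)
    (hS : Sides C (3 / 2 * C' - h0 * x') x (h0 * C' + 3 / 2 * x' - x))
    (hE : 84 / 100 * (x' - x) ≤ exn C (3 / 2 * C' - h0 * x') x (h0 * C' + 3 / 2 * x' - x)) :
    OK2 s C (3 / 2 * C' - h0 * x') x (h0 * C' + 3 / 2 * x' - x) := by
  obtain ⟨n1, n2⟩ := nr_L3B1 hs hs1 h h' hx hx' ho hq
  exact ok2_of hs hs1 hS ⟨_, _, lvl_nonneg hs (by linarith), (hs_L3B1 hs hs1 h h' hx hx' ho hq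
    (sec_p60' hs hs1 h' hx' (ann23 hS) n1 n2)).trans hE⟩

theorem strip_LAm (hs : 0 < s) (hs1 : s ≤ 11 / 400) (h : Rot C x) (h' : Rot C' x')
    (hx : 5 * s ≤ x) (ho : x' ≤ x) (hq : (C - C') ^ 2 + (x - x') ^ 2 ≤ (79 / 10 * s) ^ 2)
    (hS : Sides (C / 2 + h0 * x) (C / 2 + h0 * x + (-(C' / 2) + h0 * x')) (h0 * C - x / 2)
      (h0 * C' + x' / 2))
    (hE : E1 (x - x') ≤ exn (C / 2 + h0 * x) (C / 2 + h0 * x + (-(C' / 2) + h0 * x'))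
      (h0 * C - x / 2) (h0 * C' + x' / 2)) :
    OK2 s (C / 2 + h0 * x) (C / 2 + h0 * x + (-(C' / 2) + h0 * x')) (h0 * C - x / 2)
      (h0 * C' + x' / 2) := by
  obtain ⟨n1, n2, n3, n4⟩ := nr_LAm hs hs1 h h' hx ho hq
  exact ok2_of hs hs1 hS ⟨_, 0, le_rfl, (hs_LAm hs hs1 h h' hx ho hq
    (sec_m90 hs hs1 h hx (ann13 hS) n1 n2 n3 n4)).trans hE⟩

theorem strip_L3B2 (hs : 0 < s) (hs1 : s ≤ 11 / 400) (h : Rot C x) (h' : Rot C' x')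
    (hx : 5 * s ≤ x) (ho : x' ≤ x) (hq : (C - C') ^ 2 + (x - x') ^ 2 ≤ (22 / 10 * s) ^ 2)
    (hS : Sides (C / 2 + h0 * x) (2 * h0 * x') (h0 * C - x / 2)
      (2 * h0 * C' - (h0 * C - x / 2)))
    (hE : 84 / 100 * (x - x') ≤ exn (C / 2 + h0 * x) (2 * h0 * x') (h0 * C - x / 2)
      (2 * h0 * C' - (h0 * C - x / 2))) :
    OK2 s (C / 2 + h0 * x) (2 * h0 * x') (h0 * C - x / 2) (2 * h0 * C' - (h0 * C - x / 2)) := by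
  obtain ⟨n1, n2⟩ := nr_L3B2 hs hs1 h h' hx ho hq
  exact ok2_of hs hs1 hS ⟨_, 0, le_rfl, (hs_L3B2 hs hs1 h h' hx ho hq
    (sec_p60 hs hs1 h hx (ann23 hS).neg n1 n2)).trans hE⟩

theorem strip_L3B3 (hs : 0 < s) (hs1 : s ≤ 11 / 400) (h : Rot C x) (h' : Rot C' x')
    (hx : 5 * s ≤ x) (ho : x ≤ x') (hq : (C - C') ^ 2 + (x - x') ^ 2 ≤ (22 / 10 * s) ^ 2)
    (hS : Sides (C / 2 - h0 * x) (-(2 * h0 * x')) (h0 * C + x / 2)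
      (2 * h0 * C' - (h0 * C + x / 2)))
    (hE : 84 / 100 * (x' - x) ≤ exn (C / 2 - h0 * x) (-(2 * h0 * x')) (h0 * C + x / 2)
      (2 * h0 * C' - (h0 * C + x / 2))) :
    OK2 s (C / 2 - h0 * x) (-(2 * h0 * x')) (h0 * C + x / 2) (2 * h0 * C' - (h0 * C + x / 2)) := by
  obtain ⟨n1, n2, n3⟩ := nr_L3B3 hs hs1 h h' hx ho hq
  exact ok2_of hs hs1 hS ⟨_, 0, le_rfl, (hs_L3B3 hs hs1 h h' hx ho hq
    (sec_m60 hs hs1 h (by linarith) (ann23 hS).neg n1 n2 n3)).trans hE⟩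

theorem strip_L3B4 (hs : 0 < s) (hs1 : s ≤ 11 / 400) (h : Rot C x) (h' : Rot C' x')
    (hx : 5 * s ≤ x') (ho : x' ≤ x) (hq : (C - C') ^ 2 + (x - x') ^ 2 ≤ (22 / 10 * s) ^ 2)
    (ht : 4 * s ≤ h0 * C' + 3 / 2 * x' - (h0 * C + x / 2))
    (hS : Sides (-(C / 2) + h0 * x) (-(3 / 2 * C') + h0 * x') (h0 * C + x / 2)
      (h0 * C' + 3 / 2 * x' - (h0 * C + x / 2)))
    (hE : 84 / 100 * (x - x') ≤ exn (-(C / 2) + h0 * x) (-(3 / 2 * C') + h0 * x')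
      (h0 * C + x / 2) (h0 * C' + 3 / 2 * x' - (h0 * C + x / 2))) :
    OK2 s (-(C / 2) + h0 * x) (-(3 / 2 * C') + h0 * x') (h0 * C + x / 2)
      (h0 * C' + 3 / 2 * x' - (h0 * C + x / 2)) :=
  ok2_of hs hs1 hS ⟨_, 0, le_rfl, (hs_L3B4 hs hs1 h h' hx ho hq ht hS.b1).trans hE⟩

end

end Pool.Agent.Strip051.LC.E0.Out
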