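import Pool.Agent.Strip051.LC.E0.OutN
import Pool.Agent.Strip051.LC.E0.O3.H_L1B

/-! # Small rests: the strips -/

namespace Pool.Agent.Strip051.LC.E0.Out

open Pool.Agent.StripNear Pool.Agent.StripSquare Pool.Agent.Strip051 Pool.Agent.Strip051.Sweep
open Pool.Agent.Strip051.LC.Line (tau)

section

variable {s C x C' x' : ℝ}

theorem strip_L1B (hs : 0 < s) (hs1 : s ≤ 11 / 400) (h : Rot C x) (h' : Rot C' x')
    (ho : x' ≤ x) (hq : (C - C') ^ 2 + (x - x') ^ 2 ≤ (22 / 10 * s) ^ 2)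
    (ht : 5 * s ≤ h0 * C' - x' / 2 - (h0 * C - 3 / 2 * x))
    (ht' : h0 * C' - x' / 2 - (h0 * C - 3 / 2 * x) ≤ 1 / 2)
    (hS : Sides (3 / 2 * C + h0 * x) (C' / 2 + h0 * x') (h0 * C - 3 / 2 * x)
      (h0 * C' - x' / 2 - (h0 * C - 3 / 2 * x)))
    (hE : 84 / 100 * (x - x') ≤ exn (3 / 2 * C + h0 * x) (C' / 2 + h0 * x')
      (h0 * C - 3 / 2 * x) (h0 * C' - x' / 2 - (h0 * C - 3 / 2 * x))) :
    OK2 s (3 / 2 * C + h0 * x) (C' / 2 + h0 * x') (h0 * C - 3 / 2 * x)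
      (h0 * C' - x' / 2 - (h0 * C - 3 / 2 * x)) :=
  ok2_of hs hs1 hS ⟨_, 0, le_rfl, (hs_L1B hs hs1 h h' ho hq ht ht' hS.b1).trans hE⟩

end

end Pool.Agent.Strip051.LC.E0.Out
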